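import Pool.Agent.Lib.MP_d2f638_ag.Wrap

/-!
# Diagonal pencils with a Lorentzian member
-/

namespace MP_d2f638_ag

open Polynomial Filter

variable {S : Type} [Fintype S] [DecidableEq S]

/-- The number of values smaller than `s`. -/
noncomputable def below (a : S → ℝ) (s : ℝ) : ℕ := ∑ i, if a i < s then 1 else 0

omit [DecidableEq S] in
lemma below_mono (a : S → ℝ) : Monotone (below a) := by
  intro s s' h
  refine Finset.sum_le_sum fun i _ => ?_
  split_ifs with h1 h2
  · exact le_rfl
  · exact absurd (lt_of_lt_of_le h1 h) h2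
  · exact Nat.zero_le _
  · exact le_rfl

omit [DecidableEq S] in
lemma below_le (a : S → ℝ) (s : ℝ) : below a s ≤ Fintype.card S := by
  rw [below, ← Finset.card_univ, Finset.card_eq_sum_ones]
  exact Finset.sum_le_sum fun j _ => by split_ifs <;> omega

omit [DecidableEq S] in
lemma exists_below_zero (a : S → ℝ) (u : ℝ) : ∃ s, s < u ∧ below a s = 0 := by
  obtain ⟨m, hm⟩ := (Set.finite_range a).bddBelow
  refine ⟨min m u - 1, by linarith [min_le_right m u], ?_⟩
  refine Finset.sum_eq_zero fun i _ => ?_
  rw [if_neg]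
  have := hm ⟨i, rfl⟩
  linarith [min_le_left m u]

omit [DecidableEq S] in
lemma exists_below_card (a : S → ℝ) (u : ℝ) : ∃ s, u < s ∧ below a s = Fintype.card S := by
  obtain ⟨m, hm⟩ := (Set.finite_range a).bddAbove
  refine ⟨max m u + 1, by linarith [le_max_right m u], ?_⟩
  rw [below, ← Finset.card_univ, Finset.card_eq_sum_ones]
  refine Finset.sum_congr rfl fun i _ => ?_
  rw [if_pos]
  have := hm ⟨i, rfl⟩
  linarith [le_max_left m u]

/-- Selecting two of the squares. -/
noncomputable def selA {s1 s2 : S} (h12 : s1 ≠ s2) :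
    Option {s // s ≠ s1 ∧ s ≠ s2} ⊕ Bool ≃ Option S := by
  refine Equiv.ofBijective (fun x => match x with
    | Sum.inl none => none
    | Sum.inl (some s) => some s.1
    | Sum.inr false => some s1
    | Sum.inr true => some s2) ⟨?_, ?_⟩
  · rintro ((_ | ⟨x, hx⟩) | _ | _) ((_ | ⟨y, hy⟩) | _ | _) h <;>
      simp_all
    · exact hy.1 h.symm
    · exact hy.2 h.symm
  · rintro (_ | s)
    · exact ⟨Sum.inl none, rfl⟩
    · by_cases h1 : s = s1
      · exact ⟨Sum.inr false, by rw [h1]⟩
      · by_cases h2 : s = s2
        · exact ⟨Sum.inr true, by rw [h2]⟩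
        · exact ⟨Sum.inl (some ⟨s, h1, h2⟩), rfl⟩

theorem classA (a : S → ℝ) {r M : ℕ} (hM : 1 ≤ M)
    (hcard : Fintype.card S = 2 ^ (r + 1) * M + 2)
    (hk : 2 ≤ (Finset.univ.filter fun s => 0 < a s).card)
    (hl : 2 ≤ (Finset.univ.filter fun s => a s < 0).card)
    (hdiv : ¬ 2 ^ (r + 1) ∣ (Finset.univ.filter fun s => a s < 0).card - 1) :
    RRational (2 ^ (r + 1) * M) (lorA S) (lorB a) := by
  obtain ⟨s1, h1, s3, h3, h13⟩ := Finset.one_lt_card.1 (show 1 < _ from hk)
  obtain ⟨s2, h2, s4, h4, h24⟩ := Finset.one_lt_card.1 (show 1 < _ from hl)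
  simp only [Finset.mem_filter, Finset.mem_univ, true_and] at h1 h2 h3 h4
  have h12 : s1 ≠ s2 := by rintro rfl; linarith
  have h32 : s3 ≠ s2 := by rintro rfl; linarith
  have h41 : s4 ≠ s1 := by rintro rfl; linarith
  have hc : a s1 - a s2 > 0 := by linarith
  set l := (Finset.univ.filter fun s => a s < 0).card with hldef
  have hcard2 : l + (Finset.univ.filter fun s => 0 < a s).card ≤ Fintype.card S := by
    rw [hldef, ← Finset.card_union_of_disjoint]
    · exact Finset.card_le_univ _
    · rw [Finset.disjoint_filter]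
      intro s _ h5 h6
      linarith
  have hl0 : ∀ s ≤ 0, below a s ≤ l := by
    intro s hs
    rw [below, ← Finset.card_filter, hldef]
    apply Finset.card_le_card
    intro i hi
    simp only [Finset.mem_filter, Finset.mem_univ, true_and] at hi ⊢
    linarith
  have hl1 : ∀ s, 0 < s → l ≤ below a s := by
    intro s hs
    rw [below, ← Finset.card_filter, hldef]
    apply Finset.card_le_card
    intro i hi
    simp only [Finset.mem_filter, Finset.mem_univ, true_and] at hi ⊢
    linarith
  have hR2 : 2 ≤ 2 ^ (r + 1) := by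
    calc 2 = 2 ^ 1 := rfl
      _ ≤ 2 ^ (r + 1) := Nat.pow_le_pow_right (by norm_num) (by omega)
  set R := 2 ^ (r + 1) with hR
  have hRpos : 0 < R := by omega
  -- the two ceilings agree
  have hceil : (l + (R - 1)) / R = (l - 1 + (R - 1)) / R := by
    have h5 : (l - 1) % R ≠ 0 := fun h6 => hdiv (Nat.dvd_of_mod_eq_zero h6)
    have h6 := Nat.div_add_mod (l - 1) R
    have h7 := Nat.mod_lt (l - 1) hRpos
    set q := (l - 1) / R
    set m := (l - 1) % R
    have e1 : l + (R - 1) = R * (q + 1) + m := by
      rw [mul_add, mul_one]; omega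
    have e2 : l - 1 + (R - 1) = R * (q + 1) + (m - 1) := by
      rw [mul_add, mul_one]; omega
    rw [e1, e2, Nat.mul_add_div hRpos, Nat.mul_add_div hRpos, Nat.div_eq_of_lt h7,
      Nat.div_eq_of_lt (by omega)]
  set ε : ℝ → ℕ := fun s => below a s - (if 0 < s then 1 else 0) with hε
  have hεneg : ∀ s ≤ 0, ε s = below a s := by
    intro s hs
    rw [hε]
    show below a s - (if 0 < s then 1 else 0) = _
    rw [if_neg (not_lt.2 hs)]; rfl
  have hεpos : ∀ s, 0 < s → ε s = below a s - 1 := by
    intro s hs
    rw [hε]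
    show below a s - (if 0 < s then 1 else 0) = _
    rw [if_pos hs]
  have hmono : Monotone fun s => (ε s + (R - 1)) / R := by
    intro s s' hss
    show (ε s + (R - 1)) / R ≤ (ε s' + (R - 1)) / R
    have hb := below_mono a hss
    rcases le_or_gt s' 0 with h5 | h5
    · rw [hεneg s (hss.trans h5), hεneg s' h5]
      exact Nat.div_le_div_right (by omega)
    · rcases le_or_gt s 0 with h6 | h6
      · rw [hεneg s h6, hεpos s' h5]
        have h7 := hl0 s h6
        have h8 := hl1 s' h5
        calc (below a s + (R - 1)) / R ≤ (l + (R - 1)) / R := Nat.div_le_div_right (by omega)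
          _ = (l - 1 + (R - 1)) / R := hceil
          _ ≤ _ := Nat.div_le_div_right (by omega)
      · rw [hεpos s h6, hεpos s' h5]
        exact Nat.div_le_div_right (by omega)
  refine rational_wrap (selA h12)
    (F := Matrix.diagonal fun o => o.elim (-1) (fun _ => 1))
    (G := Matrix.diagonal fun o => o.elim 0 (fun s => a s.1))
    (c := fun b => if b then a s2 else a s1) ?_ ?_ (Matrix.isSymm_diagonal _)
    (Matrix.isSymm_diagonal _) ?_ ?_ ?_ ?_ ?_ hM ?_ (ε := ε) ?_ hmono ?_ ?_ ?_
  · rw [lorA, Matrix.submatrix_diagonal_equiv, extA, ← Matrix.diagonal_one,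
      Matrix.fromBlocks_diagonal]
    congr 1
    funext x
    rcases x with (_ | x) | _ | _ <;> rfl
  · rw [lorB, Matrix.submatrix_diagonal_equiv, extB, Matrix.fromBlocks_diagonal]
    congr 1
    funext x
    rcases x with (_ | x) | _ | _ <;> rfl
  · show a s1 ≠ a s2
    linarith
  · -- both positive
    refine ⟨fun o => o.elim 1 (fun _ => 0), ?_⟩
    simp only [bl_diagonal, Fintype.sum_option, Option.elim]
    simp only [ne_eq, OfNat.ofNat_ne_zero, not_false_eq_true, zero_pow, mul_zero,
      Finset.sum_const_zero, add_zero, one_pow, mul_one, sub_zero, if_true, if_false,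
      Bool.false_eq_true]
    constructor
    · exact mul_pos (inv_pos.2 hc) (by linarith)
    · exact mul_pos_of_neg_of_neg (inv_lt_zero.2 (by linarith)) (by linarith)
  · refine ⟨fun o => o.elim 1 (fun s => if s.1 = s3 then 1 else 0), ?_⟩
    simp only [bl_diagonal, Fintype.sum_option, Option.elim]
    have hs : ∀ w : S → ℝ, ∑ x : {s // s ≠ s1 ∧ s ≠ s2}, w x.1 * (if x.1 = s3 then 1 else 0) ^ 2 =
        w s3 := by
      intro w
      rw [Finset.sum_eq_single ⟨s3, h13.symm, h32⟩]
      · simp
      · intro b _ hb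
        have : b.1 ≠ s3 := fun h5 => hb (Subtype.ext h5)
        simp [this]
      · intro h5; exact absurd (Finset.mem_univ _) h5
    rw [hs a, hs (fun _ => 1)]
    simp only [one_pow, if_true, if_false, Bool.false_eq_true]
    constructor
    · exact mul_neg_of_pos_of_neg (inv_pos.2 hc) (by linarith)
    · exact mul_pos_of_neg_of_neg (inv_lt_zero.2 (by linarith)) (by linarith)
  · refine ⟨fun o => o.elim 1 (fun s => if s.1 = s4 then 1 else 0), ?_⟩
    simp only [bl_diagonal, Fintype.sum_option, Option.elim]
    have hs : ∀ w : S → ℝ, ∑ x : {s // s ≠ s1 ∧ s ≠ s2}, w x.1 * (if x.1 = s4 then 1 else 0) ^ 2 =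
        w s4 := by
      intro w
      rw [Finset.sum_eq_single ⟨s4, h41, h24.symm⟩]
      · simp
      · intro b _ hb
        have : b.1 ≠ s4 := fun h5 => hb (Subtype.ext h5)
        simp [this]
      · intro h5; exact absurd (Finset.mem_univ _) h5
    rw [hs a, hs (fun _ => 1)]
    simp only [one_pow, if_true, if_false, Bool.false_eq_true]
    constructor
    · exact mul_pos (inv_pos.2 hc) (by linarith)
    · exact mul_neg_of_neg_of_pos (inv_lt_zero.2 (by linarith)) (by linarith)
  · -- the determinant
    have hd : pencilX (lorA S) (lorB a) = Matrix.diagonal fun o : Option S =>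
        o.elim X (fun s => C (a s) - X) := by
      rw [pencilX, lorA, lorB, Matrix.diagonal_map (map_zero _), Matrix.diagonal_map (map_zero _),
        ← Matrix.diagonal_smul, Matrix.diagonal_sub]
      congr 1
      funext o
      rcases o with _ | s
      · simp
      · simp
    rw [hd, Matrix.det_diagonal, Finset.prod_ne_zero_iff]
    rintro (_ | s) _
    · exact X_ne_zero
    · have : (C (a s) - X : ℝ[X]) = -(X - C (a s)) := by ring
      show (C (a s) - X : ℝ[X]) ≠ 0
      rw [this, neg_ne_zero]
      exact X_sub_C_ne_zero _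
  · rw [Fintype.card_option, hcard]
  · -- the number of negative squares
    have hne : ∀ᶠ s in (cofinite : Filter ℝ), s ≠ 0 := by
      have : ({0} : Set ℝ)ᶜ ∈ (cofinite : Filter ℝ) := by
        rw [mem_cofinite, compl_compl]
        exact Set.finite_singleton _
      filter_upwards [this] with s hs
      exact hs
    filter_upwards [hne] with s hs
    have hd : lorB a - s • lorA S = Matrix.diagonal fun o : Option S =>
        o.elim s (fun i => a i - s) := by
      rw [lorA, lorB, ← Matrix.diagonal_smul, Matrix.diagonal_sub]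
      congr 1
      funext o
      rcases o with _ | i
      · simp
      · simp
    rw [hd, negIdx_diagonal, Fintype.sum_option]
    have h5 : (∑ i, if (Option.elim (some i) s (fun i => a i - s) : ℝ) < 0 then 1 else 0) =
        below a s := by
      refine Finset.sum_congr rfl fun i _ => ?_
      simp only [Option.elim, sub_neg]
    rw [h5]
    show (if s < 0 then 1 else 0) + below a s = ε s + 1
    rcases lt_or_gt_of_ne hs with h6 | h6
    · rw [if_pos h6, hεneg s h6.le]; ring
    · rw [if_neg (not_lt.2 h6.le), hεpos s h6]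
      have := hl1 s h6
      omega
  · intro s
    show (ε s + (R - 1)) / R ≤ M + 1
    rw [← Nat.lt_succ_iff, Nat.div_lt_iff_lt_mul hRpos]
    have h5 := below_le a s
    have h6 : ε s ≤ R * M + 1 := by
      rcases le_or_gt s 0 with h7 | h7
      · rw [hεneg s h7]
        have := hl0 s h7
        omega
      · rw [hεpos s h7]
        omega
    have h7 : (M + 1).succ * R = R * M + 2 * R := by rw [Nat.succ_eq_add_one]; ring
    rw [h7]
    omega
  · obtain ⟨s, hs, hs0⟩ := exists_below_zero a 0
    refine ⟨s, ?_⟩
    rw [hεneg s hs.le, hs0, zero_add]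
    exact Nat.div_eq_of_lt (by omega)
  · obtain ⟨s, hs, hs0⟩ := exists_below_card a 0
    refine ⟨s, ?_⟩
    rw [hεpos s hs, hs0, hcard]
    have : R * M + 2 - 1 + (R - 1) = R * (M + 1) := by rw [mul_add]; omega
    rw [this, Nat.mul_div_cancel_left _ hRpos]

end MP_d2f638_ag
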