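import Pool.Agent.Lib.MP_d2f638_ag.ClassA

/-!
# Pencils with a Lorentzian member and a pair of complex eigenvalues
-/

namespace MP_d2f638_ag

open Polynomial Filter

variable {S : Type} [Fintype S] [DecidableEq S]

/-- The form `- x₀² + x₁² + ∑ x_s²`. -/
def cpxA (S : Type) [DecidableEq S] : Matrix (Fin 2 ⊕ S) (Fin 2 ⊕ S) ℝ :=
  Matrix.fromBlocks !![-1, 0; 0, 1] 0 0 1

/-- The form `2 μ x₀ x₁ + ∑ a_s x_s²`. -/
def cpxB (μ : ℝ) (a : S → ℝ) : Matrix (Fin 2 ⊕ S) (Fin 2 ⊕ S) ℝ :=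
  Matrix.fromBlocks !![0, μ; μ, 0] 0 0 (Matrix.diagonal a)

/-- Selecting two of the squares. -/
noncomputable def selB {s1 s2 : S} (h12 : s1 ≠ s2) :
    (Fin 2 ⊕ {s // s ≠ s1 ∧ s ≠ s2}) ⊕ Bool ≃ Fin 2 ⊕ S := by
  refine Equiv.ofBijective (fun x => match x with
    | Sum.inl (Sum.inl i) => Sum.inl i
    | Sum.inl (Sum.inr s) => Sum.inr s.1
    | Sum.inr false => Sum.inr s1
    | Sum.inr true => Sum.inr s2) ⟨?_, ?_⟩
  · rintro ((x | ⟨x, hx⟩) | _ | _) ((y | ⟨y, hy⟩) | _ | _) h <;>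
      simp_all
    · exact hy.1 h.symm
    · exact hy.2 h.symm
  · rintro (i | s)
    · exact ⟨Sum.inl (Sum.inl i), rfl⟩
    · by_cases h1 : s = s1
      · exact ⟨Sum.inr false, by rw [h1]⟩
      · by_cases h2 : s = s2
        · exact ⟨Sum.inr true, by rw [h2]⟩
        · exact ⟨Sum.inl (Sum.inr ⟨s, h1, h2⟩), rfl⟩

lemma exists_uv (P Q : ℝ) {μ : ℝ} (hμ : μ ≠ 0) : ∃ u v : ℝ, v ^ 2 - u ^ 2 = P ∧ 2 * μ * u * v = Q := by
  obtain ⟨w, hw⟩ := IsAlgClosed.exists_pow_nat_eq (⟨P, Q / μ⟩ : ℂ) (n := 2) (by norm_num)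
  have h1 := congrArg Complex.re hw
  have h2 := congrArg Complex.im hw
  rw [sq, Complex.mul_re] at h1
  rw [sq, Complex.mul_im] at h2
  simp only at h1 h2
  refine ⟨w.im, w.re, by rw [← h1]; ring, ?_⟩
  have h3 : Q = μ * (Q / μ) := by field_simp
  rw [h3, ← h2]
  ring

omit [DecidableEq S] in
lemma bl_block [DecidableEq S] (N : Matrix (Fin 2) (Fin 2) ℝ) (D : Matrix S S ℝ) (z : Fin 2 → ℝ) :
    bl (Matrix.fromBlocks N 0 0 D) (Sum.elim z 0) (Sum.elim z 0) =
      z 0 * N 0 0 * z 0 + z 0 * N 0 1 * z 1 + z 1 * N 1 0 * z 0 + z 1 * N 1 1 * z 1 := by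
  rw [bl_apply]
  simp only [Fintype.sum_sum_type, Matrix.fromBlocks_apply₁₁, Matrix.fromBlocks_apply₁₂,
    Matrix.fromBlocks_apply₂₁, Matrix.fromBlocks_apply₂₂, Matrix.zero_apply, Sum.elim_inl,
    Sum.elim_inr, Pi.zero_apply, mul_zero, zero_mul, Finset.sum_const_zero, add_zero,
    Fin.sum_univ_two]
  ring

/-- Values of the two solved squares. -/
lemma exists_values {c0 c1 μ : ℝ} (hc : c0 ≠ c1) (hμ : μ ≠ 0) (D : Matrix S S ℝ) (α β : ℝ) :
    ∃ z : Fin 2 ⊕ S → ℝ,
      (c0 - c1)⁻¹ * (c1 * bl (Matrix.fromBlocks !![-1, 0; 0, 1] 0 0 (1 : Matrix S S ℝ)) z z -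
        bl (Matrix.fromBlocks !![0, μ; μ, 0] 0 0 D) z z) = α ∧
      (c1 - c0)⁻¹ * (c0 * bl (Matrix.fromBlocks !![-1, 0; 0, 1] 0 0 (1 : Matrix S S ℝ)) z z -
        bl (Matrix.fromBlocks !![0, μ; μ, 0] 0 0 D) z z) = β := by
  obtain ⟨u, v, h1, h2⟩ := exists_uv (-(α + β)) (-(c0 * α + c1 * β)) hμ
  have hab : c0 - c1 ≠ 0 := sub_ne_zero.2 hc
  have hba : c1 - c0 ≠ 0 := sub_ne_zero.2 hc.symm
  refine ⟨Sum.elim ![u, v] 0, ?_, ?_⟩
  · rw [bl_block, bl_block, inv_mul_eq_iff_eq_mul₀ hab]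
    simp
    linear_combination c1 * h1 - h2
  · rw [bl_block, bl_block, inv_mul_eq_iff_eq_mul₀ hba]
    simp
    linear_combination c0 * h1 - h2

theorem classB {μ : ℝ} (hμ : μ ≠ 0) (a : S → ℝ) {s1 s2 : S} (hs : a s1 ≠ a s2) {r M : ℕ}
    (hM : 1 ≤ M) (hcard : Fintype.card S = 2 ^ (r + 1) * M + 1) :
    RRational (2 ^ (r + 1) * M) (cpxA S) (cpxB μ a) := by
  have h12 : s1 ≠ s2 := fun h => hs (by rw [h])
  have hR2 : 2 ≤ 2 ^ (r + 1) := by
    calc 2 = 2 ^ 1 := rfl
      _ ≤ 2 ^ (r + 1) := Nat.pow_le_pow_right (by norm_num) (by omega)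
  set R := 2 ^ (r + 1) with hR
  have hRpos : 0 < R := by omega
  have hv := fun α β => exists_values (c0 := a s1) (c1 := a s2) hs hμ
    (Matrix.diagonal fun s : {s // s ≠ s1 ∧ s ≠ s2} => a s.1) α β
  refine rational_wrap (selB h12)
    (F := Matrix.fromBlocks !![-1, 0; 0, 1] 0 0 1)
    (G := Matrix.fromBlocks !![0, μ; μ, 0] 0 0 (Matrix.diagonal fun s => a s.1))
    (c := fun b => if b then a s2 else a s1) ?_ ?_ ?_ ?_ ?_ ?_ ?_ ?_ ?_ hM ?_ (ε := below a) ?_
    ?_ ?_ ?_ ?_
  · have h21 := h12.symm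
    ext x y
    rcases x with (x | ⟨x, hx1, hx2⟩) | _ | _ <;> rcases y with (y | ⟨y, hy1, hy2⟩) | _ | _ <;>
      simp [cpxA, extA, selB, Matrix.one_apply, Subtype.ext_iff, h12, h21, *] <;>
      (try exact Ne.symm ‹_›)
  · have h21 := h12.symm
    ext x y
    rcases x with (x | ⟨x, hx1, hx2⟩) | _ | _ <;> rcases y with (y | ⟨y, hy1, hy2⟩) | _ | _ <;>
      simp [cpxB, extB, selB, Matrix.diagonal_apply, Subtype.ext_iff, h12, h21, *] <;>
      first | exact Ne.symm ‹_› | exact fun h => (hy1 h.symm).elim | exact fun h => (hy2 h.symm).elim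
  · refine Matrix.IsSymm.fromBlocks ?_ (by simp) Matrix.isSymm_one
    ext i j
    fin_cases i <;> fin_cases j <;> simp
  · refine Matrix.IsSymm.fromBlocks ?_ (by simp) (Matrix.isSymm_diagonal _)
    ext i j
    fin_cases i <;> fin_cases j <;> simp
  · exact hs
  · obtain ⟨z, e1, e2⟩ := hv 1 1
    refine ⟨z, ?_, ?_⟩
    · simp only [Bool.false_eq_true, if_true, if_false]
      rw [e1]; norm_num
    · simp only [Bool.false_eq_true, if_true, if_false]
      rw [e2]; norm_num
  · obtain ⟨z, e1, e2⟩ := hv (-1) 1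
    refine ⟨z, ?_, ?_⟩
    · simp only [Bool.false_eq_true, if_true, if_false]
      rw [e1]; norm_num
    · simp only [Bool.false_eq_true, if_true, if_false]
      rw [e2]; norm_num
  · obtain ⟨z, e1, e2⟩ := hv 1 (-1)
    refine ⟨z, ?_, ?_⟩
    · simp only [Bool.false_eq_true, if_true, if_false]
      rw [e1]; norm_num
    · simp only [Bool.false_eq_true, if_true, if_false]
      rw [e2]; norm_num
  · -- the determinant
    have hd : pencilX (cpxA S) (cpxB μ a) = Matrix.fromBlocks !![X, C μ; C μ, -X] 0 0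
        (Matrix.diagonal fun s => C (a s) - X) := by
      ext x y
      rcases x with x | x <;> rcases y with y | y
      · fin_cases x <;> fin_cases y <;> simp [pencilX, cpxA, cpxB]
      · simp [pencilX, cpxA, cpxB]
      · simp [pencilX, cpxA, cpxB]
      · by_cases hxy : x = y
        · subst hxy
          simp [pencilX, cpxA, cpxB]
        · simp [pencilX, cpxA, cpxB, hxy]
    rw [hd, Matrix.det_fromBlocks_zero₂₁, Matrix.det_fin_two_of, Matrix.det_diagonal]
    refine mul_ne_zero ?_ ?_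
    · intro h0
      have := congrArg (Polynomial.eval 0) h0
      simp at this
      exact hμ this
    · rw [Finset.prod_ne_zero_iff]
      intro s _
      have : (C (a s) - X : ℝ[X]) = -(X - C (a s)) := by ring
      rw [this, neg_ne_zero]
      exact X_sub_C_ne_zero _
  · rw [Fintype.card_sum, Fintype.card_fin, hcard]; ring
  · -- the number of negative squares
    have hne : ∀ᶠ s in (cofinite : Filter ℝ), s ≠ 0 := by
      have : ({0} : Set ℝ)ᶜ ∈ (cofinite : Filter ℝ) := by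
        rw [mem_cofinite, compl_compl]
        exact Set.finite_singleton _
      filter_upwards [this] with s hs
      exact hs
    filter_upwards [hne] with s hs0
    have hd : cpxB μ a - s • cpxA S = Matrix.fromBlocks !![s, μ; μ, -s] 0 0
        (Matrix.diagonal fun i => a i - s) := by
      ext x y
      rcases x with x | x <;> rcases y with y | y
      · fin_cases x <;> fin_cases y <;> simp [cpxA, cpxB]
      · simp [cpxA, cpxB]
      · simp [cpxA, cpxB]
      · by_cases hxy : x = y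
        · subst hxy
          simp [cpxA, cpxB]
        · simp [cpxA, cpxB, hxy]
    let P : Matrix (Fin 2 ⊕ S) (Fin 2 ⊕ S) ℝ := Matrix.fromBlocks !![1, -(μ / s); 0, 1] 0 0 1
    let Q : Matrix (Fin 2 ⊕ S) (Fin 2 ⊕ S) ℝ := Matrix.fromBlocks !![1, μ / s; 0, 1] 0 0 1
    have hPQ : P * Q = 1 := by
      simp only [P, Q, Matrix.fromBlocks_multiply, Matrix.mul_zero, Matrix.zero_mul, add_zero,
        zero_add, mul_one]
      rw [← Matrix.fromBlocks_one]
      congr 1
      ext i j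
      fin_cases i <;> fin_cases j <;> simp [Matrix.mul_apply, Fin.sum_univ_two]
    have hQP : Q * P = 1 := by
      simp only [P, Q, Matrix.fromBlocks_multiply, Matrix.mul_zero, Matrix.zero_mul, add_zero,
        zero_add, mul_one]
      rw [← Matrix.fromBlocks_one]
      congr 1
      ext i j
      fin_cases i <;> fin_cases j <;> simp [Matrix.mul_apply, Fin.sum_univ_two]
    have hdiag : P.transpose * (cpxB μ a - s • cpxA S) * P = Matrix.diagonal
        (Sum.elim ![s, -s - μ ^ 2 / s] (fun i => a i - s)) := by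
      rw [hd]
      simp only [P, Matrix.fromBlocks_transpose, Matrix.fromBlocks_multiply, Matrix.mul_zero,
        Matrix.zero_mul, add_zero, zero_add, mul_one, Matrix.transpose_zero, Matrix.transpose_one,
        one_mul]
      rw [← Matrix.fromBlocks_diagonal]
      congr 1
      ext i j
      fin_cases i <;> fin_cases j <;>
        simp [Matrix.mul_apply, Fin.sum_univ_two] <;> field_simp <;> ring
    rw [← negIdx_congr _ hPQ hQP, hdiag, negIdx_diagonal, Fintype.sum_sum_type, Fin.sum_univ_two]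
    have h5 : (∑ i, if (Sum.elim ![s, -s - μ ^ 2 / s] (fun i => a i - s) (Sum.inr i) : ℝ) < 0
        then 1 else 0) = below a s := by
      refine Finset.sum_congr rfl fun i _ => ?_
      simp only [Sum.elim_inr, sub_neg]
    rw [h5]
    show (if s < 0 then 1 else 0) + (if -s - μ ^ 2 / s < 0 then 1 else 0) + below a s =
      below a s + 1
    have hμ2 : 0 < μ ^ 2 := by positivity
    rcases lt_or_gt_of_ne hs0 with h6 | h6
    · have h7 : μ ^ 2 / s < 0 := div_neg_of_pos_of_neg hμ2 h6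
      rw [if_pos h6, if_neg (by linarith)]; ring
    · have h7 : 0 < μ ^ 2 / s := div_pos hμ2 h6
      rw [if_neg (not_lt.2 h6.le), if_pos (by linarith)]; ring
  · intro s s' hss
    exact Nat.div_le_div_right (by have := below_mono a hss; omega)
  · intro s
    show (below a s + (R - 1)) / R ≤ M + 1
    rw [← Nat.lt_succ_iff, Nat.div_lt_iff_lt_mul hRpos]
    have h5 := below_le a s
    have h7 : (M + 1).succ * R = R * M + 2 * R := by rw [Nat.succ_eq_add_one]; ring
    rw [h7]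
    omega
  · obtain ⟨s, hs, hs0⟩ := exists_below_zero a 0
    refine ⟨s, ?_⟩
    rw [hs0, zero_add]
    exact Nat.div_eq_of_lt (by omega)
  · obtain ⟨s, hs, hs0⟩ := exists_below_card a 0
    refine ⟨s, ?_⟩
    rw [hs0, hcard]
    have : R * M + 1 + (R - 1) = R * (M + 1) := by rw [mul_add]; omega
    rw [this, Nat.mul_div_cancel_left _ hRpos]

end MP_d2f638_ag
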