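import Pool.Agent.Lib.MP_d2f638_ag.MatrixNF

/-!
# Simultaneous diagonalisation over the complex numbers
-/

namespace MP_d2f638_ag

open Module LinearMap Matrix

theorem exists_NFc (d : ℕ) : ∀ {V : Type} [AddCommGroup V] [Module ℂ V] [FiniteDimensional ℂ V]
    (A : LinearMap.BilinForm ℂ V) (T : V →ₗ[ℂ] V), finrank ℂ V = d → (∀ x y, A x y = A y x) →
    (∀ x y, A (T x) y = A x (T y)) →
    (∀ (v : V) (lam : ℂ), T v = lam • v → A v v = 0 → v = 0) →
    ∃ (e : Fin d → V) (lam : Fin d → ℂ), (∀ i, A (e i) (e i) = 1) ∧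
      (∀ i j, i ≠ j → A (e i) (e j) = 0) ∧ ∀ i, T (e i) = lam i • e i := by
  induction d with
  | zero =>
    intro V _ _ _ A T hd hs hT hsm
    exact ⟨Fin.elim0, Fin.elim0, fun i => i.elim0, fun i => i.elim0, fun i => i.elim0⟩
  | succ d ih =>
    intro V _ _ _ A T hd hs hT hsm
    have hnt : Nontrivial V := Module.nontrivial_of_finrank_pos (R := ℂ) (by omega)
    obtain ⟨lam, hlam⟩ := Module.End.exists_eigenvalue (T : Module.End ℂ V)
    obtain ⟨v, hv⟩ := hlam.exists_hasEigenvector
    have hTv : T v = lam • v := hv.apply_eq_smul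
    have hv0 : v ≠ 0 := hv.2
    have hvv : A v v ≠ 0 := fun h0 => hv0 (hsm v lam hTv h0)
    obtain ⟨v', hv'v', hTv'⟩ : ∃ v', A v' v' = 1 ∧ T v' = lam • v' := by
      obtain ⟨c, hc⟩ := IsAlgClosed.exists_pow_nat_eq (A v v)⁻¹ (n := 2) (by norm_num)
      refine ⟨c • v, ?_, by rw [map_smul, hTv, smul_comm]⟩
      rw [map_smul, map_smul, LinearMap.smul_apply, smul_eq_mul, smul_eq_mul, ← mul_assoc, ← sq,
        hc, inv_mul_cancel₀ hvv]
    let W : Submodule ℂ V := LinearMap.ker (A v')
    have hWT : ∀ x ∈ W, T x ∈ W := by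
      intro x hx
      have hx' : A v' x = 0 := hx
      show A v' (T x) = 0
      rw [← hT, hTv', map_smul, LinearMap.smul_apply, hx', smul_zero]
    have hfin : finrank ℂ W = d := by
      have h1 := LinearMap.finrank_range_add_finrank_ker (A v')
      have h2 : LinearMap.range (A v') = ⊤ := by
        rw [LinearMap.range_eq_top]
        intro r
        exact ⟨r • v', by rw [map_smul, smul_eq_mul, hv'v', mul_one]⟩
      rw [h2, finrank_top, Module.finrank_self, hd] at h1
      change 1 + finrank ℂ W = d + 1 at h1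
      omega
    obtain ⟨e, la, h1, h2, h3⟩ := ih (A.restrict W) (T.restrict hWT) hfin (fun x y => hs x y)
      (fun x y => hT x y) (fun v lam h4 h5 => by
        have := hsm v lam (by simpa using congrArg Subtype.val h4) h5
        exact Subtype.ext this)
    have hWm : ∀ x : W, A v' x = 0 := fun x => x.2
    have hWm' : ∀ x : W, A x v' = 0 := fun x => by rw [hs]; exact x.2
    refine ⟨Fin.cons v' (fun i => (e i : V)), Fin.cons lam la, ?_, ?_, ?_⟩
    · intro i
      refine Fin.cases ?_ (fun i => ?_) i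
      · exact hv'v'
      · exact h1 i
    · intro i j
      refine Fin.cases ?_ (fun i => ?_) i
      · refine Fin.cases ?_ (fun j => ?_) j
        · exact fun h => absurd rfl h
        · exact fun _ => hWm _
      · refine Fin.cases ?_ (fun j => ?_) j
        · exact fun _ => hWm' _
        · exact fun h => h2 i j (fun h4 => h (by rw [h4]))
    · intro i
      refine Fin.cases ?_ (fun i => ?_) i
      · exact hTv'
      · have := congrArg Subtype.val (h3 i)
        simpa using this

variable {ι : Type} [Fintype ι] [DecidableEq ι]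

/-- Simultaneous diagonalisation of a smooth pencil. -/
theorem complex_normal_form {A B : Matrix ι ι ℝ} (hA : A.IsSymm) (hB : B.IsSymm)
    (hdet : A.det ≠ 0) (h : SmoothCI A B) :
    ∃ (P : Matrix ι (Fin (Fintype.card ι)) ℂ) (Q : Matrix (Fin (Fintype.card ι)) ι ℂ)
      (lam : Fin (Fintype.card ι) → ℂ), P * Q = 1 ∧ Q * P = 1 ∧ Function.Injective lam ∧
      P.transpose * cx A * P = 1 ∧ P.transpose * cx B * P = Matrix.diagonal lam := by
  have hdetc : (cx A).det ≠ 0 := by
    have h1 : (cx A).det = algebraMap ℝ ℂ A.det := by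
      rw [cx, RingHom.map_det]; rfl
    rw [h1, Ne, map_eq_zero_iff _ (algebraMap ℝ ℂ).injective]
    exact hdet
  have hunit : IsUnit (cx A).det := isUnit_iff_ne_zero.2 hdetc
  have hAs : (cx A).IsSymm := by
    ext i j
    simp only [cx, Matrix.transpose_apply, Matrix.map_apply, hA.apply]
  have hBs : (cx B).IsSymm := by
    ext i j
    simp only [cx, Matrix.transpose_apply, Matrix.map_apply, hB.apply]
  let T : (ι → ℂ) →ₗ[ℂ] (ι → ℂ) := Matrix.toLin' ((cx A)⁻¹ * cx B)
  have hbd : ∀ (M : Matrix ι ι ℂ) (x y : ι → ℂ), bl M x y = x ⬝ᵥ (M *ᵥ y) :=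
    fun M x y => Matrix.toBilin'_apply' M x y
  have hAT : ∀ x, cx A *ᵥ (T x) = cx B *ᵥ x := fun x => by
    show cx A *ᵥ (Matrix.toLin' ((cx A)⁻¹ * cx B) x) = _
    rw [Matrix.toLin'_apply, Matrix.mulVec_mulVec, ← Matrix.mul_assoc,
      Matrix.mul_nonsing_inv _ hunit, Matrix.one_mul]
  have hblA : ∀ x y, bl (cx A) x y = bl (cx A) y x := fun x y => bl_symm hAs x y
  have hBT : ∀ x y, bl (cx A) (T x) y = bl (cx B) x y := fun x y => by
    rw [hblA, hbd, hAT, ← hbd, bl_symm hBs]
  have hBT' : ∀ x y, bl (cx A) x (T y) = bl (cx B) x y := fun x y => by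
    rw [hbd, hAT, ← hbd]
  have hsm : ∀ (v : ι → ℂ) (lam : ℂ), T v = lam • v → bl (cx A) v v = 0 → v = 0 := by
    intro v lam h1 h2
    by_contra hv
    have e2 : cx B *ᵥ v = lam • (cx A *ᵥ v) := by
      rw [← hAT, h1, Matrix.mulVec_smul]
    rw [hbd] at h2
    have e3 : v ⬝ᵥ (cx B *ᵥ v) = 0 := by
      rw [e2, dotProduct_smul, h2, smul_zero]
    have hli := h _ hv h2 e3
    rw [LinearIndependent.pair_iff] at hli
    have := hli lam (-1) (by rw [e2]; module)
    exact one_ne_zero (neg_eq_zero.1 this.2)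
  obtain ⟨e, lam, h1, h2, h3⟩ := exists_NFc (Fintype.card ι) (bl (cx A)) T
    (Module.finrank_fintype_fun_eq_card ℂ) hblA (fun x y => by rw [hBT, hBT']) hsm
  let P : Matrix ι (Fin (Fintype.card ι)) ℂ := fun i x => e x i
  have hconj : ∀ (M : Matrix ι ι ℂ) (x y : Fin (Fintype.card ι)),
      (P.transpose * M * P) x y = bl M (e x) (e y) := by
    intro M x y
    rw [bl_apply, Matrix.mul_apply]
    simp only [Matrix.mul_apply, Finset.sum_mul, Matrix.transpose_apply]
    rw [Finset.sum_comm]
  have hPA : P.transpose * cx A * P = 1 := by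
    ext x y
    rw [hconj]
    by_cases hxy : x = y
    · subst hxy; rw [Matrix.one_apply_eq, h1]
    · rw [Matrix.one_apply_ne hxy, h2 x y hxy]
  have hPB : P.transpose * cx B * P = Matrix.diagonal lam := by
    ext x y
    rw [hconj, ← hBT, h3, map_smul, LinearMap.smul_apply, smul_eq_mul]
    by_cases hxy : x = y
    · subst hxy; rw [Matrix.diagonal_apply_eq, h1, mul_one]
    · rw [Matrix.diagonal_apply_ne _ hxy, h2 x y hxy, mul_zero]
  have hPQ : P * (P.transpose * cx A) = 1 :=
    (Matrix.mul_eq_one_comm_of_equiv (Fintype.equivFin ι).symm).1 hPA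
  refine ⟨P, P.transpose * cx A, lam, hPQ, hPA, ?_, hPA, hPB⟩
  intro i j hij
  by_contra hne
  have h4 : bl (cx A) (e i + Complex.I • e j) (e i + Complex.I • e j) = 0 := by
    simp only [map_add, map_smul, LinearMap.add_apply, LinearMap.smul_apply, smul_eq_mul, h1,
      h2 i j hne, h2 j i (Ne.symm hne)]
    linear_combination Complex.I_mul_I
  have h5 : T (e i + Complex.I • e j) = lam i • (e i + Complex.I • e j) := by
    rw [map_add, map_smul, h3, h3, ← hij]; module
  have h6 := hsm _ _ h5 h4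
  have h7 : bl (cx A) (e i + Complex.I • e j) (e i) = 1 := by
    simp only [map_add, map_smul, LinearMap.add_apply, LinearMap.smul_apply, smul_eq_mul, h1,
      h2 j i (Ne.symm hne)]
    simp
  rw [h6] at h7
  simp at h7

end MP_d2f638_ag
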