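import Mathlib

/-!
# Two square roots of polynomials

The ideal `(Y₁² - L₁, Y₂² - L₂)` is the kernel of evaluation at square roots of `L₁`, `L₂`, if
`L₁`, `L₂`, `L₁ L₂` are not squares.
-/

namespace MP_d2f638_ag

open MvPolynomial

variable {k : Type} [Field k] {τ : Type}

/-- `L` is not a square in the field of rational functions. -/
def NS (L : MvPolynomial τ k) : Prop := ∀ P Q : MvPolynomial τ k, P ^ 2 = L * Q ^ 2 → Q = 0

lemma NS.ne_zero {L : MvPolynomial τ k} (h : NS L) : L ≠ 0 := by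
  rintro rfl
  exact one_ne_zero (h 0 1 (by simp))

/-- The ideal of the two square roots. -/
noncomputable def sqIdeal (L1 L2 : MvPolynomial τ k) : Ideal (MvPolynomial (τ ⊕ Bool) k) :=
  Ideal.span {X (Sum.inr false) ^ 2 - rename Sum.inl L1, X (Sum.inr true) ^ 2 - rename Sum.inl L2}

lemma sq_mem1 (L1 L2 : MvPolynomial τ k) :
    X (Sum.inr false) ^ 2 - rename Sum.inl L1 ∈ sqIdeal L1 L2 :=
  Ideal.subset_span (Or.inl rfl)

lemma sq_mem2 (L1 L2 : MvPolynomial τ k) :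
    X (Sum.inr true) ^ 2 - rename Sum.inl L2 ∈ sqIdeal L1 L2 :=
  Ideal.subset_span (Or.inr rfl)

/-- Normal form modulo the ideal. -/
lemma normal_form (L1 L2 : MvPolynomial τ k) (p : MvPolynomial (τ ⊕ Bool) k) :
    ∃ b0 b1 b2 b3 : MvPolynomial τ k,
      p - (rename Sum.inl b0 + rename Sum.inl b1 * X (Sum.inr false) +
        rename Sum.inl b2 * X (Sum.inr true) +
        rename Sum.inl b3 * X (Sum.inr false) * X (Sum.inr true)) ∈ sqIdeal L1 L2 := by
  induction p using MvPolynomial.induction_on with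
  | C a =>
    refine ⟨C a, 0, 0, 0, ?_⟩
    simp
  | add p q hp hq =>
    obtain ⟨a0, a1, a2, a3, ha⟩ := hp
    obtain ⟨b0, b1, b2, b3, hb⟩ := hq
    refine ⟨a0 + b0, a1 + b1, a2 + b2, a3 + b3, ?_⟩
    have := Ideal.add_mem _ ha hb
    convert this using 1
    simp only [map_add]
    ring
  | mul_X p i hp =>
    obtain ⟨a0, a1, a2, a3, ha⟩ := hp
    rcases i with i | i | i
    · refine ⟨a0 * X i, a1 * X i, a2 * X i, a3 * X i, ?_⟩
      have := Ideal.mul_mem_right (X (Sum.inl i)) _ ha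
      convert this using 1
      simp only [map_mul, rename_X]
      ring
    · refine ⟨a1 * L1, a0, a3 * L1, a2, ?_⟩
      have h1 := Ideal.mul_mem_right (X (Sum.inr false)) _ ha
      have h2 := Ideal.mul_mem_left _ (rename Sum.inl a1 + rename Sum.inl a3 * X (Sum.inr true))
        (sq_mem1 L1 L2)
      have := Ideal.add_mem _ h1 h2
      convert this using 1
      simp only [map_mul]
      ring
    · refine ⟨a2 * L2, a3 * L2, a0, a1, ?_⟩
      have h1 := Ideal.mul_mem_right (X (Sum.inr true)) _ ha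
      have h2 := Ideal.mul_mem_left _ (rename Sum.inl a2 + rename Sum.inl a3 * X (Sum.inr false))
        (sq_mem2 L1 L2)
      have := Ideal.add_mem _ h1 h2
      convert this using 1
      simp only [map_mul]
      ring

/-- Linear independence of `1, ξ₁, ξ₂, ξ₁ ξ₂`. -/
lemma indep_sqrt (h2k : (2 : k) ≠ 0) {L1 L2 : MvPolynomial τ k} (hL1 : NS L1) (hL2 : NS L2)
    (hL : NS (L1 * L2)) {Ω : Type} [Field Ω] [Algebra k Ω] (φ : MvPolynomial τ k →ₐ[k] Ω)
    (hφ : Function.Injective φ) {ξ1 ξ2 : Ω} (h1 : ξ1 ^ 2 = φ L1) (h2 : ξ2 ^ 2 = φ L2)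
    {b0 b1 b2 b3 : MvPolynomial τ k}
    (h : φ b0 + φ b1 * ξ1 + φ b2 * ξ2 + φ b3 * ξ1 * ξ2 = 0) :
    b0 = 0 ∧ b1 = 0 ∧ b2 = 0 ∧ b3 = 0 := by
  have h2p : (2 : MvPolynomial τ k) ≠ 0 := by
    have : (2 : MvPolynomial τ k) = C 2 := rfl
    rw [this, Ne, C_eq_zero]
    exact h2k
  set A0 := b0 ^ 2 + b1 ^ 2 * L1 - L2 * b2 ^ 2 - L1 * L2 * b3 ^ 2 with hA0
  set A1 := 2 * (b0 * b1 - L2 * b2 * b3) with hA1
  have e1 : φ A0 + φ A1 * ξ1 = 0 := by
    have e2 : (φ b0 + φ b1 * ξ1) ^ 2 = ((φ b2 + φ b3 * ξ1) * ξ2) ^ 2 := by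
      have : φ b0 + φ b1 * ξ1 = -((φ b2 + φ b3 * ξ1) * ξ2) := by linear_combination h
      rw [this]; ring
    rw [hA0, hA1]
    simp only [map_add, map_sub, map_mul, map_pow, map_ofNat]
    rw [mul_pow, h2] at e2
    linear_combination e2 - (φ b1 ^ 2 - φ L2 * φ b3 ^ 2) * h1
  have e3 : A0 ^ 2 = L1 * A1 ^ 2 := by
    apply hφ
    rw [map_mul, map_pow, map_pow, ← h1]
    have : φ A0 = -(φ A1 * ξ1) := by linear_combination e1
    rw [this]; ring
  have hA1z : A1 = 0 := hL1 _ _ e3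
  have hA0z : A0 = 0 := by
    rw [hA1z] at e3
    have : A0 ^ 2 = 0 := by rw [e3]; ring
    exact pow_eq_zero_iff (two_ne_zero) |>.1 this
  have r1 : b0 * b1 = L2 * b2 * b3 := by
    rw [hA1] at hA1z
    have := (mul_eq_zero.1 hA1z).resolve_left h2p
    linear_combination this
  have r2 : b0 ^ 2 + b1 ^ 2 * L1 = L2 * b2 ^ 2 + L1 * L2 * b3 ^ 2 := by
    rw [hA0] at hA0z
    linear_combination hA0z
  have r3 : (L2 * b3 ^ 2 - b1 ^ 2) * (L2 * b2 ^ 2 - L1 * b1 ^ 2) = 0 := by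
    linear_combination b1 ^ 2 * r2 - (b0 * b1 + L2 * b2 * b3) * r1
  have hL20 := hL2.ne_zero
  rcases mul_eq_zero.1 r3 with r4 | r4
  · have hb3 : b3 = 0 := hL2 b1 b3 (by linear_combination -r4)
    have hb1 : b1 = 0 := by
      rw [hb3] at r4
      have : b1 ^ 2 = 0 := by linear_combination -r4
      exact pow_eq_zero_iff (two_ne_zero) |>.1 this
    rw [hb1, hb3] at r2
    have hb2 : b2 = 0 := hL2 b0 b2 (by linear_combination r2)
    rw [hb2] at r2
    have hb0 : b0 = 0 := by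
      have : b0 ^ 2 = 0 := by linear_combination r2
      exact pow_eq_zero_iff (two_ne_zero) |>.1 this
    exact ⟨hb0, hb1, hb2, hb3⟩
  · have hb1 : b1 = 0 := hL (L2 * b2) b1 (by linear_combination L2 * r4)
    have hb2 : b2 = 0 := by
      rw [hb1] at r4
      have : L2 * b2 ^ 2 = 0 := by linear_combination r4
      exact pow_eq_zero_iff (two_ne_zero) |>.1 ((mul_eq_zero.1 this).resolve_left hL20)
    rw [hb1, hb2] at r2
    have hb3 : b3 = 0 := hL b0 b3 (by linear_combination r2)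
    rw [hb3] at r2
    have hb0 : b0 = 0 := by
      have : b0 ^ 2 = 0 := by linear_combination r2
      exact pow_eq_zero_iff (two_ne_zero) |>.1 this
    exact ⟨hb0, hb1, hb2, hb3⟩

/-- The kernel of evaluation at the square roots. -/
theorem mem_sqIdeal_iff (h2k : (2 : k) ≠ 0) {L1 L2 : MvPolynomial τ k} (hL1 : NS L1)
    (hL2 : NS L2) (hL : NS (L1 * L2)) {Ω : Type} [Field Ω] [Algebra k Ω] (x : τ → Ω)
    (hx : AlgebraicIndependent k x) {ξ1 ξ2 : Ω} (h1 : ξ1 ^ 2 = aeval x L1)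
    (h2 : ξ2 ^ 2 = aeval x L2) (p : MvPolynomial (τ ⊕ Bool) k) :
    aeval (Sum.elim x (fun b => if b then ξ2 else ξ1)) p = 0 ↔ p ∈ sqIdeal L1 L2 := by
  set y : τ ⊕ Bool → Ω := Sum.elim x (fun b => if b then ξ2 else ξ1) with hy
  have hren : ∀ q : MvPolynomial τ k, aeval y (rename Sum.inl q) = aeval x q := by
    intro q
    rw [aeval_rename]
    rfl
  have hle : ∀ q ∈ sqIdeal L1 L2, aeval y q = 0 := by
    have : sqIdeal L1 L2 ≤ RingHom.ker (aeval y : MvPolynomial (τ ⊕ Bool) k →ₐ[k] Ω) := by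
      rw [sqIdeal, Ideal.span_le]
      rintro q (rfl | rfl)
      · show aeval y _ = 0
        rw [map_sub, map_pow, aeval_X, hren, ← h1]
        simp [hy]
      · show aeval y _ = 0
        rw [map_sub, map_pow, aeval_X, hren, ← h2]
        simp [hy]
    intro q hq
    exact this hq
  constructor
  · intro hp
    obtain ⟨b0, b1, b2, b3, hb⟩ := normal_form L1 L2 p
    have h3 := hle _ hb
    rw [map_sub, hp, zero_sub, neg_eq_zero] at h3
    simp only [map_add, map_mul, hren, aeval_X] at h3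
    have h4 := indep_sqrt h2k hL1 hL2 hL (aeval x) hx (ξ1 := ξ1) (ξ2 := ξ2) h1 h2
      (b0 := b0) (b1 := b1) (b2 := b2) (b3 := b3) (by simpa [hy] using h3)
    obtain ⟨rfl, rfl, rfl, rfl⟩ := h4
    simpa using hb
  · exact hle p

end MP_d2f638_ag
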