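import Pool.Agent.Lib.MP_d2f638_ag.Pfister
import Pool.Agent.Lib.MP_d2f638_ag.SqDomain

/-!
# A formally real field of germs
-/

namespace MP_d2f638_ag

open MvPolynomial Filter Topology

/-- The filter of neighbourhoods of `z0`, minus zero sets of polynomials. -/
def genFilter {τ : Type} [Fintype τ] (z0 : τ → ℝ) : Filter (τ → ℝ) where
  sets := {A | ∃ P : MvPolynomial τ ℝ, P ≠ 0 ∧ ∃ W ∈ 𝓝 z0, ∀ z ∈ W, eval z P ≠ 0 → z ∈ A}
  univ_sets := ⟨1, one_ne_zero, Set.univ, univ_mem, fun _ _ _ => trivial⟩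
  sets_of_superset := by
    rintro A B ⟨P, hP, W, hW, h⟩ hAB
    exact ⟨P, hP, W, hW, fun z hz hz2 => hAB (h z hz hz2)⟩
  inter_sets := by
    rintro A B ⟨P, hP, W, hW, h⟩ ⟨P', hP', W', hW', h'⟩
    refine ⟨P * P', mul_ne_zero hP hP', W ∩ W', inter_mem hW hW', fun z hz hz2 => ?_⟩
    rw [map_mul] at hz2
    exact ⟨h z hz.1 (left_ne_zero_of_mul hz2), h' z hz.2 (right_ne_zero_of_mul hz2)⟩

lemma exists_ne_zero_near {τ : Type} [Fintype τ] (z0 : τ → ℝ) {P : MvPolynomial τ ℝ} (hP : P ≠ 0)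
    {W : Set (τ → ℝ)} (hW : W ∈ 𝓝 z0) : ∃ z ∈ W, eval z P ≠ 0 := by
  obtain ⟨ε, hε, hball⟩ := Metric.mem_nhds_iff.1 hW
  by_contra hcon
  push Not at hcon
  apply hP
  refine MvPolynomial.funext_set (fun i => Set.Ioo (z0 i - ε) (z0 i + ε))
    (fun i => Set.Ioo_infinite (by linarith)) ?_
  intro z hz
  rw [map_zero]
  refine hcon z (hball ?_)
  rw [Metric.mem_ball, dist_pi_lt_iff hε]
  intro i
  have := hz i (Set.mem_univ i)
  rw [Real.dist_eq, abs_lt]
  constructor <;> linarith [this.1, this.2]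

instance genFilter_neBot {τ : Type} [Fintype τ] (z0 : τ → ℝ) : (genFilter z0).NeBot := by
  rw [neBot_iff]
  intro h
  have : (∅ : Set (τ → ℝ)) ∈ genFilter z0 := by rw [h]; trivial
  obtain ⟨P, hP, W, hW, h2⟩ := this
  obtain ⟨z, hz, hz2⟩ := exists_ne_zero_near z0 hP hW
  exact h2 z hz hz2

/-- A linearly ordered field is formally real. -/
lemma FReal.of_ordered (K : Type*) [Field K] [LinearOrder K] [IsStrictOrderedRing K] :
    FReal K := by
  intro ι _ v hv
  have := (Finset.sum_eq_zero_iff_of_nonneg (fun i _ => sq_nonneg (v i))).1 hv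
  funext i
  exact pow_eq_zero_iff (two_ne_zero) |>.1 (this i (Finset.mem_univ i))

/-- Real square roots near a real point. -/
theorem exists_real_field {τ : Type} [Fintype τ] (L1 L2 : MvPolynomial τ ℝ) (z0 : τ → ℝ)
    (h1 : 0 < eval z0 L1) (h2 : 0 < eval z0 L2) :
    ∃ (Ω : Type) (_ : Field Ω) (_ : Algebra ℝ Ω) (x : τ → Ω) (ξ1 ξ2 : Ω), FReal Ω ∧
      AlgebraicIndependent ℝ x ∧ ξ1 ^ 2 = aeval x L1 ∧ ξ2 ^ 2 = aeval x L2 := by
  let U : Ultrafilter (τ → ℝ) := Ultrafilter.of (genFilter z0)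
  have hU : (U : Filter (τ → ℝ)) ≤ genFilter z0 := Ultrafilter.of_le _
  let Ω := Filter.Germ (U : Filter (τ → ℝ)) ℝ
  letI : Field Ω := inferInstanceAs (Field (Filter.Germ (U : Filter (τ → ℝ)) ℝ))
  let κ : ((τ → ℝ) → ℝ) →+* Ω := Filter.Germ.coeRingHom (U : Filter (τ → ℝ))
  letI : Algebra ℝ Ω := (κ.comp (Pi.constRingHom (τ → ℝ) ℝ)).toAlgebra
  have hmap : ∀ r : ℝ, algebraMap ℝ Ω r = κ (fun _ => r) := fun r => rfl
  let x : τ → Ω := fun i => κ (fun z => z i)
  have hae : ∀ p : MvPolynomial τ ℝ, aeval x p = κ (fun z => eval z p) := by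
    intro p
    induction p using MvPolynomial.induction_on with
    | C a => simp only [algHom_C, hmap, eval_C]
    | add p q hp hq =>
      rw [map_add, hp, hq, ← map_add]
      congr 1
      funext z
      simp
    | mul_X p i hp =>
      rw [map_mul, hp, aeval_X]
      show κ _ * κ _ = _
      rw [← map_mul]
      congr 1
      funext z
      simp
  have hκ0 : ∀ f : (τ → ℝ) → ℝ, κ f = 0 ↔ ∀ᶠ z in (U : Filter (τ → ℝ)), f z = 0 := by
    intro f
    exact Filter.Germ.coe_eq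
  refine ⟨Ω, inferInstance, inferInstance, x, κ (fun z => Real.sqrt (eval z L1)),
    κ (fun z => Real.sqrt (eval z L2)), ?_, ?_, ?_, ?_⟩
  · letI : LinearOrder Ω := inferInstanceAs (LinearOrder (Filter.Germ (U : Filter (τ → ℝ)) ℝ))
    haveI : IsStrictOrderedRing Ω :=
      inferInstanceAs (IsStrictOrderedRing (Filter.Germ (U : Filter (τ → ℝ)) ℝ))
    exact FReal.of_ordered Ω
  · rw [algebraicIndependent_iff_injective_aeval, injective_iff_map_eq_zero]
    intro p hp
    by_contra hp0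
    rw [hae, hκ0] at hp
    have h3 : ∀ᶠ z in (U : Filter (τ → ℝ)), eval z p ≠ 0 := by
      apply hU
      exact ⟨p, hp0, Set.univ, univ_mem, fun z _ hz => hz⟩
    obtain ⟨z, hz1, hz2⟩ := (hp.and h3).exists
    exact hz2 hz1
  · rw [hae, ← map_pow]
    refine Filter.Germ.coe_eq.2 ?_
    have h3 : ∀ᶠ z in (U : Filter (τ → ℝ)), 0 < eval z L1 := by
      apply hU
      refine ⟨1, one_ne_zero, {z | 0 < eval z L1}, ?_, fun z hz _ => hz⟩
      exact (MvPolynomial.continuous_eval L1).continuousAt.eventually (lt_mem_nhds h1)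
    filter_upwards [h3] with z hz
    exact Real.sq_sqrt hz.le
  · rw [hae, ← map_pow]
    refine Filter.Germ.coe_eq.2 ?_
    have h3 : ∀ᶠ z in (U : Filter (τ → ℝ)), 0 < eval z L2 := by
      apply hU
      refine ⟨1, one_ne_zero, {z | 0 < eval z L2}, ?_, fun z hz _ => hz⟩
      exact (MvPolynomial.continuous_eval L2).continuousAt.eventually (lt_mem_nhds h2)
    filter_upwards [h3] with z hz
    exact Real.sq_sqrt hz.le

/-- A polynomial with a negative value is not a square. -/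
lemma NS.of_neg {τ : Type} [Fintype τ] {L : MvPolynomial τ ℝ} {z0 : τ → ℝ} (h : eval z0 L < 0) :
    NS L := by
  intro P Q hPQ
  by_contra hQ
  have hW : {z : τ → ℝ | eval z L < 0} ∈ 𝓝 z0 :=
    (MvPolynomial.continuous_eval L).continuousAt.eventually (gt_mem_nhds h)
  obtain ⟨z, hz, hz2⟩ := exists_ne_zero_near z0 hQ hW
  have h3 := congrArg (eval z) hPQ
  rw [map_pow, map_mul, map_pow] at h3
  have h4 : 0 < (eval z Q) ^ 2 := by positivity
  have h5 : eval z L * (eval z Q) ^ 2 < 0 := mul_neg_of_neg_of_pos hz h4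
  nlinarith [sq_nonneg (eval z P)]

end MP_d2f638_ag
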