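import Pool.Agent.Lib.MP_d2f638_ag.Core
import Pool.Agent.Lib.MP_d2f638_ag.RealGerm

/-!
# Generic points in formally real fields
-/

namespace MP_d2f638_ag

open MvPolynomial

variable {τ : Type} [Fintype τ] [DecidableEq τ] {k : Type} [Field k]

/-- First form plus the two squares. -/
def extA (F : Matrix τ τ k) : Matrix (τ ⊕ Bool) (τ ⊕ Bool) k :=
  Matrix.fromBlocks F 0 0 1

/-- Second form plus multiples of the two squares. -/
def extB (G : Matrix τ τ k) (c : Bool → k) : Matrix (τ ⊕ Bool) (τ ⊕ Bool) k :=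
  Matrix.fromBlocks G 0 0 (Matrix.diagonal c)

omit [DecidableEq τ] in
lemma quad_extB (G : Matrix τ τ k) (c : Bool → k) :
    quad (extB G c) = rename Sum.inl (quad G) + C (c false) * X (Sum.inr false) ^ 2 +
      C (c true) * X (Sum.inr true) ^ 2 := by
  simp only [quad, extB, Fintype.sum_sum_type, Matrix.fromBlocks_apply₁₁,
    Matrix.fromBlocks_apply₁₂, Matrix.fromBlocks_apply₂₁, Matrix.fromBlocks_apply₂₂,
    Matrix.zero_apply, C_0, zero_mul, Finset.sum_const_zero, add_zero, zero_add,
    Fintype.sum_bool, Matrix.diagonal_apply, map_sum, map_mul, rename_C, rename_X]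
  simp
  ring

omit [DecidableEq τ] in
lemma quad_extA (F : Matrix τ τ k) :
    quad (extA F) = rename Sum.inl (quad F) + X (Sum.inr false) ^ 2 + X (Sum.inr true) ^ 2 := by
  have h1 : extA F = extB F (fun _ => 1) := by
    rw [extA, extB, Matrix.diagonal_one]
  rw [h1, quad_extB]
  simp

/-- The quadratic form giving the square of the first of the two variables. -/
noncomputable def sol (F G : Matrix τ τ k) (a b : k) : MvPolynomial τ k :=
  C (a - b)⁻¹ * (C b * quad F - quad G)

omit [DecidableEq τ] in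
lemma eval_quad (F : Matrix τ τ ℝ) (z : τ → ℝ) : eval z (quad F) = ∑ i, ∑ j, z i * F i j * z j := by
  simp only [quad, map_sum, map_mul, eval_C, eval_X]
  refine Finset.sum_congr rfl fun i _ => Finset.sum_congr rfl fun j _ => ?_
  ring

lemma eval_sol (F G : Matrix τ τ ℝ) (a b : ℝ) (z : τ → ℝ) :
    eval z (sol F G a b) = (a - b)⁻¹ * (b * bl F z z - bl G z z) := by
  simp only [sol, map_mul, map_sub, eval_C, eval_quad, bl_apply]

omit [DecidableEq τ] in
lemma idealX_ext (F G : Matrix τ τ k) (c : Bool → k) (hc : c false ≠ c true) :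
    idealX (extA F) (extB G c) =
      sqIdeal (sol F G (c false) (c true)) (sol F G (c true) (c false)) := by
  have h1 := quad_extA F
  have h2 := quad_extB G c
  set a := c false
  set b := c true
  have hab : a - b ≠ 0 := sub_ne_zero.2 hc
  have hba : b - a ≠ 0 := sub_ne_zero.2 hc.symm
  have k1 : (C (a - b)⁻¹ : MvPolynomial (τ ⊕ Bool) k) * C (a - b) = 1 := by
    rw [← C_mul, inv_mul_cancel₀ hab, C_1]
  have k2 : (C (b - a)⁻¹ : MvPolynomial (τ ⊕ Bool) k) = - C (a - b)⁻¹ := by
    rw [← C_neg]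
    congr 1
    rw [← neg_sub a b, inv_neg]
  have r1 : (rename Sum.inl (sol F G a b) : MvPolynomial (τ ⊕ Bool) k) = C (a - b)⁻¹ *
      (C b * rename Sum.inl (quad F) - rename Sum.inl (quad G)) := by
    simp only [sol, map_mul, map_sub, rename_C]
  have r2 : (rename Sum.inl (sol F G b a) : MvPolynomial (τ ⊕ Bool) k) = - C (a - b)⁻¹ *
      (C a * rename Sum.inl (quad F) - rename Sum.inl (quad G)) := by
    simp only [sol, map_mul, map_sub, rename_C]
    rw [← k2]
  rw [C_sub] at k1
  set qF := (rename Sum.inl (quad F) : MvPolynomial (τ ⊕ Bool) k)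
  set qG := (rename Sum.inl (quad G) : MvPolynomial (τ ⊕ Bool) k)
  set Y1 := (X (Sum.inr false) : MvPolynomial (τ ⊕ Bool) k)
  set Y2 := (X (Sum.inr true) : MvPolynomial (τ ⊕ Bool) k)
  set D := (C (a - b)⁻¹ : MvPolynomial (τ ⊕ Bool) k)
  apply le_antisymm
  · rw [idealX, Ideal.span_le]
    rintro q (rfl | rfl)
    · have : quad (extA F) = (Y1 ^ 2 - rename Sum.inl (sol F G a b)) +
          (Y2 ^ 2 - rename Sum.inl (sol F G b a)) := by
        rw [h1, r1, r2]
        linear_combination (-qF) * k1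
      rw [this]
      exact Ideal.add_mem _ (sq_mem1 _ _) (sq_mem2 _ _)
    · have : quad (extB G c) = C a * (Y1 ^ 2 - rename Sum.inl (sol F G a b)) +
          C b * (Y2 ^ 2 - rename Sum.inl (sol F G b a)) := by
        rw [h2, r1, r2]
        linear_combination (-qG) * k1
      rw [this]
      exact Ideal.add_mem _ (Ideal.mul_mem_left _ _ (sq_mem1 _ _))
        (Ideal.mul_mem_left _ _ (sq_mem2 _ _))
  · have hA : quad (extA F) ∈ idealX (extA F) (extB G c) := Ideal.subset_span (Or.inl rfl)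
    have hB : quad (extB G c) ∈ idealX (extA F) (extB G c) := Ideal.subset_span (Or.inr rfl)
    rw [sqIdeal, Ideal.span_le]
    rintro q (rfl | rfl)
    · have : Y1 ^ 2 - rename Sum.inl (sol F G a b) =
          D * quad (extB G c) - D * C b * quad (extA F) := by
        rw [h1, h2, r1]
        linear_combination (-Y1 ^ 2) * k1
      show _ ∈ idealX (extA F) (extB G c)
      rw [this]
      exact Ideal.sub_mem _ (Ideal.mul_mem_left _ _ hB) (Ideal.mul_mem_left _ _ hA)
    · have : Y2 ^ 2 - rename Sum.inl (sol F G b a) =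
          D * C a * quad (extA F) - D * quad (extB G c) := by
        rw [h1, h2, r2]
        linear_combination (-Y2 ^ 2) * k1
      show _ ∈ idealX (extA F) (extB G c)
      rw [this]
      exact Ideal.sub_mem _ (Ideal.mul_mem_left _ _ hA) (Ideal.mul_mem_left _ _ hB)

/-- A generic point in a formally real field. -/
theorem exists_generic (F G : Matrix τ τ ℝ) (c : Bool → ℝ) (hc : c false ≠ c true)
    (hpp : ∃ z, 0 < eval z (sol F G (c false) (c true)) ∧ 0 < eval z (sol F G (c true) (c false)))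
    (hmp : ∃ z, eval z (sol F G (c false) (c true)) < 0 ∧ 0 < eval z (sol F G (c true) (c false)))
    (hpm : ∃ z, 0 < eval z (sol F G (c false) (c true)) ∧ eval z (sol F G (c true) (c false)) < 0) :
    ∃ (Ω : Type) (_ : Field Ω) (_ : Algebra ℝ Ω) (x : τ ⊕ Bool → Ω), FReal Ω ∧
      AlgebraicIndependent ℝ (fun i : τ => x (Sum.inl i)) ∧ GenPt (extA F) (extB G c) x := by
  obtain ⟨z0, h1, h2⟩ := hpp
  obtain ⟨z1, h3, h4⟩ := hmp
  obtain ⟨z2, h5, h6⟩ := hpm
  obtain ⟨Ω, iF, iA, x, ξ1, ξ2, hR, hx, e1, e2⟩ := exists_real_field _ _ z0 h1 h2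
  refine ⟨Ω, iF, iA, Sum.elim x (fun b => if b then ξ2 else ξ1), hR, hx, ?_⟩
  intro p
  rw [idealX_ext F G c hc]
  refine mem_sqIdeal_iff two_ne_zero (NS.of_neg h3) (NS.of_neg h6) (NS.of_neg (z0 := z1) ?_) x hx
    e1 e2 p
  rw [map_mul]
  exact mul_neg_of_neg_of_pos h3 h4

end MP_d2f638_ag
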