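import Pool.Agent.Lib.MP_d2f638_ag.Core

/-!
# Invariance of rationality under changes of coordinates and of the basis of the pencil
-/

namespace MP_d2f638_ag

open MvPolynomial

variable {ι : Type} [Fintype ι] {ι' : Type} [Fintype ι']

/-- The coordinates form a generic point. -/
lemma genPt_coord (A B : Matrix ι ι ℝ) [(idealX A B).IsPrime] : GenPt A B (coord' A B) := by
  intro p
  have h1 : aeval (coord' A B) p = algebraMap (MvPolynomial ι ℝ ⧸ idealX A B)
      (FractionRing (MvPolynomial ι ℝ ⧸ idealX A B)) (Ideal.Quotient.mk (idealX A B) p) := by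
    induction p using MvPolynomial.induction_on with
    | C a =>
      rw [algHom_C]
      rw [IsScalarTower.algebraMap_apply ℝ (MvPolynomial ι ℝ ⧸ idealX A B)
        (FractionRing (MvPolynomial ι ℝ ⧸ idealX A B))]
      rfl
    | add p q hp hq => rw [map_add, hp, hq, map_add, map_add]
    | mul_X p i hp => rw [map_mul, hp, aeval_X, map_mul, map_mul]; rfl
  rw [h1, map_eq_zero_iff _ (IsFractionRing.injective _ _), Ideal.Quotient.eq_zero_iff_mem]

lemma RRational.exists_gen {A B : Matrix ι ι ℝ} {d : ℕ} (h : RRational d A B) :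
    ∃ (L : Type) (_ : Field L) (_ : Algebra ℝ L) (x : ι → L), GenPt A B x ∧
      Nonempty (RF x ≃ₐ[ℝ] FractionRing (MvPolynomial (Fin d) ℝ)) := by
  obtain ⟨hp, h2⟩ := (rRational_iff d A B).2 h
  exact ⟨_, inferInstance, inferInstance, coord' A B, genPt_coord A B, h2⟩

lemma RRational.pencil {A B : Matrix ι ι ℝ} {d : ℕ} {α β γ δ : ℝ} (hdet : α * δ - β * γ ≠ 0)
    (h : RRational d (α • A + β • B) (γ • A + δ • B)) : RRational d A B := by
  obtain ⟨L, _, _, x, hx, hr⟩ := h.exists_gen
  have : GenPt A B x := by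
    intro p
    rw [hx p, idealX_pencil A B hdet]
  exact this.rational hr

lemma RF_change [DecidableEq ι] [DecidableEq ι'] {L : Type} [Field L]
    [Algebra ℝ L] (x : ι' → L) {P : Matrix ι ι' ℝ} {Q : Matrix ι' ι ℝ}
    (hQP : Q * P = 1) : RF (fun i => ∑ j, algebraMap ℝ L (P i j) * x j) = RF x := by
  apply le_antisymm
  · exact ratios_le P x
  · have h1 := ratios_le Q (fun i => ∑ j, algebraMap ℝ L (P i j) * x j)
    have h2 : (fun i => ∑ j, algebraMap ℝ L (Q i j) * ∑ l, algebraMap ℝ L (P j l) * x l) = x := by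
      funext i
      have h3 : ∀ j, algebraMap ℝ L (Q i j) * ∑ l, algebraMap ℝ L (P j l) * x l =
          ∑ l, algebraMap ℝ L (Q i j * P j l) * x l := by
        intro j
        rw [Finset.mul_sum]
        refine Finset.sum_congr rfl fun l _ => ?_
        rw [map_mul]; ring
      simp only [h3]
      rw [Finset.sum_comm]
      have h4 : ∀ l, ∑ j, algebraMap ℝ L (Q i j * P j l) * x l =
          algebraMap ℝ L ((Q * P) i l) * x l := by
        intro l
        rw [Matrix.mul_apply, map_sum, Finset.sum_mul]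
      simp only [h4, hQP]
      rw [Finset.sum_eq_single i]
      · simp
      · intro l _ hl
        rw [Matrix.one_apply_ne hl.symm]; simp
      · intro hi; exact absurd (Finset.mem_univ i) hi
    rw [h2] at h1
    exact h1

lemma RRational.change [DecidableEq ι] [DecidableEq ι'] {A B : Matrix ι ι ℝ} {d : ℕ}
    {P : Matrix ι ι' ℝ} {Q : Matrix ι' ι ℝ} (hPQ : P * Q = 1) (hQP : Q * P = 1)
    (h : RRational d (P.transpose * A * P) (P.transpose * B * P)) : RRational d A B := by
  obtain ⟨L, _, _, x, hx, ⟨e⟩⟩ := h.exists_gen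
  refine (hx.change hPQ hQP).rational ⟨?_⟩
  exact (IntermediateField.equivOfEq (RF_change x hQP)).trans e

end MP_d2f638_ag
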