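import Pool.Agent.Lib.MP_d2f638_ag.SqDomain

/-!
# A polynomial with a smooth zero is not a square
-/

namespace MP_d2f638_ag

open MvPolynomial

variable {k : Type} [Field k] {τ : Type}

/-- A prime factor vanishing at a zero. -/
lemma exists_prime_factor {L : MvPolynomial τ k} (hL : L ≠ 0) {z : τ → k} (hz : eval z L = 0) :
    ∃ π : MvPolynomial τ k, Prime π ∧ π ∣ L ∧ eval z π = 0 := by
  induction L using UniqueFactorizationMonoid.induction_on_prime with
  | h₁ => exact absurd rfl hL
  | h₂ x hx =>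
    exfalso
    have := (hx.map (eval z)).ne_zero
    exact this hz
  | h₃ a p ha hp ih =>
    rw [map_mul, mul_eq_zero] at hz
    rcases hz with hz | hz
    · exact ⟨p, hp, dvd_mul_right _ _, hz⟩
    · obtain ⟨π, h1, h2, h3⟩ := ih ha hz
      exact ⟨π, h1, h2.mul_left p, h3⟩

/-- A polynomial with a zero at which some partial derivative does not vanish is not a square. -/
lemma NS.of_smooth {L : MvPolynomial τ k} {z : τ → k} (hz : eval z L = 0) {i : τ}
    (hd : eval z (pderiv i L) ≠ 0) : NS L := by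
  have hL : L ≠ 0 := by
    rintro rfl
    simp at hd
  obtain ⟨π, hπ, ⟨L1, hL1⟩, hπz⟩ := exists_prime_factor hL hz
  have hnd : ¬ π ∣ L1 := by
    rintro ⟨M, hM⟩
    apply hd
    rw [hL1, hM]
    simp only [Derivation.leibniz, smul_eq_mul, map_add, map_mul, hπz]
    ring
  have hdeg : 0 < π.totalDegree := by
    rw [Nat.pos_iff_ne_zero]
    intro h0
    rw [totalDegree_eq_zero_iff_eq_C] at h0
    rw [h0, eval_C] at hπz
    rw [hπz, C_0] at h0
    exact hπ.ne_zero h0
  have key : ∀ (n : ℕ) (P Q : MvPolynomial τ k), Q.totalDegree ≤ n → P ^ 2 = L * Q ^ 2 → Q = 0 := by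
    intro n
    induction n with
    | zero =>
      intro P Q hn hPQ
      by_contra hQ
      have h1 : π ∣ P := hπ.dvd_of_dvd_pow (by rw [hPQ, hL1, mul_assoc]; exact dvd_mul_right _ _)
      obtain ⟨P1, hP1⟩ := h1
      have h2 : π * P1 ^ 2 = L1 * Q ^ 2 := by
        apply mul_left_cancel₀ hπ.ne_zero
        rw [hP1, hL1] at hPQ
        linear_combination hPQ
      have h3 : π ∣ Q := by
        have h4 : π ∣ L1 * Q ^ 2 := by rw [← h2]; exact dvd_mul_right _ _
        exact hπ.dvd_of_dvd_pow ((hπ.dvd_or_dvd h4).resolve_left hnd)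
      obtain ⟨Q1, hQ1⟩ := h3
      have hQ10 : Q1 ≠ 0 := by
        rintro rfl
        rw [mul_zero] at hQ1
        exact hQ hQ1
      have h5 := totalDegree_mul_of_isDomain hπ.ne_zero hQ10
      rw [← hQ1] at h5
      omega
    | succ n ih =>
      intro P Q hn hPQ
      by_contra hQ
      have h1 : π ∣ P := hπ.dvd_of_dvd_pow (by rw [hPQ, hL1, mul_assoc]; exact dvd_mul_right _ _)
      obtain ⟨P1, hP1⟩ := h1
      have h2 : π * P1 ^ 2 = L1 * Q ^ 2 := by
        apply mul_left_cancel₀ hπ.ne_zero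
        rw [hP1, hL1] at hPQ
        linear_combination hPQ
      have h3 : π ∣ Q := by
        have h4 : π ∣ L1 * Q ^ 2 := by rw [← h2]; exact dvd_mul_right _ _
        exact hπ.dvd_of_dvd_pow ((hπ.dvd_or_dvd h4).resolve_left hnd)
      obtain ⟨Q1, hQ1⟩ := h3
      have hQ10 : Q1 ≠ 0 := by
        rintro rfl
        rw [mul_zero] at hQ1
        exact hQ hQ1
      have h5 := totalDegree_mul_of_isDomain hπ.ne_zero hQ10
      rw [← hQ1] at h5
      refine hQ10 (ih P1 Q1 (by omega) ?_)
      apply mul_left_cancel₀ hπ.ne_zero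
      rw [hQ1] at h2
      rw [h2, hL1]
      ring
  intro P Q hPQ
  exact key _ P Q le_rfl hPQ

end MP_d2f638_ag
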