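import Pool.Agent.Lib.MP_d2f638_ag.Core

/-!
# The transcendence degree of the field of ratios
-/

namespace MP_d2f638_ag

open Cardinal

open scoped IntermediateField.algebraAdjoinAdjoin in
lemma isAlgebraic_of_adjoin_top' {F K : Type} [Field F] [Field K] [Algebra F K] {S : Set K}
    (htop : IntermediateField.adjoin F S = ⊤) :
    Algebra.IsAlgebraic (Algebra.adjoin F S) K := by
  constructor
  intro a
  have ha : a ∈ IntermediateField.adjoin F S := by rw [htop]; trivial
  have h1 : IsAlgebraic (Algebra.adjoin F S) (⟨a, ha⟩ : IntermediateField.adjoin F S) :=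
    Algebra.IsAlgebraic.isAlgebraic _
  exact h1.algebraMap (S := IntermediateField.adjoin F S) (A := K)

variable {ι : Type}

lemma trdeg_RF_top {L : Type} [Field L] [Algebra ℝ L] {x : ι → L}
    (htop : IntermediateField.adjoin ℝ (Set.range x) = ⊤) (i0 : ι) (hx0 : x i0 ≠ 0) :
    Algebra.trdeg ℝ L ≤ Algebra.trdeg ℝ (RF x) + 1 := by
  have h1 : IntermediateField.adjoin (RF x) ({x i0} : Set L) = ⊤ := by
    rw [eq_top_iff]
    intro z _
    have h2 : IntermediateField.adjoin ℝ (Set.range x) ≤
        (IntermediateField.adjoin (RF x) ({x i0} : Set L)).restrictScalars ℝ := by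
      rw [IntermediateField.adjoin_le_iff]
      rintro w ⟨i, rfl⟩
      show x i ∈ IntermediateField.adjoin (RF x) ({x i0} : Set L)
      have h3 : x i = algebraMap (RF x) L (dehom x i0 i) * x i0 := by
        show x i = x i / x i0 * x i0
        rw [div_mul_cancel₀ _ hx0]
      rw [h3]
      exact mul_mem (IntermediateField.algebraMap_mem _ _)
        (IntermediateField.subset_adjoin _ _ rfl)
    have h4 : z ∈ IntermediateField.adjoin ℝ (Set.range x) := by rw [htop]; trivial
    exact h2 h4
  have := isAlgebraic_of_adjoin_top' h1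
  have h2 : Algebra.trdeg (RF x) L ≤ #({x i0} : Set L) := Algebra.IsAlgebraic.trdeg_le_cardinalMk (RF x) _
  rw [Cardinal.mk_singleton] at h2
  rw [← trdeg_add_eq ℝ (RF x) (A := L)]
  gcongr

lemma trdeg_RF_of {L : Type} [Field L] [Algebra ℝ L] {x : ι → L} {i0 : ι} (hx0 : x i0 ≠ 0)
    {d : ℕ} (h1 : ((d + 1 : ℕ) : Cardinal) ≤
      Algebra.trdeg ℝ (IntermediateField.adjoin ℝ (Set.range x))) :
    (d : Cardinal) ≤ Algebra.trdeg ℝ (RF x) := by
  set E := IntermediateField.adjoin ℝ (Set.range x) with hE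
  let x' : ι → E := fun i => ⟨x i, IntermediateField.subset_adjoin _ _ ⟨i, rfl⟩⟩
  have htop : IntermediateField.adjoin ℝ (Set.range x') = ⊤ := by
    have h2 : (IntermediateField.adjoin ℝ (Set.range x')).map E.val = E := by
      rw [IntermediateField.adjoin_map, ← Set.range_comp]
      rfl
    rw [eq_top_iff]
    intro w _
    have h3 : (w : L) ∈ (IntermediateField.adjoin ℝ (Set.range x')).map E.val := by
      rw [h2]; exact w.2
    obtain ⟨u, hu, huw⟩ := h3
    have : u = w := Subtype.ext huw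
    rwa [← this]
  have h2 := trdeg_RF_top htop i0 (by
    intro h0
    exact hx0 (congrArg Subtype.val h0))
  have h3 : (RF x').map E.val = RF x := by
    rw [IntermediateField.adjoin_map]
    congr 1
    ext w
    constructor
    · rintro ⟨u, ⟨i, j, rfl⟩, rfl⟩
      exact ⟨i, j, rfl⟩
    · rintro ⟨i, j, rfl⟩
      exact ⟨_, ⟨i, j, rfl⟩, rfl⟩
  have h4 : Algebra.trdeg ℝ (RF x') = Algebra.trdeg ℝ (RF x) := by
    rw [← h3]
    exact AlgEquiv.trdeg_eq (IntermediateField.equivMap (RF x') E.val)
  rw [h4] at h2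
  have h5 := h1.trans h2
  push_cast at h5
  exact (Cardinal.add_le_add_iff_of_lt_aleph0 (by exact Cardinal.one_lt_aleph0)).1 h5

lemma trdeg_RF {L : Type} [Field L] [Algebra ℝ L] {x : ι → L} {i0 : ι} (hx0 : x i0 ≠ 0)
    {κ : Type} [Fintype κ] {z : κ → L} (hz : AlgebraicIndependent ℝ z)
    (hzE : ∀ k, z k ∈ IntermediateField.adjoin ℝ (Set.range x)) {d : ℕ}
    (hd : Fintype.card κ = d + 1) :
    (d : Cardinal) ≤ Algebra.trdeg ℝ (RF x) := by
  apply trdeg_RF_of hx0
  set E := IntermediateField.adjoin ℝ (Set.range x) with hE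
  let z' : κ → E := fun k => ⟨z k, hzE k⟩
  have hz' : AlgebraicIndependent ℝ z' := by
    have : AlgebraicIndependent ℝ (E.val ∘ z') := hz
    exact AlgebraicIndependent.of_comp _ this
  rw [← hd, ← Cardinal.mk_fintype]
  exact hz'.cardinalMk_le_trdeg

end MP_d2f638_ag
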