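import Pool.Agent.Lib.MP_d2f638_ag.ComplexNF
import Pool.Agent.Lib.MP_d2f638_ag.NSPoint
import Pool.Agent.Lib.MP_d2f638_ag.Generic
import Pool.Agent.Lib.MP_d2f638_ag.TrdegRF
import Pool.Agent.Lib.MP_d2f638_ag.Invariance

/-!
# A generic point over the complex numbers
-/

namespace MP_d2f638_ag

open MvPolynomial Matrix

section General

variable {τ : Type} [Fintype τ] [DecidableEq τ] {k : Type} [Field k]

/-- Diagonal quadratic forms. -/
noncomputable def dg (d : τ → k) : MvPolynomial τ k := ∑ i, C (d i) * X i ^ 2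

lemma quad_diagonal (d : τ → k) : quad (Matrix.diagonal d) = dg d := by
  rw [quad, dg]
  refine Finset.sum_congr rfl fun i _ => ?_
  rw [Finset.sum_eq_single i]
  · rw [Matrix.diagonal_apply_eq]; ring
  · intro j _ hj
    rw [Matrix.diagonal_apply_ne _ hj.symm, C_0]; ring
  · intro hi; exact absurd (Finset.mem_univ i) hi

lemma sol_diagonal (la : τ → k) (a b : k) :
    sol (1 : Matrix τ τ k) (Matrix.diagonal la) a b = dg (fun i => (a - b)⁻¹ * (b - la i)) := by
  rw [sol, ← Matrix.diagonal_one, quad_diagonal, quad_diagonal, dg, dg, dg, Finset.mul_sum,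
    ← Finset.sum_sub_distrib, Finset.mul_sum]
  refine Finset.sum_congr rfl fun i _ => ?_
  rw [C_1, C_mul, C_sub]; ring

omit [DecidableEq τ] in
lemma eval_dg (d : τ → k) (z : τ → k) : eval z (dg d) = ∑ i, d i * z i ^ 2 := by
  simp only [dg, map_sum, map_mul, map_pow, eval_C, eval_X]

lemma eval_pderiv_dg (d : τ → k) (z : τ → k) (i : τ) :
    eval z (pderiv i (dg d)) = d i * (2 * z i) := by
  rw [dg, map_sum, map_sum, Finset.sum_eq_single i]
  · rw [pderiv_C_mul, Derivation.leibniz_pow, pderiv_X_self]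
    simp [smul_eval]
  · intro j _ hj
    rw [pderiv_C_mul, Derivation.leibniz_pow, pderiv_X_of_ne hj]
    simp
  · intro hi; exact absurd (Finset.mem_univ i) hi

/-- The test point. -/
def tp (i j : τ) (s : k) : τ → k := fun m => if m = i then 1 else if m = j then s else 0

lemma eval_dg_tp (d : τ → k) {i j : τ} (hij : i ≠ j) (s : k) :
    eval (tp i j s) (dg d) = d i + d j * s ^ 2 := by
  rw [eval_dg]
  have h1 : ∀ m, d m * tp i j s m ^ 2 = (if m = i then d i else 0) +
      (if m = j then d j * s ^ 2 else 0) := by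
    intro m
    rw [tp]
    by_cases h2 : m = i
    · subst h2; simp [hij]
    · by_cases h3 : m = j
      · subst h3; simp [h2]
      · simp [h2, h3]
  simp only [h1, Finset.sum_add_distrib, Finset.sum_ite_eq', Finset.mem_univ, if_true]

lemma NS_dg [IsAlgClosed k] (h2 : (2 : k) ≠ 0) {d : τ → k} {i j : τ} (hij : i ≠ j)
    (hi : d i ≠ 0) (hj : d j ≠ 0) : NS (dg d) := by
  obtain ⟨s, hs⟩ := IsAlgClosed.exists_pow_nat_eq (-(d i / d j)) (n := 2) (by norm_num)
  refine NS.of_smooth (z := tp i j s) (i := i) ?_ ?_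
  · rw [eval_dg_tp d hij, hs]; field_simp; ring
  · rw [eval_pderiv_dg]
    have : tp i j s i = 1 := by simp [tp]
    rw [this, mul_one]
    exact mul_ne_zero hi h2

lemma NS_dg_mul [IsAlgClosed k] (h2 : (2 : k) ≠ 0) {d d' : τ → k} {i j : τ} (hij : i ≠ j)
    (hi : d i ≠ 0) (hj : d j ≠ 0) (hdd : d' i * d j - d' j * d i ≠ 0) : NS (dg d * dg d') := by
  obtain ⟨s, hs⟩ := IsAlgClosed.exists_pow_nat_eq (-(d i / d j)) (n := 2) (by norm_num)
  have h0 : eval (tp i j s) (dg d) = 0 := by
    rw [eval_dg_tp d hij, hs]; field_simp; ring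
  refine NS.of_smooth (z := tp i j s) (i := i) ?_ ?_
  · rw [map_mul, h0, zero_mul]
  · rw [Derivation.leibniz, smul_eq_mul, smul_eq_mul, map_add, map_mul, map_mul, h0, zero_mul,
      zero_add, eval_pderiv_dg, eval_dg_tp d' hij, hs]
    have : tp i j s i = 1 := by simp [tp]
    rw [this, mul_one]
    refine mul_ne_zero ?_ (mul_ne_zero hi h2)
    intro h3
    apply hdd
    field_simp at h3
    linear_combination h3

/-- Generic points over a general field. -/
def GenK {ι : Type} [Fintype ι] (A B : Matrix ι ι k) {L : Type} [Field L] [Algebra k L]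
    (x : ι → L) : Prop :=
  ∀ p : MvPolynomial ι k, aeval x p = 0 ↔ p ∈ idealX A B

/-- The generic point of a diagonal pencil. -/
theorem exists_generic_closed [IsAlgClosed k] (h2 : (2 : k) ≠ 0) (hτ : 2 ≤ Fintype.card τ)
    (la : τ → k) (hla : Function.Injective la) (c : Bool → k) (hc : c false ≠ c true)
    (hlc : ∀ i b, la i ≠ c b) :
    ∃ (Ω : Type) (_ : Field Ω) (_ : Algebra k Ω) (x : τ ⊕ Bool → Ω),
      AlgebraicIndependent k (fun i : τ => x (Sum.inl i)) ∧
      GenK (extA (1 : Matrix τ τ k)) (extB (Matrix.diagonal la) c) x := by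
  obtain ⟨i, j, hij⟩ := Fintype.one_lt_card_iff.1 (show 1 < Fintype.card τ by omega)
  have hab : c false - c true ≠ 0 := sub_ne_zero.2 hc
  have hba : c true - c false ≠ 0 := sub_ne_zero.2 hc.symm
  have hd1 : ∀ m, (c false - c true)⁻¹ * (c true - la m) ≠ 0 := fun m =>
    mul_ne_zero (inv_ne_zero hab) (sub_ne_zero.2 (hlc m true).symm)
  have hd2 : ∀ m, (c true - c false)⁻¹ * (c false - la m) ≠ 0 := fun m =>
    mul_ne_zero (inv_ne_zero hba) (sub_ne_zero.2 (hlc m false).symm)
  let R := FractionRing (MvPolynomial τ k)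
  let Ω := AlgebraicClosure R
  let x : τ → Ω := fun i => algebraMap R Ω (algebraMap (MvPolynomial τ k) R (X i))
  have hae : ∀ p : MvPolynomial τ k, aeval x p = algebraMap R Ω (algebraMap _ R p) := by
    intro p
    induction p using MvPolynomial.induction_on with
    | C a =>
      rw [algHom_C, IsScalarTower.algebraMap_apply k R Ω,
        IsScalarTower.algebraMap_apply k (MvPolynomial τ k) R]
      rfl
    | add p q hp hq => rw [map_add, hp, hq, map_add, map_add]
    | mul_X p i hp => rw [map_mul, hp, aeval_X, map_mul, map_mul]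
  have hx : AlgebraicIndependent k x := by
    rw [algebraicIndependent_iff_injective_aeval, injective_iff_map_eq_zero]
    intro p hp
    rw [hae, map_eq_zero_iff _ (algebraMap R Ω).injective,
      map_eq_zero_iff _ (IsFractionRing.injective _ R)] at hp
    exact hp
  obtain ⟨ξ1, e1⟩ := IsAlgClosed.exists_pow_nat_eq
    (aeval x (sol (1 : Matrix τ τ k) (Matrix.diagonal la) (c false) (c true))) (n := 2) (by norm_num)
  obtain ⟨ξ2, e2⟩ := IsAlgClosed.exists_pow_nat_eq
    (aeval x (sol (1 : Matrix τ τ k) (Matrix.diagonal la) (c true) (c false))) (n := 2) (by norm_num)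
  refine ⟨Ω, inferInstance, inferInstance, Sum.elim x (fun b => if b then ξ2 else ξ1), hx, ?_⟩
  intro p
  rw [idealX_ext _ _ c hc]
  refine mem_sqIdeal_iff h2 ?_ ?_ ?_ x hx e1 e2 p
  · rw [sol_diagonal]
    exact NS_dg h2 hij (hd1 i) (hd1 j)
  · rw [sol_diagonal]
    exact NS_dg h2 hij (hd2 i) (hd2 j)
  · rw [sol_diagonal, sol_diagonal]
    refine NS_dg_mul h2 hij (hd1 i) (hd1 j) ?_
    have h3 : (c true - c false)⁻¹ * (c false - la i) * ((c false - c true)⁻¹ * (c true - la j)) -
        (c true - c false)⁻¹ * (c false - la j) * ((c false - c true)⁻¹ * (c true - la i)) =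
        (c true - c false)⁻¹ * (c false - c true)⁻¹ * ((c false - c true) * (la i - la j)) := by
      ring
    rw [h3]
    exact mul_ne_zero (mul_ne_zero (inv_ne_zero hba) (inv_ne_zero hab))
      (mul_ne_zero hab (sub_ne_zero.2 fun h => hij (hla h)))

omit [DecidableEq τ] in
lemma aeval_substK {ι : Type} {L : Type} [Field L] [Algebra k L] (P : Matrix ι τ k) (x : τ → L)
    (p : MvPolynomial ι k) :
    aeval x (subst P p) = aeval (fun i => ∑ j, algebraMap k L (P i j) * x j) p := by
  have : (aeval x).comp (subst P) =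
      aeval (fun i => ∑ j, algebraMap k L (P i j) * x j) := by
    ext i
    simp [subst, aeval_X, map_sum, map_mul]
  rw [← this]; rfl

/-- Linear changes of coordinates. -/
lemma GenK.change {ι : Type} [Fintype ι] [DecidableEq ι] {A B : Matrix ι ι k} {L : Type} [Field L]
    [Algebra k L] {x : τ → L} {P : Matrix ι τ k} {Q : Matrix τ ι k} (hPQ : P * Q = 1)
    (h : GenK (P.transpose * A * P) (P.transpose * B * P) x) :
    GenK A B (fun i => ∑ j, algebraMap k L (P i j) * x j) := by
  intro p
  rw [← aeval_substK, h]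
  constructor
  · intro hp
    have h1 := subst_mem Q _ _ hp
    rw [subst_subst P Q hPQ] at h1
    have h2 : ∀ M : Matrix ι ι k, Q.transpose * (P.transpose * M * P) * Q = M := by
      intro M
      calc Q.transpose * (P.transpose * M * P) * Q
          = (P * Q).transpose * M * (P * Q) := by
            simp only [Matrix.transpose_mul, Matrix.mul_assoc]
        _ = M := by rw [hPQ]; simp
    rwa [h2, h2] at h1
  · intro hp
    exact subst_mem P _ _ hp

end General

end MP_d2f638_ag
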