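import Pool.Agent.Lib.MP_d2f638_ag.Geom
import Pool.Agent.Lib.MP_d2f638_ag.ClassA

/-!
# Connectedness of the real points
-/

namespace MP_d2f638_ag

open Matrix Topology

variable {ι : Type} [Fintype ι] [DecidableEq ι] {ι' : Type} [Fintype ι'] [DecidableEq ι']

/-- Connectedness is transferred along linear changes of coordinates. -/
lemma conn_transfer {A B : Matrix ι ι ℝ} {A' B' : Matrix ι' ι' ℝ} (P : Matrix ι ι' ℝ)
    (Q : Matrix ι' ι ℝ) (hPQ : P * Q = 1) (hQP : Q * P = 1)
    (hz : ∀ y : ι' → ℝ, (y ⬝ᵥ (A' *ᵥ y) = 0 ∧ y ⬝ᵥ (B' *ᵥ y) = 0) ↔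
      ((P *ᵥ y) ⬝ᵥ (A *ᵥ (P *ᵥ y)) = 0 ∧ (P *ᵥ y) ⬝ᵥ (B *ᵥ (P *ᵥ y)) = 0))
    (h : ConnectedSpace (RealPoints A B)) : ConnectedSpace (RealPoints A' B') := by
  have hPQv : ∀ x : ι → ℝ, P *ᵥ (Q *ᵥ x) = x := fun x => by
    rw [Matrix.mulVec_mulVec, hPQ, Matrix.one_mulVec]
  have hQPv : ∀ y : ι' → ℝ, Q *ᵥ (P *ᵥ y) = y := fun y => by
    rw [Matrix.mulVec_mulVec, hQP, Matrix.one_mulVec]
  let F : RealCone A B → RealCone A' B' := fun x => ⟨Q *ᵥ x.1, by
    refine ⟨?_, ?_⟩
    · intro h0
      apply x.2.1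
      rw [← hPQv x.1, h0, Matrix.mulVec_zero]
    · rw [hz, hPQv]
      exact x.2.2⟩
  have hF : Continuous F := by
    refine Continuous.subtype_mk ?_ _
    exact (Continuous.matrix_mulVec continuous_const continuous_subtype_val)
  have hFr : ∀ x y : RealCone A B, (coneSetoid A B).r x y → (coneSetoid A' B').r (F x) (F y) := by
    rintro x y ⟨c, hc, hxy⟩
    refine ⟨c, hc, ?_⟩
    show Q *ᵥ y.1 = c • (Q *ᵥ x.1)
    rw [hxy, Matrix.mulVec_smul]
  let G : RealPoints A B → RealPoints A' B' := Quotient.map F hFr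
  have hG : Continuous G := hF.quotient_map' hFr
  have hsurj : Function.Surjective G := by
    intro y
    induction y using Quotient.inductionOn with
    | h y =>
      refine ⟨Quotient.mk _ ⟨P *ᵥ y.1, ?_, (hz y.1).1 y.2.2⟩, ?_⟩
      · intro h0
        apply y.2.1
        rw [← hQPv y.1, h0, Matrix.mulVec_zero]
      · show Quotient.mk _ (F _) = _
        congr 1
        exact Subtype.ext (hQPv y.1)
  exact hsurj.connectedSpace hG

variable {S : Type} [Fintype S] [DecidableEq S]

lemma diag_dot {κ : Type} [Fintype κ] [DecidableEq κ] (w x : κ → ℝ) :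
    x ⬝ᵥ (Matrix.diagonal w *ᵥ x) = ∑ i, w i * x i ^ 2 := by
  rw [dotProduct]
  refine Finset.sum_congr rfl fun i _ => ?_
  rw [Matrix.mulVec_diagonal]; ring

/-- If all but one of the coefficients are negative, then `X(ℝ)` is not connected. -/
lemma not_connected {a : S → ℝ} (s1 : S) (hs1 : ∀ s, s ≠ s1 → a s < 0) :
    ¬ ConnectedSpace (RealPoints (lorA S) (lorB a)) := by
  intro hconn
  have hcone : ∀ x : Option S → ℝ, x ⬝ᵥ (lorA S *ᵥ x) = 0 ∧ x ⬝ᵥ (lorB a *ᵥ x) = 0 ↔
      x none ^ 2 = ∑ s, x (some s) ^ 2 ∧ ∑ s, a s * x (some s) ^ 2 = 0 := by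
    intro x
    rw [lorA, lorB, diag_dot, diag_dot, Fintype.sum_option, Fintype.sum_option]
    simp only [Option.elim, one_mul, zero_mul, zero_add]
    constructor
    · rintro ⟨h1, h2⟩
      exact ⟨by linarith, h2⟩
    · rintro ⟨h1, h2⟩
      exact ⟨by linarith, h2⟩
  have hnone : ∀ x : RealCone (lorA S) (lorB a), x.1 none ≠ 0 := by
    intro x h0
    have h1 := ((hcone x.1).1 x.2.2).1
    rw [h0, zero_pow two_ne_zero] at h1
    have h2 := (Finset.sum_eq_zero_iff_of_nonneg (fun s _ => sq_nonneg (x.1 (some s)))).1 h1.symm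
    apply x.2.1
    funext o
    rcases o with _ | s
    · exact h0
    · exact pow_eq_zero_iff (two_ne_zero) |>.1 (h2 s (Finset.mem_univ s))
  have hsome : ∀ x : RealCone (lorA S) (lorB a), x.1 (some s1) ≠ 0 := by
    intro x h0
    have h1 := ((hcone x.1).1 x.2.2).2
    have h2 : ∑ s, (-(a s * x.1 (some s) ^ 2)) = 0 := by
      rw [Finset.sum_neg_distrib, h1, neg_zero]
    have h3 : ∀ s, 0 ≤ -(a s * x.1 (some s) ^ 2) := by
      intro s
      by_cases hs : s = s1
      · rw [hs, h0]; simp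
      · have := mul_nonneg (neg_nonneg.2 (hs1 s hs).le) (sq_nonneg (x.1 (some s)))
        linarith
    have h4 := (Finset.sum_eq_zero_iff_of_nonneg (fun s _ => h3 s)).1 h2
    have h5 : ∀ s, x.1 (some s) = 0 := by
      intro s
      by_cases hs : s = s1
      · rw [hs, h0]
      · have h6 := h4 s (Finset.mem_univ s)
        have h7 : x.1 (some s) ^ 2 = 0 := by
          rcases mul_eq_zero.1 (neg_eq_zero.1 h6) with h8 | h8
          · exact absurd h8 (hs1 s hs).ne
          · exact h8
        exact pow_eq_zero_iff (two_ne_zero) |>.1 h7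
    apply hnone x
    have h6 := ((hcone x.1).1 x.2.2).1
    simp only [h5] at h6
    have h7 : x.1 none ^ 2 = 0 := by rw [h6]; simp
    exact pow_eq_zero_iff (two_ne_zero) |>.1 h7
  -- the ratio
  let f : RealCone (lorA S) (lorB a) → ℝ := fun x => x.1 (some s1) / x.1 none
  have hf : Continuous f := by
    refine Continuous.div₀ ?_ ?_ hnone
    · exact (continuous_apply (some s1)).comp continuous_subtype_val
    · exact (continuous_apply none).comp continuous_subtype_val
  have hfr : ∀ x y : RealCone (lorA S) (lorB a), (coneSetoid _ _).r x y → f x = f y := by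
    rintro x y ⟨c, hc, hxy⟩
    show x.1 (some s1) / x.1 none = y.1 (some s1) / y.1 none
    rw [hxy, Pi.smul_apply, Pi.smul_apply, smul_eq_mul, smul_eq_mul, mul_div_mul_left _ _ hc]
  let g : RealPoints (lorA S) (lorB a) → ℝ := Quotient.lift f hfr
  have hg : Continuous g := hf.quotient_lift hfr
  have hg0 : ∀ z, g z ≠ 0 := by
    intro z
    induction z using Quotient.inductionOn with
    | h x => exact div_ne_zero (hsome x) (hnone x)
  -- a point and its mirror image
  obtain ⟨z⟩ := hconn.toNonempty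
  obtain ⟨x, rfl⟩ := Quotient.exists_rep z
  let x' : Option S → ℝ := fun o => if o = some s1 then - x.1 o else x.1 o
  have hx'sq : ∀ o, x' o ^ 2 = x.1 o ^ 2 := by
    intro o
    show (if o = some s1 then - x.1 o else x.1 o) ^ 2 = _
    split_ifs
    · ring
    · rfl
  have hx'0 : x' ≠ 0 := by
    intro h0
    have h1 := hx'sq none
    rw [h0] at h1
    have h2 : x.1 none ^ 2 = 0 := by rw [← h1]; simp
    exact hnone x (pow_eq_zero_iff (two_ne_zero) |>.1 h2)
  have hx'c : x' ⬝ᵥ (lorA S *ᵥ x') = 0 ∧ x' ⬝ᵥ (lorB a *ᵥ x') = 0 := by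
    rw [hcone]
    simp only [hx'sq]
    exact (hcone x.1).1 x.2.2
  let y : RealCone (lorA S) (lorB a) := ⟨x', hx'0, hx'c⟩
  have hy : g (Quotient.mk _ y) = - g (Quotient.mk _ x) := by
    show x' (some s1) / x' none = -(x.1 (some s1) / x.1 none)
    have h1 : x' (some s1) = - x.1 (some s1) := if_pos rfl
    have h2 : x' none = x.1 none := if_neg (by simp)
    rw [h1, h2, neg_div]
  have hpre : IsPreconnected (Set.range g) := isPreconnected_range hg
  have hmem1 : g (Quotient.mk _ x) ∈ Set.range g := ⟨_, rfl⟩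
  have hmem2 : g (Quotient.mk _ y) ∈ Set.range g := ⟨_, rfl⟩
  have hord := hpre.ordConnected
  have h0mem : (0 : ℝ) ∈ Set.range g := by
    rcases le_total (g (Quotient.mk _ x)) 0 with h1 | h1
    · exact hord.out hmem1 hmem2 ⟨h1, by rw [hy]; linarith⟩
    · exact hord.out hmem2 hmem1 ⟨by rw [hy]; linarith, h1⟩
  obtain ⟨z, hz⟩ := h0mem
  exact hg0 z hz

/-- Connectedness gives at least two positive coefficients. -/
lemma two_le_pos {a : S → ℝ} (ha : ∀ s, a s ≠ 0) [Nonempty S]
    (hconn : ConnectedSpace (RealPoints (lorA S) (lorB a))) :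
    2 ≤ (Finset.univ.filter fun s => 0 < a s).card := by
  by_contra hlt
  push Not at hlt
  have h1 : (Finset.univ.filter fun s => 0 < a s).card ≤ 1 := by omega
  obtain ⟨s1, hs1⟩ : ∃ s1, ∀ s, s ≠ s1 → a s < 0 := by
    rcases (Finset.univ.filter fun s => 0 < a s).eq_empty_or_nonempty with h2 | ⟨s1, hs1⟩
    · obtain ⟨s1⟩ := ‹Nonempty S›
      refine ⟨s1, fun s _ => ?_⟩
      have h3 : ¬ 0 < a s := by
        intro h4
        have : s ∈ (Finset.univ.filter fun s => 0 < a s) := by simpa using h4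
        rw [h2] at this
        exact absurd this (Finset.notMem_empty s)
      exact lt_of_le_of_ne (not_lt.1 h3) (ha s)
    · refine ⟨s1, fun s hs => ?_⟩
      have h3 : ¬ 0 < a s := by
        intro h4
        have h5 : s ∈ (Finset.univ.filter fun s => 0 < a s) := by simpa using h4
        exact hs (Finset.card_le_one.1 h1 s h5 s1 hs1)
      exact lt_of_le_of_ne (not_lt.1 h3) (ha s)
  exact not_connected s1 hs1 hconn

lemma two_le_neg {a : S → ℝ} (ha : ∀ s, a s ≠ 0) [Nonempty S]
    (hconn : ConnectedSpace (RealPoints (lorA S) (lorB a))) :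
    2 ≤ (Finset.univ.filter fun s => a s < 0).card := by
  have h1 : ConnectedSpace (RealPoints (lorA S) (lorB (fun s => - a s))) := by
    refine conn_transfer 1 1 (by simp) (by simp) ?_ hconn
    intro y
    have h2 : lorB (fun s => - a s) = - lorB a := by
      rw [lorB, lorB, Matrix.diagonal_neg]
      congr 1
      funext o
      rcases o with _ | s <;> simp
    rw [h2, Matrix.neg_mulVec, dotProduct_neg, neg_eq_zero, Matrix.one_mulVec]
  have h2 := two_le_pos (a := fun s => - a s) (fun s => neg_ne_zero.2 (ha s)) h1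
  simpa only [Left.neg_pos_iff] using h2

end MP_d2f638_ag
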