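import Pool.Agent.Lib.MP_d2f638_ag.Init

/-!
# From a generic point to a presentation
-/

namespace MP_d2f638_ag

open Polynomial Filter

/-- In a formally real field every non-real element is transcendental over `ℝ`. -/
lemma FReal.trans {K : Type} [Field K] [Algebra ℝ K] (hK : FReal K) {t : K}
    (ht : ∀ c : ℝ, t ≠ algebraMap ℝ K c) : Trans t := by
  intro q hq h0
  have hint : IsIntegral ℝ t := (IsAlgebraic.isIntegral ⟨q, hq, h0⟩)
  have hirr := minpoly.irreducible hint
  have hmon := minpoly.monic hint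
  have hdeg := hirr.degree_le_two
  have hnd : (minpoly ℝ t).natDegree ≤ 2 := natDegree_le_of_degree_le hdeg
  have hpos := minpoly.natDegree_pos hint
  have hne1 : (minpoly ℝ t).natDegree ≠ 1 := by
    rw [Ne, minpoly.natDegree_eq_one_iff]
    rintro ⟨c, hc⟩
    exact ht c hc.symm
  have h2 : (minpoly ℝ t).natDegree = 2 := by omega
  set m := minpoly ℝ t with hm
  have hform : m = X ^ 2 + C (m.coeff 1) * X + C (m.coeff 0) := by
    have h3 := m.as_sum_range_C_mul_X_pow
    rw [h2, Finset.sum_range_succ, Finset.sum_range_succ, Finset.sum_range_one] at h3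
    have h4 : m.coeff 2 = 1 := by
      have := hmon.coeff_natDegree
      rwa [h2] at this
    rw [h4] at h3
    rw [h3]
    simp
    ring
  set b := m.coeff 1
  set c := m.coeff 0
  have hroot : t ^ 2 + algebraMap ℝ K b * t + algebraMap ℝ K c = 0 := by
    have h3 := minpoly.aeval ℝ t
    rw [← hm, hform] at h3
    simpa using h3
  by_cases hdisc : 0 ≤ b ^ 2 - 4 * c
  · -- a real root
    set r := (-b + Real.sqrt (b ^ 2 - 4 * c)) / 2 with hr
    have hr0 : m.IsRoot r := by
      rw [IsRoot, hform]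
      simp only [eval_add, eval_mul, eval_pow, eval_X, eval_C]
      have h5 := Real.sq_sqrt hdisc
      rw [hr]
      nlinarith [h5]
    have := degree_eq_one_of_irreducible_of_root hirr hr0
    exact hne1 (natDegree_eq_of_degree_eq_some this)
  · push Not at hdisc
    set d := Real.sqrt (4 * c - b ^ 2) with hd
    have hdpos : 0 < d := Real.sqrt_pos.2 (by linarith)
    have hdsq : d ^ 2 = 4 * c - b ^ 2 := Real.sq_sqrt (by linarith)
    have h5 : (2 * t + algebraMap ℝ K b) ^ 2 + (algebraMap ℝ K d) ^ 2 = 0 := by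
      rw [← map_pow, hdsq, map_sub, map_mul, map_pow, map_ofNat]
      linear_combination 4 * hroot
    have h6 := hK Bool (fun x => if x then 2 * t + algebraMap ℝ K b else algebraMap ℝ K d)
      (by rw [Fintype.sum_bool]; simpa using h5)
    have h7 := congrFun h6 false
    simp only [Bool.false_eq_true, if_false, Pi.zero_apply] at h7
    rw [map_eq_zero_iff _ (algebraMap ℝ K).injective] at h7
    exact hdpos.ne' h7

variable {ι : Type} [Fintype ι] [DecidableEq ι]

lemma mulVec_bl {R : Type} [CommRing R] {M : Matrix ι ι R} (hM : M.IsSymm) (u v : ι → R) :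
    bl M u v = ∑ j, (Matrix.mulVec M u j) * v j := by
  rw [bl_apply, Finset.sum_comm]
  refine Finset.sum_congr rfl fun j _ => ?_
  rw [← Finset.sum_mul]
  congr 1
  rw [Matrix.mulVec, dotProduct]
  refine Finset.sum_congr rfl fun i _ => ?_
  rw [hM.apply i j]; ring

open MvPolynomial in
/-- The ideal contains no linear form. -/
lemma linear_not_mem {k : Type} [Field k] {A B : Matrix ι ι k} {l : ι → k}
    (h : ∑ i, MvPolynomial.C (l i) * MvPolynomial.X i ∈ idealX A B) : l = 0 := by
  funext i0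
  let w : ι → k := Pi.single i0 1
  let φ : MvPolynomial ι k →ₐ[k] DualNumber k :=
    aeval fun i => (w i) • (DualNumber.eps : DualNumber k)
  have hφ : ∀ M : Matrix ι ι k, φ (quad M) = 0 := by
    intro M
    simp only [quad, map_sum, map_mul, φ, MvPolynomial.aeval_X]
    refine Finset.sum_eq_zero fun i _ => Finset.sum_eq_zero fun j _ => ?_
    have : ((w i) • (DualNumber.eps : DualNumber k)) * ((w j) • DualNumber.eps) = 0 := by
      rw [smul_mul_smul_comm, DualNumber.eps_mul_eps, smul_zero]
    rw [mul_assoc, this, mul_zero]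
  have hle : idealX A B ≤ RingHom.ker φ := by
    rw [idealX, Ideal.span_le]
    rintro q (rfl | rfl)
    · exact hφ A
    · exact hφ B
  have h1 : φ (∑ i, MvPolynomial.C (l i) * MvPolynomial.X i) = 0 := hle h
  have h2 : φ (∑ i, MvPolynomial.C (l i) * MvPolynomial.X i) =
      (∑ i, l i * w i) • (DualNumber.eps : DualNumber k) := by
    rw [map_sum, Finset.sum_smul]
    refine Finset.sum_congr rfl fun i _ => ?_
    simp only [map_mul, φ, MvPolynomial.aeval_X, algHom_C]
    rw [← Algebra.smul_def, smul_smul]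
  rw [h2] at h1
  have h3 := congrArg TrivSqZeroExt.snd h1
  simp only [TrivSqZeroExt.snd_smul, DualNumber.snd_eps, smul_eq_mul, mul_one,
    TrivSqZeroExt.snd_zero] at h3
  rw [Finset.sum_eq_single i0] at h3
  · simpa [w] using h3
  · intro j _ hj
    simp [w, hj]
  · intro hi; exact absurd (Finset.mem_univ _) hi

open MvPolynomial in
lemma GenPt.lin {A B : Matrix ι ι ℝ} {L : Type} [Field L] [Algebra ℝ L] {x : ι → L}
    (h : GenPt A B x) {l : ι → ℝ} (hl : ∑ i, algebraMap ℝ L (l i) * x i = 0) : l = 0 := by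
  apply linear_not_mem (A := A) (B := B)
  rw [← h]
  simpa using hl

open MvPolynomial in
lemma GenPt.zero {A B M : Matrix ι ι ℝ} {L : Type} [Field L] [Algebra ℝ L] {x : ι → L}
    (h : GenPt A B x) (hM : quad M ∈ idealX A B) : bl (toK L M) x x = 0 := by
  have h1 := (h (quad M)).2 hM
  rw [bl_apply, ← h1]
  simp only [quad, map_sum, map_mul, MvPolynomial.aeval_X, algHom_C, toK, Matrix.map_apply]
  refine Finset.sum_congr rfl fun i _ => Finset.sum_congr rfl fun j _ => ?_
  ring

/-- The field of ratios of the coordinates. -/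
noncomputable abbrev RF {L : Type} [Field L] [Algebra ℝ L] (x : ι → L) : IntermediateField ℝ L :=
  IntermediateField.adjoin ℝ (ratios x)

omit [Fintype ι] [DecidableEq ι] in
lemma FReal.sub {L : Type} [Field L] [Algebra ℝ L] (hL : FReal L) (K : IntermediateField ℝ L) :
    FReal K := by
  intro P _ v hv
  have h1 := hL P (fun i => (v i : L)) (by
    have := congrArg (fun z : K => (z : L)) hv
    simpa using this)
  funext i
  exact Subtype.ext (congrFun h1 i)

/-- The dehomogenised coordinates. -/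
noncomputable def dehom {L : Type} [Field L] [Algebra ℝ L] (x : ι → L) (i0 : ι) (i : ι) : RF x :=
  ⟨x i / x i0, IntermediateField.subset_adjoin _ _ ⟨i, i0, rfl⟩⟩

omit [Fintype ι] [DecidableEq ι] in
/-- The dehomogenised coordinates generate the field of ratios. -/
lemma adjoin_dehom {L : Type} [Field L] [Algebra ℝ L] {x : ι → L} {i0 : ι} (hx0 : x i0 ≠ 0) :
    IntermediateField.adjoin ℝ (Set.range (dehom x i0)) = ⊤ := by
  have h1 : (IntermediateField.adjoin ℝ (Set.range (dehom x i0))).map (RF x).val = RF x := by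
    rw [IntermediateField.adjoin_map]
    apply le_antisymm
    · rw [IntermediateField.adjoin_le_iff]
      rintro z ⟨w, ⟨i, rfl⟩, rfl⟩
      exact (dehom x i0 i).2
    · rw [IntermediateField.adjoin_le_iff]
      rintro z ⟨i, j, rfl⟩
      have h2 : ∀ i, x i / x i0 ∈ IntermediateField.adjoin ℝ
          ((RF x).val '' Set.range (dehom x i0)) := fun i =>
        IntermediateField.subset_adjoin _ _ ⟨dehom x i0 i, ⟨i, rfl⟩, rfl⟩
      have h3 := div_mem (h2 i) (h2 j)
      rwa [div_div_div_cancel_right₀ hx0] at h3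
  rw [eq_top_iff]
  intro z _
  have h2 : (z : L) ∈ (IntermediateField.adjoin ℝ (Set.range (dehom x i0))).map (RF x).val := by
    rw [h1]; exact z.2
  obtain ⟨w, hw, hwz⟩ := h2
  have : w = z := Subtype.ext hwz
  rwa [← this]

lemma bl_smul_smul {R : Type} [CommRing R] (M : Matrix ι ι R) (c : R) (u : ι → R) :
    bl M (c • u) (c • u) = c ^ 2 * bl M u u := by
  rw [map_smul, map_smul, LinearMap.smul_apply, smul_eq_mul, smul_eq_mul]; ring

/-- Every generic point such that the quotients of linear forms are transcendental gives a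
presentation. -/
theorem core_state' {A B : Matrix ι ι ℝ} (hA : A.IsSymm) (hB : B.IsSymm) {L : Type} [Field L]
    [Algebra ℝ L] {x : ι → L} (hgen : GenPt A B x) {i0 : ι} (hx0 : x i0 ≠ 0)
    (hT : ∀ (l l' : ι → ℝ) (t : L), l ≠ 0 → (∀ c : ℝ, l' ≠ c • l) →
      (∑ i, algebraMap ℝ L (l' i) * x i = t * ∑ i, algebraMap ℝ L (l i) * x i) →
      ∀ q : ℝ[X], q ≠ 0 → aeval t q ≠ 0)
    {p : ι → ℝ} (hpA : bl A p p = 0) (hpB : bl B p p = 0) (hAp : Matrix.mulVec A p ≠ 0)
    (hind : ∀ c : ℝ, Matrix.mulVec B p ≠ c • Matrix.mulVec A p)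
    (hdet : (pencilX A B).det ≠ 0) :
    ∃ (t : RF x) (m : ℕ) (h : Fin m → ℝ[X]) (j0 : Fin m), Trans t ∧ m + 2 = Fintype.card ι ∧
      (∀ j, h j ≠ 0) ∧ StAt t 0 h j0 ∧
      ∀ᶠ s in (cofinite : Filter ℝ), negIdx (B - s • A) = cnt h s + 1 := by
  set Y := dehom x i0 with hY
  have hval : ∀ i, ((Y i : RF x) : L) = (x i0)⁻¹ * x i := fun i => by
    rw [hY]; exact div_eq_inv_mul _ _
  have hlin : ∀ l : ι → ℝ, ∑ i, algebraMap ℝ (RF x) (l i) * Y i = 0 → l = 0 := by
    intro l hl
    apply hgen.lin
    have h1 := congrArg (fun z : RF x => (z : L)) hl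
    have h2 : (x i0)⁻¹ * ∑ i, algebraMap ℝ L (l i) * x i = 0 := by
      rw [Finset.mul_sum]
      have h3 : ((∑ i, algebraMap ℝ (RF x) (l i) * Y i : RF x) : L) =
          ∑ i, (x i0)⁻¹ * (algebraMap ℝ L (l i) * x i) := by
        rw [IntermediateField.coe_sum]
        refine Finset.sum_congr rfl fun i _ => ?_
        rw [IntermediateField.coe_mul, hval]
        have : ((algebraMap ℝ (RF x) (l i) : RF x) : L) = algebraMap ℝ L (l i) := rfl
        rw [this]; ring
      rw [← h3]
      exact h1
    exact (mul_eq_zero.1 h2).resolve_left (inv_ne_zero hx0)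
  have hzero : ∀ M : Matrix ι ι ℝ, bl (toK L M) x x = 0 → bl (toK (RF x) M) Y Y = 0 := by
    intro M hM
    have h1 := bl_map (algebraMap (RF x) L) (toK (RF x) M) Y Y
    have h2 : (toK (RF x) M).map (algebraMap (RF x) L) = toK L M := by
      ext i j; rfl
    have h3 : (fun i => algebraMap (RF x) L (Y i)) = (x i0)⁻¹ • x := by
      funext i; exact hval i
    rw [h2, h3, bl_smul_smul, hM, mul_zero] at h1
    exact (map_eq_zero_iff _ (algebraMap (RF x) L).injective).1 h1
  have hfA := hzero A (hgen.zero (Ideal.subset_span (Or.inl rfl)))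
  have hfB := hzero B (hgen.zero (Ideal.subset_span (Or.inr rfl)))
  set pK : ι → RF x := fun i => algebraMap ℝ (RF x) (p i) with hpK
  have hsymmK : ∀ M : Matrix ι ι ℝ, M.IsSymm → (toK (RF x) M).IsSymm := fun M hM => by
    ext i j
    simp only [toK, Matrix.transpose_apply, Matrix.map_apply, hM.apply]
  have hform : ∀ M : Matrix ι ι ℝ, M.IsSymm → bl (toK (RF x) M) pK Y =
      ∑ j, algebraMap ℝ (RF x) (Matrix.mulVec M p j) * Y j := by
    intro M hM
    rw [mulVec_bl (hsymmK M hM)]
    refine Finset.sum_congr rfl fun j _ => ?_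
    congr 1
    rw [Matrix.mulVec, Matrix.mulVec, dotProduct, dotProduct, map_sum]
    refine Finset.sum_congr rfl fun i _ => ?_
    rw [map_mul]; rfl
  have hA0 : bl (toK (RF x) A) pK Y ≠ 0 := by
    rw [hform A hA]
    intro h0
    exact hAp (hlin _ h0)
  set t : RF x := bl (toK (RF x) B) pK Y / bl (toK (RF x) A) pK Y with ht
  have htdef : bl (toK (RF x) B) pK Y = t * bl (toK (RF x) A) pK Y := by
    rw [ht, div_mul_cancel₀ _ hA0]
  have htr : Trans t := by
    intro q hq h0
    refine hT (Matrix.mulVec A p) (Matrix.mulVec B p) (t : L) hAp hind ?_ q hq ?_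
    · have h1 := congrArg (fun z : RF x => (z : L)) htdef
      rw [hform A hA, hform B hB] at h1
      have h2 : ∀ l : ι → ℝ, ((∑ j, algebraMap ℝ (RF x) (l j) * Y j : RF x) : L) =
          (x i0)⁻¹ * ∑ j, algebraMap ℝ L (l j) * x j := by
        intro l
        rw [IntermediateField.coe_sum, Finset.mul_sum]
        refine Finset.sum_congr rfl fun i _ => ?_
        rw [IntermediateField.coe_mul, hval]
        have : ((algebraMap ℝ (RF x) (l i) : RF x) : L) = algebraMap ℝ L (l i) := rfl
        rw [this]; ring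
      simp only [IntermediateField.coe_mul, h2] at h1
      have h3 : (x i0)⁻¹ ≠ 0 := inv_ne_zero hx0
      have h4 : (x i0)⁻¹ * (∑ j, algebraMap ℝ L (Matrix.mulVec B p j) * x j -
          (t : L) * ∑ j, algebraMap ℝ L (Matrix.mulVec A p j) * x j) = 0 := by
        linear_combination h1
      exact sub_eq_zero.1 ((mul_eq_zero.1 h4).resolve_left h3)
    · have h1 : aeval (t : L) q = ((aeval t q : RF x) : L) := by
        have := aeval_algebraMap_apply L t q
        exact this
      rw [h1, h0]; rfl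
  obtain ⟨m, h, j0, a1, a2, a3, a4⟩ := init_state hA hB (x := Y) (i0 := i0)
    (by apply Subtype.ext; rw [hval, inv_mul_cancel₀ hx0]; rfl) (adjoin_dehom hx0) hfA hfB hpA hpB
    hAp hlin hdet htdef htr
  exact ⟨t, m, h, j0, htr, a1, a2, a3, a4⟩

/-- Every generic point in a formally real field gives a presentation. -/
theorem core_state {A B : Matrix ι ι ℝ} (hA : A.IsSymm) (hB : B.IsSymm) {L : Type} [Field L]
    [Algebra ℝ L] (hL : FReal L) {x : ι → L} (hgen : GenPt A B x) {i0 : ι} (hx0 : x i0 ≠ 0)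
    {p : ι → ℝ} (hpA : bl A p p = 0) (hpB : bl B p p = 0) (hAp : Matrix.mulVec A p ≠ 0)
    (hind : ∀ c : ℝ, Matrix.mulVec B p ≠ c • Matrix.mulVec A p)
    (hdet : (pencilX A B).det ≠ 0) :
    ∃ (t : RF x) (m : ℕ) (h : Fin m → ℝ[X]) (j0 : Fin m), Trans t ∧ m + 2 = Fintype.card ι ∧
      (∀ j, h j ≠ 0) ∧ StAt t 0 h j0 ∧
      ∀ᶠ s in (cofinite : Filter ℝ), negIdx (B - s • A) = cnt h s + 1 := by
  refine core_state' hA hB hgen hx0 ?_ hpA hpB hAp hind hdet
  intro l l' t hl hl' htl
  refine hL.trans (t := t) fun c hc => ?_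
  rw [hc, Finset.mul_sum, ← sub_eq_zero, ← Finset.sum_sub_distrib] at htl
  have h1 : ∑ j, algebraMap ℝ L ((l' - c • l) j) * x j = 0 := by
    rw [← htl]
    refine Finset.sum_congr rfl fun j _ => ?_
    rw [Pi.sub_apply, Pi.smul_apply, smul_eq_mul, map_sub, map_mul]
    ring
  exact hl' c (sub_eq_zero.1 (hgen.lin h1))

end MP_d2f638_ag
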