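import Pool.Agent.Lib.MP_d2f638_ag.Init

/-!
# Counting functions
-/

namespace MP_d2f638_ag

open Polynomial Filter

/-- Jump points of a monotone step function. -/
lemma exists_jumps {M : ℕ} (E : ℝ → ℕ) (hmono : Monotone E) (hle : ∀ s, E s ≤ M + 1)
    (h0 : ∃ s, E s = 0) (h1 : ∃ s, E s = M + 1) :
    ∃ b : Option (Fin M) → ℝ, ∀ᶠ s in (cofinite : Filter ℝ),
      cnt (fun j => X - C (b j)) s + E s = M + 1 := by
  have hcard : Fintype.card (Option (Fin M)) = Fintype.card (Fin (M + 1)) := by simp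
  let e : Option (Fin M) ≃ Fin (M + 1) := Fintype.equivOfCardEq hcard
  let b' : Fin (M + 1) → ℝ := fun q => sInf {s | (q : ℕ) < E s}
  refine ⟨fun j => b' (e j), ?_⟩
  obtain ⟨s0, hs0⟩ := h0
  obtain ⟨s1, hs1⟩ := h1
  have hbdd : ∀ q : Fin (M + 1), BddBelow {s | (q : ℕ) < E s} := by
    intro q
    refine ⟨s0, fun s hs => ?_⟩
    by_contra hlt
    push Not at hlt
    have h3 := hmono hlt.le
    have h4 : (q : ℕ) < E s := hs
    omega
  have hne : ∀ q : Fin (M + 1), {s | (q : ℕ) < E s}.Nonempty := by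
    intro q
    refine ⟨s1, ?_⟩
    show (q : ℕ) < E s1
    rw [hs1]
    exact q.2
  have hgen : ∀ᶠ s in (cofinite : Filter ℝ), ∀ q : Fin (M + 1), s ≠ b' q := by
    rw [Filter.eventually_all]
    intro q
    have : ({b' q} : Set ℝ)ᶜ ∈ (cofinite : Filter ℝ) := by
      rw [mem_cofinite, compl_compl]
      exact Set.finite_singleton _
    filter_upwards [this] with s hs
    exact hs
  filter_upwards [hgen] with s hs
  have hiff : ∀ q : Fin (M + 1), s < b' q ↔ ¬ ((q : ℕ) < E s) := by
    intro q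
    constructor
    · intro h2 h3
      exact absurd (csInf_le (hbdd q) h3) (not_le.2 h2)
    · intro h2
      by_contra h3
      push Not at h3
      have h4 : b' q < s := lt_of_le_of_ne h3 (fun h5 => hs q h5.symm)
      obtain ⟨s', hs', hlt⟩ := exists_lt_of_csInf_lt (hne q) h4
      exact h2 (lt_of_lt_of_le hs' (hmono hlt.le))
  have h2 : cnt (fun j => X - C (b' (e j))) s = ∑ q : Fin (M + 1), if s < b' q then 1 else 0 := by
    rw [cnt]
    refine Fintype.sum_equiv e _ _ (fun j => ?_)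
    have : (X - C (b' (e j))).eval s < 0 ↔ s < b' (e j) := by
      rw [eval_sub, eval_X, eval_C, sub_neg]
    simp only [this]
  have h3 := card_lt_fin (M + 1) (E s) (hle s)
  rw [h2]
  have h4 : (∑ q : Fin (M + 1), if s < b' q then 1 else 0) + E s = ∑ q : Fin (M + 1), 1 := by
    calc (∑ q : Fin (M + 1), if s < b' q then 1 else 0) + E s
        = (∑ q : Fin (M + 1), if s < b' q then 1 else 0) +
          ∑ q : Fin (M + 1), if (q : ℕ) < E s then 1 else 0 := by rw [h3]
      _ = _ := ?_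
    rw [← Finset.sum_add_distrib]
    refine Finset.sum_congr rfl fun q _ => ?_
    by_cases h5 : (q : ℕ) < E s
    · rw [if_neg (fun h6 => (hiff q).1 h6 h5), if_pos h5]
    · rw [if_pos ((hiff q).2 h5), if_neg h5]
  rw [h4]
  simp

variable {ι : Type} [Fintype ι] [DecidableEq ι]

lemma bl_mulVec {ι' : Type} [Fintype ι'] [DecidableEq ι'] (M : Matrix ι ι ℝ) (P : Matrix ι ι' ℝ)
    (u v : ι' → ℝ) : bl M (P.mulVec u) (P.mulVec v) = bl (P.transpose * M * P) u v := by
  simp only [bl, Matrix.toBilin'_apply']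
  rw [← Matrix.mulVec_mulVec, ← Matrix.mulVec_mulVec, Matrix.dotProduct_mulVec,
    Matrix.dotProduct_mulVec u, Matrix.vecMul_transpose, ← Matrix.dotProduct_mulVec]

lemma negIdx_congr {ι' : Type} [Fintype ι'] [DecidableEq ι'] (M : Matrix ι ι ℝ)
    {P : Matrix ι ι' ℝ} {Q : Matrix ι' ι ℝ} (hPQ : P * Q = 1) (hQP : Q * P = 1) :
    negIdx (P.transpose * M * P) = negIdx M := by
  apply QuadraticMap.Equivalent.sigNeg_eq
  refine ⟨⟨Matrix.toLin'OfInv hQP hPQ, ?_⟩⟩
  intro u
  show bl M (P.mulVec u) (P.mulVec u) = bl (P.transpose * M * P) u u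
  rw [bl_mulVec]

lemma negIdx_diagonal (w : ι → ℝ) :
    negIdx (Matrix.diagonal w) = ∑ i, if w i < 0 then 1 else 0 := by
  have h1 : (bl (Matrix.diagonal w)).toQuadraticMap = QuadraticMap.weightedSumSquares ℝ w := by
    ext u
    show bl (Matrix.diagonal w) u u = _
    rw [bl_apply, QuadraticMap.weightedSumSquares_apply]
    refine Finset.sum_congr rfl fun i _ => ?_
    rw [Finset.sum_eq_single i]
    · rw [Matrix.diagonal_apply_eq, smul_eq_mul]; ring
    · intro j _ hj
      rw [Matrix.diagonal_apply_ne _ hj.symm]; ring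
    · intro hi; exact absurd (Finset.mem_univ i) hi
  rw [negIdx, h1, QuadraticForm.sigNeg_weightedSumSquares, ← Finset.card_filter,
    Set.ncard_eq_toFinset_card']
  congr 1
  ext i
  simp

lemma negIdx_reindex {ι' : Type} [Fintype ι'] [DecidableEq ι'] (M : Matrix ι ι ℝ) (e : ι' ≃ ι) :
    negIdx (M.submatrix e e) = negIdx M := by
  have h1 : ((1 : Matrix ι ι ℝ).submatrix id e).transpose * M * (1 : Matrix ι ι ℝ).submatrix id e =
      M.submatrix e e := by
    ext i j
    simp [Matrix.mul_apply, Matrix.one_apply]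
  rw [← h1]
  refine negIdx_congr M (Q := (1 : Matrix ι ι ℝ).submatrix e id) ?_ ?_
  · rw [Matrix.submatrix_mul_equiv, Matrix.mul_one, Matrix.submatrix_id_id]
  · rw [← Matrix.submatrix_mul _ _ _ id _ Function.bijective_id, Matrix.mul_one,
      Matrix.submatrix_one_equiv]

end MP_d2f638_ag
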