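import Mathlib

/-!
# Intersections of two real quadrics: definitions

A symmetric matrix `A` indexed by `ι` stands for the quadratic form `xᵀ A x` in the variables
`x i`, `i : ι`. Two such matrices `A`, `B` define the projective variety `X : xᵀ A x = xᵀ B x = 0`.
-/

namespace MP_d2f638_ag

open MvPolynomial

/-- The quadratic form `∑ A i j x i x j` of a matrix, as a polynomial. -/
noncomputable def quad {ι : Type} [Fintype ι] {k : Type} [CommRing k] (A : Matrix ι ι k) :
    MvPolynomial ι k :=
  ∑ i, ∑ j, C (A i j) * X i * X j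

/-- The homogeneous ideal generated by the two quadratic forms. -/
noncomputable def idealX {ι : Type} [Fintype ι] {k : Type} [CommRing k] (A B : Matrix ι ι k) :
    Ideal (MvPolynomial ι k) :=
  Ideal.span {quad A, quad B}

section

variable {ι : Type} [Fintype ι]

/-- The homogeneous coordinate ring of `X`. -/
def CoordRing (A B : Matrix ι ι ℝ) : Type := MvPolynomial ι ℝ ⧸ idealX A B

noncomputable instance instCoordRing (A B : Matrix ι ι ℝ) : CommRing (CoordRing A B) :=
  Ideal.Quotient.commRing (idealX A B)

/-- The class of the coordinate `x i` in the homogeneous coordinate ring. -/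
noncomputable def coordCls (A B : Matrix ι ι ℝ) (i : ι) : CoordRing A B :=
  Ideal.Quotient.mk (idealX A B) (X i)

/-- The fraction field of the homogeneous coordinate ring (if the ideal is prime). -/
def FracField (A B : Matrix ι ι ℝ) : Type := FractionRing (CoordRing A B)

noncomputable instance instFracField (A B : Matrix ι ι ℝ) [(idealX A B).IsPrime] :
    Field (FracField A B) :=
  @FractionRing.field (CoordRing A B) _ (Ideal.Quotient.isDomain (idealX A B))

noncomputable instance instCoordAlg (A B : Matrix ι ι ℝ) : Algebra ℝ (CoordRing A B) :=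
  Ideal.Quotient.algebra ℝ

noncomputable instance instFracAlg (A B : Matrix ι ι ℝ) [(idealX A B).IsPrime] :
    Algebra ℝ (FracField A B) :=
  inferInstanceAs (Algebra ℝ (FractionRing (CoordRing A B)))

/-- The coordinate `x i` as an element of the fraction field of the homogeneous coordinate
ring. -/
noncomputable def coord (A B : Matrix ι ι ℝ) (i : ι) : FracField A B :=
  algebraMap (CoordRing A B) (FractionRing (CoordRing A B)) (coordCls A B i)

/-- The function field of the projective variety `X` of a prime ideal `(quad A, quad B)`: the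
subfield of the fraction field of the homogeneous coordinate ring generated by the ratios of the
coordinates. -/
noncomputable def fnField (A B : Matrix ι ι ℝ) [(idealX A B).IsPrime] :
    IntermediateField ℝ (FracField A B) :=
  IntermediateField.adjoin ℝ {z | ∃ i j, z = coord A B i / coord A B j}

end

/-- The field `ℝ(t₁, …, t_d)` of rational functions. -/
def RatField (d : ℕ) : Type := FractionRing (MvPolynomial (Fin d) ℝ)

noncomputable instance instRatField (d : ℕ) : Field (RatField d) :=
  FractionRing.field (MvPolynomial (Fin d) ℝ)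

noncomputable instance instRatAlg (d : ℕ) : Algebra ℝ (RatField d) :=
  inferInstanceAs (Algebra ℝ (FractionRing (MvPolynomial (Fin d) ℝ)))

/-- `X` is integral and its function field is purely transcendental over `ℝ` of degree `d`, that
is, `X` is birational over `ℝ` to projective space of dimension `d`. -/
def RRational {ι : Type} [Fintype ι] (d : ℕ) (A B : Matrix ι ι ℝ) : Prop :=
  ∃ _ : (idealX A B).IsPrime, Nonempty (fnField A B ≃ₐ[ℝ] RatField d)

open Matrix

variable {ι : Type} [Fintype ι]

/-- The complex matrix of a real matrix. -/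
noncomputable def cx (A : Matrix ι ι ℝ) : Matrix ι ι ℂ := A.map (algebraMap ℝ ℂ)

/-- The two quadrics `xᵀ A x = xᵀ B x = 0` in complex projective space meet transversally at each
common point: the gradients `A z` and `B z` are linearly independent (Jacobian criterion), so that
they define a smooth complete intersection. -/
def SmoothCI (A B : Matrix ι ι ℝ) : Prop :=
  ∀ z : ι → ℂ, z ≠ 0 → z ⬝ᵥ (cx A *ᵥ z) = 0 → z ⬝ᵥ (cx B *ᵥ z) = 0 →
    LinearIndependent ℂ ![cx A *ᵥ z, cx B *ᵥ z]

/-- The nonzero real vectors on which both quadratic forms vanish. -/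
abbrev RealCone (A B : Matrix ι ι ℝ) : Type :=
  {x : ι → ℝ // x ≠ 0 ∧ x ⬝ᵥ (A *ᵥ x) = 0 ∧ x ⬝ᵥ (B *ᵥ x) = 0}

/-- Two real vectors are identified when they are proportional. -/
def coneSetoid (A B : Matrix ι ι ℝ) : Setoid (RealCone A B) where
  r x y := ∃ c : ℝ, c ≠ 0 ∧ y.1 = c • x.1
  iseqv := by
    refine ⟨fun x => ⟨1, one_ne_zero, (one_smul ℝ x.1).symm⟩, ?_, ?_⟩
    · rintro x y ⟨c, hc, h⟩
      exact ⟨c⁻¹, inv_ne_zero hc, by rw [h, smul_smul, inv_mul_cancel₀ hc, one_smul]⟩
    · rintro x y z ⟨c, hc, h⟩ ⟨d, hd, h'⟩
      exact ⟨d * c, mul_ne_zero hd hc, by rw [h', h, smul_smul]⟩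

/-- The space `X(ℝ)` of real points of the projective variety `xᵀ A x = xᵀ B x = 0`, with the
(quotient) Euclidean topology. -/
abbrev RealPoints (A B : Matrix ι ι ℝ) : Type := Quotient (coneSetoid A B)

/-- The form `- x₀² + ∑ x_s²`. -/
def lorA (S : Type) [DecidableEq S] : Matrix (Option S) (Option S) ℝ :=
  Matrix.diagonal fun o => o.elim (-1) (fun _ => 1)

/-- The form `∑ a_s x_s²` (the variable `x₀` does not occur). -/
def lorB {S : Type} [DecidableEq S] (a : S → ℝ) : Matrix (Option S) (Option S) ℝ :=
  Matrix.diagonal fun o => o.elim 0 a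

/-- The pencils which are, after real changes of coordinates and of the basis of the pencil, of the
form `x₀² = ∑ x_s²`, `∑ a_s x_s² = 0` with `k` positive and `l` negative coefficients (all distinct
and nonzero), `k, l ≥ 2`, such that the exact powers of `2` dividing `k - 1` and `l - 1` differ. -/
def Exceptional {ι : Type} [Fintype ι] [DecidableEq ι] (A B : Matrix ι ι ℝ) : Prop :=
  ∃ (S : Type) (_ : Fintype S) (_ : DecidableEq S) (a : S → ℝ) (P : Matrix ι (Option S) ℝ)
    (Q : Matrix (Option S) ι ℝ) (α β γ δ : ℝ),
    P * Q = 1 ∧ Q * P = 1 ∧ α * δ - β * γ ≠ 0 ∧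
    Pᵀ * (α • A + β • B) * P = lorA S ∧ Pᵀ * (γ • A + δ • B) * P = lorB a ∧
    (∀ s, a s ≠ 0) ∧ Function.Injective a ∧
    2 ≤ (Finset.univ.filter fun s => 0 < a s).card ∧
    2 ≤ (Finset.univ.filter fun s => a s < 0).card ∧
    padicValNat 2 ((Finset.univ.filter fun s => 0 < a s).card - 1) ≠
      padicValNat 2 ((Finset.univ.filter fun s => a s < 0).card - 1)

end MP_d2f638_ag
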