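import Pool.Agent.Lib.MP_d2f638_ag.ComplexPoint

/-!
# Descent to the real numbers
-/

namespace MP_d2f638_ag

open MvPolynomial Matrix

variable {ι : Type} [Fintype ι] [DecidableEq ι]

/-- Extension of scalars of polynomials. -/
noncomputable abbrev toC (ι : Type) : MvPolynomial ι ℝ →+* MvPolynomial ι ℂ :=
  MvPolynomial.map (algebraMap ℝ ℂ)

omit [Fintype ι] [DecidableEq ι] in
/-- Real and imaginary part of a polynomial. -/
lemma exists_re_im (p : MvPolynomial ι ℂ) :
    ∃ u v : MvPolynomial ι ℝ, p = toC ι u + C Complex.I * toC ι v := by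
  induction p using MvPolynomial.induction_on with
  | C a =>
    refine ⟨C a.re, C a.im, ?_⟩
    rw [map_C, map_C, ← C_mul, ← C_add]
    congr 1
    show a = (a.re : ℂ) + Complex.I * (a.im : ℂ)
    rw [mul_comm]
    exact (Complex.re_add_im a).symm
  | add p q hp hq =>
    obtain ⟨u, v, h1⟩ := hp
    obtain ⟨u', v', h2⟩ := hq
    exact ⟨u + u', v + v', by rw [h1, h2, map_add, map_add]; ring⟩
  | mul_X p i hp =>
    obtain ⟨u, v, h1⟩ := hp
    exact ⟨u * X i, v * X i, by rw [h1, map_mul, map_mul, map_X]; ring⟩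

omit [Fintype ι] [DecidableEq ι] in
lemma re_im_zero {u v : MvPolynomial ι ℝ} (h : toC ι u + C Complex.I * toC ι v = 0) :
    u = 0 ∧ v = 0 := by
  constructor
  · ext m
    have h1 := congrArg (coeff m) h
    rw [coeff_add, coeff_C_mul, coeff_map, coeff_map, coeff_zero] at h1
    have h2 := congrArg Complex.re h1
    simpa using h2
  · ext m
    have h1 := congrArg (coeff m) h
    rw [coeff_add, coeff_C_mul, coeff_map, coeff_map, coeff_zero] at h1
    have h2 := congrArg Complex.im h1
    simpa using h2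

omit [DecidableEq ι] in
lemma toC_quad (A : Matrix ι ι ℝ) : toC ι (quad A) = quad (cx A) := by
  simp only [quad, map_sum, map_mul, map_C, map_X]
  rfl

omit [DecidableEq ι] in
lemma mem_descent {A B : Matrix ι ι ℝ} {p : MvPolynomial ι ℝ} :
    toC ι p ∈ idealX (cx A) (cx B) ↔ p ∈ idealX A B := by
  constructor
  · intro h
    rw [idealX, Ideal.mem_span_pair] at h
    obtain ⟨a, b, hab⟩ := h
    obtain ⟨a1, a2, ha⟩ := exists_re_im a
    obtain ⟨b1, b2, hb⟩ := exists_re_im b
    rw [ha, hb, ← toC_quad, ← toC_quad] at hab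
    have h1 : toC ι (a1 * quad A + b1 * quad B - p) +
        C Complex.I * toC ι (a2 * quad A + b2 * quad B) = 0 := by
      simp only [map_sub, map_add, map_mul]
      linear_combination hab
    have h2 := (re_im_zero h1).1
    rw [idealX, Ideal.mem_span_pair]
    exact ⟨a1, b1, sub_eq_zero.1 h2⟩
  · intro h
    rw [idealX, Ideal.mem_span_pair] at h ⊢
    obtain ⟨a, b, hab⟩ := h
    refine ⟨toC ι a, toC ι b, ?_⟩
    rw [← hab, map_add, map_mul, map_mul, toC_quad, toC_quad]

omit [DecidableEq ι] in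
/-- A complex generic point is a real generic point. -/
lemma GenK.real {A B : Matrix ι ι ℝ} {Ω : Type} [Field Ω] [Algebra ℂ Ω] [Algebra ℝ Ω]
    [IsScalarTower ℝ ℂ Ω] {x : ι → Ω} (h : GenK (cx A) (cx B) x) : GenPt A B x := by
  intro p
  rw [← mem_descent, ← h, aeval_map_algebraMap]

/-- Algebraically independent elements in the algebraic closure. -/
lemma le_trdeg_of_algebraic {Ω : Type} [Field Ω] [Algebra ℝ Ω] (E : IntermediateField ℝ Ω)
    {κ : Type} [Fintype κ] {z : κ → Ω} (hz : AlgebraicIndependent ℝ z)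
    (hzE : ∀ k, z k ∈ algebraicClosure E Ω) : (Fintype.card κ : Cardinal) ≤ Algebra.trdeg ℝ E := by
  let F := algebraicClosure E Ω
  let z' : κ → F := fun k => ⟨z k, hzE k⟩
  have hz' : AlgebraicIndependent ℝ z' := by
    have : AlgebraicIndependent ℝ ((AlgHom.restrictScalars ℝ F.val) ∘ z') := hz
    exact AlgebraicIndependent.of_comp _ this
  have h1 : (Fintype.card κ : Cardinal) ≤ Algebra.trdeg ℝ F := by
    rw [← Cardinal.mk_fintype]
    exact hz'.cardinalMk_le_trdeg
  have h2 := trdeg_add_eq ℝ E (A := F)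
  have h3 : Algebra.trdeg E F = 0 := trdeg_eq_zero
  rw [h3, add_zero] at h2
  rwa [h2]

/-- A smooth pencil has a generic point whose field of ratios is large and over which quotients of
independent real linear forms are transcendental. -/
theorem exists_point_of_det {A B : Matrix ι ι ℝ} (hA : A.IsSymm) (hB : B.IsSymm)
    (hdet : A.det ≠ 0) (h : SmoothCI A B) {n : ℕ} (hcard : Fintype.card ι = n + 3) (hn : 1 ≤ n) :
    ∃ (Ω : Type) (_ : Field Ω) (_ : Algebra ℝ Ω) (x : ι → Ω) (i0 : ι), GenPt A B x ∧ x i0 ≠ 0 ∧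
      (n : Cardinal) ≤ Algebra.trdeg ℝ (RF x) ∧
      ∀ (l l' : ι → ℝ) (t : Ω), l ≠ 0 → (∀ c : ℝ, l' ≠ c • l) →
        (∑ i, algebraMap ℝ Ω (l' i) * x i = t * ∑ i, algebraMap ℝ Ω (l i) * x i) →
        ∀ q : Polynomial ℝ, q ≠ 0 → Polynomial.aeval t q ≠ 0 := by
  obtain ⟨P, Q, lam, hPQ, hQP, hinj, hPA, hPB⟩ := complex_normal_form hA hB hdet h
  let τ := Fin (n + 1)
  let e : τ ⊕ Bool ≃ Fin (Fintype.card ι) := Fintype.equivOfCardEq (by
    rw [Fintype.card_sum, Fintype.card_fin, Fintype.card_fin, Fintype.card_bool, hcard])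
  let P' : Matrix ι (τ ⊕ Bool) ℂ := P.submatrix id e
  let Q' : Matrix (τ ⊕ Bool) ι ℂ := Q.submatrix e id
  have hPQ' : P' * Q' = 1 := by
    show P.submatrix id e * Q.submatrix e id = 1
    rw [Matrix.submatrix_mul_equiv, hPQ, Matrix.submatrix_id_id]
  have hQP' : Q' * P' = 1 := by
    show Q.submatrix e id * P.submatrix id e = 1
    rw [← Matrix.submatrix_mul _ _ _ id _ Function.bijective_id, hQP, Matrix.submatrix_one_equiv]
  have hconj : ∀ M : Matrix ι ι ℂ, P'.transpose * M * P' = (P.transpose * M * P).submatrix e e := by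
    intro M
    ext x y
    simp only [Matrix.mul_apply, Matrix.submatrix_apply, Matrix.transpose_apply, P', id]
  let la : τ → ℂ := fun i => lam (e (Sum.inl i))
  let c : Bool → ℂ := fun b => lam (e (Sum.inr b))
  have hA' : P'.transpose * cx A * P' = extA (1 : Matrix τ τ ℂ) := by
    rw [hconj, hPA, Matrix.submatrix_one_equiv, extA, Matrix.fromBlocks_one]
  have hB' : P'.transpose * cx B * P' = extB (Matrix.diagonal la) c := by
    rw [hconj, hPB, Matrix.submatrix_diagonal_equiv, extB, Matrix.fromBlocks_diagonal]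
    congr 1
    funext x
    rcases x with x | x <;> rfl
  have hla : Function.Injective la := fun i j hij => Sum.inl_injective (e.injective (hinj hij))
  have hc : c false ≠ c true := fun hcc => by
    have := Sum.inr_injective (e.injective (hinj hcc))
    exact absurd this (by decide)
  have hlc : ∀ i b, la i ≠ c b := fun i b hib => by
    have := e.injective (hinj hib)
    exact absurd this (by simp)
  obtain ⟨Ω, iF, iA, x, hx, hgen⟩ := exists_generic_closed (k := ℂ) two_ne_zero
    (by rw [Fintype.card_fin]; omega) la hla c hc hlc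
  rw [← hA', ← hB'] at hgen
  have hgen2 := hgen.change hPQ'
  set y : ι → Ω := fun i => ∑ j, algebraMap ℂ Ω (P' i j) * x j with hy
  letI iR : Algebra ℝ Ω := Algebra.compHom Ω (algebraMap ℝ ℂ)
  haveI : IsScalarTower ℝ ℂ Ω := IsScalarTower.of_algebraMap_eq fun _ => rfl
  have hgenR : GenPt A B y := hgen2.real
  have hlinC : ∀ l : ι → ℂ, ∑ i, algebraMap ℂ Ω (l i) * y i = 0 → l = 0 := by
    intro l hl
    apply linear_not_mem (A := cx A) (B := cx B)
    rw [← hgen2]
    simpa using hl
  obtain ⟨i0⟩ : Nonempty ι := Fintype.card_pos_iff.1 (by omega)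
  have hyi0 : y i0 ≠ 0 := by
    intro h0
    have h1 := hlinC (Pi.single i0 1) (by
      rw [Finset.sum_eq_single i0]
      · rw [h0, mul_zero]
      · intro j _ hj
        rw [Pi.single_eq_of_ne hj, map_zero, zero_mul]
      · intro hi; exact absurd (Finset.mem_univ _) hi)
    have h2 := congrFun h1 i0
    rw [Pi.single_eq_same] at h2
    exact one_ne_zero h2
  refine ⟨Ω, iF, iR, y, i0, hgenR, hyi0, ?_, ?_⟩
  · -- the transcendence degree
    apply trdeg_RF_of hyi0
    have hz : AlgebraicIndependent ℝ (fun i : τ => x (Sum.inl i)) :=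
      hx.restrictScalars (algebraMap ℝ ℂ).injective
    have := le_trdeg_of_algebraic (IntermediateField.adjoin ℝ (Set.range y)) hz ?_
    · rwa [Fintype.card_fin] at this
    · intro k
      have h1 : x (Sum.inl k) = ∑ i, algebraMap ℂ Ω (Q' (Sum.inl k) i) * y i := by
        have h3 : ∀ i, algebraMap ℂ Ω (Q' (Sum.inl k) i) * y i =
            ∑ j, algebraMap ℂ Ω (Q' (Sum.inl k) i * P' i j) * x j := by
          intro i
          rw [hy, Finset.mul_sum]
          refine Finset.sum_congr rfl fun j _ => ?_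
          rw [map_mul]; ring
        simp only [h3]
        rw [Finset.sum_comm]
        have h4 : ∀ j, ∑ i, algebraMap ℂ Ω (Q' (Sum.inl k) i * P' i j) * x j =
            algebraMap ℂ Ω ((Q' * P') (Sum.inl k) j) * x j := by
          intro j
          rw [Matrix.mul_apply, map_sum, Finset.sum_mul]
        simp only [h4, hQP']
        rw [Finset.sum_eq_single (Sum.inl k)]
        · rw [Matrix.one_apply_eq, map_one, one_mul]
        · intro j _ hj
          rw [Matrix.one_apply_ne hj.symm, map_zero, zero_mul]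
        · intro hi; exact absurd (Finset.mem_univ _) hi
      rw [h1]
      refine sum_mem fun i _ => mul_mem ?_ ?_
      · rw [mem_algebraicClosure_iff]
        have h2 : IsAlgebraic ℝ (Q' (Sum.inl k) i) := Algebra.IsAlgebraic.isAlgebraic _
        have h3 : IsAlgebraic ℝ (algebraMap ℂ Ω (Q' (Sum.inl k) i)) := h2.algebraMap
        exact h3.tower_top (IntermediateField.adjoin ℝ (Set.range y))
      · rw [mem_algebraicClosure_iff]
        exact isAlgebraic_algebraMap
          (⟨y i, IntermediateField.subset_adjoin _ _ ⟨i, rfl⟩⟩ :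
            IntermediateField.adjoin ℝ (Set.range y))
  · -- quotients of linear forms are transcendental
    intro l l' t hl hl' htl q hq h0
    have hR : IsAlgebraic ℝ t := ⟨q, hq, h0⟩
    have hC : IsAlgebraic ℂ t := hR.tower_top ℂ
    have hint : IsIntegral ℂ t := hC.isIntegral
    have hdeg := IsAlgClosed.degree_eq_one_of_irreducible ℂ (minpoly.irreducible hint)
    obtain ⟨d, hd⟩ := minpoly.degree_eq_one_iff.1 hdeg
    have h1 : ∑ i, algebraMap ℂ Ω ((l' i : ℂ) - d * (l i : ℂ)) * y i = 0 := by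
      rw [← hd, Finset.mul_sum, ← sub_eq_zero, ← Finset.sum_sub_distrib] at htl
      rw [← htl]
      refine Finset.sum_congr rfl fun j _ => ?_
      rw [map_sub, map_mul]
      have h2 : ∀ r : ℝ, algebraMap ℝ Ω r = algebraMap ℂ Ω (r : ℂ) := fun r => rfl
      rw [h2, h2]
      ring
    have h2 := hlinC _ h1
    obtain ⟨i1, hi1⟩ := Function.ne_iff.1 hl
    have hi1' : l i1 ≠ 0 := hi1
    apply hl' (l' i1 / l i1)
    funext j
    have h3 : (l' j : ℂ) = d * (l j : ℂ) := sub_eq_zero.1 (congrFun h2 j)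
    have h4 : (l' i1 : ℂ) = d * (l i1 : ℂ) := sub_eq_zero.1 (congrFun h2 i1)
    have hi1c : (l i1 : ℂ) ≠ 0 := by exact_mod_cast hi1'
    have h5 : d = ((l' i1 / l i1 : ℝ) : ℂ) := by
      rw [Complex.ofReal_div, h4]; field_simp
    rw [h5] at h3
    rw [Pi.smul_apply, smul_eq_mul]
    exact_mod_cast h3

end MP_d2f638_ag
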