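import Pool.Agent.Lib.MP_d2f638_ag.Sort

/-!
# Doubling the blocks, and the final step
-/

namespace MP_d2f638_ag

open Polynomial Filter

variable {K : Type} [Field K] [Algebra ℝ K]

lemma cnt_mul_pos {P : Type} [Fintype P] (h : P → ℝ[X]) {d : ℝ[X]} {s : ℝ} (hd : 0 < d.eval s) :
    cnt (fun j => d * h j) s = cnt h s := by
  refine Finset.sum_congr rfl fun j _ => ?_
  rw [eval_mul]
  have : d.eval s * (h j).eval s < 0 ↔ (h j).eval s < 0 := by
    rw [mul_neg_iff]
    constructor
    · rintro (h1 | h1)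
      · exact h1.2
      · linarith [h1.1]
    · exact fun h1 => Or.inl ⟨hd, h1⟩
  simp only [this]

lemma cnt_mul_neg {P : Type} [Fintype P] (h : P → ℝ[X]) {d : ℝ[X]} {s : ℝ} (hd : d.eval s < 0)
    (hne : ∀ j, (h j).eval s ≠ 0) :
    cnt (fun j => d * h j) s + cnt h s = Fintype.card P := by
  rw [cnt, cnt, ← Finset.sum_add_distrib, ← Finset.card_univ, Finset.card_eq_sum_ones]
  refine Finset.sum_congr rfl fun j _ => ?_
  rw [eval_mul]
  rcases lt_or_gt_of_ne (hne j) with h1 | h1
  · rw [if_neg (not_lt.2 (mul_pos_of_neg_of_neg hd h1).le), if_pos h1]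
  · rw [if_pos (mul_neg_of_neg_of_pos hd h1), if_neg (not_lt.2 h1.le)]

lemma cnt_le_card {P : Type} [Fintype P] (h : P → ℝ[X]) (s : ℝ) : cnt h s ≤ Fintype.card P := by
  rw [cnt, ← Finset.card_univ, Finset.card_eq_sum_ones]
  exact Finset.sum_le_sum fun j _ => by split_ifs <;> omega

/-- Predicates depending on counts are tame. -/
lemma tame_cnt {P P' : Type} [Fintype P] [Fintype P'] (h : P → ℝ[X]) (h' : P' → ℝ[X])
    (Ψ : ℕ → ℕ → Prop) : Tame (fun s => Ψ (cnt h s) (cnt h' s)) := by
  classical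
  have := tame_of_family (ι := P ⊕ P')
    (σ := fun i s => 0 < (Sum.elim (fun j => - h j) (fun j => - h' j) i).eval s)
    (fun i => tame_pos _)
    (fun f => Ψ (∑ j, if f (Sum.inl j) then 1 else 0) (∑ j, if f (Sum.inr j) then 1 else 0))
  convert this using 2 with s
  simp [cnt]

lemma St.scale {t : K} (ht : Trans t) {r : ℕ} {P : Type} [Fintype P] {h : P → ℝ[X]}
    (hst : St t r h) {d : ℝ[X]} (hd : d ≠ 0) : St t r (fun j => d * h j) :=
  ⟨fun j => mul_ne_zero hd (hst.1 j), fun p => (hst.2 p).scale ht (e := 1) (d := d) one_ne_zero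
    (fun j => by ring)⟩

/-- Adjusting the coefficient at one position when `r ≥ 1`. -/
lemma St.fix_last (hK : FReal K) {t : K} (ht : Trans t) {r : ℕ} {P : Type} [Fintype P]
    [DecidableEq P]
    (hd : ((2 ^ (r + 1) * (Fintype.card P - 1) : ℕ) : Cardinal) ≤ Algebra.trdeg ℝ K)
    {h g : P → ℝ[X]} (hst : St t (r + 1) h) (hg : ∀ j, g j ≠ 0) {o p : P} (hop : o ≠ p)
    (hoff : ∀ j, j ≠ o → h j = g j)
    (hs : ∀ᶠ u in (cofinite : Filter ℝ), 0 < (h o).eval u * (g o).eval u) :
    St t (r + 1) g := by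
  obtain ⟨x, y, z, hz, hxyz⟩ := sum_two_sq (p := h o * g o) (mul_ne_zero (hst.1 o) (hg o)) (by
    filter_upwards [hs] with u hu
    rwa [eval_mul])
  have h1 := (hst.2 p).scale_one ht (j := o) hop (g := g o) (x := x) (y := y) (z := g o * z)
    (mul_ne_zero (hg o) hz) (by
      rw [← hxyz]
      exact mul_ne_zero (mul_ne_zero (hst.1 o) (hg o)) (pow_ne_zero 2 hz))
    (by linear_combination g o * hxyz)
  have h2 : Function.update h o (g o) = g := by
    funext j
    by_cases hj : j = o
    · rw [hj, Function.update_self]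
    · rw [Function.update_of_ne hj, hoff j hj]
  rw [h2] at h1
  exact h1.st (hK.aniso _) hg hd

/-- For `r ≥ 1` and at least three positions the presentation depends only on the counts. -/
lemma St.lp (hK : FReal K) {t : K} (ht : Trans t) {r : ℕ} {P : Type} [Fintype P]
    [DecidableEq P]
    (hd : ((2 ^ (r + 1) * (Fintype.card P - 1) : ℕ) : Cardinal) ≤ Algebra.trdeg ℝ K)
    (hP : 3 ≤ Fintype.card P) {h g : P → ℝ[X]} (hst : St t (r + 1) h) (hg : ∀ j, g j ≠ 0)
    (hcnt : ∀ᶠ u in (cofinite : Filter ℝ), cnt g u = cnt h u) :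
    St t (r + 1) g := by
  obtain ⟨o, p, hop⟩ := Fintype.one_lt_card_iff.1 (show 1 < Fintype.card P by omega)
  obtain ⟨h', g1, g2, g3⟩ := hst.sort (hK.aniso _) ht hd hP g hg o hcnt (Finset.univ.erase o)
    (Finset.notMem_erase o _)
  have hoff : ∀ j, j ≠ o → h' j = g j := fun j hj =>
    g2 j (Finset.mem_erase.2 ⟨hj, Finset.mem_univ j⟩)
  refine g1.fix_last hK ht hd hg hop hoff ?_
  filter_upwards [g3, eventually_ne_zero (g1.1 o), eventually_ne_zero (hg o)] with u hu h1 h2
  have hsplit : ∀ f : P → ℝ[X], cnt f u = (if (f o).eval u < 0 then 1 else 0) +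
      ∑ j ∈ Finset.univ.erase o, if (f j).eval u < 0 then 1 else 0 := by
    intro f
    rw [cnt, Finset.add_sum_erase Finset.univ (fun j => if (f j).eval u < 0 then 1 else 0)
      (Finset.mem_univ o)]
  rw [hsplit h', hsplit g] at hu
  have he : (∑ j ∈ Finset.univ.erase o, if (h' j).eval u < 0 then 1 else 0) =
      ∑ j ∈ Finset.univ.erase o, if (g j).eval u < 0 then 1 else 0 := by
    refine Finset.sum_congr rfl fun j hj => ?_
    rw [hoff j (Finset.ne_of_mem_erase hj)]
  rw [he, Nat.add_right_cancel_iff] at hu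
  rcases lt_or_gt_of_ne h1 with a1 | a1 <;> rcases lt_or_gt_of_ne h2 with a2 | a2
  · exact mul_pos_of_neg_of_neg a1 a2
  · rw [if_pos a1, if_neg (not_lt.2 a2.le)] at hu; omega
  · rw [if_neg (not_lt.2 a1.le), if_pos a2] at hu; omega
  · exact mul_pos a1 a2

/-- `K` has a presentation with `M + 1` coefficients, of which `ε s` (or `M + 1 - ε s`) are
negative at almost every real `s`. -/
def HasSt (t : K) (r M : ℕ) (ε : ℝ → ℕ) : Prop :=
  ∃ h : Option (Fin M) → ℝ[X], (∀ j, h j ≠ 0) ∧ StAt t r h none ∧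
    ∀ᶠ s in (cofinite : Filter ℝ), cnt h s = ε s ∨ cnt h s + ε s = M + 1

lemma card_lt_fin (m k : ℕ) (hk : k ≤ m) : (∑ q : Fin m, if (q : ℕ) < k then 1 else 0) = k := by
  rw [Fin.sum_univ_eq_sum_range (fun q => if q < k then 1 else 0) m, ← Finset.sum_filter,
    Finset.sum_const, smul_eq_mul, mul_one]
  have : (Finset.range m).filter (fun q => q < k) = Finset.range k := by
    ext q
    simp only [Finset.mem_filter, Finset.mem_range]
    omega
  rw [this, Finset.card_range]

/-- Doubling. -/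
lemma HasSt.double (hK : FReal K) {t : K} (ht : Trans t) {r m : ℕ} (hm : 1 ≤ m) {ε : ℝ → ℕ}
    (hd : ((2 ^ r * (2 * m) : ℕ) : Cardinal) ≤ Algebra.trdeg ℝ K)
    (hst : HasSt t r (2 * m) ε) : HasSt t (r + 1) m (fun s => (ε s + 1) / 2) := by
  obtain ⟨h, hh, hst, hε⟩ := hst
  have hcard : Fintype.card (Option (Fin (2 * m))) = 2 * m + 1 := by simp
  have hd1 : ((2 ^ r * (Fintype.card (Option (Fin (2 * m))) - 1) : ℕ) : Cardinal) ≤ Algebra.trdeg ℝ K := by rw [hcard]; exact hd
  have hSt : St t r h := hst.st (hK.aniso _) hh hd1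
  -- make the counts even
  obtain ⟨d, hd0, hdsign⟩ := (tame_cnt h h (fun a _ => Even a)).exists_poly
  have hSt1 := hSt.scale ht hd0
  -- reindex
  have hcard2 : Fintype.card (Option (Fin m × Bool)) = 2 * m + 1 := by simp [mul_comm]
  let e : Option (Fin m × Bool) ≃ Option (Fin (2 * m)) :=
    Fintype.equivOfCardEq (by rw [hcard, hcard2])
  have hSt2 : St t r ((fun j => d * h j) ∘ e) :=
    ⟨fun j => hSt1.1 (e j), fun p => by
      have := (hSt1.2 (e p)).reindex e
      rwa [e.symm_apply_apply] at this⟩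
  set h2 : Option (Fin m × Bool) → ℝ[X] := (fun j => d * h j) ∘ e with hh2
  have hcnt2 : ∀ s, cnt h2 s = cnt (fun j => d * h j) s := fun s =>
    Fintype.sum_equiv e _ _ (fun _ => rfl)
  -- the new coefficients
  have hτ : ∀ q : Fin m, ∃ c : ℝ[X], c ≠ 0 ∧ ∀ᶠ s in (cofinite : Filter ℝ),
      (¬ ((q : ℕ) < cnt h2 s / 2) → 0 < c.eval s) ∧
      (¬ ¬ ((q : ℕ) < cnt h2 s / 2) → c.eval s < 0) := fun q =>
    (tame_cnt h2 h2 (fun a _ => ¬ ((q : ℕ) < a / 2))).exists_poly
  choose τ hτ0 hτs using hτ
  let g : Option (Fin m × Bool) → ℝ[X] := fun o => o.elim 1 (fun a => τ a.1)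
  have hg0 : ∀ j, g j ≠ 0 := by
    rintro (_ | ⟨q, b⟩)
    · exact one_ne_zero
    · exact hτ0 q
  have hτall : ∀ᶠ s in (cofinite : Filter ℝ), ∀ q : Fin m,
      (¬ ((q : ℕ) < cnt h2 s / 2) → 0 < (τ q).eval s) ∧
      (¬ ¬ ((q : ℕ) < cnt h2 s / 2) → (τ q).eval s < 0) := by
    rw [Filter.eventually_all]; exact hτs
  have hneall : ∀ᶠ s in (cofinite : Filter ℝ), ∀ j, (h j).eval s ≠ 0 := by
    rw [Filter.eventually_all]; exact fun j => eventually_ne_zero (hh j)
  have heven : ∀ᶠ s in (cofinite : Filter ℝ), Even (cnt h2 s) ∧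
      (cnt h2 s = cnt h s ∨ cnt h2 s + cnt h s = 2 * m + 1) := by
    filter_upwards [hdsign, hneall] with s h1 h3
    by_cases hev : Even (cnt h s)
    · have h4 := cnt_mul_pos h (h1.1 hev)
      rw [hcnt2, h4]
      exact ⟨hev, Or.inl rfl⟩
    · have h4 := cnt_mul_neg h (h1.2 hev) h3
      rw [hcard] at h4
      rw [hcnt2]
      refine ⟨?_, Or.inr h4⟩
      rw [Nat.not_even_iff_odd] at hev
      by_contra h5
      rw [Nat.not_even_iff_odd] at h5
      have h6 := h5.add_odd hev
      rw [h4] at h6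
      exact (Nat.not_even_iff_odd.2 (odd_two_mul_add_one m)) h6
  have hsumτ : ∀ᶠ s in (cofinite : Filter ℝ),
      (∑ q : Fin m, if (τ q).eval s < 0 then 1 else 0) = cnt h2 s / 2 := by
    filter_upwards [hτall] with s h1
    have hle : cnt h2 s / 2 ≤ m := by
      have := cnt_le_card h2 s
      rw [hcard2] at this
      omega
    rw [← card_lt_fin m (cnt h2 s / 2) hle]
    refine Finset.sum_congr rfl fun q _ => ?_
    by_cases hq : (q : ℕ) < cnt h2 s / 2
    · rw [if_pos ((h1 q).2 (not_not.2 hq)), if_pos hq]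
    · rw [if_neg (not_lt.2 ((h1 q).1 hq).le), if_neg hq]
  have hcntopt : ∀ (f : Option (Fin m × Bool) → ℝ[X]) (σ : Fin m → ℝ[X]) (s : ℝ),
      (∀ q b, f (some (q, b)) = σ q) →
      cnt f s = (if (f none).eval s < 0 then 1 else 0) +
        2 * ∑ q : Fin m, if (σ q).eval s < 0 then 1 else 0 := by
    intro f σ s hf
    rw [cnt, Fintype.sum_option, Fintype.sum_prod_type]
    congr 1
    rw [Finset.mul_sum]
    refine Finset.sum_congr rfl fun q _ => ?_
    rw [Fintype.sum_bool, hf, hf]
    ring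
  have hcntg : ∀ᶠ s in (cofinite : Filter ℝ), cnt g s = cnt h2 s := by
    filter_upwards [hsumτ, heven] with s h1 h3
    rw [hcntopt g τ s (fun q b => rfl), h1]
    have h4 : ¬ ((g none).eval s < 0) := by
      show ¬ ((1 : ℝ[X]).eval s < 0)
      simp
    rw [if_neg h4]
    obtain ⟨k, hk⟩ := h3.1
    omega
  have hd2 : ((2 ^ r * (Fintype.card (Option (Fin m × Bool)) - 1) : ℕ) : Cardinal) ≤ Algebra.trdeg ℝ K := by rw [hcard2]; exact hd
  obtain ⟨h3, hSt3, hoff3, hcnt3⟩ := hSt2.sort (hK.aniso _) ht hd2 (by rw [hcard2]; omega) g hg0 none hcntg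
    (Finset.univ.erase none) (Finset.notMem_erase _ _)
  have h3some : ∀ q b, h3 (some (q, b)) = τ q := fun q b =>
    hoff3 _ (Finset.mem_erase.2 ⟨by simp, Finset.mem_univ _⟩)
  refine ⟨fun o => o.elim (h3 none) τ, ?_, (hSt3.2 none).merge τ h3some, ?_⟩
  · rintro (_ | q)
    · exact hSt3.1 none
    · exact hτ0 q
  · filter_upwards [hcnt3, hcntg, hsumτ, heven, hε] with s a1 a2 a3 a4 a5
    rw [hcntopt h3 τ s h3some, a2, a3] at a1
    have a6 : cnt (fun o : Option (Fin m) => o.elim (h3 none) τ) s =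
        (if (h3 none).eval s < 0 then 1 else 0) + cnt h2 s / 2 := by
      rw [cnt, Fintype.sum_option, ← a3]
      rfl
    rw [a6]
    obtain ⟨⟨k, hk⟩, a4⟩ := a4
    omega

/-- Iterated doubling. -/
lemma HasSt.iterate (hK : FReal K) {t : K} (ht : Trans t) {m : ℕ} (hm : 1 ≤ m) (k : ℕ) :
    ∀ (r : ℕ) (ε : ℝ → ℕ), ((2 ^ r * (2 ^ k * m) : ℕ) : Cardinal) ≤ Algebra.trdeg ℝ K →
    HasSt t r (2 ^ k * m) ε → HasSt t (r + k) m (fun s => (ε s + (2 ^ k - 1)) / 2 ^ k) := by
  induction k with
  | zero =>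
    intro r ε _ h
    simpa using h
  | succ k ih =>
    intro r ε hd h
    have h1 : 2 ^ (k + 1) * m = 2 * (2 ^ k * m) := by ring
    rw [h1] at h hd
    have hm' : 1 ≤ 2 ^ k * m := Nat.one_le_iff_ne_zero.2 (by positivity)
    have h2 := h.double hK ht hm' hd
    have h3 := ih (r + 1) _ (by convert hd using 2; ring) h2
    have h4 : r + 1 + k = r + (k + 1) := by ring
    rw [h4] at h3
    have h5 : (fun s => ((ε s + 1) / 2 + (2 ^ k - 1)) / 2 ^ k) =
        fun s => (ε s + (2 ^ (k + 1) - 1)) / 2 ^ (k + 1) := by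
      funext s
      have h6 : 1 ≤ 2 ^ k := Nat.one_le_two_pow
      have h7 : (ε s + 1) / 2 + (2 ^ k - 1) = (ε s + (2 ^ (k + 1) - 1)) / 2 := by
        rw [pow_succ]; omega
      rw [h7, Nat.div_div_eq_div_mul, pow_succ, mul_comm 2]
    rwa [h5] at h3

/-- The final step: if the counts are those of `X - b j`, then `K` is purely transcendental. -/
lemma HasSt.rational (hK : FReal K) {t : K} (ht : Trans t) {r M : ℕ} (hM : 1 ≤ M) {ε : ℝ → ℕ}
    (hd : ((2 ^ (r + 1) * M : ℕ) : Cardinal) ≤ Algebra.trdeg ℝ K)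
    (hst : HasSt t (r + 1) M ε) (b : Option (Fin M) → ℝ)
    (hb : ∀ᶠ s in (cofinite : Filter ℝ), cnt (fun j => X - C (b j)) s + ε s = M + 1) :
    Nonempty (K ≃ₐ[ℝ] FractionRing (MvPolynomial (Fin (2 ^ (r + 1) * M)) ℝ)) := by
  obtain ⟨h, hh, hst, hε⟩ := hst
  have hcard : Fintype.card (Option (Fin M)) = M + 1 := by simp
  have hd1 : ((2 ^ (r + 1) * (Fintype.card (Option (Fin M)) - 1) : ℕ) : Cardinal) ≤ Algebra.trdeg ℝ K := by rw [hcard]; exact hd
  have hSt : St t (r + 1) h := hst.st (hK.aniso _) hh hd1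
  set g : Option (Fin M) → ℝ[X] := fun j => X - C (b j) with hg
  have hg0 : ∀ j, g j ≠ 0 := fun j => X_sub_C_ne_zero _
  have hneall : ∀ᶠ s in (cofinite : Filter ℝ), ∀ j, (h j).eval s ≠ 0 := by
    rw [Filter.eventually_all]; exact fun j => eventually_ne_zero (hh j)
  obtain ⟨d, hd0, hdsign⟩ := (tame_cnt h g (fun a c => a = c)).exists_poly
  have hSt1 := hSt.scale ht hd0
  have hcnt1 : ∀ᶠ s in (cofinite : Filter ℝ), cnt g s = cnt (fun j => d * h j) s := by
    filter_upwards [hdsign, hneall, hε, hb] with s h1 h3 h4 h5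
    by_cases hc : cnt h s = cnt g s
    · rw [cnt_mul_pos h (h1.1 hc), hc]
    · have h6 := cnt_mul_neg h (h1.2 hc) h3
      rw [hcard] at h6
      omega
  have key : St t (r + 1) g := by
    by_cases hM2 : 2 ≤ M
    · exact hSt1.lp hK ht hd1 (by rw [hcard]; omega) hg0 hcnt1
    · -- two positions
      have hM1 : M = 1 := by omega
      subst hM1
      set h1 : Option (Fin 1) → ℝ[X] := fun j => d * h j with hh1
      have hcnt2 : ∀ (f : Option (Fin 1) → ℝ[X]) (s : ℝ), cnt f s =
          (if (f none).eval s < 0 then 1 else 0) + (if (f (some 0)).eval s < 0 then 1 else 0) := by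
        intro f s
        rw [cnt, Fintype.sum_option, Fin.sum_univ_one]
      -- change the second coefficient to `h1 none * g none * g (some 0)`
      have hns : (some 0 : Option (Fin 1)) ≠ none := by simp
      have step1 : St t (r + 1) (fun o : Option (Fin 1) => o.elim (h1 none)
          (fun _ => h1 none * g none * g (some 0))) := by
        refine hSt1.fix_last hK ht hd1 ?_ (o := some 0) (p := none) hns ?_ ?_
        · rintro (_ | q)
          · exact hSt1.1 none
          · exact mul_ne_zero (mul_ne_zero (hSt1.1 none) (hg0 _)) (hg0 _)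
        · rintro (_ | q) hq
          · rfl
          · exact absurd (by rw [Subsingleton.elim q 0]) hq
        · have e1 := eventually_ne_zero (hSt1.1 none)
          have e2 := eventually_ne_zero (hSt1.1 (some 0))
          filter_upwards [hcnt1, e1, e2, eventually_ne_zero (hg0 none),
            eventually_ne_zero (hg0 (some 0))] with s a1 a2 a3 a4 a5
          rw [hcnt2, hcnt2] at a1
          show 0 < (h1 (some 0)).eval s * (h1 none * g none * g (some 0)).eval s
          have e3 : (h1 none * g none * g (some 0)).eval s =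
              (h1 none).eval s * (g none).eval s * (g (some 0)).eval s := by
            rw [eval_mul, eval_mul]
          rw [e3]
          change (h1 none).eval s ≠ 0 at a2
          change (h1 (some 0)).eval s ≠ 0 at a3
          generalize (h1 none).eval s = u0 at *
          generalize (h1 (some 0)).eval s = u1 at *
          generalize (g none).eval s = w0 at *
          generalize (g (some 0)).eval s = w1 at *
          have hpar : ∀ x y : ℝ, x ≠ 0 → y ≠ 0 → (0 < x * y ↔
              Even ((if x < 0 then 1 else 0) + (if y < 0 then 1 else 0) : ℕ)) := by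
            intro x y hx hy
            rcases lt_or_gt_of_ne hx with b1 | b1 <;> rcases lt_or_gt_of_ne hy with b2 | b2
            · rw [if_pos b1, if_pos b2]
              exact iff_of_true (mul_pos_of_neg_of_neg b1 b2) (by decide)
            · rw [if_pos b1, if_neg (not_lt.2 b2.le)]
              exact iff_of_false (not_lt.2 (mul_neg_of_neg_of_pos b1 b2).le) (by decide)
            · rw [if_neg (not_lt.2 b1.le), if_pos b2]
              exact iff_of_false (not_lt.2 (mul_neg_of_pos_of_neg b1 b2).le) (by decide)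
            · rw [if_neg (not_lt.2 b1.le), if_neg (not_lt.2 b2.le)]
              exact iff_of_true (mul_pos b1 b2) (by decide)
          have k1 := hpar w0 w1 a4 a5
          rw [a1, ← hpar u0 u1 a2 a3] at k1
          have k2 : w0 * w1 ≠ 0 := mul_ne_zero a4 a5
          have k3 : u0 * u1 ≠ 0 := mul_ne_zero a2 a3
          have k4 : 0 < (w0 * w1) * (u0 * u1) := by
            rcases lt_or_gt_of_ne k2 with b1 | b1
            · have : u0 * u1 < 0 :=
                lt_of_le_of_ne (not_lt.1 fun b2 => absurd (k1.2 b2) (not_lt.2 b1.le)) k3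
              exact mul_pos_of_neg_of_neg b1 this
            · exact mul_pos b1 (k1.1 b1)
          nlinarith [k4]
      have step2 : StAt t (r + 1) (fun o : Option (Fin 1) => o.elim (g none)
          (fun _ => g none ^ 2 * g (some 0))) none := by
        refine (step1.2 none).scale ht (e := h1 none) (d := g none) (hSt1.1 none) ?_
        rintro (_ | q)
        · show h1 none * g none = g none * h1 none
          ring
        · show h1 none * (g none ^ 2 * g (some 0)) = g none * (h1 none * g none * g (some 0))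
          ring
      have step2' := step2.st (hK.aniso _) (by
        rintro (_ | q)
        · exact hg0 none
        · exact mul_ne_zero (pow_ne_zero 2 (hg0 _)) (hg0 _)) hd1
      refine step2'.fix_last hK ht hd1 hg0 (o := some 0) (p := none) hns ?_ ?_
      · rintro (_ | q) hq
        · rfl
        · exact absurd (by rw [Subsingleton.elim q 0]) hq
      · filter_upwards [eventually_ne_zero (hg0 none), eventually_ne_zero (hg0 (some 0))]
          with s a1 a2
        show 0 < (g none ^ 2 * g (some 0)).eval s * (g (some 0)).eval s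
        rw [eval_mul, eval_pow]
        have : 0 < ((g none).eval s * (g (some 0)).eval s) ^ 2 := by positivity
        nlinarith [this]
  have := (key.2 none).rational hK b (fun j => rfl) hd1
  rwa [hcard] at this

end MP_d2f638_ag
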