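import Pool.Agent.Lib.MP_d2f638_ag.Sort

/-!
# The isotropic case
-/

namespace MP_d2f638_ag

open Polynomial Filter

variable {K : Type} [Field K] [Algebra ℝ K]

omit [Algebra ℝ K] in
lemma nn_ix_zero (v : Ix 0 → K) : nn v = v () ^ 2 := by
  show ∑ _i : Unit, _ = _
  simp only [Finset.univ_unique, Finset.sum_singleton]

/-- If the coefficients are never all of the same sign, the field is rational. -/
theorem isotropic_rational {t : K} (ht : Trans t) {P : Type} [Fintype P] [DecidableEq P]
    (hd : ((Fintype.card P - 1 : ℕ) : Cardinal) ≤ Algebra.trdeg ℝ K)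
    (hP : 3 ≤ Fintype.card P) {h : P → ℝ[X]} {p : P} (hst : StAt t 0 h p) (hh : ∀ j, h j ≠ 0)
    (hcnt : ∀ᶠ u in (cofinite : Filter ℝ), 1 ≤ cnt h u ∧ cnt h u + 1 ≤ Fintype.card P) :
    Nonempty (K ≃ₐ[ℝ] FractionRing (MvPolynomial (Fin (Fintype.card P - 1)) ℝ)) := by
  have hd' : ((2 ^ 0 * (Fintype.card P - 1) : ℕ) : Cardinal) ≤ Algebra.trdeg ℝ K := by
    rwa [pow_zero, one_mul]
  have hSt : St t 0 h := hst.st aniso_zero hh hd'
  obtain ⟨i, j, hij⟩ := Fintype.one_lt_card_iff.1 (show 1 < Fintype.card P by omega)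
  obtain ⟨o, ho⟩ : ((Finset.univ.erase i).erase j).Nonempty := by
    rw [← Finset.card_pos, Finset.card_erase_of_mem (Finset.mem_erase.2 ⟨hij.symm,
      Finset.mem_univ _⟩), Finset.card_erase_of_mem (Finset.mem_univ _), Finset.card_univ]
    omega
  -- put `1` at the position `i`
  have hne : ∀ᶠ u in (cofinite : Filter ℝ), ∀ m, (h m).eval u ≠ 0 := by
    rw [Filter.eventually_all]; exact fun m => eventually_ne_zero (hh m)
  obtain ⟨h1, hSt1, h1i, -, hcnt1⟩ := St.gather aniso_zero ht hd' hP (k := i) (s := 1) one_ne_zero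
    (Finset.univ.erase i) ⟨j, Finset.mem_erase.2 ⟨hij.symm, Finset.mem_univ _⟩⟩
    (Finset.notMem_erase i _) h hSt (by
      filter_upwards [hcnt, hne] with u hu hu2
      have hex : ∃ m, ¬ (h m).eval u < 0 := by
        by_contra hcon
        push Not at hcon
        have : cnt h u = Fintype.card P := by
          rw [cnt, ← Finset.card_univ, Finset.card_eq_sum_ones]
          exact Finset.sum_congr rfl fun m _ => if_pos (hcon m)
        omega
      obtain ⟨m, hm⟩ := hex
      refine ⟨m, ?_, ?_⟩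
      · rw [Finset.insert_erase (Finset.mem_univ i)]; exact Finset.mem_univ m
      · rw [eval_one]
        exact iff_of_true (lt_of_le_of_ne (not_lt.1 hm) (Ne.symm (hu2 m))) one_pos)
  -- put `-1` at the position `j`
  obtain ⟨h2, hSt2, h2j, h2off, -⟩ := St.gather aniso_zero ht hd' hP (k := j) (s := -1)
    (neg_ne_zero.2 one_ne_zero) ((Finset.univ.erase i).erase j) ⟨o, ho⟩
    (Finset.notMem_erase j _) h1 hSt1 (by
      filter_upwards [hcnt, hcnt1] with u hu hu1
      have hex : ∃ m, (h1 m).eval u < 0 := by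
        by_contra hcon
        push Not at hcon
        have : cnt h1 u = 0 := by
          rw [cnt]
          exact Finset.sum_eq_zero fun m _ => if_neg (not_lt.2 (hcon m))
        omega
      obtain ⟨m, hm⟩ := hex
      refine ⟨m, ?_, ?_⟩
      · rw [Finset.insert_erase (Finset.mem_erase.2 ⟨hij.symm, Finset.mem_univ _⟩),
          Finset.mem_erase]
        refine ⟨?_, Finset.mem_univ m⟩
        rintro rfl
        rw [h1i, eval_one] at hm
        linarith
      · rw [eval_neg, eval_one]
        exact iff_of_false (not_lt.2 hm.le) (by norm_num))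
  have h2i : h2 i = 1 := by
    rw [h2off i, h1i]
    rw [Finset.insert_erase (Finset.mem_erase.2 ⟨hij.symm, Finset.mem_univ _⟩)]
    exact Finset.notMem_erase i _
  obtain ⟨y, hy1, hy2, hy3⟩ := hSt2.2 i
  set Y : P → K := fun k => y k () with hY
  have hYi : Y i = 1 := by
    show y i () = 1
    rw [hy1]; rfl
  simp only [nn_ix_zero] at hy2
  change ∑ k, aeval t (h2 k) * Y k ^ 2 = 0 at hy2
  rw [sum_split hij, h2i, h2j, hYi] at hy2
  have h20 : (2 : K) ≠ 0 := by
    have h4 : algebraMap ℝ K 2 ≠ 0 := by simp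
    rwa [map_ofNat] at h4
  obtain ⟨σ, hσ, hη⟩ : ∃ σ : ℝ, σ ^ 2 = 1 ∧ algebraMap ℝ K σ * Y j + 1 ≠ 0 := by
    by_cases h3 : Y j + 1 = 0
    · refine ⟨-1, by norm_num, ?_⟩
      have h4 : Y j = -1 := by linear_combination h3
      rw [h4, map_neg, map_one]
      intro h5
      apply h20
      linear_combination h5
    · exact ⟨1, by norm_num, by rwa [map_one, one_mul]⟩
  set η := algebraMap ℝ K σ * Y j with hηdef
  have hσK : (algebraMap ℝ K σ) ^ 2 = 1 := by rw [← map_pow, hσ, map_one]
  have hη2 : η ^ 2 = Y j ^ 2 := by rw [hηdef, mul_pow, hσK, one_mul]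
  have hYj : Y j = algebraMap ℝ K σ * η := by
    rw [hηdef]; linear_combination (-Y j) * hσK
  set b := η + 1 with hb
  set R := ∑ k ∈ (Finset.univ.erase i).erase j, aeval t (h2 k) * Y k ^ 2 with hR
  have hrel : R = η ^ 2 - 1 := by
    rw [map_one, map_neg, map_one] at hy2
    rw [hη2]; linear_combination hy2
  set c := ∑ k ∈ (Finset.univ.erase i).erase j, aeval t (h2 k) * (Y k / b) ^ 2 with hc
  have hcR : c * b ^ 2 = R := by
    rw [hc, hR, Finset.sum_mul]
    refine Finset.sum_congr rfl fun k _ => ?_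
    field_simp
  have hcb : c * b = η - 1 := by
    have : (c * b - (η - 1)) * b = 0 := by
      rw [hrel] at hcR
      rw [hb] at hcR ⊢
      linear_combination hcR
    exact sub_eq_zero.1 ((mul_eq_zero.1 this).resolve_right hη)
  have h1c : (1 - c) * b = 2 := by
    rw [sub_mul, hcb, hb]; ring
  have h1c0 : 1 - c ≠ 0 := by
    intro h0
    rw [h0, zero_mul] at h1c
    exact h20 h1c.symm
  have hbc : b = 2 / (1 - c) := by
    rw [eq_div_iff h1c0]; linear_combination h1c
  -- the generators
  let Z : Option {k : P // k ≠ i ∧ k ≠ j} → K := fun o => o.elim t (fun k => Y k.1 / b)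
  refine rational_fin Z ?_ ?_ hd
  · refine adjoin_top_of_mem hy3 ?_
    set L := IntermediateField.adjoin ℝ (Set.range Z) with hL
    have htL : t ∈ L := IntermediateField.subset_adjoin _ _ ⟨none, rfl⟩
    have hzL : ∀ k, k ≠ i → k ≠ j → Y k / b ∈ L := fun k h3 h4 =>
      IntermediateField.subset_adjoin _ _ ⟨some ⟨k, h3, h4⟩, rfl⟩
    have hcL : c ∈ L := by
      rw [hc]
      refine L.sum_mem fun k hk => ?_
      rw [Finset.mem_erase, Finset.mem_erase] at hk
      exact L.mul_mem (aeval_mem_field L htL _) (pow_mem (hzL k hk.2.1 hk.1) 2)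
    have hbL : b ∈ L := by
      rw [hbc]
      have h3 := L.algebraMap_mem (2 : ℝ)
      rw [map_ofNat] at h3
      exact L.div_mem h3 (L.sub_mem L.one_mem hcL)
    have hηL : η ∈ L := by
      have : η = b - 1 := by rw [hb]; ring
      rw [this]
      exact L.sub_mem hbL L.one_mem
    have hYL : ∀ k, Y k ∈ L := by
      intro k
      by_cases h3 : k = i
      · rw [h3, hYi]; exact L.one_mem
      · by_cases h4 : k = j
        · rw [h4, hYj]; exact L.mul_mem (L.algebraMap_mem _) hηL
        · have h5 := L.mul_mem (hzL k h3 h4) hbL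
          rwa [div_mul_cancel₀ _ hη] at h5
    rintro w (rfl | ⟨k, a, rfl⟩)
    · exact htL
    · exact hYL k
  · rw [Fintype.card_option]
    have h3 : Fintype.card {k : P // k ≠ i ∧ k ≠ j} = ((Finset.univ.erase i).erase j).card := by
      rw [Fintype.card_subtype]
      congr 1
      ext k
      simp [and_comm]
    rw [h3, Finset.card_erase_of_mem (Finset.mem_erase.2 ⟨hij.symm, Finset.mem_univ _⟩),
      Finset.card_erase_of_mem (Finset.mem_univ _), Finset.card_univ]
    omega

end MP_d2f638_ag
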