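import Pool.Agent.Lib.MP_d2f638_ag.MatrixNF
import Pool.Agent.Lib.MP_d2f638_ag.Conn
import Pool.Agent.Lib.MP_d2f638_ag.ClassB

/-!
# Smooth pencils with a Lorentzian member
-/

namespace MP_d2f638_ag

open Matrix

variable {ι : Type} [Fintype ι] [DecidableEq ι]

lemma RRational.both {κ : Type} [Fintype κ] [DecidableEq κ] {A B : Matrix ι ι ℝ} {d : ℕ}
    {P : Matrix ι κ ℝ} {Q : Matrix κ ι ℝ} (hPQ : P * Q = 1) (hQP : Q * P = 1) {α β γ δ : ℝ}
    (hdet : α * δ - β * γ ≠ 0)
    (h : RRational d (Pᵀ * (α • A + β • B) * P) (Pᵀ * (γ • A + δ • B) * P)) :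
    RRational d A B :=
  (h.change hPQ hQP).pencil hdet

lemma conn_both {κ : Type} [Fintype κ] [DecidableEq κ] {A B : Matrix ι ι ℝ}
    {P : Matrix ι κ ℝ} {Q : Matrix κ ι ℝ} (hPQ : P * Q = 1) (hQP : Q * P = 1) {α β γ δ : ℝ}
    (hdet : α * δ - β * γ ≠ 0) (h : ConnectedSpace (RealPoints A B)) :
    ConnectedSpace (RealPoints (Pᵀ * (α • A + β • B) * P) (Pᵀ * (γ • A + δ • B) * P)) := by
  refine conn_transfer P Q hPQ hQP ?_ h
  intro y
  rw [← bl_dot, ← bl_dot, ← bl_mulVec, ← bl_mulVec, ← bl_dot, ← bl_dot]
  have h1 : ∀ (a b : ℝ) (v : ι → ℝ), bl (a • A + b • B) v v = a * bl A v v + b * bl B v v := by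
    intro a b v
    simp only [bl, map_add, map_smul, LinearMap.add_apply, LinearMap.smul_apply, smul_eq_mul]
  rw [h1, h1]
  set x := bl A (P *ᵥ y) (P *ᵥ y)
  set z := bl B (P *ᵥ y) (P *ᵥ y)
  constructor
  · rintro ⟨h2, h3⟩
    constructor
    · have : (α * δ - β * γ) * x = 0 := by linear_combination δ * h2 - β * h3
      exact (mul_eq_zero.1 this).resolve_left hdet
    · have : (α * δ - β * γ) * z = 0 := by linear_combination α * h3 - γ * h2
      exact (mul_eq_zero.1 this).resolve_left hdet
  · rintro ⟨h2, h3⟩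
    rw [h2, h3]; simp

/-- Equal exact powers of two. -/
lemma two_pow_dvd {x y : ℕ} (hx : 1 ≤ x) (hy : 1 ≤ y)
    (h : padicValNat 2 x = padicValNat 2 y) :
    2 ^ (padicValNat 2 y + 1) ∣ x + y ∧ ¬ 2 ^ (padicValNat 2 y + 1) ∣ y := by
  have hx0 : x ≠ 0 := by omega
  have hy0 : y ≠ 0 := by omega
  set v := padicValNat 2 y with hv
  obtain ⟨x', hx'⟩ : 2 ^ v ∣ x := by rw [← h]; exact pow_padicValNat_dvd
  obtain ⟨y', hy'⟩ : 2 ^ v ∣ y := by rw [hv]; exact pow_padicValNat_dvd
  have hxn : ¬ 2 ^ (v + 1) ∣ x := by
    rw [← h]; exact pow_succ_padicValNat_not_dvd hx0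
  have hyn : ¬ 2 ^ (v + 1) ∣ y := by
    rw [hv]; exact pow_succ_padicValNat_not_dvd hy0
  have hx'odd : ¬ 2 ∣ x' := by
    rintro ⟨z, hz⟩
    exact hxn ⟨z, by rw [hx', hz, pow_succ]; ring⟩
  have hy'odd : ¬ 2 ∣ y' := by
    rintro ⟨z, hz⟩
    exact hyn ⟨z, by rw [hy', hz, pow_succ]; ring⟩
  refine ⟨?_, hyn⟩
  obtain ⟨z, hz⟩ : 2 ∣ x' + y' := by omega
  exact ⟨z, by rw [hx', hy', ← mul_add, hz, pow_succ]; ring⟩

/-- Smooth pencils with a Lorentzian member. -/
theorem lorentz_case {A B : Matrix ι ι ℝ} (hA : A.IsSymm) (hB : B.IsSymm) (hdet : A.det ≠ 0)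
    (hsm : SmoothCI A B) (hneg : negIdx A = 1) (hconn : ConnectedSpace (RealPoints A B)) {N : ℕ}
    (hN : 1 ≤ N) (hcard : Fintype.card ι = 2 * N + 3) :
    RRational (2 * N) A B ∨ Exceptional A B := by
  obtain ⟨κ, κ', i1, i2, i3, i4, P, Q, ε, lam, μ, ν, hPQ, hQP, hε, hinj, hν, hPA, hPB⟩ :=
    real_normal_form hA hB hdet hsm
  have hcardκ : Fintype.card κ + (Fintype.card κ' + Fintype.card κ') = 2 * N + 3 := by
    have h1 : Fintype.card (κ ⊕ (κ' ⊕ κ')) = Fintype.card ι := by
      have e1 := Matrix.rank_one (n := κ ⊕ (κ' ⊕ κ')) (R := ℝ)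
      have e2 := Matrix.rank_one (n := ι) (R := ℝ)
      rw [← hQP] at e1
      rw [← hPQ] at e2
      have e3 := (Matrix.rank_mul_le_left Q P).trans (Matrix.rank_le_card_width Q)
      have e4 := (Matrix.rank_mul_le_left P Q).trans (Matrix.rank_le_card_width P)
      omega
    rw [Fintype.card_sum, Fintype.card_sum, hcard] at h1
    exact h1
  -- the number of negative squares
  have hneg2 : (∑ i, if ε i < 0 then 1 else 0) + Fintype.card κ' = 1 := by
    have h1 := negIdx_congr A hPQ hQP
    rw [hneg, hPA] at h1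
    have h2 : (Matrix.fromBlocks (Matrix.diagonal ε) 0 0
        (Matrix.fromBlocks (1 : Matrix κ' κ' ℝ) 0 0 (-1 : Matrix κ' κ' ℝ))) =
        Matrix.diagonal (Sum.elim ε (Sum.elim (fun _ => 1) (fun _ => -1))) := by
      have h2a : (-1 : Matrix κ' κ' ℝ) = Matrix.diagonal (fun _ => -1) := by
        ext x y
        by_cases hxy : x = y
        · subst hxy; simp
        · simp [hxy]
      have h2b : (1 : Matrix κ' κ' ℝ) = Matrix.diagonal (fun _ => 1) := rfl
      rw [h2a, h2b, Matrix.fromBlocks_diagonal, Matrix.fromBlocks_diagonal]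
    rw [h2, negIdx_diagonal, Fintype.sum_sum_type, Fintype.sum_sum_type] at h1
    have h1' : (∑ i, if ε i < 0 then 1 else 0) + ((∑ _x : κ', if (1 : ℝ) < 0 then 1 else 0) +
        ∑ _x : κ', if (-1 : ℝ) < 0 then 1 else 0) = 1 := h1
    have h3 : (∑ _x : κ', if (1 : ℝ) < 0 then 1 else 0) = 0 := by
      refine Finset.sum_eq_zero fun i _ => if_neg (by norm_num)
    have h4 : (∑ _x : κ', if (-1 : ℝ) < 0 then 1 else 0) = Fintype.card κ' := by
      rw [← Finset.card_univ, Finset.card_eq_sum_ones]
      exact Finset.sum_congr rfl fun i _ => if_pos (by norm_num)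
    rw [h3, h4, zero_add] at h1'
    exact h1'
  rcases Nat.eq_zero_or_pos (Fintype.card κ') with h0 | hpos
  · -- all eigenvalues are real
    have hempty : IsEmpty κ' := Fintype.card_eq_zero_iff.1 h0
    rw [h0, add_zero, ← Finset.card_filter, Finset.card_eq_one] at hneg2
    obtain ⟨i0, hi0⟩ := hneg2
    have hεi0 : ε i0 = -1 := by
      have : i0 ∈ Finset.univ.filter fun i => ε i < 0 := by rw [hi0]; exact Finset.mem_singleton_self _
      have h1 : ε i0 < 0 := (Finset.mem_filter.1 this).2
      rcases hε i0 with h2 | h2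
      · rw [h2] at h1; norm_num at h1
      · exact h2
    have hεi : ∀ i, i ≠ i0 → ε i = 1 := by
      intro i hi
      rcases hε i with h2 | h2
      · exact h2
      · exfalso
        have : i ∈ Finset.univ.filter fun i => ε i < 0 := by
          rw [Finset.mem_filter]
          exact ⟨Finset.mem_univ _, by rw [h2]; norm_num⟩
        rw [hi0, Finset.mem_singleton] at this
        exact hi this
    let S := {i // i ≠ i0}
    let e : Option S ≃ κ ⊕ (κ' ⊕ κ') := Equiv.ofBijective
      (fun o => Sum.inl (o.elim i0 (fun s => s.1))) (by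
        constructor
        · rintro (_ | ⟨x, hx⟩) (_ | ⟨y, hy⟩) hxy
          · rfl
          · exact absurd (Sum.inl_injective hxy).symm hy
          · exact absurd (Sum.inl_injective hxy) hx
          · simp only [Option.elim] at hxy
            have := Sum.inl_injective hxy
            subst this
            rfl
        · rintro (i | i | i)
          · by_cases hi : i = i0
            · exact ⟨none, by rw [hi]; rfl⟩
            · exact ⟨some ⟨i, hi⟩, rfl⟩
          · exact (hempty.false i).elim
          · exact (hempty.false i).elim)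
    have he0 : e none = Sum.inl i0 := rfl
    have hes : ∀ s : S, e (some s) = Sum.inl s.1 := fun s => rfl
    let P' : Matrix ι (Option S) ℝ := P.submatrix id e
    let Q' : Matrix (Option S) ι ℝ := Q.submatrix e id
    have hPQ' : P' * Q' = 1 := by
      show P.submatrix id e * Q.submatrix e id = 1
      rw [Matrix.submatrix_mul_equiv, hPQ, Matrix.submatrix_id_id]
    have hQP' : Q' * P' = 1 := by
      show Q.submatrix e id * P.submatrix id e = 1
      rw [← Matrix.submatrix_mul _ _ _ id _ Function.bijective_id, hQP, Matrix.submatrix_one_equiv]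
    have hconj : ∀ M : Matrix ι ι ℝ, P'ᵀ * M * P' = (Pᵀ * M * P).submatrix e e := by
      intro M
      ext x y
      rw [Matrix.submatrix_apply, conj_apply, conj_apply]
      rfl
    let a : S → ℝ := fun s => lam s.1 - lam i0
    have hPA' : P'ᵀ * ((1 : ℝ) • A + (0 : ℝ) • B) * P' = lorA S := by
      rw [one_smul, zero_smul, add_zero, hconj, hPA]
      ext x y
      rw [Matrix.submatrix_apply, lorA]
      rcases x with _ | x <;> rcases y with _ | y
      · rw [he0, Matrix.fromBlocks_apply₁₁, Matrix.diagonal_apply_eq, Matrix.diagonal_apply_eq,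
          hεi0]; rfl
      · rw [he0, hes, Matrix.fromBlocks_apply₁₁, Matrix.diagonal_apply_ne _ (Ne.symm y.2),
          Matrix.diagonal_apply_ne _ (by simp)]
      · rw [he0, hes, Matrix.fromBlocks_apply₁₁, Matrix.diagonal_apply_ne _ x.2,
          Matrix.diagonal_apply_ne _ (by simp)]
      · rw [hes, hes, Matrix.fromBlocks_apply₁₁]
        by_cases hxy : x = y
        · subst hxy
          rw [Matrix.diagonal_apply_eq, Matrix.diagonal_apply_eq, hεi x.1 x.2]; rfl
        · rw [Matrix.diagonal_apply_ne _ (fun h => hxy (Subtype.ext h)),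
            Matrix.diagonal_apply_ne _ (fun h => hxy (Option.some_injective _ h))]
    have hPB' : P'ᵀ * ((-lam i0) • A + (1 : ℝ) • B) * P' = lorB a := by
      rw [one_smul, hconj, Matrix.mul_add, Matrix.add_mul, Matrix.mul_smul, Matrix.smul_mul, hPA,
        hPB]
      ext x y
      rw [Matrix.submatrix_apply, Matrix.add_apply, Matrix.smul_apply, lorB]
      rcases x with _ | x <;> rcases y with _ | y
      · rw [he0, Matrix.fromBlocks_apply₁₁, Matrix.fromBlocks_apply₁₁, Matrix.diagonal_apply_eq,
          Matrix.diagonal_apply_eq, Matrix.diagonal_apply_eq, hεi0]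
        show -lam i0 * (-1) + -1 * lam i0 = 0
        ring
      · rw [he0, hes, Matrix.fromBlocks_apply₁₁, Matrix.fromBlocks_apply₁₁,
          Matrix.diagonal_apply_ne _ (Ne.symm y.2), Matrix.diagonal_apply_ne _ (Ne.symm y.2),
          Matrix.diagonal_apply_ne _ (by simp)]
        simp
      · rw [he0, hes, Matrix.fromBlocks_apply₁₁, Matrix.fromBlocks_apply₁₁,
          Matrix.diagonal_apply_ne _ x.2, Matrix.diagonal_apply_ne _ x.2,
          Matrix.diagonal_apply_ne _ (by simp)]
        simp
      · rw [hes, hes, Matrix.fromBlocks_apply₁₁, Matrix.fromBlocks_apply₁₁]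
        by_cases hxy : x = y
        · subst hxy
          rw [Matrix.diagonal_apply_eq, Matrix.diagonal_apply_eq, Matrix.diagonal_apply_eq,
            hεi x.1 x.2]
          show -lam i0 * 1 + 1 * lam x.1 = lam x.1 - lam i0
          ring
        · rw [Matrix.diagonal_apply_ne _ (fun h => hxy (Subtype.ext h)),
            Matrix.diagonal_apply_ne _ (fun h => hxy (Subtype.ext h)),
            Matrix.diagonal_apply_ne _ (fun h => hxy (Option.some_injective _ h))]
          simp
    have hd1 : (1 : ℝ) * 1 - 0 * (-lam i0) ≠ 0 := by norm_num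
    have ha : ∀ s, a s ≠ 0 := fun s => sub_ne_zero.2 fun h => s.2 (hinj h)
    have hainj : Function.Injective a := by
      intro s s' hss
      have : lam s.1 = lam s'.1 := by
        have h1 : lam s.1 - lam i0 = lam s'.1 - lam i0 := hss
        linarith
      exact Subtype.ext (hinj this)
    have hcardS : Fintype.card S = 2 * N + 2 := by
      have h1 : Fintype.card (Option S) = Fintype.card (κ ⊕ (κ' ⊕ κ')) := Fintype.card_congr e
      rw [Fintype.card_option, Fintype.card_sum, Fintype.card_sum, hcardκ] at h1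
      omega
    have hne : Nonempty S := Fintype.card_pos_iff.1 (by omega)
    have hconn' : ConnectedSpace (RealPoints (lorA S) (lorB a)) := by
      have := conn_both hPQ' hQP' hd1 hconn
      rwa [hPA', hPB'] at this
    have hk := two_le_pos ha hconn'
    have hl := two_le_neg ha hconn'
    by_cases hv : padicValNat 2 ((Finset.univ.filter fun s => 0 < a s).card - 1) =
      padicValNat 2 ((Finset.univ.filter fun s => a s < 0).card - 1)
    · left
      have hkl : (Finset.univ.filter fun s => 0 < a s).card +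
          (Finset.univ.filter fun s => a s < 0).card = 2 * N + 2 := by
        rw [← hcardS, ← Finset.card_union_of_disjoint]
        · have : (Finset.univ.filter fun s => 0 < a s) ∪ (Finset.univ.filter fun s => a s < 0) =
              Finset.univ := by
            ext s
            simp only [Finset.mem_union, Finset.mem_filter, Finset.mem_univ, true_and, iff_true]
            rcases lt_or_gt_of_ne (ha s) with h1 | h1
            · exact Or.inr h1
            · exact Or.inl h1
          rw [this, Finset.card_univ]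
        · rw [Finset.disjoint_filter]
          intro s _ h5 h6
          linarith
      obtain ⟨⟨M, hM⟩, hnd⟩ := two_pow_dvd (by omega) (by omega) hv
      set v := padicValNat 2 ((Finset.univ.filter fun s => a s < 0).card - 1)
      have hM2 : 2 * N = 2 ^ (v + 1) * M := by omega
      have hM1 : 1 ≤ M := by
        rcases Nat.eq_zero_or_pos M with h1 | h1
        · rw [h1, mul_zero] at hM2; omega
        · exact h1
      have := classA a (r := v) (M := M) hM1 (by rw [hcardS, hM2]) hk hl hnd
      rw [hM2]
      apply RRational.both hPQ' hQP' hd1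
      rw [hPA', hPB']
      exact this
    · right
      exact ⟨S, inferInstance, inferInstance, a, P', Q', 1, 0, -lam i0, 1, hPQ', hQP', hd1, hPA',
        hPB', ha, hainj, hk, hl, hv⟩
  · -- a pair of complex eigenvalues
    left
    have hc1 : Fintype.card κ' = 1 := by omega
    obtain ⟨j0, hj0⟩ := Fintype.card_eq_one_iff.1 hc1
    have hsum : (∑ i, if ε i < 0 then 1 else 0) = 0 := by omega
    have hεi : ∀ i, ε i = 1 := by
      intro i
      rcases hε i with h2 | h2
      · exact h2
      · exfalso
        have h3 := Finset.sum_eq_zero_iff.1 hsum i (Finset.mem_univ i)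
        rw [h2, if_pos (by norm_num)] at h3
        exact one_ne_zero h3
    let e : Fin 2 ⊕ κ ≃ κ ⊕ (κ' ⊕ κ') := Equiv.ofBijective
      (fun o => match o with
        | Sum.inl 0 => Sum.inr (Sum.inr j0)
        | Sum.inl 1 => Sum.inr (Sum.inl j0)
        | Sum.inr i => Sum.inl i) (by
        constructor
        · rintro (x | x) (y | y) hxy
          · fin_cases x <;> fin_cases y <;> simp_all
          · fin_cases x <;> simp_all
          · fin_cases y <;> simp_all
          · simp_all
        · rintro (i | i | i)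
          · exact ⟨Sum.inr i, rfl⟩
          · exact ⟨Sum.inl 1, by rw [hj0 i]⟩
          · exact ⟨Sum.inl 0, by rw [hj0 i]⟩)
    have he0 : e (Sum.inl 0) = Sum.inr (Sum.inr j0) := rfl
    have he1 : e (Sum.inl 1) = Sum.inr (Sum.inl j0) := rfl
    have hes : ∀ s : κ, e (Sum.inr s) = Sum.inl s := fun s => rfl
    let P' : Matrix ι (Fin 2 ⊕ κ) ℝ := P.submatrix id e
    let Q' : Matrix (Fin 2 ⊕ κ) ι ℝ := Q.submatrix e id
    have hPQ' : P' * Q' = 1 := by
      show P.submatrix id e * Q.submatrix e id = 1
      rw [Matrix.submatrix_mul_equiv, hPQ, Matrix.submatrix_id_id]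
    have hQP' : Q' * P' = 1 := by
      show Q.submatrix e id * P.submatrix id e = 1
      rw [← Matrix.submatrix_mul _ _ _ id _ Function.bijective_id, hQP, Matrix.submatrix_one_equiv]
    have hconj : ∀ M : Matrix ι ι ℝ, P'ᵀ * M * P' = (Pᵀ * M * P).submatrix e e := by
      intro M
      ext x y
      rw [Matrix.submatrix_apply, conj_apply, conj_apply]
      rfl
    let a : κ → ℝ := fun s => lam s - μ j0
    have hPA' : P'ᵀ * ((1 : ℝ) • A + (0 : ℝ) • B) * P' = cpxA κ := by
      rw [one_smul, zero_smul, add_zero, hconj, hPA]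
      ext x y
      rw [Matrix.submatrix_apply, cpxA]
      rcases x with x | x <;> rcases y with y | y
      · fin_cases x <;> fin_cases y <;> simp [he0, he1]
      · fin_cases x <;> simp [he0, he1, hes]
      · fin_cases y <;> simp [he0, he1, hes]
      · by_cases hxy : x = y
        · subst hxy
          simp [hes, hεi]
        · simp [hes, hxy]
    have hPB' : P'ᵀ * ((-μ j0) • A + (1 : ℝ) • B) * P' = cpxB (ν j0) a := by
      rw [one_smul, hconj, Matrix.mul_add, Matrix.add_mul, Matrix.mul_smul, Matrix.smul_mul, hPA,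
        hPB]
      ext x y
      rw [Matrix.submatrix_apply, Matrix.add_apply, Matrix.smul_apply, cpxB]
      rcases x with x | x <;> rcases y with y | y
      · fin_cases x <;> fin_cases y <;> simp [he0, he1]
      · fin_cases x <;> simp [he0, he1, hes]
      · fin_cases y <;> simp [he0, he1, hes]
      · by_cases hxy : x = y
        · subst hxy
          simp [hes, hεi, a]
          ring
        · simp [hes, hxy]
    have hd1 : (1 : ℝ) * 1 - 0 * (-μ j0) ≠ 0 := by norm_num
    have hcardS : Fintype.card κ = 2 ^ (0 + 1) * N + 1 := by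
      rw [hc1] at hcardκ
      omega
    obtain ⟨s1, s2, hs12⟩ := Fintype.one_lt_card_iff.1 (show 1 < Fintype.card κ by omega)
    have has : a s1 ≠ a s2 := by
      intro h1
      have h2 : lam s1 - μ j0 = lam s2 - μ j0 := h1
      exact hs12 (hinj (by linarith))
    have := classB (hν j0) a has (r := 0) (M := N) hN hcardS
    apply RRational.both hPQ' hQP' hd1
    rw [hPA', hPB']
    simpa using this

end MP_d2f638_ag
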