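import Pool.Agent.Lib.MP_d2f638_ag.Descent
import Pool.Agent.Lib.MP_d2f638_ag.Isotropic
import Pool.Agent.Lib.MP_d2f638_ag.Lorentz

/-!
# The general theorem
-/

namespace MP_d2f638_ag

open Matrix Filter

variable {ι : Type} [Fintype ι] [DecidableEq ι]

omit [DecidableEq ι] in
lemma cx_comb (a b : ℝ) (A B : Matrix ι ι ℝ) :
    cx (a • A + b • B) = (a : ℂ) • cx A + (b : ℂ) • cx B := by
  ext i j
  simp [cx]

omit [DecidableEq ι] in
/-- Smoothness does not depend on the basis of the pencil. -/
lemma SmoothCI.pencil {A B : Matrix ι ι ℝ} {α β γ δ : ℝ} (hdet : α * δ - β * γ ≠ 0)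
    (h : SmoothCI A B) : SmoothCI (α • A + β • B) (γ • A + δ • B) := by
  intro z hz h1 h2
  have hdetc : (α : ℂ) * δ - β * γ ≠ 0 := by exact_mod_cast hdet
  rw [cx_comb, Matrix.add_mulVec, Matrix.smul_mulVec, Matrix.smul_mulVec,
    dotProduct_add, dotProduct_smul, dotProduct_smul, smul_eq_mul, smul_eq_mul] at h1 h2
  have h3 : z ⬝ᵥ (cx A *ᵥ z) = 0 := by
    have : ((α : ℂ) * δ - β * γ) * (z ⬝ᵥ (cx A *ᵥ z)) = 0 := by
      linear_combination (δ : ℂ) * h1 - (β : ℂ) * h2
    exact (mul_eq_zero.1 this).resolve_left hdetc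
  have h4 : z ⬝ᵥ (cx B *ᵥ z) = 0 := by
    have : ((α : ℂ) * δ - β * γ) * (z ⬝ᵥ (cx B *ᵥ z)) = 0 := by
      linear_combination (α : ℂ) * h2 - (γ : ℂ) * h1
    exact (mul_eq_zero.1 this).resolve_left hdetc
  have h5 := LinearIndependent.pair_iff.1 (h z hz h3 h4)
  rw [LinearIndependent.pair_iff]
  intro s t hst
  rw [cx_comb, cx_comb, Matrix.add_mulVec, Matrix.smul_mulVec,
    Matrix.smul_mulVec, Matrix.add_mulVec, Matrix.smul_mulVec,
    Matrix.smul_mulVec] at hst
  have h6 := h5 (s * α + t * γ) (s * β + t * δ) (by rw [← hst]; module)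
  constructor
  · have : ((α : ℂ) * δ - β * γ) * s = 0 := by linear_combination (δ : ℂ) * h6.1 - (γ : ℂ) * h6.2
    exact (mul_eq_zero.1 this).resolve_left hdetc
  · have : ((α : ℂ) * δ - β * γ) * t = 0 := by linear_combination (α : ℂ) * h6.2 - (β : ℂ) * h6.1
    exact (mul_eq_zero.1 this).resolve_left hdetc

/-- A nondegenerate form without negative squares is anisotropic. -/
lemma anisotropic_of_negIdx {M : Matrix ι ι ℝ} (hM : M.IsSymm) (hdet : M.det ≠ 0)
    (hneg : negIdx M = 0) {x : ι → ℝ} (hx : bl M x x = 0) : x = 0 := by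
  by_contra hx0
  have hMx : M *ᵥ x ≠ 0 := by
    intro h0
    have hunit : IsUnit M.det := isUnit_iff_ne_zero.2 hdet
    apply hx0
    have h1 : M⁻¹ *ᵥ (M *ᵥ x) = x := by
      rw [Matrix.mulVec_mulVec, Matrix.nonsing_inv_mul _ hunit, Matrix.one_mulVec]
    rw [← h1, h0, Matrix.mulVec_zero]
  obtain ⟨i, hi⟩ := Function.ne_iff.1 hMx
  have hi' : (M *ᵥ x) i ≠ 0 := hi
  set y : ι → ℝ := Pi.single i 1 with hy
  have hyx : bl M y x = (M *ᵥ x) i := by
    rw [bl_dot, hy, single_dotProduct, one_mul]
  have hxy : bl M x y = (M *ᵥ x) i := by rw [bl_symm hM, hyx]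
  set c : ℝ := -(bl M y y + 1) / (2 * (M *ᵥ x) i) with hc
  set v : ι → ℝ := y + c • x with hv
  have hvv : bl M v v = -1 := by
    simp only [hv, map_add, map_smul, LinearMap.add_apply, LinearMap.smul_apply, smul_eq_mul, hx,
      hyx, hxy, hc]
    field_simp
    ring
  have hv0 : v ≠ 0 := by
    intro h0
    rw [h0] at hvv
    simp at hvv
  have h1 : ((-(bl M).toQuadraticMap).restrict (Submodule.span ℝ {v})).PosDef := by
    intro w hw
    obtain ⟨r, hr⟩ := Submodule.mem_span_singleton.1 w.2
    have hr0 : r ≠ 0 := by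
      rintro rfl
      apply hw
      apply Subtype.ext
      rw [← hr, zero_smul]; rfl
    show 0 < -(bl M (w : ι → ℝ) (w : ι → ℝ))
    rw [← hr, map_smul, map_smul, LinearMap.smul_apply, smul_eq_mul, smul_eq_mul, hvv]
    have : 0 < r ^ 2 := by positivity
    nlinarith
  have h2 := le_sigNeg_of_negDef _ h1
  rw [finrank_span_singleton hv0] at h2
  have h3 : sigNeg (bl M).toQuadraticMap = 0 := hneg
  omega

/-- Indices of a nondegenerate form and its opposite. -/
lemma negIdx_neg_add {M : Matrix ι ι ℝ} (hM : M.IsSymm) (hdet : M.det ≠ 0) :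
    negIdx (-M) + negIdx M = Fintype.card ι := by
  have hunit : IsUnit M.det := isUnit_iff_ne_zero.2 hdet
  have h1 := QuadraticForm.sigPos_add_sigNeg_add_radical (Q := (bl M).toQuadraticMap)
  have h2 : negIdx (-M) = sigPos (bl M).toQuadraticMap := by
    have : (bl (-M)).toQuadraticMap = -(bl M).toQuadraticMap := by
      ext u
      show bl (-M) u u = -(bl M u u)
      rw [bl, bl, map_neg]; rfl
    rw [negIdx, this, sigNeg_neg]
  have h3 : Module.finrank ℝ (bl M).toQuadraticMap.radical = 0 := by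
    have hbot : (bl M).toQuadraticMap.radical = ⊥ := by
      rw [eq_bot_iff]
      rintro x ⟨-, hx⟩
      rw [Submodule.mem_bot]
      have h4 : ∀ y, bl M x y = 0 := by
        intro y
        have h5 := LinearMap.congr_fun hx y
        simp only [QuadraticMap.polarBilin_apply_apply, QuadraticMap.polar,
          LinearMap.BilinMap.toQuadraticMap_apply, LinearMap.zero_apply, map_add,
          LinearMap.add_apply, bl_symm hM y x] at h5
        linarith
      have h5 : M *ᵥ x = 0 := by
        funext i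
        have h6 := h4 (Pi.single i 1)
        rw [bl_symm hM, bl_dot, single_dotProduct, one_mul] at h6
        exact h6
      have h6 : M⁻¹ *ᵥ (M *ᵥ x) = x := by
        rw [Matrix.mulVec_mulVec, Matrix.nonsing_inv_mul _ hunit, Matrix.one_mulVec]
      rw [← h6, h5, Matrix.mulVec_zero]
    rw [hbot, finrank_bot]
  rw [h3, add_zero, Module.finrank_fintype_fun_eq_card] at h1
  rw [h2]
  exact h1

lemma Exceptional.pencil {A B : Matrix ι ι ℝ} {α β γ δ : ℝ} (hdet : α * δ - β * γ ≠ 0)
    (h : Exceptional (α • A + β • B) (γ • A + δ • B)) : Exceptional A B := by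
  obtain ⟨S, i1, i2, a, P, Q, α', β', γ', δ', h1, h2, h3, h4, h5, h6⟩ := h
  refine ⟨S, i1, i2, a, P, Q, α' * α + β' * γ, α' * β + β' * δ, γ' * α + δ' * γ,
    γ' * β + δ' * δ, h1, h2, ?_, ?_, ?_, h6⟩
  · have : (α' * α + β' * γ) * (γ' * β + δ' * δ) - (α' * β + β' * δ) * (γ' * α + δ' * γ) =
        (α' * δ' - β' * γ') * (α * δ - β * γ) := by ring
    rw [this]
    exact mul_ne_zero h3 hdet
  · rw [← h4]
    congr 2
    module
  · rw [← h5]
    congr 2
    module

lemma pencil_eval (A B : Matrix ι ι ℝ) (s : ℝ) :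
    (pencilX A B).det.eval s = (B - s • A).det := by
  have h1 := RingHom.map_det (Polynomial.evalRingHom s) (pencilX A B)
  have h2 : (Polynomial.evalRingHom s).mapMatrix (pencilX A B) = B - s • A := by
    ext i j
    simp [pencilX]
    ring
  rw [h2] at h1
  exact h1

/-- The main theorem for general real pencils. -/
theorem general {A B : Matrix ι ι ℝ} (hA : A.IsSymm) (hB : B.IsSymm) (hsm : SmoothCI A B)
    (hconn : ConnectedSpace (RealPoints A B)) {N : ℕ} (hN : 1 ≤ N)
    (hcard : Fintype.card ι = 2 * N + 3) : RRational (2 * N) A B ∨ Exceptional A B := by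
  have hdetX := hsm.det_ne_zero hA hB
  have hsymm : ∀ a b : ℝ, (a • A + b • B).IsSymm := by
    intro a b
    ext i j
    simp only [Matrix.transpose_apply, Matrix.add_apply, Matrix.smul_apply, hA.apply, hB.apply]
  by_cases hcase : ∃ s : ℝ, (B - s • A).det ≠ 0 ∧
      (negIdx (B - s • A) ≤ 1 ∨ Fintype.card ι ≤ negIdx (B - s • A) + 1)
  · -- there is a member with at most one square of one of the two signs
    obtain ⟨s, hs, hneg⟩ := hcase
    obtain ⟨a, b, hb, hdet', hneg'⟩ : ∃ a b : ℝ, b ≠ 0 ∧ (a • A + b • B).det ≠ 0 ∧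
        negIdx (a • A + b • B) ≤ 1 := by
      have e1 : B - s • A = (-s) • A + (1 : ℝ) • B := by module
      have e2 : -(B - s • A) = s • A + (-1 : ℝ) • B := by module
      rcases hneg with h1 | h1
      · exact ⟨-s, 1, one_ne_zero, by rwa [← e1], by rwa [← e1]⟩
      · refine ⟨s, -1, by norm_num, ?_, ?_⟩
        · rw [← e2, Matrix.det_neg]
          exact mul_ne_zero (pow_ne_zero _ (by norm_num)) hs
        · rw [← e2]
          have h2 := negIdx_neg_add (by rw [e1]; exact hsymm _ _) hs
          omega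
    have hd : a * 0 - b * 1 ≠ 0 := by
      rw [mul_zero, mul_one, zero_sub]; exact neg_ne_zero.2 hb
    have hconn' : ConnectedSpace (RealPoints (a • A + b • B) ((1 : ℝ) • A + (0 : ℝ) • B)) := by
      have := conn_both (P := (1 : Matrix ι ι ℝ)) (Q := 1) (by simp) (by simp) hd hconn
      rwa [Matrix.transpose_one, Matrix.one_mul, Matrix.one_mul, Matrix.mul_one,
        Matrix.mul_one] at this
    have hsm' : SmoothCI (a • A + b • B) ((1 : ℝ) • A + (0 : ℝ) • B) := hsm.pencil hd
    rcases Nat.lt_or_ge (negIdx (a • A + b • B)) 1 with h0 | h0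
    · -- definite: no real points
      exfalso
      obtain ⟨z⟩ := hconn'.toNonempty
      obtain ⟨x, -⟩ := Quotient.exists_rep z
      apply x.2.1
      apply anisotropic_of_negIdx (hsymm a b) hdet' (by omega)
      rw [bl_dot]
      exact x.2.2.1
    · have h1 : negIdx (a • A + b • B) = 1 := by omega
      rcases lorentz_case (hsymm a b) (hsymm 1 0) hdet' hsm' h1 hconn' hN hcard with h2 | h2
      · exact Or.inl (h2.pencil hd)
      · exact Or.inr (h2.pencil hd)
  · -- no such member
    left
    push Not at hcase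
    -- a nondegenerate member
    obtain ⟨s0, hs0⟩ : ∃ s0 : ℝ, (B - s0 • A).det ≠ 0 := by
      by_contra hcon
      push Not at hcon
      apply hdetX
      refine Polynomial.funext fun r => ?_
      rw [pencil_eval, hcon r, Polynomial.eval_zero]
    have e1 : B - s0 • A = (-s0) • A + (1 : ℝ) • B := by module
    have hd : (-s0) * 0 - 1 * 1 ≠ (0 : ℝ) := by norm_num
    obtain ⟨Ω, iF, iR, x, i0, hgen', hx0, htr, hT⟩ := exists_point_of_det
      (hsymm (-s0) 1) (hsymm 1 0) (by rwa [← e1]) (hsm.pencil hd) (n := 2 * N) hcard (by omega)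
    have hgen : GenPt A B x := by
      intro p
      rw [hgen' p, idealX_pencil A B hd]
    -- a real point
    obtain ⟨z⟩ := hconn.toNonempty
    obtain ⟨w, -⟩ := Quotient.exists_rep z
    obtain ⟨p, hp0, hpA, hpB⟩ := w
    have hcp : cvec p 0 ≠ 0 := fun h0 => hp0 (cvec_eq_zero h0).1
    have hliA := hsm (cvec p 0) hcp (by rw [cx_mulVec, cvec_dot, hpA]; simp)
      (by rw [cx_mulVec, cvec_dot, hpB]; simp)
    rw [cx_mulVec, cx_mulVec, LinearIndependent.pair_iff] at hliA
    have hAp : A *ᵥ p ≠ 0 := by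
      intro h0
      have := (hliA 1 0 (by rw [h0]; funext i; simp [cvec])).1
      exact one_ne_zero this
    have hind : ∀ c : ℝ, B *ᵥ p ≠ c • (A *ᵥ p) := by
      intro c h0
      have := (hliA c (-1) (by rw [h0]; funext i; simp [cvec])).2
      exact one_ne_zero (neg_eq_zero.1 this)
    obtain ⟨t, m, h, j0, ht, hm, hh, hst, hneg⟩ := core_state' hA hB hgen hx0 hT
      (by rw [bl_dot]; exact hpA) (by rw [bl_dot]; exact hpB) hAp hind hdetX
    have hmN : m = 2 * N + 1 := by omega
    have h3 := isotropic_rational ht (P := Fin m) (by rw [Fintype.card_fin, hmN]; exact htr)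
      (by rw [Fintype.card_fin]; omega) hst hh (by
        filter_upwards [hneg, eventually_ne_zero hdetX] with s h4 h5
        rw [pencil_eval] at h5
        have h6 := hcase s h5
        rw [Fintype.card_fin]
        omega)
    rw [Fintype.card_fin, hmN] at h3
    exact hgen.rational h3

/-- Two positive numbers whose sum is a power of two have the same `2`-adic valuation. -/
lemma padic_of_add_pow {x y r : ℕ} (hx : 1 ≤ x) (hy : 1 ≤ y) (h : x + y = 2 ^ r) :
    padicValNat 2 x = padicValNat 2 y := by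
  have key : ∀ x y : ℕ, 1 ≤ x → 1 ≤ y → x + y = 2 ^ r → ¬ padicValNat 2 x < padicValNat 2 y := by
    intro x y hx hy h hlt
    have h1 : 2 ^ (padicValNat 2 x + 1) ∣ y :=
      (pow_dvd_pow 2 hlt).trans pow_padicValNat_dvd
    have h2 : 2 ^ padicValNat 2 x ∣ x := pow_padicValNat_dvd
    have h3 : 2 ^ padicValNat 2 x < 2 ^ r := by
      have := Nat.le_of_dvd (by omega) h2
      omega
    have h4 : padicValNat 2 x < r := (Nat.pow_lt_pow_iff_right (by norm_num)).1 h3
    have h5 : 2 ^ (padicValNat 2 x + 1) ∣ 2 ^ r := pow_dvd_pow 2 h4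
    have h6 : 2 ^ (padicValNat 2 x + 1) ∣ x := by
      rw [← h] at h5
      exact (Nat.dvd_add_left h1).1 h5
    exact pow_succ_padicValNat_not_dvd (by omega) h6
  have h1 := key x y hx hy h
  have h2 := key y x hy hx (by omega)
  omega

/-- There are no exceptional pencils if the dimension of `X` is a power of two. -/
lemma not_exceptional_of_pow {A B : Matrix ι ι ℝ} {r : ℕ} (hcard : Fintype.card ι = 2 ^ r + 3) :
    ¬ Exceptional A B := by
  rintro ⟨S, i1, i2, a, P, Q, α, β, γ, δ, hPQ, hQP, -, -, -, ha, -, hk, hl, hv⟩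
  apply hv
  have hcardS : Fintype.card S = 2 ^ r + 2 := by
    have e1 := Matrix.rank_one (n := Option S) (R := ℝ)
    have e2 := Matrix.rank_one (n := ι) (R := ℝ)
    rw [← hQP] at e1
    rw [← hPQ] at e2
    have e3 := (Matrix.rank_mul_le_left Q P).trans (Matrix.rank_le_card_width Q)
    have e4 := (Matrix.rank_mul_le_left P Q).trans (Matrix.rank_le_card_width P)
    rw [Fintype.card_option] at e1 e4
    omega
  have hkl : (Finset.univ.filter fun s => 0 < a s).card +
      (Finset.univ.filter fun s => a s < 0).card = 2 ^ r + 2 := by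
    rw [← hcardS, ← Finset.card_union_of_disjoint]
    · have : (Finset.univ.filter fun s => 0 < a s) ∪ (Finset.univ.filter fun s => a s < 0) =
          Finset.univ := by
        ext s
        simp only [Finset.mem_union, Finset.mem_filter, Finset.mem_univ, true_and, iff_true]
        rcases lt_or_gt_of_ne (ha s) with h1 | h1
        · exact Or.inr h1
        · exact Or.inl h1
      rw [this, Finset.card_univ]
    · rw [Finset.disjoint_filter]
      intro s _ h5 h6
      linarith
  exact padic_of_add_pow (by omega) (by omega) (by omega : _ = 2 ^ r)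

end MP_d2f638_ag
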