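import Pool.Agent.Lib.MP_d2f638_ag.Defs

/-!
# Generic points
-/

namespace MP_d2f638_ag

open MvPolynomial Matrix

variable {ι : Type} [Fintype ι]

/-- `x` is a generic point of the cone over `X`: the polynomials vanishing at `x` are exactly
those of the ideal. -/
def GenPt (A B : Matrix ι ι ℝ) {L : Type} [Field L] [Algebra ℝ L] (x : ι → L) : Prop :=
  ∀ p : MvPolynomial ι ℝ, aeval x p = 0 ↔ p ∈ idealX A B

/-- The set of ratios of coordinates. -/
def ratios {L : Type} [Field L] (x : ι → L) : Set L := {z | ∃ i j, z = x i / x j}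

lemma GenPt.isPrime {A B : Matrix ι ι ℝ} {L : Type} [Field L] [Algebra ℝ L] {x : ι → L}
    (h : GenPt A B x) : (idealX A B).IsPrime := by
  have : idealX A B = RingHom.ker (aeval x : MvPolynomial ι ℝ →ₐ[ℝ] L).toRingHom := by
    ext p
    rw [RingHom.mem_ker]
    exact (h p).symm
  rw [this]
  exact RingHom.ker_isPrime _

/-- The class of the coordinate `x i` in the fraction field. -/
noncomputable def coord' (A B : Matrix ι ι ℝ) (i : ι) :
    FractionRing (MvPolynomial ι ℝ ⧸ idealX A B) :=
  algebraMap (MvPolynomial ι ℝ ⧸ idealX A B) _ (Ideal.Quotient.mk (idealX A B) (X i))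

/-- The function field, with unfolded types. -/
noncomputable def fnField' (A B : Matrix ι ι ℝ) [(idealX A B).IsPrime] :
    IntermediateField ℝ (FractionRing (MvPolynomial ι ℝ ⧸ idealX A B)) :=
  IntermediateField.adjoin ℝ {z | ∃ i j, z = coord' A B i / coord' A B j}

/-- Rationality, with unfolded types. -/
def RRational' (d : ℕ) (A B : Matrix ι ι ℝ) : Prop :=
  ∃ _ : (idealX A B).IsPrime,
    Nonempty (fnField' A B ≃ₐ[ℝ] FractionRing (MvPolynomial (Fin d) ℝ))

lemma rRational_iff (d : ℕ) (A B : Matrix ι ι ℝ) : RRational' d A B ↔ RRational d A B := Iff.rfl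

/-- Rationality can be read off any generic point. -/
lemma GenPt.rational {A B : Matrix ι ι ℝ} {L : Type} [Field L] [Algebra ℝ L] {x : ι → L}
    (h : GenPt A B x) {d : ℕ}
    (hr : Nonempty (IntermediateField.adjoin ℝ (ratios x) ≃ₐ[ℝ]
      FractionRing (MvPolynomial (Fin d) ℝ))) : RRational d A B := by
  rw [← rRational_iff]
  have hp := h.isPrime
  refine ⟨hp, ?_⟩
  let φ : (MvPolynomial ι ℝ ⧸ idealX A B) →ₐ[ℝ] L :=
    Ideal.Quotient.liftₐ (idealX A B) (aeval x) (fun p hp => (h p).2 hp)
  have hφ : Function.Injective φ := by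
    rw [injective_iff_map_eq_zero]
    intro a ha
    obtain ⟨p, rfl⟩ := Ideal.Quotient.mk_surjective a
    have : aeval x p = 0 := ha
    rw [Ideal.Quotient.eq_zero_iff_mem]
    exact (h p).1 this
  let ψ : FractionRing (MvPolynomial ι ℝ ⧸ idealX A B) →ₐ[ℝ] L :=
    IsFractionRing.liftAlgHom (K := FractionRing (MvPolynomial ι ℝ ⧸ idealX A B)) hφ
  have hψ : ∀ i, ψ (coord' A B i) = x i := by
    intro i
    have h1 : ψ (coord' A B i) = φ (Ideal.Quotient.mk (idealX A B) (X i)) := by
      simp only [ψ, coord']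
      exact IsFractionRing.lift_algebraMap hφ _
    rw [h1]
    show aeval x (X i) = x i
    rw [aeval_X]
  have hmap : (fnField' A B).map ψ = IntermediateField.adjoin ℝ (ratios x) := by
    rw [fnField', IntermediateField.adjoin_map]
    congr 1
    ext z
    constructor
    · rintro ⟨w, ⟨i, j, rfl⟩, rfl⟩
      exact ⟨i, j, by rw [map_div₀, hψ, hψ]⟩
    · rintro ⟨i, j, rfl⟩
      exact ⟨_, ⟨i, j, rfl⟩, by rw [map_div₀, hψ, hψ]⟩
  obtain ⟨e⟩ := hr
  exact ⟨((IntermediateField.equivMap (fnField' A B) ψ).trans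
    (IntermediateField.equivOfEq hmap)).trans e⟩

variable {ι' : Type} [Fintype ι']

/-- The substitution given by a matrix. -/
noncomputable def subst {k : Type} [CommRing k] (P : Matrix ι ι' k) :
    MvPolynomial ι k →ₐ[k] MvPolynomial ι' k :=
  aeval fun i => ∑ j, C (P i j) * X j

lemma subst_quad {k : Type} [CommRing k] (P : Matrix ι ι' k) (A : Matrix ι ι k) :
    subst P (quad A) = quad (P.transpose * A * P) := by
  simp only [subst, quad, map_sum, map_mul, aeval_X, algHom_C, algebraMap_eq]
  have h1 : ∀ i j, C (A i j) * (∑ a, C (P i a) * X a) * (∑ b, C (P j b) * X b) =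
      (∑ a, ∑ b, C (P i a * A i j * P j b) * X a * X b : MvPolynomial ι' k) := by
    intro i j
    rw [mul_assoc, Finset.sum_mul_sum, Finset.mul_sum]
    refine Finset.sum_congr rfl fun a _ => ?_
    rw [Finset.mul_sum]
    refine Finset.sum_congr rfl fun b _ => ?_
    rw [C_mul, C_mul]
    ring
  simp only [h1]
  have h2 : ∀ a b, C ((P.transpose * A * P) a b) * X a * X b =
      (∑ i, ∑ j, C (P i a * A i j * P j b) * X a * X b : MvPolynomial ι' k) := by
    intro a b
    have : (P.transpose * A * P) a b = ∑ i, ∑ j, P i a * A i j * P j b := by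
      rw [Matrix.mul_apply]
      simp only [Matrix.mul_apply, Finset.sum_mul, Matrix.transpose_apply]
      rw [Finset.sum_comm]
    rw [this, map_sum, Finset.sum_mul, Finset.sum_mul]
    refine Finset.sum_congr rfl fun i _ => ?_
    rw [map_sum, Finset.sum_mul, Finset.sum_mul]
  simp only [h2]
  -- reorder the sums
  calc (∑ i, ∑ j, ∑ a, ∑ b, C (P i a * A i j * P j b) * X a * X b : MvPolynomial ι' k)
      = ∑ i, ∑ a, ∑ j, ∑ b, C (P i a * A i j * P j b) * X a * X b := by
        refine Finset.sum_congr rfl fun i _ => ?_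
        rw [Finset.sum_comm]
    _ = ∑ a, ∑ i, ∑ j, ∑ b, C (P i a * A i j * P j b) * X a * X b := by
        rw [Finset.sum_comm]
    _ = ∑ a, ∑ i, ∑ b, ∑ j, C (P i a * A i j * P j b) * X a * X b := by
        refine Finset.sum_congr rfl fun a _ => Finset.sum_congr rfl fun i _ => ?_
        rw [Finset.sum_comm]
    _ = ∑ a, ∑ b, ∑ i, ∑ j, C (P i a * A i j * P j b) * X a * X b := by
        refine Finset.sum_congr rfl fun a _ => ?_
        rw [Finset.sum_comm]

lemma subst_mem {k : Type} [CommRing k] (P : Matrix ι ι' k) (A B : Matrix ι ι k)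
    {p : MvPolynomial ι k} (hp : p ∈ idealX A B) :
    subst P p ∈ idealX (P.transpose * A * P) (P.transpose * B * P) := by
  have h : idealX A B ≤ (idealX (P.transpose * A * P) (P.transpose * B * P)).comap
      (subst P).toRingHom := by
    rw [idealX, Ideal.span_le]
    rintro q (rfl | rfl)
    · exact Ideal.subset_span (Or.inl (subst_quad P A))
    · exact Ideal.subset_span (Or.inr (subst_quad P B))
  exact h hp

lemma aeval_subst {L : Type} [Field L] [Algebra ℝ L] (P : Matrix ι ι' ℝ) (x : ι' → L)
    (p : MvPolynomial ι ℝ) :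
    aeval x (subst P p) = aeval (fun i => ∑ j, algebraMap ℝ L (P i j) * x j) p := by
  have : (aeval x).comp (subst P) =
      aeval (fun i => ∑ j, algebraMap ℝ L (P i j) * x j) := by
    ext i
    simp [subst, aeval_X, map_sum, map_mul]
  rw [← this]; rfl

lemma subst_subst {k : Type} [CommRing k] [DecidableEq ι] (P : Matrix ι ι' k) (Q : Matrix ι' ι k)
    (hPQ : P * Q = 1) (p : MvPolynomial ι k) : subst Q (subst P p) = p := by
  have : (subst Q).comp (subst P) = AlgHom.id k (MvPolynomial ι k) := by
    ext i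
    simp only [subst, AlgHom.comp_apply, aeval_X, map_sum, map_mul, algHom_C, algebraMap_eq,
      AlgHom.id_apply]
    have h1 : ∀ j, C (P i j) * ∑ l, C (Q j l) * X l =
        (∑ l, C (P i j * Q j l) * X l : MvPolynomial ι k) := by
      intro j
      rw [Finset.mul_sum]
      refine Finset.sum_congr rfl fun l _ => ?_
      rw [C_mul]; ring
    simp only [h1]
    rw [Finset.sum_comm]
    have h2 : ∀ l, (∑ j, C (P i j * Q j l) * X l : MvPolynomial ι k) = C ((P * Q) i l) * X l := by
      intro l
      rw [Matrix.mul_apply, map_sum, Finset.sum_mul]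
    simp only [h2, hPQ, Matrix.one_apply]
    rw [Finset.sum_eq_single i]
    · simp
    · intro b _ hb
      simp [hb.symm]
    · simp
  exact congrArg (fun f => f p) this

/-- Linear changes of coordinates. -/
lemma GenPt.change [DecidableEq ι] [DecidableEq ι'] {A B : Matrix ι ι ℝ} {L : Type} [Field L]
    [Algebra ℝ L] {x : ι' → L} {P : Matrix ι ι' ℝ} {Q : Matrix ι' ι ℝ} (hPQ : P * Q = 1)
    (hQP : Q * P = 1)
    (h : GenPt (P.transpose * A * P) (P.transpose * B * P) x) :
    GenPt A B (fun i => ∑ j, algebraMap ℝ L (P i j) * x j) := by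
  intro p
  rw [← aeval_subst, h]
  constructor
  · intro hp
    have h1 := subst_mem Q _ _ hp
    rw [subst_subst P Q hPQ] at h1
    have h2 : ∀ M : Matrix ι ι ℝ, Q.transpose * (P.transpose * M * P) * Q = M := by
      intro M
      calc Q.transpose * (P.transpose * M * P) * Q
          = (P * Q).transpose * M * (P * Q) := by
            simp only [Matrix.transpose_mul, Matrix.mul_assoc]
        _ = M := by rw [hPQ]; simp
    rwa [h2, h2] at h1
  · intro hp
    exact subst_mem P _ _ hp

/-- The field of ratios does not change under linear maps. -/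
lemma ratios_le {L : Type} [Field L] [Algebra ℝ L] (P : Matrix ι ι' ℝ) (x : ι' → L) :
    IntermediateField.adjoin ℝ (ratios (fun i => ∑ j, algebraMap ℝ L (P i j) * x j)) ≤
      IntermediateField.adjoin ℝ (ratios x) := by
  rw [IntermediateField.adjoin_le_iff]
  rintro z ⟨i, j, rfl⟩
  set K := IntermediateField.adjoin ℝ (ratios x)
  by_cases h0 : ∃ l, x l ≠ 0
  · obtain ⟨l, hl⟩ := h0
    have h1 : ∀ i, (∑ j, algebraMap ℝ L (P i j) * x j) / x l ∈ K := by
      intro i
      rw [Finset.sum_div]
      refine K.sum_mem fun j _ => ?_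
      rw [mul_div_assoc]
      exact K.mul_mem (K.algebraMap_mem _) (IntermediateField.subset_adjoin _ _ ⟨j, l, rfl⟩)
    have h2 := K.div_mem (h1 i) (h1 j)
    rwa [div_div_div_cancel_right₀ hl] at h2
  · push Not at h0
    have : (∑ k, algebraMap ℝ L (P i k) * x k) = 0 := Finset.sum_eq_zero fun k _ => by
      rw [h0 k, mul_zero]
    show (∑ k, algebraMap ℝ L (P i k) * x k) / _ ∈ K
    rw [this, zero_div]
    exact K.zero_mem

/-- Changes of the basis of the pencil. -/
lemma idealX_pencil (A B : Matrix ι ι ℝ) {α β γ δ : ℝ} (hdet : α * δ - β * γ ≠ 0) :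
    idealX (α • A + β • B) (γ • A + δ • B) = idealX A B := by
  have hq : ∀ u v : ℝ, quad (u • A + v • B) = C u * quad A + C v * quad B := by
    intro u v
    simp only [quad, Finset.mul_sum, ← Finset.sum_add_distrib]
    refine Finset.sum_congr rfl fun i _ => Finset.sum_congr rfl fun j _ => ?_
    rw [Matrix.add_apply, Matrix.smul_apply, Matrix.smul_apply, smul_eq_mul, smul_eq_mul, C_add,
      C_mul, C_mul]
    ring
  have hmemA : quad A ∈ idealX A B := Ideal.subset_span (Or.inl rfl)
  have hmemB : quad B ∈ idealX A B := Ideal.subset_span (Or.inr rfl)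
  set I' := idealX (α • A + β • B) (γ • A + δ • B) with hI'
  have hmem1 : C α * quad A + C β * quad B ∈ I' := by
    rw [← hq]; exact Ideal.subset_span (Or.inl rfl)
  have hmem2 : C γ * quad A + C δ * quad B ∈ I' := by
    rw [← hq]; exact Ideal.subset_span (Or.inr rfl)
  have hinv : (C (α * δ - β * γ)⁻¹ : MvPolynomial ι ℝ) * C (α * δ - β * γ) = 1 := by
    rw [← C_mul, inv_mul_cancel₀ hdet, C_1]
  apply le_antisymm
  · rw [hI', idealX, Ideal.span_le]
    rintro q (rfl | rfl)
    · show quad _ ∈ idealX A B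
      rw [hq]
      exact Ideal.add_mem _ (Ideal.mul_mem_left _ _ hmemA) (Ideal.mul_mem_left _ _ hmemB)
    · show quad _ ∈ idealX A B
      rw [hq]
      exact Ideal.add_mem _ (Ideal.mul_mem_left _ _ hmemA) (Ideal.mul_mem_left _ _ hmemB)
  · rw [idealX, Ideal.span_le]
    rintro q (rfl | rfl)
    · show quad A ∈ I'
      have h1 : quad A = C (α * δ - β * γ)⁻¹ * (C δ * (C α * quad A + C β * quad B) -
          C β * (C γ * quad A + C δ * quad B)) := by
        rw [C_sub, C_mul, C_mul] at hinv
        linear_combination (-quad A) * hinv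
      rw [h1]
      exact Ideal.mul_mem_left _ _ (Ideal.sub_mem _ (Ideal.mul_mem_left _ _ hmem1)
        (Ideal.mul_mem_left _ _ hmem2))
    · show quad B ∈ I'
      have h1 : quad B = C (α * δ - β * γ)⁻¹ * (C α * (C γ * quad A + C δ * quad B) -
          C γ * (C α * quad A + C β * quad B)) := by
        rw [C_sub, C_mul, C_mul] at hinv
        linear_combination (-quad B) * hinv
      rw [h1]
      exact Ideal.mul_mem_left _ _ (Ideal.sub_mem _ (Ideal.mul_mem_left _ _ hmem2)
        (Ideal.mul_mem_left _ _ hmem1))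

end MP_d2f638_ag
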