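import Pool.Agent.Lib.MP_d2f638_ag.LinAlg
import Pool.Agent.Lib.MP_d2f638_ag.Double
import Pool.Agent.Lib.MP_d2f638_ag.Point

/-!
# The initial presentation of the function field of an intersection of two quadrics
-/

namespace MP_d2f638_ag

open Polynomial Filter

variable {ι : Type} [Fintype ι] [DecidableEq ι]

/-- The pencil `B - X A`. -/
noncomputable def pencilX (A B : Matrix ι ι ℝ) : Matrix ι ι ℝ[X] :=
  B.map C - (X : ℝ[X]) • A.map C

/-- The bilinear form of a matrix. -/
def bl {R : Type} [CommRing R] (M : Matrix ι ι R) : LinearMap.BilinForm R (ι → R) :=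
  Matrix.toBilin' M

lemma bl_apply {R : Type} [CommRing R] (M : Matrix ι ι R) (u v : ι → R) :
    bl M u v = ∑ i, ∑ j, u i * M i j * v j := Matrix.toBilin'_apply M u v

lemma bl_map {R S : Type} [CommRing R] [CommRing S] (φ : R →+* S) (M : Matrix ι ι R)
    (u v : ι → R) : φ (bl M u v) = bl (M.map φ) (fun i => φ (u i)) (fun i => φ (v i)) := by
  rw [bl_apply, bl_apply, map_sum]
  refine Finset.sum_congr rfl fun i _ => ?_
  rw [map_sum]
  refine Finset.sum_congr rfl fun j _ => ?_
  rw [map_mul, map_mul, Matrix.map_apply]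

lemma bl_symm {R : Type} [CommRing R] {M : Matrix ι ι R} (hM : M.IsSymm) (u v : ι → R) :
    bl M u v = bl M v u := by
  rw [bl_apply, bl_apply, Finset.sum_comm]
  refine Finset.sum_congr rfl fun i _ => Finset.sum_congr rfl fun j _ => ?_
  rw [hM.apply i j]
  ring

lemma bl_sub_smul {R : Type} [CommRing R] (A B : Matrix ι ι R) (s : R) (u v : ι → R) :
    bl (B - s • A) u v = bl B u v - s * bl A u v := by
  simp only [bl, map_sub, map_smul, LinearMap.sub_apply, LinearMap.smul_apply, smul_eq_mul]

lemma pencilX_symm {A B : Matrix ι ι ℝ} (hA : A.IsSymm) (hB : B.IsSymm) :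
    (pencilX A B).IsSymm := by
  ext i j
  simp only [pencilX, Matrix.transpose_apply, Matrix.sub_apply, Matrix.smul_apply,
    Matrix.map_apply, hA.apply, hB.apply]

/-- Orthogonal polynomial vectors for the pencil. -/
lemma exists_orth_poly {A B : Matrix ι ι ℝ} (hA : A.IsSymm) (hB : B.IsSymm)
    (hdet : (pencilX A B).det ≠ 0) {p p' : ι → ℝ[X]} (h1 : bl (pencilX A B) p p = 0)
    (h2 : bl (pencilX A B) p p' ≠ 0) :
    ∃ (m : ℕ) (v : Fin m → ι → ℝ[X]), m + 2 = Fintype.card ι ∧
      (∀ j, bl (pencilX A B) p (v j) = 0) ∧ (∀ j, bl (pencilX A B) p' (v j) = 0) ∧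
      (∀ i j, i ≠ j → bl (pencilX A B) (v i) (v j) = 0) ∧
      ∀ j, bl (pencilX A B) (v j) (v j) ≠ 0 := by
  let F := FractionRing ℝ[X]
  let α : ℝ[X] →+* F := algebraMap ℝ[X] F
  have hα : Function.Injective α := IsFractionRing.injective ℝ[X] F
  letI : Invertible (2 : F) := invertibleOfNonzero (by
    intro h0
    have : α 2 = 0 := by rw [map_ofNat]; exact h0
    rw [map_eq_zero_iff α hα] at this
    exact two_ne_zero this)
  set M := (pencilX A B).map α with hM
  have hMsymm : M.IsSymm := by
    ext i j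
    simp only [hM, Matrix.transpose_apply, Matrix.map_apply, (pencilX_symm hA hB).apply]
  have hMdet : M.det ≠ 0 := by
    have : M.det = α (pencilX A B).det := by
      rw [RingHom.map_det]; rfl
    rw [this, Ne, map_eq_zero_iff α hα]
    exact hdet
  have hn : (bl M).Nondegenerate := LinearMap.BilinForm.nondegenerate_toBilin'_of_det_ne_zero' M hMdet
  have hs : (bl M).IsSymm := ⟨fun u v => bl_symm hMsymm u v⟩
  have hb : ∀ u v : ι → ℝ[X], α (bl (pencilX A B) u v) = bl M (fun i => α (u i)) (fun i => α (v i)) :=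
    fun u v => bl_map α _ u v
  obtain ⟨m, w, hm, a1, a2, a3, a4⟩ := orth_vectors (bl M) hs hn
    (p := fun i => α (p i)) (p' := fun i => α (p' i)) (by rw [← hb, h1, map_zero])
    (by rw [← hb, Ne, map_eq_zero_iff α hα]; exact h2)
  -- clear denominators
  have hden : ∀ j, ∃ (d : ℝ[X]) (v : ι → ℝ[X]), d ≠ 0 ∧ ∀ i, α (v i) = α d * w j i := by
    intro j
    obtain ⟨b, hb⟩ := IsLocalization.exist_integer_multiples_of_finite (nonZeroDivisors ℝ[X])
      (w j)
    choose v hv using hb
    refine ⟨b, v, nonZeroDivisors.ne_zero b.2, fun i => ?_⟩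
    rw [hv i, Algebra.smul_def]
  choose d v hd hv using hden
  have hvw : ∀ j, (fun i => α (v j i)) = α (d j) • w j := by
    intro j
    funext i
    rw [hv j i]; rfl
  refine ⟨m, v, by rw [hm, Module.finrank_fintype_fun_eq_card], ?_, ?_, ?_, ?_⟩
  · intro j
    rw [← map_eq_zero_iff α hα, hb, hvw, map_smul, a1 j, smul_zero]
  · intro j
    rw [← map_eq_zero_iff α hα, hb, hvw, map_smul, a2 j, smul_zero]
  · intro i j hij
    rw [← map_eq_zero_iff α hα, hb, hvw, hvw, map_smul, map_smul, LinearMap.smul_apply, a3 i j hij,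
      smul_zero, smul_zero]
  · intro j h0
    rw [← map_eq_zero_iff α hα, hb, hvw, map_smul, map_smul, LinearMap.smul_apply, smul_smul,
      smul_eq_mul, mul_eq_zero] at h0
    have hdj : α (d j) ≠ 0 := by rw [Ne, map_eq_zero_iff α hα]; exact hd j
    rcases h0 with h0 | h0
    · exact (mul_ne_zero hdj hdj) h0
    · exact a4 j h0

/-- Number of negative squares of a real symmetric matrix. -/
noncomputable def negIdx (M : Matrix ι ι ℝ) : ℕ := sigNeg (bl M).toQuadraticMap

variable {K : Type} [Field K] [Algebra ℝ K]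

/-- The real matrix `M` viewed over `K`. -/
def toK (K : Type) [Field K] [Algebra ℝ K] (M : Matrix ι ι ℝ) : Matrix ι ι K :=
  M.map (algebraMap ℝ K)

/-- The initial presentation. -/
theorem init_state {A B : Matrix ι ι ℝ} (hA : A.IsSymm) (hB : B.IsSymm) {x : ι → K} {i0 : ι}
    (hx0 : x i0 = 1) (htop : IntermediateField.adjoin ℝ (Set.range x) = ⊤)
    (hfA : bl (toK K A) x x = 0) (hfB : bl (toK K B) x x = 0) {p : ι → ℝ}
    (hpA : bl A p p = 0) (hpB : bl B p p = 0) (hAp : Matrix.mulVec A p ≠ 0)
    (hlin : ∀ l : ι → ℝ, ∑ i, algebraMap ℝ K (l i) * x i = 0 → l = 0)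
    (hdet : (pencilX A B).det ≠ 0) {t : K}
    (htdef : bl (toK K B) (fun i => algebraMap ℝ K (p i)) x =
      t * bl (toK K A) (fun i => algebraMap ℝ K (p i)) x)
    (ht : Trans t) :
    ∃ (m : ℕ) (h : Fin m → ℝ[X]) (j0 : Fin m), m + 2 = Fintype.card ι ∧ (∀ j, h j ≠ 0) ∧
      StAt t 0 h j0 ∧
      ∀ᶠ s in (cofinite : Filter ℝ), negIdx (B - s • A) = cnt h s + 1 := by
  set pK : ι → K := fun i => algebraMap ℝ K (p i) with hpK
  -- linear form of `A p`
  have hApx : bl (toK K A) pK x ≠ 0 := by
    intro h0
    apply hAp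
    refine hlin _ ?_
    rw [← h0, bl_apply]
    rw [Finset.sum_comm]
    refine Finset.sum_congr rfl fun j _ => ?_
    rw [Matrix.mulVec, dotProduct, map_sum, Finset.sum_mul]
    refine Finset.sum_congr rfl fun i _ => ?_
    simp only [toK, Matrix.map_apply, hpK, map_mul]
    rw [hA.apply]
    ring
  -- polynomial vectors
  set P : ι → ℝ[X] := fun i => C (p i) with hP
  set P' : ι → ℝ[X] := fun i => C (Matrix.mulVec A p i) with hP'
  have hconst : ∀ (M : Matrix ι ι ℝ) (u v : ι → ℝ),
      bl (M.map C) (fun i => (C (u i) : ℝ[X])) (fun i => C (v i)) = C (bl M u v) :=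
    fun M u v => (bl_map (C : ℝ →+* ℝ[X]) M u v).symm
  have hpen : ∀ u v : ι → ℝ[X], bl (pencilX A B) u v = bl (B.map C) u v - X * bl (A.map C) u v :=
    fun u v => bl_sub_smul _ _ _ u v
  have q1 : bl (pencilX A B) P P = 0 := by
    rw [hpen, hconst, hconst, hpA, hpB]; simp
  have hApAp : 0 < bl A p (Matrix.mulVec A p) := by
    have : bl A p (Matrix.mulVec A p) = ∑ j, (Matrix.mulVec A p j) ^ 2 := by
      rw [bl_apply, Finset.sum_comm]
      refine Finset.sum_congr rfl fun j _ => ?_
      rw [← Finset.sum_mul, sq]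
      congr 1
      rw [Matrix.mulVec, dotProduct]
      refine Finset.sum_congr rfl fun i _ => ?_
      rw [hA.apply]; ring
    rw [this]
    obtain ⟨j, hj⟩ := Function.ne_iff.1 hAp
    exact lt_of_lt_of_le (by have : Matrix.mulVec A p j ≠ 0 := hj
                             positivity)
      (Finset.single_le_sum (f := fun j => (Matrix.mulVec A p j) ^ 2)
        (fun i _ => sq_nonneg _) (Finset.mem_univ j))
  have q2 : bl (pencilX A B) P P' ≠ 0 := by
    rw [hpen, hconst, hconst]
    intro h0
    have := congrArg (fun q => q.coeff 1) h0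
    simp only [coeff_sub, coeff_C_succ, coeff_X_mul, coeff_C_zero, zero_sub, coeff_zero] at this
    linarith
  obtain ⟨m, v, hm, a1, a2, a3, a4⟩ := exists_orth_poly hA hB hdet q1 q2
  -- evaluation at a point of a field
  have hev : ∀ {E : Type} [Field E] [Algebra ℝ E] (s : E) (u w : ι → ℝ[X]),
      aeval s (bl (pencilX A B) u w) =
        bl (toK E B - s • toK E A) (fun i => aeval s (u i)) (fun i => aeval s (w i)) := by
    intro E _ _ s u w
    have h3 := bl_map (aeval s : ℝ[X] →ₐ[ℝ] E).toRingHom (pencilX A B) u w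
    have h4 : (pencilX A B).map (aeval s : ℝ[X] →ₐ[ℝ] E).toRingHom = toK E B - s • toK E A := by
      ext i j
      simp only [pencilX, toK, Matrix.map_apply, Matrix.sub_apply, Matrix.smul_apply, smul_eq_mul,
        AlgHom.toRingHom_eq_coe, RingHom.coe_coe, map_sub, map_mul, aeval_C, aeval_X]
    rw [h4] at h3
    exact h3
  -- the form over `K`
  set M : Matrix ι ι K := toK K B - t • toK K A with hM
  have hMsymm : M.IsSymm := by
    ext i j
    simp only [hM, toK, Matrix.transpose_apply, Matrix.sub_apply, Matrix.smul_apply,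
      Matrix.map_apply, hA.apply, hB.apply]
  set β := bl M with hβ
  have hβs : ∀ u w, β u w = β w u := fun u w => bl_symm hMsymm u w
  set vK : Fin m → ι → K := fun j i => aeval t (v j i) with hvK
  have hPK : (fun i => aeval t (P i)) = pK := by
    funext i; simp [hP, hpK]
  set pK' : ι → K := fun i => aeval t (P' i) with hpK'
  have b0 : β pK pK = 0 := by
    rw [hβ, hM, ← hPK, ← hev, q1, map_zero]
  have b0' : β pK pK' ≠ 0 := by
    rw [hβ, hM, ← hPK, hpK', ← hev]; exact ht _ q2
  have b1 : ∀ j, β pK (vK j) = 0 := fun j => by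
    rw [hβ, hM, ← hPK, ← hev, a1 j, map_zero]
  have b2 : ∀ j, β pK' (vK j) = 0 := fun j => by
    rw [hβ, hM, hpK', ← hev, a2 j, map_zero]
  have b3 : ∀ i j, i ≠ j → β (vK i) (vK j) = 0 := fun i j hij => by
    rw [hβ, hM, ← hev, a3 i j hij, map_zero]
  have b4 : ∀ j, β (vK j) (vK j) = aeval t (bl (pencilX A B) (v j) (v j)) := fun j => by
    rw [hβ, hM, ← hev]
  have b4' : ∀ j, β (vK j) (vK j) ≠ 0 := fun j => by
    rw [b4 j]; exact ht _ (a4 j)
  have hpx : β pK x = 0 := by
    rw [hβ, hM, bl_sub_smul, htdef]; ring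
  obtain ⟨c, y, hxy⟩ := decomp β hβs b0 b0' (by rw [hm, Module.finrank_fintype_fun_eq_card])
    b1 b2 b3 b4' x hpx
  -- the relation
  have hxx : β x x = 0 := by
    rw [hβ, hM, bl_sub_smul, hfA, hfB]; ring
  have hrel : ∑ j, aeval t (bl (pencilX A B) (v j) (v j)) * y j ^ 2 = 0 := by
    have h3 : β x x = ∑ j, β (vK j) (vK j) * y j ^ 2 := by
      have h4 : β x x = β x (∑ j, y j • vK j) := by
        have : β x x = β x (c • pK + ∑ j, y j • vK j) := by rw [← hxy]
        rw [this, map_add, map_smul, hβs x pK, hpx, smul_zero, zero_add]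
      rw [h4, map_sum]
      refine Finset.sum_congr rfl fun j _ => ?_
      have h5 : β x (vK j) = β (vK j) (vK j) * y j := by
        have : β x (vK j) = β (c • pK + ∑ j, y j • vK j) (vK j) := by rw [← hxy]
        rw [this, map_add, map_smul, map_sum, LinearMap.add_apply, LinearMap.smul_apply, b1 j,
          smul_zero, zero_add, LinearMap.sum_apply, Finset.sum_eq_single j]
        · rw [map_smul, LinearMap.smul_apply, smul_eq_mul]; ring
        · intro i _ hij
          rw [map_smul, LinearMap.smul_apply, b3 i j hij, smul_zero]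
        · intro hj; exact absurd (Finset.mem_univ j) hj
      rw [map_smul, h5, smul_eq_mul]; ring
    rw [← hxx, h3]
    refine Finset.sum_congr rfl fun j _ => ?_
    rw [b4 j]
  have hApp : bl (toK K A) pK pK = 0 := by
    have := bl_map (algebraMap ℝ K) A p p
    rw [hpA, map_zero] at this
    exact this.symm
  -- some coordinate is nonzero
  obtain ⟨j0, hj0⟩ : ∃ j0, y j0 ≠ 0 := by
    by_contra hcon
    push Not at hcon
    apply hApx
    have : x = c • pK := by
      rw [hxy]
      simp [hcon]
    rw [this, map_smul, hApp, smul_zero]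
  refine ⟨m, fun j => bl (pencilX A B) (v j) (v j), j0, hm, a4, ?_, ?_⟩
  · -- the presentation
    refine ⟨fun j _ => y j / y j0, ?_, ?_, ?_⟩
    · funext i
      show y j0 / y j0 = 1
      exact div_self hj0
    · have h3 : ∀ j, nn (fun _ : Ix 0 => y j / y j0) = (y j0)⁻¹ ^ 2 * y j ^ 2 := by
        intro j
        show ∑ _i : Unit, (y j / y j0) ^ 2 = _
        simp only [Finset.univ_unique, Finset.sum_const, Finset.card_singleton, one_smul]
        rw [div_pow, inv_pow, div_eq_inv_mul]
      simp only [h3]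
      have : ∑ j, aeval t (bl (pencilX A B) (v j) (v j)) * ((y j0)⁻¹ ^ 2 * y j ^ 2) =
          (y j0)⁻¹ ^ 2 * ∑ j, aeval t (bl (pencilX A B) (v j) (v j)) * y j ^ 2 := by
        rw [Finset.mul_sum]
        refine Finset.sum_congr rfl fun j _ => ?_
        ring
      rw [this, hrel, mul_zero]
    · refine adjoin_top_of_mem htop ?_
      set L := IntermediateField.adjoin ℝ (gens t (r := 0) (fun j (_ : Ix 0) => y j / y j0))
        with hL
      have htL : t ∈ L := mem_gens_t _ _
      have hyL : ∀ j, y j / y j0 ∈ L := fun j => mem_gens_y t (r := 0)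
        (fun j (_ : Ix 0) => y j / y j0) j ()
      set Y : ι → K := ∑ j, (y j / y j0) • vK j with hY
      have hYL : ∀ i, Y i ∈ L := by
        intro i
        rw [hY, Finset.sum_apply]
        exact L.sum_mem fun j _ => L.mul_mem (hyL j) (aeval_mem_field L htL _)
      have hxY : (y j0)⁻¹ • x = (c / y j0) • pK + Y := by
        rw [hY, hxy, smul_add, smul_smul, Finset.smul_sum]
        congr 1
        · congr 1
          rw [div_eq_inv_mul]
        · refine Finset.sum_congr rfl fun j _ => ?_
          rw [smul_smul, div_eq_inv_mul]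
      have hpY : bl (toK K A) pK Y = (y j0)⁻¹ * bl (toK K A) pK x := by
        have h3 := congrArg (fun w => bl (toK K A) pK w) hxY
        simp only [map_smul, map_add, hApp, smul_zero, zero_add, smul_eq_mul, mul_zero] at h3
        exact h3.symm
      have hpY0 : bl (toK K A) pK Y ≠ 0 := by
        rw [hpY]
        exact mul_ne_zero (inv_ne_zero hj0) hApx
      have hAs : ∀ u w, bl (toK K A) u w = bl (toK K A) w u := fun u w => by
        refine bl_symm ?_ u w
        ext i j
        simp only [toK, Matrix.transpose_apply, Matrix.map_apply, hA.apply]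
      have hc : c / y j0 = -(bl (toK K A) Y Y) / (2 * bl (toK K A) pK Y) := by
        have h3 : bl (toK K A) ((c / y j0) • pK + Y) ((c / y j0) • pK + Y) = 0 := by
          rw [← hxY, map_smul, map_smul, LinearMap.smul_apply, hfA]; simp
        generalize c / y j0 = c' at h3 ⊢
        simp only [map_add, map_smul, LinearMap.add_apply, LinearMap.smul_apply, smul_eq_mul,
          hApp, hAs Y pK] at h3
        have h20 : (2 : K) ≠ 0 := by
          have h4 : algebraMap ℝ K 2 ≠ 0 := by simp
          rwa [map_ofNat] at h4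
        rw [eq_div_iff (mul_ne_zero h20 hpY0)]
        linear_combination h3
      have hblL : ∀ u w : ι → K, (∀ i, u i ∈ L) → (∀ i, w i ∈ L) → bl (toK K A) u w ∈ L := by
        intro u w hu hw
        rw [bl_apply]
        exact L.sum_mem fun i _ => L.sum_mem fun j _ => L.mul_mem
          (L.mul_mem (hu i) (L.algebraMap_mem _)) (hw j)
      have hpKL : ∀ i, pK i ∈ L := fun i => L.algebraMap_mem _
      have hcL : c / y j0 ∈ L := by
        rw [hc]
        refine L.div_mem (L.neg_mem (hblL Y Y hYL hYL)) (L.mul_mem ?_ (hblL pK Y hpKL hYL))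
        have := L.algebraMap_mem (2 : ℝ)
        rwa [map_ofNat] at this
      have hxL : ∀ i, (y j0)⁻¹ * x i ∈ L := by
        intro i
        have h3 := congrFun hxY i
        have h4 : (y j0)⁻¹ * x i = (c / y j0) * pK i + Y i := h3
        rw [h4]
        exact L.add_mem (L.mul_mem hcL (hpKL i)) (hYL i)
      have hyinv : (y j0)⁻¹ ∈ L := by
        have := hxL i0
        rwa [hx0, mul_one] at this
      rintro w ⟨i, rfl⟩
      have h3 := L.div_mem (hxL i) hyinv
      rwa [mul_comm, mul_div_assoc, div_self (inv_ne_zero hj0), mul_one] at h3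
  · -- the number of negative squares
    have hne : ∀ᶠ s in (cofinite : Filter ℝ), ∀ j, (bl (pencilX A B) (v j) (v j)).eval s ≠ 0 := by
      rw [Filter.eventually_all]
      exact fun j => eventually_ne_zero (a4 j)
    filter_upwards [hne, eventually_ne_zero q2] with s hs1 hs2
    have htoK : ∀ N : Matrix ι ι ℝ, toK ℝ N = N := fun N => by
      ext i j; simp [toK]
    have hev' : ∀ u w : ι → ℝ[X], (bl (pencilX A B) u w).eval s =
        bl (B - s • A) (fun i => (u i).eval s) (fun i => (w i).eval s) := by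
      intro u w
      have := hev (E := ℝ) s u w
      rw [htoK, htoK] at this
      simpa [coe_aeval_eq_eval] using this
    have hs : (B - s • A).IsSymm := by
      ext i j
      simp only [Matrix.transpose_apply, Matrix.sub_apply, Matrix.smul_apply, hA.apply, hB.apply]
    have := sigNeg_eq (bl (B - s • A)) (fun u w => bl_symm hs u w)
      (p := fun i => (P i).eval s) (p' := fun i => (P' i).eval s)
      (v := fun j i => (v j i).eval s) (by rw [← hev', q1, eval_zero])
      (by rw [← hev']; exact hs2) (by rw [hm, Module.finrank_fintype_fun_eq_card])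
      (fun j => by rw [← hev', a1 j, eval_zero]) (fun j => by rw [← hev', a2 j, eval_zero])
      (fun i j hij => by rw [← hev', a3 i j hij, eval_zero])
      (fun j => by rw [← hev']; exact hs1 j)
    rw [negIdx, this, cnt]
    congr 1
    refine Finset.sum_congr rfl fun j _ => ?_
    rw [← hev']

end MP_d2f638_ag
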