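import Mathlib

/-!
# Orthogonal vectors complementary to a hyperbolic plane
-/

namespace MP_d2f638_ag

open LinearMap (BilinForm)
open Module Submodule

/-- Orthogonal anisotropic vectors in the orthogonal complement of a hyperbolic plane. -/
lemma orth_vectors {F V : Type*} [Field F] [Invertible (2 : F)] [AddCommGroup V] [Module F V]
    [FiniteDimensional F V] (β : BilinForm F V) (hs : β.IsSymm) (hn : β.Nondegenerate)
    {p p' : V} (h1 : β p p = 0) (h2 : β p p' ≠ 0) :
    ∃ (m : ℕ) (v : Fin m → V), m + 2 = finrank F V ∧ (∀ j, β p (v j) = 0) ∧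
      (∀ j, β p' (v j) = 0) ∧ (∀ i j, i ≠ j → β (v i) (v j) = 0) ∧ ∀ j, β (v j) (v j) ≠ 0 := by
  have hsym : ∀ x y, β x y = β y x := fun x y => hs.eq x y
  have h2' : β p' p ≠ 0 := by rwa [hsym]
  have hp0 : p ≠ 0 := by
    rintro rfl
    simp at h2
  -- the plane
  set W : Submodule F V := span F {p, p'} with hW
  have hli : LinearIndependent F ![p, p'] := by
    rw [LinearIndependent.pair_iff]
    intro a b hab
    have e1 := congrArg (fun x => β p x) hab
    simp only [map_add, map_smul, smul_eq_mul, h1, mul_zero, zero_add, map_zero] at e1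
    have hb : b = 0 := (mul_eq_zero.1 e1).resolve_right h2
    rw [hb, zero_smul, add_zero] at hab
    exact ⟨(smul_eq_zero.1 hab).resolve_right hp0, hb⟩
  have hWrank : finrank F W = 2 := by
    have heq : ({p, p'} : Set V) = Set.range ![p, p'] := by
      simp only [Matrix.range_cons, Matrix.range_empty, Set.union_empty, Set.singleton_union]
    rw [hW, heq, finrank_span_eq_card hli, Fintype.card_fin]
  have hpW : p ∈ W := subset_span (by simp)
  have hp'W : p' ∈ W := subset_span (by simp)
  have hdisj : Disjoint W (β.orthogonal W) := by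
    rw [Submodule.disjoint_def]
    intro x hx hx'
    rw [BilinForm.mem_orthogonal_iff] at hx'
    rw [hW, mem_span_pair] at hx
    obtain ⟨a, b, rfl⟩ := hx
    have e1 : β p (a • p + b • p') = 0 := hx' p hpW
    have e2 : β p' (a • p + b • p') = 0 := hx' p' hp'W
    simp only [map_add, map_smul, smul_eq_mul, h1, mul_zero, zero_add] at e1
    have hb : b = 0 := (mul_eq_zero.1 e1).resolve_right h2
    rw [hb] at e2 ⊢
    simp only [map_add, map_smul, smul_eq_mul, zero_mul, add_zero] at e2
    have ha : a = 0 := (mul_eq_zero.1 e2).resolve_right h2'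
    rw [ha]; simp
  have hcompl : IsCompl W (β.orthogonal W) :=
    (BilinForm.isCompl_orthogonal_iff_disjoint hs.isRefl).2 hdisj
  set N := β.orthogonal W with hN
  have hNrank : finrank F N = finrank F V - 2 := by
    rw [hN, BilinForm.finrank_orthogonal hn, hWrank]
  have hVrank : 2 ≤ finrank F V := by
    rw [← hWrank]; exact Submodule.finrank_le W
  have hsN : LinearMap.IsSymm (β.restrict N) := ⟨fun x y => hsym _ _⟩
  obtain ⟨v, hv⟩ := LinearMap.BilinForm.exists_orthogonal_basis (V := N) (B := β.restrict N) hsN
  refine ⟨finrank F N, fun j => (v j : V), by rw [hNrank]; omega, ?_, ?_, ?_, ?_⟩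
  · intro j
    exact (BilinForm.mem_orthogonal_iff.1 (v j).2) p hpW
  · intro j
    exact (BilinForm.mem_orthogonal_iff.1 (v j).2) p' hp'W
  · intro i j hij
    exact hv hij
  · intro j hj
    -- `v j` lies in the radical
    have hrad : ∀ x : V, β (v j : V) x = 0 := by
      intro x
      have hx : x ∈ W ⊔ N := by
        rw [hcompl.sup_eq_top]; trivial
      obtain ⟨w, hw, y, hy, rfl⟩ := Submodule.mem_sup.1 hx
      rw [map_add]
      have e1 : β (v j : V) w = 0 := by
        rw [hsym]
        exact (BilinForm.mem_orthogonal_iff.1 (v j).2) w hw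
      have e2 : β (v j : V) y = 0 := by
        have h3 : ∀ y : N, β (v j : V) y = 0 := by
          have h4 : (β (v j : V)).comp N.subtype = 0 := by
            refine v.ext ?_
            intro i
            show β (v j : V) (v i : V) = 0
            by_cases hij : j = i
            · rw [← hij]; exact hj
            · exact hv hij
          intro y
          exact congrArg (fun f => f y) h4
        exact h3 ⟨y, hy⟩
      rw [e1, e2, add_zero]
    have h5 : (v j : V) = 0 := hn.1 _ hrad
    exact v.ne_zero j (Subtype.ext h5)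

/-- The family `p, p', v j`. -/
def fam {V : Type*} {m : ℕ} (p p' : V) (v : Fin m → V) : Option (Option (Fin m)) → V :=
  fun o => o.elim p (fun o' => o'.elim p' v)

/-- The family `p, p', v j` is linearly independent. -/
lemma fam_linearIndependent {F V : Type*} [Field F] [AddCommGroup V] [Module F V]
    (β : BilinForm F V) (hs : ∀ x y, β x y = β y x)
    {p p' : V} (h1 : β p p = 0) (h2 : β p p' ≠ 0) {m : ℕ} {v : Fin m → V}
    (hpv : ∀ j, β p (v j) = 0) (hp'v : ∀ j, β p' (v j) = 0)
    (hvv : ∀ i j, i ≠ j → β (v i) (v j) = 0) (hv : ∀ j, β (v j) (v j) ≠ 0) :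
    LinearIndependent F (fam p p' v) := by
  rw [Fintype.linearIndependent_iff]
  intro g hg
  rw [Fintype.sum_option, Fintype.sum_option] at hg
  simp only [fam, Option.elim] at hg
  have hc : ∀ i, g (some (some i)) = 0 := by
    intro i
    have e1 := congrArg (fun x => β (v i) x) hg
    simp only [map_add, map_sum, map_smul, smul_eq_mul, map_zero] at e1
    rw [hs (v i) p, hpv i, hs (v i) p', hp'v i, mul_zero, mul_zero, zero_add, zero_add,
      Finset.sum_eq_single i] at e1
    · exact (mul_eq_zero.1 e1).resolve_right (hv i)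
    · intro j _ hj
      rw [hvv i j hj.symm, mul_zero]
    · intro hi
      exact absurd (Finset.mem_univ i) hi
  have hb : g (some none) = 0 := by
    have e1 := congrArg (fun x => β p x) hg
    simp only [map_add, map_sum, map_smul, smul_eq_mul, map_zero, h1, hpv, mul_zero, zero_add,
      Finset.sum_const_zero, add_zero] at e1
    exact (mul_eq_zero.1 e1).resolve_right h2
  have ha : g none = 0 := by
    have e1 := congrArg (fun x => β p' x) hg
    simp only [map_add, map_sum, map_smul, smul_eq_mul, map_zero, hp'v, mul_zero, hb, zero_mul,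
      Finset.sum_const_zero, add_zero] at e1
    rw [hs p' p] at e1
    exact (mul_eq_zero.1 e1).resolve_right h2
  rintro (_ | _ | i)
  · exact ha
  · exact hb
  · exact hc i

/-- Decomposition of a vector orthogonal to `p`. -/
lemma decomp {F V : Type*} [Field F] [AddCommGroup V] [Module F V] [FiniteDimensional F V]
    (β : BilinForm F V) (hs : ∀ x y, β x y = β y x)
    {p p' : V} (h1 : β p p = 0) (h2 : β p p' ≠ 0) {m : ℕ} {v : Fin m → V}
    (hm : m + 2 = finrank F V)
    (hpv : ∀ j, β p (v j) = 0) (hp'v : ∀ j, β p' (v j) = 0)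
    (hvv : ∀ i j, i ≠ j → β (v i) (v j) = 0) (hv : ∀ j, β (v j) (v j) ≠ 0) (x : V)
    (hx : β p x = 0) : ∃ (c : F) (y : Fin m → F), x = c • p + ∑ j, y j • v j := by
  have hli := fam_linearIndependent β hs h1 h2 hpv hp'v hvv hv
  have hspan : span F (Set.range (fam p p' v)) = ⊤ := by
    refine hli.span_eq_top_of_card_eq_finrank' ?_
    rw [← hm]; simp
  have hx' : x ∈ span F (Set.range (fam p p' v)) := by rw [hspan]; trivial
  rw [Submodule.mem_span_range_iff_exists_fun] at hx'
  obtain ⟨g, hg⟩ := hx'
  rw [Fintype.sum_option, Fintype.sum_option] at hg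
  simp only [fam, Option.elim] at hg
  have hb : g (some none) = 0 := by
    have e1 := congrArg (fun x => β p x) hg
    simp only [map_add, map_sum, map_smul, smul_eq_mul, h1, hpv, mul_zero, zero_add,
      Finset.sum_const_zero, add_zero, hx] at e1
    exact (mul_eq_zero.1 e1).resolve_right h2
  refine ⟨g none, fun j => g (some (some j)), ?_⟩
  rw [← hg, hb, zero_smul, zero_add]

/-- The number of negative squares of a real form containing a hyperbolic plane. -/
lemma sigNeg_eq {V : Type*} [AddCommGroup V] [Module ℝ V] [FiniteDimensional ℝ V]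
    (β : BilinForm ℝ V) (hs : ∀ x y, β x y = β y x)
    {p p' : V} (h1 : β p p = 0) (h2 : β p p' ≠ 0) {m : ℕ} {v : Fin m → V}
    (hm : m + 2 = finrank ℝ V)
    (hpv : ∀ j, β p (v j) = 0) (hp'v : ∀ j, β p' (v j) = 0)
    (hvv : ∀ i j, i ≠ j → β (v i) (v j) = 0) (hv : ∀ j, β (v j) (v j) ≠ 0) :
    sigNeg β.toQuadraticMap = (∑ j, if β (v j) (v j) < 0 then 1 else 0) + 1 := by
  classical
  -- an orthogonal basis
  set cp : ℝ := (1 - β p' p') / (2 * β p p') with hcp
  set cm : ℝ := (-1 - β p' p') / (2 * β p p') with hcm
  set e1 : V := p' + cp • p with he1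
  set e2 : V := p' + cm • p with he2
  have h2' : β p' p = β p p' := hs _ _
  have q11 : β e1 e1 = 1 := by
    simp only [he1, map_add, map_smul, LinearMap.add_apply, LinearMap.smul_apply, smul_eq_mul, h1,
      h2', hcp]
    field_simp
    ring
  have q22 : β e2 e2 = -1 := by
    simp only [he2, map_add, map_smul, LinearMap.add_apply, LinearMap.smul_apply, smul_eq_mul, h1,
      h2', hcm]
    field_simp
    ring
  have q12 : β e1 e2 = 0 := by
    simp only [he1, he2, map_add, map_smul, LinearMap.add_apply, LinearMap.smul_apply, smul_eq_mul,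
      h1, h2', hcm, hcp]
    field_simp
    ring
  have q1v : ∀ j, β e1 (v j) = 0 := by
    intro j
    simp only [he1, map_add, map_smul, LinearMap.add_apply, LinearMap.smul_apply, smul_eq_mul,
      hpv, hp'v]
    ring
  have q2v : ∀ j, β e2 (v j) = 0 := by
    intro j
    simp only [he2, map_add, map_smul, LinearMap.add_apply, LinearMap.smul_apply, smul_eq_mul,
      hpv, hp'v]
    ring
  set w : Option (Option (Fin m)) → V := fam e1 e2 v with hw
  have hortho : ∀ i j, i ≠ j → β (w i) (w j) = 0 := by
    rintro (_ | _ | i) (_ | _ | j) hij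
    · exact absurd rfl hij
    · exact q12
    · exact q1v j
    · exact (hs _ _).trans q12
    · exact absurd rfl hij
    · exact q2v j
    · exact (hs _ _).trans (q1v i)
    · exact (hs _ _).trans (q2v i)
    · exact hvv i j (fun h => hij (by rw [h]))
  have hdiag : ∀ i, β (w i) (w i) ≠ 0 := by
    rintro (_ | _ | i)
    · show β e1 e1 ≠ 0
      rw [q11]; norm_num
    · show β e2 e2 ≠ 0
      rw [q22]; norm_num
    · exact hv i
  have hli : LinearIndependent ℝ w :=
    LinearMap.BilinForm.linearIndependent_of_iIsOrtho (B := β)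
      (fun i j hij => hortho i j hij) (fun i => hdiag i)
  have hcard : Fintype.card (Option (Option (Fin m))) = finrank ℝ V := by
    rw [← hm]; simp
  let b : Basis (Option (Option (Fin m))) ℝ V := basisOfLinearIndependentOfCardEqFinrank hli hcard
  have hb : ∀ i, b i = w i := fun i => by
    simp only [b, coe_basisOfLinearIndependentOfCardEqFinrank]
  have hQ : QuadraticMap.Equivalent β.toQuadraticMap
      (QuadraticMap.weightedSumSquares ℝ (fun i => β (w i) (w i))) := by
    have hassoc : QuadraticMap.associated (R := ℝ) β.toQuadraticMap = β :=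
      QuadraticMap.associated_left_inverse ℝ hs
    have h3 : (QuadraticMap.associated (R := ℝ) β.toQuadraticMap).IsOrthoᵢ b := by
      rw [hassoc]
      intro i j hij
      show β (b i) (b j) = 0
      rw [hb, hb]
      exact hortho i j hij
    have h4 := QuadraticMap.basisRepr_eq_of_iIsOrtho β.toQuadraticMap b h3
    have h5 : (fun i => β (w i) (w i)) = fun i => β.toQuadraticMap (b i) := by
      funext i
      rw [hb]
      rfl
    rw [h5, ← h4]
    exact ⟨β.toQuadraticMap.isometryEquivBasisRepr b⟩
  rw [QuadraticForm.sigNeg_of_equiv_weightedSumSquares hQ]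
  have hset : {i | β (w i) (w i) < 0} =
      ((Finset.univ.filter (fun i => β (w i) (w i) < 0) : Finset (Option (Option (Fin m)))) :
        Set (Option (Option (Fin m)))) := by
    ext i; simp
  rw [hset, Set.ncard_coe_finset, Finset.card_filter, Fintype.sum_option, Fintype.sum_option]
  have e3 : ¬ (β (w none) (w none) < 0) := by
    show ¬ (β e1 e1 < 0)
    rw [q11]; norm_num
  have e4 : β (w (some none)) (w (some none)) < 0 := by
    show β e2 e2 < 0
    rw [q22]; norm_num
  rw [if_neg e3, if_pos e4]
  show 0 + (1 + ∑ j, if β (v j) (v j) < 0 then 1 else 0) = _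
  ring

end MP_d2f638_ag
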