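import Pool.Agent.Lib.MP_d2f638_ag.Generic
import Pool.Agent.Lib.MP_d2f638_ag.Counts
import Pool.Agent.Lib.MP_d2f638_ag.TrdegRF
import Pool.Agent.Lib.MP_d2f638_ag.Invariance

/-!
# Rationality from the counting function
-/

namespace MP_d2f638_ag

open Polynomial Filter

/-- Rationality from a generic point in a formally real field and the counting function. -/
theorem rational_of_point {ι : Type} [Fintype ι] [DecidableEq ι] {A B : Matrix ι ι ℝ}
    (hA : A.IsSymm) (hB : B.IsSymm) {L : Type} [Field L] [Algebra ℝ L] (hL : FReal L) {x : ι → L}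
    (hgen : GenPt A B x) {i0 : ι} (hx0 : x i0 ≠ 0)
    {p : ι → ℝ} (hpA : bl A p p = 0) (hpB : bl B p p = 0) (hAp : Matrix.mulVec A p ≠ 0)
    (hind : ∀ c : ℝ, Matrix.mulVec B p ≠ c • Matrix.mulVec A p)
    (hdet : (pencilX A B).det ≠ 0) {r M : ℕ} (hM : 1 ≤ M)
    (hcard : Fintype.card ι = 2 ^ (r + 1) * M + 3)
    (htr : ((2 ^ (r + 1) * M : ℕ) : Cardinal) ≤ Algebra.trdeg ℝ (RF x)) {ε : ℝ → ℕ}
    (hε : ∀ᶠ s in (cofinite : Filter ℝ), negIdx (B - s • A) = ε s + 1)
    (hmono : Monotone fun s => (ε s + (2 ^ (r + 1) - 1)) / 2 ^ (r + 1))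
    (hle : ∀ s, (ε s + (2 ^ (r + 1) - 1)) / 2 ^ (r + 1) ≤ M + 1)
    (h0 : ∃ s, (ε s + (2 ^ (r + 1) - 1)) / 2 ^ (r + 1) = 0)
    (h1 : ∃ s, (ε s + (2 ^ (r + 1) - 1)) / 2 ^ (r + 1) = M + 1) :
    RRational (2 ^ (r + 1) * M) A B := by
  obtain ⟨t, m, h, j0, ht, hm, hh, hst, hneg⟩ :=
    core_state hA hB hL hgen hx0 hpA hpB hAp hind hdet
  have hK : FReal (RF x) := hL.sub (RF x)
  obtain rfl : m = 2 ^ (r + 1) * M + 1 := by omega
  have hHas : HasSt t 0 (2 ^ (r + 1) * M) ε := by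
    refine ⟨h ∘ (finSuccEquiv' j0).symm, fun j => hh _, ?_, ?_⟩
    · have := hst.reindex (finSuccEquiv' j0).symm
      rwa [Equiv.symm_symm, finSuccEquiv'_at] at this
    · filter_upwards [hε, hneg] with s a1 a2
      left
      have a3 : cnt (h ∘ (finSuccEquiv' j0).symm) s = cnt h s :=
        Fintype.sum_equiv (finSuccEquiv' j0).symm _ _ (fun _ => rfl)
      rw [a3]
      omega
  have h2 := hHas.iterate hK ht hM (r + 1) 0 ε (by rwa [pow_zero, one_mul])
  rw [zero_add] at h2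
  obtain ⟨b, hb⟩ := exists_jumps (M := M) _ hmono hle h0 h1
  exact hgen.rational (h2.rational hK ht hM htr b hb)

variable {τ : Type} [Fintype τ] [DecidableEq τ]

omit [DecidableEq τ] in
lemma extB_mulVec (G : Matrix τ τ ℝ) (c : Bool → ℝ) (p : τ ⊕ Bool → ℝ) (b : Bool) :
    Matrix.mulVec (extB G c) p (Sum.inr b) = c b * p (Sum.inr b) := by
  rw [Matrix.mulVec, dotProduct, Fintype.sum_sum_type, extB]
  simp only [Matrix.fromBlocks_apply₂₁, Matrix.zero_apply, zero_mul, Finset.sum_const_zero,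
    Matrix.fromBlocks_apply₂₂, zero_add]
  rw [Finset.sum_eq_single b]
  · rw [Matrix.diagonal_apply_eq]
  · intro j _ hj
    rw [Matrix.diagonal_apply_ne _ hj.symm, zero_mul]
  · intro hb; exact absurd (Finset.mem_univ b) hb

omit [DecidableEq τ] in
lemma extA_eq (F : Matrix τ τ ℝ) : extA F = extB F (fun _ => 1) := by
  rw [extA, extB, Matrix.diagonal_one]

lemma bl_extB (G : Matrix τ τ ℝ) (c : Bool → ℝ) (p : τ ⊕ Bool → ℝ) :
    bl (extB G c) p p = bl G (fun i => p (Sum.inl i)) (fun i => p (Sum.inl i)) +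
      c false * p (Sum.inr false) ^ 2 + c true * p (Sum.inr true) ^ 2 := by
  rw [bl_apply, bl_apply]
  simp only [extB, Fintype.sum_sum_type, Matrix.fromBlocks_apply₁₁,
    Matrix.fromBlocks_apply₁₂, Matrix.fromBlocks_apply₂₁, Matrix.fromBlocks_apply₂₂,
    Matrix.zero_apply, mul_zero, zero_mul, Finset.sum_const_zero, add_zero, zero_add,
    Fintype.sum_bool, Matrix.diagonal_apply]
  simp
  ring

/-- The same for the forms with two separate squares. -/
theorem rational_ext {F G : Matrix τ τ ℝ} (hF : F.IsSymm) (hG : G.IsSymm) {c : Bool → ℝ}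
    (hc : c false ≠ c true)
    (hpp : ∃ z, 0 < MvPolynomial.eval z (sol F G (c false) (c true)) ∧
      0 < MvPolynomial.eval z (sol F G (c true) (c false)))
    (hmp : ∃ z, MvPolynomial.eval z (sol F G (c false) (c true)) < 0 ∧
      0 < MvPolynomial.eval z (sol F G (c true) (c false)))
    (hpm : ∃ z, 0 < MvPolynomial.eval z (sol F G (c false) (c true)) ∧
      MvPolynomial.eval z (sol F G (c true) (c false)) < 0)
    (hdet : (pencilX (extA F) (extB G c)).det ≠ 0) {r M : ℕ} (hM : 1 ≤ M)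
    (hcard : Fintype.card τ = 2 ^ (r + 1) * M + 1) {ε : ℝ → ℕ}
    (hε : ∀ᶠ s in (cofinite : Filter ℝ), negIdx (extB G c - s • extA F) = ε s + 1)
    (hmono : Monotone fun s => (ε s + (2 ^ (r + 1) - 1)) / 2 ^ (r + 1))
    (hle : ∀ s, (ε s + (2 ^ (r + 1) - 1)) / 2 ^ (r + 1) ≤ M + 1)
    (h0 : ∃ s, (ε s + (2 ^ (r + 1) - 1)) / 2 ^ (r + 1) = 0)
    (h1 : ∃ s, (ε s + (2 ^ (r + 1) - 1)) / 2 ^ (r + 1) = M + 1) :
    RRational (2 ^ (r + 1) * M) (extA F) (extB G c) := by
  obtain ⟨Ω, iF, iA, x, hR, hx, hgen⟩ := exists_generic F G c hc hpp hmp hpm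
  obtain ⟨τ0⟩ : Nonempty τ := Fintype.card_pos_iff.1 (by omega)
  have hx0 : x (Sum.inl τ0) ≠ 0 := hx.ne_zero τ0
  have hA : (extA F).IsSymm := Matrix.IsSymm.fromBlocks hF (by simp) Matrix.isSymm_one
  have hB : (extB G c).IsSymm := Matrix.IsSymm.fromBlocks hG (by simp) (Matrix.isSymm_diagonal c)
  -- a real point
  obtain ⟨z, hz1, hz2⟩ := hpp
  rw [eval_sol] at hz1 hz2
  have hab : c false - c true ≠ 0 := sub_ne_zero.2 hc
  have hba : c true - c false ≠ 0 := sub_ne_zero.2 hc.symm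
  set L1 := (c false - c true)⁻¹ * (c true * bl F z z - bl G z z) with hL1
  set L2 := (c true - c false)⁻¹ * (c false * bl F z z - bl G z z) with hL2
  let p : τ ⊕ Bool → ℝ := Sum.elim z (fun b => if b then Real.sqrt L2 else Real.sqrt L1)
  have hs1 : Real.sqrt L1 ^ 2 = L1 := Real.sq_sqrt hz1.le
  have hs2 : Real.sqrt L2 ^ 2 = L2 := Real.sq_sqrt hz2.le
  have hp1 : 0 < Real.sqrt L1 := Real.sqrt_pos.2 hz1
  have hp2 : 0 < Real.sqrt L2 := Real.sqrt_pos.2 hz2
  have hpA : bl (extA F) p p = 0 := by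
    rw [extA_eq, bl_extB]
    show bl F z z + 1 * Real.sqrt L1 ^ 2 + 1 * Real.sqrt L2 ^ 2 = 0
    rw [hs1, hs2, hL1, hL2, ← neg_sub (c false) (c true), inv_neg]
    field_simp
    ring
  have hpB : bl (extB G c) p p = 0 := by
    rw [bl_extB]
    show bl G z z + c false * Real.sqrt L1 ^ 2 + c true * Real.sqrt L2 ^ 2 = 0
    rw [hs1, hs2, hL1, hL2, ← neg_sub (c false) (c true), inv_neg]
    field_simp
    ring
  have hAp : Matrix.mulVec (extA F) p ≠ 0 := by
    intro h3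
    have h4 := congrFun h3 (Sum.inr false)
    rw [extA_eq, extB_mulVec] at h4
    change 1 * Real.sqrt L1 = 0 at h4
    linarith
  have hind : ∀ d : ℝ, Matrix.mulVec (extB G c) p ≠ d • Matrix.mulVec (extA F) p := by
    intro d h3
    have h4 := congrFun h3 (Sum.inr false)
    have h5 := congrFun h3 (Sum.inr true)
    rw [Pi.smul_apply, extA_eq, extB_mulVec, extB_mulVec] at h4 h5
    change c false * Real.sqrt L1 = d • (1 * Real.sqrt L1) at h4
    change c true * Real.sqrt L2 = d • (1 * Real.sqrt L2) at h5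
    rw [one_mul, smul_eq_mul] at h4 h5
    have h6 := mul_right_cancel₀ hp1.ne' h4
    have h7 := mul_right_cancel₀ hp2.ne' h5
    exact hc (h6.trans h7.symm)
  refine rational_of_point hA hB hR hgen hx0 hpA hpB hAp hind hdet hM ?_ ?_ hε hmono hle h0 h1
  · rw [Fintype.card_sum, hcard, Fintype.card_bool]
  · exact trdeg_RF hx0 hx (fun k => IntermediateField.subset_adjoin _ _ ⟨Sum.inl k, rfl⟩) hcard

end MP_d2f638_ag
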