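import Pool.Agent.Lib.MP_d2f638_ag.Geom
import Pool.Agent.Lib.MP_d2f638_ag.Init

/-!
# First consequences of smoothness
-/

namespace MP_d2f638_ag

open Matrix

variable {ι : Type} [Fintype ι] [DecidableEq ι]

/-- The complex vector with given real and imaginary part. -/
noncomputable def cvec (u w : ι → ℝ) : ι → ℂ := fun i => (u i : ℂ) + Complex.I * (w i : ℂ)

omit [DecidableEq ι] in
lemma cx_mulVec (M : Matrix ι ι ℝ) (u w : ι → ℝ) :
    cx M *ᵥ cvec u w = cvec (M *ᵥ u) (M *ᵥ w) := by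
  funext i
  simp only [cx, cvec, Matrix.mulVec, dotProduct, Matrix.map_apply, Complex.coe_algebraMap,
    Complex.ofReal_sum, Complex.ofReal_mul, Finset.mul_sum, ← Finset.sum_add_distrib]
  refine Finset.sum_congr rfl fun j _ => ?_
  ring

omit [DecidableEq ι] in
lemma cvec_dot (u w u' w' : ι → ℝ) :
    cvec u w ⬝ᵥ cvec u' w' = ((u ⬝ᵥ u' - w ⬝ᵥ w' : ℝ) : ℂ) +
      Complex.I * ((u ⬝ᵥ w' + w ⬝ᵥ u' : ℝ) : ℂ) := by
  simp only [dotProduct, cvec, Complex.ofReal_sub, Complex.ofReal_add, Complex.ofReal_sum,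
    Complex.ofReal_mul, mul_add, Finset.mul_sum, ← Finset.sum_sub_distrib,
    ← Finset.sum_add_distrib]
  refine Finset.sum_congr rfl fun j _ => ?_
  linear_combination (w j : ℂ) * (w' j : ℂ) * Complex.I_mul_I

lemma cvec_eq_zero {u w : ι → ℝ} (h : cvec u w = 0) : u = 0 ∧ w = 0 := by
  constructor
  · funext i
    have := congrArg Complex.re (congrFun h i)
    simpa [cvec] using this
  · funext i
    have := congrArg Complex.im (congrFun h i)
    simpa [cvec] using this

omit [DecidableEq ι] in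
lemma dot_symm {M : Matrix ι ι ℝ} (hM : M.IsSymm) (u w : ι → ℝ) :
    u ⬝ᵥ (M *ᵥ w) = w ⬝ᵥ (M *ᵥ u) := by
  rw [Matrix.dotProduct_mulVec, ← Matrix.mulVec_transpose, hM, dotProduct_comm]

/-- Complex eigenvectors of a smooth pencil are not isotropic. -/
theorem SmoothCI.real {A B : Matrix ι ι ℝ} (hA : A.IsSymm) (h : SmoothCI A B)
    {u w : ι → ℝ} {α β : ℝ} (hu : B *ᵥ u = α • (A *ᵥ u) - β • (A *ᵥ w))
    (hw : B *ᵥ w = β • (A *ᵥ u) + α • (A *ᵥ w))
    (h1 : u ⬝ᵥ (A *ᵥ u) = w ⬝ᵥ (A *ᵥ w)) (h2 : u ⬝ᵥ (A *ᵥ w) = 0) : u = 0 ∧ w = 0 := by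
  by_contra hcon
  have hz : cvec u w ≠ 0 := fun h0 => hcon (cvec_eq_zero h0)
  have e1 : cvec u w ⬝ᵥ (cx A *ᵥ cvec u w) = 0 := by
    rw [cx_mulVec, cvec_dot, h1, h2, dot_symm hA w u, h2]
    simp
  have e2 : cx B *ᵥ cvec u w = ((α : ℂ) + Complex.I * (β : ℂ)) • (cx A *ᵥ cvec u w) := by
    rw [cx_mulVec, cx_mulVec, hu, hw]
    funext i
    simp only [cvec, Pi.sub_apply, Pi.add_apply, Pi.smul_apply, smul_eq_mul, Complex.ofReal_sub,
      Complex.ofReal_add, Complex.ofReal_mul]
    linear_combination (-(β : ℂ) * ((A *ᵥ w) i : ℂ)) * Complex.I_mul_I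
  have e3 : cvec u w ⬝ᵥ (cx B *ᵥ cvec u w) = 0 := by
    rw [e2, dotProduct_smul, e1, smul_zero]
  have hli := h _ hz e1 e3
  rw [LinearIndependent.pair_iff] at hli
  have := hli ((α : ℂ) + Complex.I * (β : ℂ)) (-1) (by rw [e2]; module)
  exact one_ne_zero (neg_eq_zero.1 this.2)

/-- A smooth pencil has a nondegenerate member. -/
theorem SmoothCI.det_ne_zero {A B : Matrix ι ι ℝ} (hA : A.IsSymm) (hB : B.IsSymm)
    (h : SmoothCI A B) : (pencilX A B).det ≠ 0 := by
  intro hdet
  obtain ⟨v, hv0, hv⟩ := Matrix.exists_mulVec_eq_zero_iff.2 hdet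
  obtain ⟨i0, hi0⟩ := Function.ne_iff.1 hv0
  obtain ⟨t0, ht0⟩ : ∃ t0 : ℝ, (v i0).eval t0 ≠ 0 := by
    by_contra hcon
    push Not at hcon
    exact hi0 (Polynomial.funext fun r => by rw [hcon r]; simp)
  set M := pencilX A B with hM
  have hMs : M.IsSymm := pencilX_symm hA hB
  -- the form `A` vanishes on `v`
  have hAv : v ⬝ᵥ ((A.map Polynomial.C) *ᵥ v) = 0 := by
    have hd : (A.map Polynomial.C) *ᵥ v =
        M *ᵥ (fun i => Polynomial.derivative (v i)) := by
      funext i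
      have h1 := congrArg Polynomial.derivative (congrFun hv i)
      simp only [Matrix.mulVec, dotProduct, Pi.zero_apply, Polynomial.derivative_sum,
        Polynomial.derivative_mul, Polynomial.derivative_zero] at h1 ⊢
      rw [Finset.sum_add_distrib] at h1
      have h2 : ∑ x, Polynomial.derivative (M i x) * v x =
          - ∑ x, (A.map Polynomial.C) i x * v x := by
        rw [← Finset.sum_neg_distrib]
        refine Finset.sum_congr rfl fun x _ => ?_
        have : Polynomial.derivative (M i x) = - (A.map Polynomial.C) i x := by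
          simp [hM, pencilX]
        rw [this]; ring
      rw [h2] at h1
      linear_combination (-1 : Polynomial ℝ) * h1
    rw [hd, Matrix.dotProduct_mulVec, ← Matrix.mulVec_transpose, hMs, hv, zero_dotProduct]
  set v0 : ι → ℝ := fun i => (v i).eval t0 with hv00
  have hv0ne : v0 ≠ 0 := fun h0 => ht0 (congrFun h0 i0)
  have hBv : B *ᵥ v0 = t0 • (A *ᵥ v0) := by
    funext i
    have h1 := congrArg (Polynomial.eval t0) (congrFun hv i)
    simp only [Matrix.mulVec, dotProduct, Pi.zero_apply, Polynomial.eval_finsetSum,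
      Polynomial.eval_mul, Polynomial.eval_zero, Pi.smul_apply, smul_eq_mul, Finset.mul_sum] at h1 ⊢
    rw [← sub_eq_zero, ← Finset.sum_sub_distrib, ← h1]
    refine Finset.sum_congr rfl fun x _ => ?_
    simp only [hM, pencilX, Matrix.sub_apply, Matrix.smul_apply, Matrix.map_apply, smul_eq_mul,
      Polynomial.eval_sub, Polynomial.eval_mul, Polynomial.eval_X, Polynomial.eval_C, hv00]
    ring
  have hAv0 : v0 ⬝ᵥ (A *ᵥ v0) = 0 := by
    have h1 := congrArg (Polynomial.eval t0) hAv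
    simp only [Matrix.mulVec, dotProduct, Polynomial.eval_finsetSum, Polynomial.eval_mul,
      Polynomial.eval_zero, Matrix.map_apply, Polynomial.eval_C] at h1 ⊢
    exact h1
  have := h.real hA (u := v0) (w := 0) (α := t0) (β := 0)
    (by rw [hBv]; simp) (by simp) (by rw [hAv0]; simp) (by simp)
  exact hv0ne this.1

end MP_d2f638_ag
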