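import Pool.Agent.Lib.MP_d2f638_ag.NormalForm
import Pool.Agent.Lib.MP_d2f638_ag.Smooth
import Pool.Agent.Lib.MP_d2f638_ag.Counts

/-!
# The real normal form of a smooth pencil, in matrices
-/

namespace MP_d2f638_ag

open Matrix

variable {ι : Type} [Fintype ι] [DecidableEq ι]

lemma bl_dot (M : Matrix ι ι ℝ) (u w : ι → ℝ) : bl M u w = u ⬝ᵥ (M *ᵥ w) :=
  Matrix.toBilin'_apply' M u w

lemma conj_apply {κ : Type} [Fintype κ] [DecidableEq κ] (M : Matrix ι ι ℝ) (P : Matrix ι κ ℝ)
    (x y : κ) : (P.transpose * M * P) x y = bl M (fun i => P i x) (fun i => P i y) := by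
  rw [bl_apply, Matrix.mul_apply]
  simp only [Matrix.mul_apply, Finset.sum_mul, Matrix.transpose_apply]
  rw [Finset.sum_comm]

/-- The real normal form. -/
theorem real_normal_form {A B : Matrix ι ι ℝ} (hA : A.IsSymm) (hB : B.IsSymm)
    (hdet : A.det ≠ 0) (h : SmoothCI A B) :
    ∃ (κ κ' : Type) (_ : Fintype κ) (_ : Fintype κ') (_ : DecidableEq κ) (_ : DecidableEq κ')
      (P : Matrix ι (κ ⊕ (κ' ⊕ κ')) ℝ) (Q : Matrix (κ ⊕ (κ' ⊕ κ')) ι ℝ) (ε lam : κ → ℝ)
      (μ ν : κ' → ℝ), P * Q = 1 ∧ Q * P = 1 ∧ (∀ i, ε i = 1 ∨ ε i = -1) ∧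
      Function.Injective lam ∧ (∀ j, ν j ≠ 0) ∧
      P.transpose * A * P = Matrix.fromBlocks (Matrix.diagonal ε) 0 0
        (Matrix.fromBlocks 1 0 0 (-1)) ∧
      P.transpose * B * P = Matrix.fromBlocks (Matrix.diagonal fun i => ε i * lam i) 0 0
        (Matrix.fromBlocks (Matrix.diagonal μ) (Matrix.diagonal ν) (Matrix.diagonal ν)
          (-Matrix.diagonal μ)) := by
  have hunit : IsUnit A.det := isUnit_iff_ne_zero.2 hdet
  let T : (ι → ℝ) →ₗ[ℝ] (ι → ℝ) := Matrix.toLin' (A⁻¹ * B)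
  have hT : ∀ x, T x = A⁻¹ *ᵥ (B *ᵥ x) := fun x => by
    show Matrix.toLin' (A⁻¹ * B) x = _
    rw [Matrix.toLin'_apply, Matrix.mulVec_mulVec]
  have hAT : ∀ x, A *ᵥ (T x) = B *ᵥ x := fun x => by
    rw [hT, Matrix.mulVec_mulVec, Matrix.mul_nonsing_inv _ hunit, Matrix.one_mulVec]
  have hblA : ∀ x y, bl A x y = bl A y x := fun x y => bl_symm hA x y
  have hBT : ∀ x y, bl A (T x) y = bl B x y := fun x y => by
    rw [hblA, bl_dot, hAT, ← bl_dot, bl_symm hB]
  have hBT' : ∀ x y, bl A x (T y) = bl B x y := fun x y => by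
    rw [bl_dot, hAT, ← bl_dot]
  obtain ⟨κ, κ', i1, i2, i3, i4, e, u, w, lam, μ, ν, hcard, hNF⟩ := exists_NF
    (Module.finrank ℝ (ι → ℝ)) (bl A) T rfl hblA (fun x y => by rw [hBT, hBT'])
    (fun x hx => by
      have h1 : A *ᵥ x = 0 := by
        funext i
        have h2 := hx (Pi.single i 1)
        rw [hblA, bl_dot, single_dotProduct, one_mul] at h2
        exact h2
      have h2 : A⁻¹ *ᵥ (A *ᵥ x) = x := by
        rw [Matrix.mulVec_mulVec, Matrix.nonsing_inv_mul _ hunit, Matrix.one_mulVec]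
      rw [← h2, h1, Matrix.mulVec_zero])
    (fun u w α β h1 h2 h3 h4 => by
      refine h.real hA (α := α) (β := β) ?_ ?_ ?_ ?_
      · rw [← hAT, h1, Matrix.mulVec_sub, Matrix.mulVec_smul, Matrix.mulVec_smul]
      · rw [← hAT, h2, Matrix.mulVec_add, Matrix.mulVec_smul, Matrix.mulVec_smul]
      · rw [← bl_dot, ← bl_dot]; exact h3
      · rw [← bl_dot]; exact h4)
  rw [Module.finrank_fintype_fun_eq_card] at hcard
  let P : Matrix ι (κ ⊕ (κ' ⊕ κ')) ℝ := fun i x => Sum.elim e (Sum.elim u w) x i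
  have hcol : ∀ x, (fun i => P i x) = Sum.elim e (Sum.elim u w) x := fun x => rfl
  let ε : κ → ℝ := fun i => bl A (e i) (e i)
  have hε : ∀ i, ε i = 1 ∨ ε i = -1 := hNF.ee
  have hPA : P.transpose * A * P = Matrix.fromBlocks (Matrix.diagonal ε) 0 0
        (Matrix.fromBlocks 1 0 0 (-1)) := by
    ext x y
    rw [conj_apply, hcol, hcol]
    rcases x with x | x | x <;> rcases y with y | y | y <;>
      simp only [Sum.elim_inl, Sum.elim_inr, Matrix.fromBlocks_apply₁₁, Matrix.fromBlocks_apply₁₂,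
        Matrix.fromBlocks_apply₂₁, Matrix.fromBlocks_apply₂₂, Matrix.zero_apply]
    · by_cases hxy : x = y
      · subst hxy; rw [Matrix.diagonal_apply_eq]
      · rw [Matrix.diagonal_apply_ne _ hxy, hNF.eo x y hxy]
    · exact hNF.eu x y
    · exact hNF.ew x y
    · rw [hblA]; exact hNF.eu y x
    · by_cases hxy : x = y
      · subst hxy; rw [Matrix.one_apply_eq, hNF.uu]
      · rw [Matrix.one_apply_ne hxy, hNF.uuo x y hxy]
    · by_cases hxy : x = y
      · subst hxy; rw [hNF.uw]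
      · rw [hNF.uwo x y hxy]
    · rw [hblA]; exact hNF.ew y x
    · rw [hblA]
      by_cases hxy : y = x
      · subst hxy; rw [hNF.uw]
      · rw [hNF.uwo y x hxy]
    · rw [Matrix.neg_apply]
      by_cases hxy : x = y
      · subst hxy; rw [Matrix.one_apply_eq, hNF.ww]
      · rw [Matrix.one_apply_ne hxy, hNF.wwo x y hxy, neg_zero]
  have hPB : P.transpose * B * P = Matrix.fromBlocks (Matrix.diagonal fun i => ε i * lam i) 0 0
        (Matrix.fromBlocks (Matrix.diagonal μ) (Matrix.diagonal ν) (Matrix.diagonal ν)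
          (-Matrix.diagonal μ)) := by
    ext x y
    rw [conj_apply, hcol, hcol, ← hBT]
    rcases x with x | x | x <;> rcases y with y | y | y <;>
      simp only [Sum.elim_inl, Sum.elim_inr, Matrix.fromBlocks_apply₁₁, Matrix.fromBlocks_apply₁₂,
        Matrix.fromBlocks_apply₂₁, Matrix.fromBlocks_apply₂₂, Matrix.zero_apply, hNF.Te, hNF.Tu,
        hNF.Tw, map_smul, map_sub, map_add, LinearMap.smul_apply, LinearMap.sub_apply,
        LinearMap.add_apply, smul_eq_mul]
    · by_cases hxy : x = y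
      · subst hxy; rw [Matrix.diagonal_apply_eq]; show lam x * ε x = _; ring
      · rw [Matrix.diagonal_apply_ne _ hxy, hNF.eo x y hxy, mul_zero]
    · rw [hNF.eu x y, mul_zero]
    · rw [hNF.ew x y, mul_zero]
    · rw [hblA (u x) (e y), hblA (w x) (e y), hNF.eu y x, hNF.ew y x]; ring
    · rw [hblA (w x) (u y)]
      by_cases hxy : x = y
      · subst hxy; rw [Matrix.diagonal_apply_eq, hNF.uu, hNF.uw]; ring
      · rw [Matrix.diagonal_apply_ne _ hxy, hNF.uuo x y hxy, hNF.uwo y x (Ne.symm hxy)]; ring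
    · by_cases hxy : x = y
      · subst hxy; rw [Matrix.diagonal_apply_eq, hNF.uw, hNF.ww]; ring
      · rw [Matrix.diagonal_apply_ne _ hxy, hNF.uwo x y hxy, hNF.wwo x y hxy]; ring
    · rw [hblA (u x) (e y), hblA (w x) (e y), hNF.eu y x, hNF.ew y x]; ring
    · rw [hblA (w x) (u y)]
      by_cases hxy : x = y
      · subst hxy; rw [Matrix.diagonal_apply_eq, hNF.uu, hNF.uw]; ring
      · rw [Matrix.diagonal_apply_ne _ hxy, hNF.uuo x y hxy, hNF.uwo y x (Ne.symm hxy)]; ring
    · rw [Matrix.neg_apply]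
      by_cases hxy : x = y
      · subst hxy; rw [Matrix.diagonal_apply_eq, hNF.uw, hNF.ww]; ring
      · rw [Matrix.diagonal_apply_ne _ hxy, hNF.uwo x y hxy, hNF.wwo x y hxy]; ring
  set D : Matrix (κ ⊕ (κ' ⊕ κ')) (κ ⊕ (κ' ⊕ κ')) ℝ := Matrix.fromBlocks (Matrix.diagonal ε) 0 0
        (Matrix.fromBlocks 1 0 0 (-1)) with hD
  have hDD : D * D = 1 := by
    rw [hD]
    simp only [Matrix.fromBlocks_multiply, Matrix.mul_zero, Matrix.zero_mul, add_zero, zero_add,
      Matrix.diagonal_mul_diagonal, mul_one, neg_mul_neg]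
    have h1 : (fun i => ε i * ε i) = fun _ => 1 := by
      funext i
      rcases hε i with h2 | h2 <;> rw [h2] <;> norm_num
    rw [h1, Matrix.diagonal_one, Matrix.fromBlocks_one, Matrix.fromBlocks_one]
  have hQP : D * P.transpose * A * P = 1 := by
    rw [Matrix.mul_assoc, Matrix.mul_assoc, ← Matrix.mul_assoc P.transpose, hPA, hDD]
  have hPQ : P * (D * P.transpose * A) = 1 := by
    have hc : Fintype.card (κ ⊕ (κ' ⊕ κ')) = Fintype.card ι := by
      rw [Fintype.card_sum, Fintype.card_sum]; omega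
    exact (Matrix.mul_eq_one_comm_of_equiv (Fintype.equivOfCardEq hc)).1 hQP
  -- the eigenvalues are distinct
  have hinj : Function.Injective lam := by
    intro i j hij
    by_contra hne
    have hTi : B *ᵥ (e i) = lam i • (A *ᵥ (e i)) := by
      rw [← hAT, hNF.Te, Matrix.mulVec_smul]
    have hTj : B *ᵥ (e j) = lam i • (A *ᵥ (e j)) := by
      rw [← hAT, hNF.Te, Matrix.mulVec_smul, hij]
    have hei : e i ≠ 0 := by
      intro h0
      have h1 : ε i = 0 := by
        show bl A (e i) (e i) = 0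
        rw [h0]; simp
      rcases hε i with h2 | h2 <;> rw [h1] at h2 <;> norm_num at h2
    rcases eq_or_ne (ε i) (ε j) with h1 | h1
    · have := h.real hA (u := e i) (w := e j) (α := lam i) (β := 0) (by rw [hTi]; simp)
        (by rw [hTj]; simp) (by rw [← bl_dot, ← bl_dot]; exact h1)
        (by rw [← bl_dot]; exact hNF.eo i j hne)
      exact hei this.1
    · have h2 : ε i + ε j = 0 := by
        rcases hε i with h3 | h3 <;> rcases hε j with h4 | h4 <;> rw [h3, h4] at h1 ⊢
        · exact absurd rfl h1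
        · norm_num
        · norm_num
        · exact absurd rfl h1
      have h3 : bl A (e i + e j) (e i + e j) = 0 := by
        rw [map_add, map_add, LinearMap.add_apply, LinearMap.add_apply, hNF.eo i j hne,
          hNF.eo j i (Ne.symm hne)]
        have : bl A (e i) (e i) + bl A (e j) (e j) = 0 := h2
        linarith
      have := h.real hA (u := e i + e j) (w := 0) (α := lam i) (β := 0)
        (by rw [Matrix.mulVec_add, hTi, hTj, Matrix.mulVec_add]; simp) (by simp)
        (by rw [← bl_dot, h3]; simp) (by simp)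
      have h5 : bl A (e i + e j) (e i) = ε i := by
        rw [map_add, LinearMap.add_apply, hNF.eo j i (Ne.symm hne), add_zero]
      rw [this.1] at h5
      have h6 : ε i = 0 := by rw [← h5]; simp
      rcases hε i with h2 | h2 <;> rw [h6] at h2 <;> norm_num at h2
  exact ⟨κ, κ', i1, i2, i3, i4, P, D * P.transpose * A, ε, lam, μ, ν, hPQ, hQP, hε, hinj, hNF.nu,
    hPA, hPB⟩

end MP_d2f638_ag
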