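import Mathlib

/-!
# Simultaneous real normal form of a form and a selfadjoint operator
-/

namespace MP_d2f638_ag

open Module LinearMap

/-- Families realising the normal form. -/
structure NF {V : Type} [AddCommGroup V] [Module ℝ V] (A : LinearMap.BilinForm ℝ V) (T : V →ₗ[ℝ] V)
    {κ κ' : Type} (e : κ → V) (u w : κ' → V) (lam : κ → ℝ) (μ ν : κ' → ℝ) : Prop where
  ee : ∀ i, A (e i) (e i) = 1 ∨ A (e i) (e i) = -1
  eo : ∀ i j, i ≠ j → A (e i) (e j) = 0
  uu : ∀ j, A (u j) (u j) = 1
  ww : ∀ j, A (w j) (w j) = -1
  uw : ∀ j, A (u j) (w j) = 0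
  uuo : ∀ i j, i ≠ j → A (u i) (u j) = 0
  uwo : ∀ i j, i ≠ j → A (u i) (w j) = 0
  wwo : ∀ i j, i ≠ j → A (w i) (w j) = 0
  eu : ∀ i j, A (e i) (u j) = 0
  ew : ∀ i j, A (e i) (w j) = 0
  Te : ∀ i, T (e i) = lam i • e i
  Tu : ∀ j, T (u j) = μ j • u j - ν j • w j
  Tw : ∀ j, T (w j) = ν j • u j + μ j • w j
  nu : ∀ j, ν j ≠ 0

/-- A real eigenvector or a complex pair. -/
lemma exists_eigen {V : Type} [AddCommGroup V] [Module ℝ V] [FiniteDimensional ℝ V] [Nontrivial V]
    (T : V →ₗ[ℝ] V) : (∃ (v : V) (lam : ℝ), v ≠ 0 ∧ T v = lam • v) ∨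
      ∃ (u w : V) (α β : ℝ), u ≠ 0 ∧ β ≠ 0 ∧ T u = α • u - β • w ∧ T w = β • u + α • w := by
  have hint : IsIntegral ℝ (T : Module.End ℝ V) := Algebra.IsIntegral.isIntegral _
  set m := minpoly ℝ (T : Module.End ℝ V) with hm
  have hpos : m.natDegree ≠ 0 := (minpoly.natDegree_pos hint).ne'
  have hm0 : m ≠ 0 := minpoly.ne_zero hint
  obtain ⟨q, hq, r, hqr⟩ := Polynomial.exists_irreducible_of_natDegree_ne_zero hpos
  have hr0 : r ≠ 0 := by
    rintro rfl
    rw [mul_zero] at hqr
    exact hm0 hqr
  have hr : Polynomial.aeval (T : Module.End ℝ V) r ≠ 0 := by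
    intro h0
    have h1 := Polynomial.natDegree_le_natDegree
      (minpoly.degree_le_of_ne_zero ℝ (T : Module.End ℝ V) hr0 h0)
    rw [← hm, hqr, Polynomial.natDegree_mul hq.ne_zero hr0] at h1
    have := hq.natDegree_pos
    omega
  obtain ⟨v0, hv0⟩ : ∃ v0, Polynomial.aeval (T : Module.End ℝ V) r v0 ≠ 0 := by
    by_contra hcon
    push Not at hcon
    exact hr (LinearMap.ext hcon)
  set v := Polynomial.aeval (T : Module.End ℝ V) r v0 with hv
  have hqv : Polynomial.aeval (T : Module.End ℝ V) q v = 0 := by
    rw [hv, ← Module.End.mul_apply, ← map_mul, ← hqr, hm, minpoly.aeval]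
    rfl
  have hdeg : q.natDegree ≤ 2 := Polynomial.natDegree_le_of_degree_le hq.degree_le_two
  have hform : q = Polynomial.C (q.coeff 2) * Polynomial.X ^ 2 +
      Polynomial.C (q.coeff 1) * Polynomial.X + Polynomial.C (q.coeff 0) := by
    ext n
    rcases n with _ | _ | _ | n
    · simp
    · simp [Polynomial.coeff_X, Polynomial.coeff_C]
    · simp [Polynomial.coeff_X, Polynomial.coeff_C]
    · rw [Polynomial.coeff_eq_zero_of_natDegree_lt (by omega)]
      simp [Polynomial.coeff_X, Polynomial.coeff_C, Polynomial.coeff_X_pow]
  set a := q.coeff 2 with ha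
  set b := q.coeff 1 with hb
  set c := q.coeff 0 with hc
  have hrel : a • T (T v) + b • T v + c • v = 0 := by
    rw [hform] at hqv
    simpa [Polynomial.aeval_def, Algebra.algebraMap_eq_smul_one, pow_two, Module.End.mul_apply,
      LinearMap.add_apply, LinearMap.smul_apply] using hqv
  by_cases ha0 : a = 0
  · left
    have hb0 : b ≠ 0 := by
      intro hb0
      have : q.natDegree = 0 := by
        rw [hform, ha0, hb0]; simp
      have := hq.natDegree_pos
      omega
    refine ⟨v, -(c / b), hv0, ?_⟩
    rw [ha0, zero_smul, zero_add] at hrel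
    have h1 : T v = b⁻¹ • (b • T v) := by rw [smul_smul, inv_mul_cancel₀ hb0, one_smul]
    have h2 : b • T v = -(c • v) := eq_neg_of_add_eq_zero_left hrel
    rw [h1, h2, smul_neg, smul_smul, neg_smul, div_eq_inv_mul]
  · right
    have hdisc : b ^ 2 - 4 * a * c < 0 := by
      by_contra hcon
      push Not at hcon
      set s := Real.sqrt (b ^ 2 - 4 * a * c) with hs
      have hss : s ^ 2 = b ^ 2 - 4 * a * c := Real.sq_sqrt hcon
      have hroot : q.IsRoot ((-b + s) / (2 * a)) := by
        rw [Polynomial.IsRoot, hform]
        simp only [Polynomial.eval_add, Polynomial.eval_mul, Polynomial.eval_pow,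
          Polynomial.eval_X, Polynomial.eval_C]
        field_simp
        linear_combination hss
      have h3 := Polynomial.degree_eq_one_of_irreducible_of_root hq hroot
      have h4 : q.natDegree = 1 := Polynomial.natDegree_eq_of_degree_eq_some h3
      exact ha0 (Polynomial.coeff_eq_zero_of_natDegree_lt (by omega))
    set α := -b / (2 * a) with hα
    set β := Real.sqrt (4 * a * c - b ^ 2) / (2 * a) with hβ
    have hpos2 : 0 < 4 * a * c - b ^ 2 := by linarith
    have hβ0 : β ≠ 0 := div_ne_zero (Real.sqrt_pos.2 hpos2).ne' (by positivity)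
    have hβ2 : β ^ 2 = (4 * a * c - b ^ 2) / (4 * a ^ 2) := by
      rw [hβ, div_pow, Real.sq_sqrt hpos2.le]; ring
    have h5 : T (T v) = (2 * α) • T v - (α ^ 2 + β ^ 2) • v := by
      have h1 : T (T v) = a⁻¹ • (a • T (T v)) := by rw [smul_smul, inv_mul_cancel₀ ha0, one_smul]
      have h2 : a • T (T v) = -(b • T v) - c • v := by
        have : a • T (T v) = (a • T (T v) + b • T v + c • v) - b • T v - c • v := by abel
        rw [this, hrel]; abel
      have h3 : 2 * α = -(a⁻¹ * b) := by rw [hα]; field_simp
      have h4 : α ^ 2 + β ^ 2 = a⁻¹ * c := by rw [hβ2, hα]; field_simp; ring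
      rw [h1, h2, h3, h4, smul_sub, smul_neg, smul_smul, smul_smul, neg_smul]
    refine ⟨v, -(β⁻¹ • (T v - α • v)), α, β, hv0, hβ0, ?_, ?_⟩
    · rw [smul_neg, smul_smul, mul_inv_cancel₀ hβ0, one_smul]; abel
    · rw [map_neg, map_smul, map_sub, map_smul, h5]
      have h6 : β⁻¹ * β ^ 2 = β := by field_simp
      have : -(β⁻¹ • ((2 * α) • T v - (α ^ 2 + β ^ 2) • v - α • T v)) =
          (β⁻¹ * β ^ 2) • v + α • -(β⁻¹ • (T v - α • v)) := by module
      rw [this, h6]

/-- The normal form theorem. -/
theorem exists_NF (d : ℕ) : ∀ {V : Type} [AddCommGroup V] [Module ℝ V] [FiniteDimensional ℝ V]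
    (A : LinearMap.BilinForm ℝ V) (T : V →ₗ[ℝ] V), finrank ℝ V = d → (∀ x y, A x y = A y x) →
    (∀ x y, A (T x) y = A x (T y)) → (∀ x, (∀ y, A x y = 0) → x = 0) →
    (∀ (u w : V) (α β : ℝ), T u = α • u - β • w → T w = β • u + α • w → A u u = A w w →
      A u w = 0 → u = 0 ∧ w = 0) →
    ∃ (κ κ' : Type) (_ : Fintype κ) (_ : Fintype κ') (_ : DecidableEq κ) (_ : DecidableEq κ')
      (e : κ → V) (u w : κ' → V) (lam : κ → ℝ) (μ ν : κ' → ℝ),
      Fintype.card κ + 2 * Fintype.card κ' = d ∧ NF A T e u w lam μ ν := by
  induction d using Nat.strong_induction_on with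
  | _ d ih =>
  intro V _ _ _ A T hd hs hT hn hsm
  rcases Nat.eq_zero_or_pos d with rfl | hdpos
  · refine ⟨Empty, Empty, inferInstance, inferInstance, inferInstance, inferInstance,
      Empty.elim, Empty.elim, Empty.elim, Empty.elim, Empty.elim, Empty.elim, by simp, ?_⟩
    constructor <;> intro i <;> exact i.elim
  · have hnt : Nontrivial V := Module.nontrivial_of_finrank_pos (R := ℝ) (by omega)
    rcases exists_eigen T with ⟨v, lam, hv0, hTv⟩ | ⟨u, w, α, β, hu0, hβ0, hTu, hTw⟩
    · -- a real eigenvector
      have hvv : A v v ≠ 0 := by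
        intro h0
        exact hv0 (hsm v 0 lam 0 (by simpa using hTv) (by simp) (by simpa using h0) (by simp)).1
      obtain ⟨v', hv'v', hTv'⟩ : ∃ v', (A v' v' = 1 ∨ A v' v' = -1) ∧ T v' = lam • v' := by
        set c := (Real.sqrt |A v v|)⁻¹ with hc
        have habs : 0 < |A v v| := abs_pos.2 hvv
        have hc2 : c ^ 2 = |A v v|⁻¹ := by rw [hc, inv_pow, Real.sq_sqrt habs.le]
        refine ⟨c • v, ?_, by rw [map_smul, hTv, smul_comm]⟩
        have h1 : A (c • v) (c • v) = c ^ 2 * A v v := by
          rw [map_smul, map_smul, LinearMap.smul_apply, smul_eq_mul, smul_eq_mul]; ring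
        rw [h1, hc2]
        rcases lt_or_gt_of_ne hvv with h2 | h2
        · right; rw [abs_of_neg h2]; field_simp
        · left; rw [abs_of_pos h2]; field_simp
      have hv'ne : A v' v' ≠ 0 := by rcases hv'v' with h | h <;> rw [h] <;> norm_num
      let W : Submodule ℝ V := LinearMap.ker (A v')
      have hWT : ∀ x ∈ W, T x ∈ W := by
        intro x hx
        have hx' : A v' x = 0 := hx
        show A v' (T x) = 0
        rw [← hT, hTv', map_smul, LinearMap.smul_apply, hx', smul_zero]
      have hfin : finrank ℝ W + 1 = d := by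
        have h1 := LinearMap.finrank_range_add_finrank_ker (A v')
        have h2 : LinearMap.range (A v') = ⊤ := by
          rw [LinearMap.range_eq_top]
          intro r
          exact ⟨(r / A v' v') • v', by rw [map_smul, smul_eq_mul, div_mul_cancel₀ _ hv'ne]⟩
        rw [h2, finrank_top, Module.finrank_self, hd] at h1
        change 1 + finrank ℝ W = d at h1
        omega
      obtain ⟨κ, κ', i1, i2, i3, i4, e, u, w, la, μ, ν, hcard, hNF⟩ := ih (finrank ℝ W) (by omega)
        (A.restrict W) (T.restrict hWT) rfl (fun x y => hs x y) (fun x y => hT x y)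
        (fun x hx => by
          apply Subtype.ext
          apply hn
          intro y
          have hy : y - (A v' y / A v' v') • v' ∈ W := by
            show A v' (y - (A v' y / A v' v') • v') = 0
            rw [map_sub, map_smul, smul_eq_mul, div_mul_cancel₀ _ hv'ne, sub_self]
          have h1 : A x (y - (A v' y / A v' v') • v') = 0 := hx ⟨_, hy⟩
          have h2 : A x v' = 0 := by rw [hs]; exact x.2
          rw [map_sub, map_smul, h2, smul_zero, sub_zero] at h1
          exact h1)
        (fun u w α β h1 h2 h3 h4 => by
          have := hsm u w α β (by simpa using congrArg Subtype.val h1)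
            (by simpa using congrArg Subtype.val h2) h3 h4
          exact ⟨Subtype.ext this.1, Subtype.ext this.2⟩)
      have hWm : ∀ x : W, A v' x = 0 := fun x => x.2
      have hWm' : ∀ x : W, A x v' = 0 := fun x => by rw [hs]; exact x.2
      refine ⟨Option κ, κ', inferInstance, i2, inferInstance, i4,
        fun o => o.elim v' (fun i => (e i : V)), fun j => (u j : V), fun j => (w j : V),
        fun o => o.elim lam la, μ, ν, by rw [Fintype.card_option]; omega, ?_⟩
      refine ⟨?_, ?_, hNF.uu, hNF.ww, hNF.uw, hNF.uuo, hNF.uwo, hNF.wwo, ?_, ?_, ?_, ?_, ?_,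
        hNF.nu⟩
      · rintro (_ | i)
        · exact hv'v'
        · exact hNF.ee i
      · rintro (_ | i) (_ | j) hij
        · exact absurd rfl hij
        · exact hWm _
        · exact hWm' _
        · exact hNF.eo i j (fun h => hij (by rw [h]))
      · rintro (_ | i) j
        · exact hWm _
        · exact hNF.eu i j
      · rintro (_ | i) j
        · exact hWm _
        · exact hNF.ew i j
      · rintro (_ | i)
        · exact hTv'
        · have := congrArg Subtype.val (hNF.Te i)
          simpa using this
      · intro j
        have := congrArg Subtype.val (hNF.Tu j)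
        simpa using this
      · intro j
        have := congrArg Subtype.val (hNF.Tw j)
        simpa using this
    · -- a complex pair
      have hsum : A u u + A w w = 0 := by
        have h1 := hT u w
        rw [hTu, hTw] at h1
        simp only [map_sub, map_add, map_smul, LinearMap.sub_apply, LinearMap.smul_apply,
          smul_eq_mul] at h1
        have h2 : β * (A u u + A w w) = 0 := by linear_combination -h1
        exact (mul_eq_zero.1 h2).resolve_left hβ0
      -- rescale by a complex number
      set z : ℂ := ⟨A u u - A w w, 2 * A u w⟩ with hz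
      have hz0 : z ≠ 0 := by
        intro h0
        have h1 : A u u - A w w = 0 := congrArg Complex.re h0
        have h2 : 2 * A u w = 0 := congrArg Complex.im h0
        exact hu0 (hsm u w α β hTu hTw (by linarith) (by linarith)).1
      obtain ⟨ζ, hζ⟩ := IsAlgClosed.exists_pow_nat_eq (2 / z) (n := 2) (by norm_num)
      have hζz : ζ ^ 2 * z = 2 := by rw [hζ, div_mul_cancel₀ _ hz0]
      set p := ζ.re
      set q := ζ.im
      have hre := congrArg Complex.re hζz
      have him := congrArg Complex.im hζz
      rw [sq, Complex.mul_re, Complex.mul_re, Complex.mul_im] at hre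
      rw [sq, Complex.mul_im, Complex.mul_re, Complex.mul_im] at him
      simp only [hz] at hre him
      have hre2 : (2 : ℂ).re = 2 := rfl
      have him2 : (2 : ℂ).im = 0 := rfl
      rw [hre2] at hre
      rw [him2] at him
      set u' := p • u - q • w with hu'
      set w' := q • u + p • w with hw'
      have hww : A w w = - A u u := by linarith
      have hwu : A w u = A u w := hs _ _
      rw [hww] at hre him
      have c1 : A u' u' = 1 := by
        simp only [hu', map_sub, map_smul, LinearMap.sub_apply, LinearMap.smul_apply, smul_eq_mul,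
          hww, hwu]
        linear_combination (1 / 2) * hre
      have c2 : A w' w' = -1 := by
        simp only [hw', map_add, map_smul, LinearMap.add_apply, LinearMap.smul_apply, smul_eq_mul,
          hww, hwu]
        linear_combination (-1 / 2) * hre
      have c3 : A u' w' = 0 := by
        simp only [hu', hw', map_sub, map_add, map_smul, LinearMap.sub_apply, LinearMap.add_apply,
          LinearMap.smul_apply, smul_eq_mul, hww, hwu]
        linear_combination (1 / 2) * him
      have c3' : A w' u' = 0 := by rw [hs]; exact c3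
      have hTu' : T u' = α • u' - β • w' := by
        rw [hu', hw', map_sub, map_smul, map_smul, hTu, hTw]; module
      have hTw' : T w' = β • u' + α • w' := by
        rw [hu', hw', map_add, map_smul, map_smul, hTu, hTw]; module
      let Φ : V →ₗ[ℝ] ℝ × ℝ := (A u').prod (A w')
      let W : Submodule ℝ V := LinearMap.ker Φ
      have hWmem : ∀ x, x ∈ W ↔ A u' x = 0 ∧ A w' x = 0 := by
        intro x
        show (A u' x, A w' x) = (0, 0) ↔ _
        rw [Prod.mk.injEq]
      have hWT : ∀ x ∈ W, T x ∈ W := by
        intro x hx
        rw [hWmem] at hx ⊢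
        constructor
        · rw [← hT, hTu', map_sub, map_smul, map_smul, LinearMap.sub_apply, LinearMap.smul_apply,
            LinearMap.smul_apply, hx.1, hx.2]; simp
        · rw [← hT, hTw', map_add, map_smul, map_smul, LinearMap.add_apply, LinearMap.smul_apply,
            LinearMap.smul_apply, hx.1, hx.2]; simp
      have hfin : finrank ℝ W + 2 = d := by
        have h1 := LinearMap.finrank_range_add_finrank_ker Φ
        have h2 : LinearMap.range Φ = ⊤ := by
          rw [LinearMap.range_eq_top]
          rintro ⟨r, s⟩
          refine ⟨r • u' - s • w', ?_⟩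
          show (A u' _, A w' _) = (r, s)
          simp only [map_sub, map_smul, smul_eq_mul, c1, c2, c3, c3']
          simp
        rw [h2, finrank_top, Module.finrank_prod, Module.finrank_self, hd] at h1
        change 1 + 1 + finrank ℝ W = d at h1
        omega
      obtain ⟨κ, κ', i1, i2, i3, i4, e, u2, w2, la, μ, ν, hcard, hNF⟩ := ih (finrank ℝ W)
        (by omega) (A.restrict W) (T.restrict hWT) rfl (fun x y => hs x y) (fun x y => hT x y)
        (fun x hx => by
          apply Subtype.ext
          apply hn
          intro y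
          have hy : y - A u' y • u' + A w' y • w' ∈ W := by
            rw [hWmem]
            simp only [map_sub, map_add, map_smul, smul_eq_mul, c1, c2, c3, c3']
            constructor <;> ring
          have h1 : A x (y - A u' y • u' + A w' y • w') = 0 := hx ⟨_, hy⟩
          have hx2 := (hWmem x).1 x.2
          have h2 : A x u' = 0 := by rw [hs]; exact hx2.1
          have h3 : A x w' = 0 := by rw [hs]; exact hx2.2
          rw [map_add, map_sub, map_smul, map_smul, h2, h3] at h1
          simpa using h1)
        (fun u w α β h1 h2 h3 h4 => by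
          have := hsm u w α β (by simpa using congrArg Subtype.val h1)
            (by simpa using congrArg Subtype.val h2) h3 h4
          exact ⟨Subtype.ext this.1, Subtype.ext this.2⟩)
      have k1 : ∀ x : W, A u' x = 0 := fun x => ((hWmem x).1 x.2).1
      have k2 : ∀ x : W, A w' x = 0 := fun x => ((hWmem x).1 x.2).2
      have k1' : ∀ x : W, A x u' = 0 := fun x => by rw [hs]; exact k1 x
      have k2' : ∀ x : W, A x w' = 0 := fun x => by rw [hs]; exact k2 x
      refine ⟨κ, Option κ', i1, inferInstance, i3, inferInstance,
        fun i => (e i : V), fun o => o.elim u' (fun j => (u2 j : V)),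
        fun o => o.elim w' (fun j => (w2 j : V)), la, fun o => o.elim α μ, fun o => o.elim β ν,
        by rw [Fintype.card_option]; omega, ?_⟩
      refine ⟨hNF.ee, hNF.eo, ?_, ?_, ?_, ?_, ?_, ?_, ?_, ?_, ?_, ?_, ?_, ?_⟩
      · rintro (_ | j)
        · exact c1
        · exact hNF.uu j
      · rintro (_ | j)
        · exact c2
        · exact hNF.ww j
      · rintro (_ | j)
        · exact c3
        · exact hNF.uw j
      · rintro (_ | i) (_ | j) hij
        · exact absurd rfl hij
        · exact k1 _
        · exact k1' _
        · exact hNF.uuo i j (fun h => hij (by rw [h]))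
      · rintro (_ | i) (_ | j) hij
        · exact absurd rfl hij
        · exact k1 _
        · exact k2' _
        · exact hNF.uwo i j (fun h => hij (by rw [h]))
      · rintro (_ | i) (_ | j) hij
        · exact absurd rfl hij
        · exact k2 _
        · exact k2' _
        · exact hNF.wwo i j (fun h => hij (by rw [h]))
      · rintro i (_ | j)
        · exact k1' _
        · exact hNF.eu i j
      · rintro i (_ | j)
        · exact k2' _
        · exact hNF.ew i j
      · intro i
        have := congrArg Subtype.val (hNF.Te i)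
        simpa using this
      · rintro (_ | j)
        · exact hTu'
        · have := congrArg Subtype.val (hNF.Tu j)
          simpa using this
      · rintro (_ | j)
        · exact hTw'
        · have := congrArg Subtype.val (hNF.Tw j)
          simpa using this
      · rintro (_ | j)
        · exact hβ0
        · exact hNF.nu j

end MP_d2f638_ag
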