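import Mathlib

/-!
# Sums of `2 ^ r` squares: index types, formally real fields, Pfister similarities
-/

namespace MP_d2f638_ag

open Matrix

/-- An index type with `2 ^ r` elements. -/
def Ix : ℕ → Type
  | 0 => Unit
  | r + 1 => Ix r ⊕ Ix r

instance instFintypeIx : ∀ r, Fintype (Ix r)
  | 0 => inferInstanceAs (Fintype Unit)
  | r + 1 => by
    haveI := instFintypeIx r
    exact inferInstanceAs (Fintype (Ix r ⊕ Ix r))

instance instDecidableEqIx : ∀ r, DecidableEq (Ix r)
  | 0 => inferInstanceAs (DecidableEq Unit)
  | r + 1 => by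
    haveI := instDecidableEqIx r
    exact inferInstanceAs (DecidableEq (Ix r ⊕ Ix r))

lemma card_Ix (r : ℕ) : Fintype.card (Ix r) = 2 ^ r := by
  induction r with
  | zero => rfl
  | succ r ih =>
    have : Fintype.card (Ix (r + 1)) = Fintype.card (Ix r ⊕ Ix r) := rfl
    rw [this, Fintype.card_sum, ih]
    ring

variable {K : Type*} [Field K]

/-- The first unit vector. -/
def unitV (K : Type*) [Field K] : ∀ r, Ix r → K
  | 0 => fun _ => 1
  | r + 1 => fun i => Sum.elim (unitV K r) (fun _ => 0) i

/-- The sum of squares of the coordinates. -/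
def nn {ι : Type*} [Fintype ι] (v : ι → K) : K := ∑ i, v i ^ 2

lemma nn_sum {ι κ : Type*} [Fintype ι] [Fintype κ] (v : ι ⊕ κ → K) :
    nn v = nn (fun i => v (Sum.inl i)) + nn (fun i => v (Sum.inr i)) := by
  simp [nn, Fintype.sum_sum_type]

lemma nn_succ (r : ℕ) (v : Ix (r + 1) → K) :
    nn v = nn (fun i : Ix r => v (Sum.inl i)) + nn (fun i : Ix r => v (Sum.inr i)) :=
  nn_sum (ι := Ix r) (κ := Ix r) v

lemma nn_unitV (r : ℕ) : nn (unitV K r) = 1 := by
  induction r with
  | zero =>
    show ∑ i : Unit, (1 : K) ^ 2 = 1
    simp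
  | succ r ih =>
    rw [nn_succ]
    have h1 : (fun i : Ix r => unitV K (r + 1) (Sum.inl i)) = unitV K r := rfl
    have h2 : (fun i : Ix r => unitV K (r + 1) (Sum.inr i)) = fun _ => 0 := rfl
    rw [h1, h2, ih]
    simp [nn]

lemma nn_smul {ι : Type*} [Fintype ι] (c : K) (v : ι → K) :
    nn (fun i => c * v i) = c ^ 2 * nn v := by
  simp [nn, mul_pow, Finset.mul_sum]

/-- Formally real: a sum of squares vanishes only trivially. -/
def FReal (K : Type*) [Field K] : Prop :=
  ∀ (ι : Type) [Fintype ι] (v : ι → K), ∑ i, v i ^ 2 = 0 → v = 0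

lemma nn_eq_dotProduct {ι : Type*} [Fintype ι] (v : ι → K) : nn v = v ⬝ᵥ v := by
  simp [nn, dotProduct, sq]

/-- A similarity with factor `c` multiplies sums of squares by `c`. -/
lemma nn_mulVec {ι : Type*} [Fintype ι] [DecidableEq ι] {S : Matrix ι ι K} {c : K}
    (h : S.transpose * S = c • (1 : Matrix ι ι K)) (v : ι → K) : nn (S *ᵥ v) = c * nn v := by
  rw [nn_eq_dotProduct, nn_eq_dotProduct, Matrix.dotProduct_mulVec, Matrix.vecMul_mulVec, h]
  simp [Matrix.vecMul_smul]

lemma transpose_comm {ι : Type*} [Fintype ι] [DecidableEq ι] {S : Matrix ι ι K} {c : K}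
    (hc : c ≠ 0) (h : S.transpose * S = c • (1 : Matrix ι ι K)) :
    S * S.transpose = c • (1 : Matrix ι ι K) := by
  have h1 : (c⁻¹ • S.transpose) * S = 1 := by
    rw [Matrix.smul_mul, h, smul_smul, inv_mul_cancel₀ hc, one_smul]
  have h2 : S * (c⁻¹ • S.transpose) = 1 := mul_eq_one_comm.1 h1
  calc S * S.transpose = c • (S * (c⁻¹ • S.transpose)) := by
        rw [Matrix.mul_smul, smul_smul, mul_inv_cancel₀ hc, one_smul]
    _ = c • (1 : Matrix ι ι K) := by rw [h2]

/-- **Pfister's multiplicativity** of sums of `2 ^ r` squares, with a similarity matrix whose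
entries lie in the field generated by the coordinates. -/
lemma pfister (L : Subfield K) (r : ℕ) : ∀ v : Ix r → K, (∀ i, v i ∈ L) →
    ∃ S : Matrix (Ix r) (Ix r) K, S.transpose * S = nn v • (1 : Matrix (Ix r) (Ix r) K) ∧
      S * S.transpose = nn v • (1 : Matrix (Ix r) (Ix r) K) ∧ ∀ i j, S i j ∈ L := by
  induction r with
  | zero =>
    intro v hv
    have key : Matrix.transpose (Matrix.of fun (_ _ : Ix 0) => v ()) *
        (Matrix.of fun (_ _ : Ix 0) => v ()) = nn v • (1 : Matrix (Ix 0) (Ix 0) K) := by
      ext i j
      cases i; cases j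
      show ∑ k : Unit, v () * v () = nn v * 1
      show ∑ k : Unit, v () * v () = (∑ k : Unit, v k ^ 2) * 1
      simp [sq]
    refine ⟨Matrix.of fun _ _ => v (), key, ?_, fun _ _ => hv ()⟩
    exact key
  | succ r ih =>
    intro v hv
    by_cases hv0 : nn v = 0
    · refine ⟨0, by simp [hv0], by simp [hv0], fun _ _ => L.zero_mem⟩
    obtain ⟨A, hA1, hA2, hA3⟩ := ih (fun i => v (Sum.inl i)) (fun i => hv _)
    obtain ⟨B, hB1, hB2, hB3⟩ := ih (fun i => v (Sum.inr i)) (fun i => hv _)
    set a := nn (fun i : Ix r => v (Sum.inl i)) with ha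
    set b := nn (fun i : Ix r => v (Sum.inr i)) with hb
    have hab : nn v = a + b := nn_succ r v
    have haL : a ∈ L := by
      rw [ha, nn]
      exact L.sum_mem fun i _ => L.pow_mem (hv _) 2
    suffices h : ∃ S : Matrix (Ix r ⊕ Ix r) (Ix r ⊕ Ix r) K,
        S.transpose * S = (a + b) • (1 : Matrix (Ix r ⊕ Ix r) (Ix r ⊕ Ix r) K) ∧
        ∀ i j, S i j ∈ L by
      obtain ⟨S, h1, h2⟩ := h
      refine ⟨S, ?_, ?_, h2⟩
      · rw [hab]; exact h1
      · rw [hab]
        exact transpose_comm (by rwa [← hab]) h1
    by_cases ha0 : a = 0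
    · refine ⟨Matrix.fromBlocks 0 B B 0, ?_, ?_⟩
      · rw [Matrix.fromBlocks_transpose, Matrix.fromBlocks_multiply, ha0, zero_add,
          ← Matrix.fromBlocks_one, Matrix.fromBlocks_smul]
        simp [hB1]
      · rintro (i | i) (j | j) <;> simp [hB3, L.zero_mem]
    · refine ⟨Matrix.fromBlocks A (-(a⁻¹ • (A * B.transpose * A.transpose))) B A.transpose,
        ?_, ?_⟩
      · rw [Matrix.fromBlocks_transpose, Matrix.fromBlocks_multiply,
          ← Matrix.fromBlocks_one, Matrix.fromBlocks_smul]
        have e1 : A.transpose * A + B.transpose * B = (a + b) • (1 : Matrix (Ix r) (Ix r) K) := by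
          rw [hA1, hB1, add_smul]
        have e2 : A.transpose * (A * B.transpose * A.transpose) =
            a • (B.transpose * A.transpose) := by
          calc A.transpose * (A * B.transpose * A.transpose)
              = (A.transpose * A) * (B.transpose * A.transpose) := by
                simp only [Matrix.mul_assoc]
            _ = a • (B.transpose * A.transpose) := by
                rw [hA1, Matrix.smul_mul, Matrix.one_mul]
        have e3 : (A * B.transpose * A.transpose).transpose * (A * B.transpose * A.transpose) =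
            (a * (b * a)) • (1 : Matrix (Ix r) (Ix r) K) := by
          calc (A * B.transpose * A.transpose).transpose * (A * B.transpose * A.transpose)
              = A * B * ((A.transpose * A) * (B.transpose * A.transpose)) := by
                simp only [Matrix.transpose_mul, Matrix.transpose_transpose, Matrix.mul_assoc]
            _ = a • (A * ((B * B.transpose) * A.transpose)) := by
                rw [hA1]
                simp only [Matrix.smul_mul, Matrix.one_mul, Matrix.mul_smul, Matrix.mul_assoc]
            _ = (a * (b * a)) • (1 : Matrix (Ix r) (Ix r) K) := by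
                rw [hB2, Matrix.smul_mul, Matrix.one_mul, Matrix.mul_smul, hA2, smul_smul,
                  smul_smul, mul_assoc]
        have e4 : (A * B.transpose * A.transpose).transpose * A = a • (A * B) := by
          calc (A * B.transpose * A.transpose).transpose * A
              = (A * B) * (A.transpose * A) := by
                simp only [Matrix.transpose_mul, Matrix.transpose_transpose, Matrix.mul_assoc]
            _ = a • (A * B) := by rw [hA1, Matrix.mul_smul, Matrix.mul_one]
        congr 1
        · simp only [Matrix.mul_neg, Matrix.mul_smul, e2, smul_smul, inv_mul_cancel₀ ha0,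
            one_smul, smul_zero]
          simp
        · simp only [Matrix.transpose_neg, Matrix.transpose_smul, Matrix.neg_mul,
            Matrix.smul_mul, e4, smul_smul, inv_mul_cancel₀ ha0, one_smul,
            Matrix.transpose_transpose, smul_zero]
          simp
        · simp only [Matrix.transpose_neg, Matrix.transpose_smul, Matrix.neg_mul, Matrix.mul_neg,
            Matrix.smul_mul, Matrix.mul_smul, e3, smul_smul, Matrix.transpose_transpose,
            hA2, smul_neg, neg_neg]
          rw [← add_smul]
          congr 1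
          field_simp
          ring
      · have hL : ∀ i j, (A * B.transpose * A.transpose) i j ∈ L := by
          intro i j
          rw [Matrix.mul_apply]
          refine L.sum_mem fun k _ => L.mul_mem ?_ (hA3 _ _)
          rw [Matrix.mul_apply]
          exact L.sum_mem fun k _ => L.mul_mem (hA3 _ _) (hB3 _ _)
        rintro (i | i) (j | j)
        · exact hA3 _ _
        · simp only [Matrix.fromBlocks_apply₁₂, Matrix.neg_apply, Matrix.smul_apply, smul_eq_mul]
          exact L.neg_mem (L.mul_mem (L.inv_mem haL) (hL i j))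
        · exact hB3 _ _
        · exact hA3 _ _

end MP_d2f638_ag
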