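import Pool.Agent.Lib.MP_d2f638_ag.Ternary

/-!
# Sign patterns of real polynomials

A predicate on `ℝ` which is locally constant away from a finite set is, almost everywhere, the
positivity set of a nonzero polynomial.
-/

namespace MP_d2f638_ag

open Polynomial Filter

/-- `σ` is constant on every interval which avoids the finite set `E`. -/
def LCOff (E : Finset ℝ) (σ : ℝ → Prop) : Prop :=
  ∀ x y : ℝ, x < y → (∀ e ∈ E, ¬ (x ≤ e ∧ e ≤ y)) → (σ x ↔ σ y)

/-- A predicate which is locally constant away from a finite set. -/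
def Tame (σ : ℝ → Prop) : Prop := ∃ E : Finset ℝ, LCOff E σ

lemma LCOff.mono {E E' : Finset ℝ} {σ : ℝ → Prop} (h : LCOff E σ) (hE : E ⊆ E') : LCOff E' σ :=
  fun x y hxy hne => h x y hxy (fun e he => hne e (hE he))

/-- Polynomials realise every tame pattern. -/
lemma exists_poly_of_LCOff (n : ℕ) : ∀ (E : Finset ℝ) (σ : ℝ → Prop), E.card = n → LCOff E σ →
    ∃ c : ℝ[X], c ≠ 0 ∧ ∀ t, t ∉ E → ((σ t → 0 < c.eval t) ∧ (¬ σ t → c.eval t < 0)) := by
  induction n with
  | zero =>
    intro E σ hE h
    rw [Finset.card_eq_zero] at hE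
    subst hE
    by_cases h0 : σ 0
    · refine ⟨1, one_ne_zero, fun t _ => ?_⟩
      have ht : σ t := by
        rcases lt_trichotomy t 0 with h1 | h1 | h1
        · exact (h t 0 h1 (by simp)).2 h0
        · rwa [h1]
        · exact (h 0 t h1 (by simp)).1 h0
      exact ⟨fun _ => by simp, fun h2 => absurd ht h2⟩
    · refine ⟨-1, by simp, fun t _ => ?_⟩
      have ht : ¬ σ t := by
        rcases lt_trichotomy t 0 with h1 | h1 | h1
        · exact fun h2 => h0 ((h t 0 h1 (by simp)).1 h2)
        · rwa [h1]
        · exact fun h2 => h0 ((h 0 t h1 (by simp)).2 h2)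
      exact ⟨fun h2 => absurd h2 ht, fun _ => by simp⟩
  | succ n ih =>
    intro E σ hE h
    have hne : E.Nonempty := by
      rw [← Finset.card_pos]; omega
    obtain ⟨e, he, hmax⟩ := E.exists_max_image id hne
    simp only [id] at hmax
    -- a point left of `e`, right of all other elements
    have hleft : ∃ u < e, ∀ e' ∈ E.erase e, e' < u := by
      by_cases h1 : (E.erase e).Nonempty
      · obtain ⟨m, hm, hmm⟩ := (E.erase e).exists_max_image id h1
        simp only [id] at hmm
        have hm2 : m < e := lt_of_le_of_ne (hmax m (Finset.mem_of_mem_erase hm))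
          (Finset.ne_of_mem_erase hm)
        obtain ⟨u, hu1, hu2⟩ := exists_between hm2
        exact ⟨u, hu2, fun e' he' => lt_of_le_of_lt (hmm e' he') hu1⟩
      · refine ⟨e - 1, by linarith, fun e' he' => absurd ⟨e', he'⟩ h1⟩
    obtain ⟨u, hu, hu2⟩ := hleft
    -- modified pattern
    set σ' : ℝ → Prop := fun t => if t < e then σ t else σ u with hσ'
    have hLC : LCOff (E.erase e) σ' := by
      intro x y hxy hxyE
      simp only [hσ']
      by_cases hy : y < e
      · have hx : x < e := hxy.trans hy
        rw [if_pos hx, if_pos hy]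
        refine h x y hxy ?_
        intro e' he' hcon
        by_cases hee : e' = e
        · rw [hee] at hcon; linarith [hcon.2]
        · exact hxyE e' (Finset.mem_erase.2 ⟨hee, he'⟩) hcon
      · rw [if_neg hy]
        by_cases hx : x < e
        · rw [if_pos hx]
          -- compare `σ x` and `σ u`
          have hxo : ∀ e' ∈ E.erase e, e' < x := by
            intro e' he'
            by_contra hcon
            rw [not_lt] at hcon
            refine hxyE e' he' ⟨hcon, ?_⟩
            exact (hmax e' (Finset.mem_of_mem_erase he')).trans (not_lt.1 hy)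
          rcases lt_trichotomy x u with h1 | h1 | h1
          · refine h x u h1 ?_
            intro e' he' hcon
            by_cases hee : e' = e
            · rw [hee] at hcon; linarith [hcon.2]
            · linarith [hxo e' (Finset.mem_erase.2 ⟨hee, he'⟩), hcon.1]
          · rw [h1]
          · refine (h u x h1 ?_).symm
            intro e' he' hcon
            by_cases hee : e' = e
            · rw [hee] at hcon; linarith [hcon.2]
            · linarith [hu2 e' (Finset.mem_erase.2 ⟨hee, he'⟩), hcon.1]
        · rw [if_neg hx]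
    obtain ⟨c, hc0, hc⟩ := ih (E.erase e) σ' (by rw [Finset.card_erase_of_mem he]; omega) hLC
    -- right of `e` the pattern is constant
    have hright : ∀ t, e < t → (σ t ↔ σ (e + 1)) := by
      intro t ht
      rcases lt_trichotomy t (e + 1) with h1 | h1 | h1
      · refine h t (e + 1) h1 ?_
        intro e' he' hcon
        linarith [hmax e' he', hcon.1]
      · rw [h1]
      · refine (h (e + 1) t h1 ?_).symm
        intro e' he' hcon
        linarith [hmax e' he', hcon.1]
    have hmem : ∀ t, t ∉ E → t ∉ E.erase e := fun t ht h1 => ht (Finset.mem_of_mem_erase h1)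
    by_cases hflip : (σ u ↔ σ (e + 1))
    · refine ⟨c, hc0, fun t ht => ?_⟩
      have hct := hc t (hmem t ht)
      rcases lt_trichotomy t e with h1 | h1 | h1
      · simpa only [hσ', if_pos h1] using hct
      · exact absurd (h1 ▸ he) ht
      · have h2 : ¬ t < e := not_lt.2 h1.le
        simp only [hσ', if_neg h2] at hct
        rwa [hright t h1, ← hflip]
    · refine ⟨c * (C e - X), mul_ne_zero hc0 ?_, fun t ht => ?_⟩
      · intro h0
        have := congrArg (eval (e + 1)) h0
        simp at this
      · have hct := hc t (hmem t ht)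
        rw [eval_mul, eval_sub, eval_C, eval_X]
        rcases lt_trichotomy t e with h1 | h1 | h1
        · simp only [hσ', if_pos h1] at hct
          refine ⟨fun h2 => mul_pos (hct.1 h2) (by linarith), fun h2 => ?_⟩
          exact mul_neg_of_neg_of_pos (hct.2 h2) (by linarith)
        · exact absurd (h1 ▸ he) ht
        · have h2 : ¬ t < e := not_lt.2 h1.le
          simp only [hσ', if_neg h2] at hct
          rw [hright t h1]
          refine ⟨fun h3 => ?_, fun h3 => ?_⟩
          · have h4 : ¬ σ u := fun h5 => hflip (iff_of_true h5 h3)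
            exact mul_pos_of_neg_of_neg (hct.2 h4) (by linarith)
          · have h4 : σ u := by
              by_contra h5
              exact hflip (iff_of_false h5 h3)
            exact mul_neg_of_pos_of_neg (hct.1 h4) (by linarith)

/-- Tame patterns are realised by nonzero polynomials. -/
theorem Tame.exists_poly {σ : ℝ → Prop} (h : Tame σ) : ∃ c : ℝ[X], c ≠ 0 ∧
    (∀ᶠ t in (cofinite : Filter ℝ), (σ t → 0 < c.eval t) ∧ (¬ σ t → c.eval t < 0)) := by
  obtain ⟨E, hE⟩ := h
  obtain ⟨c, hc, h1⟩ := exists_poly_of_LCOff _ E σ rfl hE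
  refine ⟨c, hc, ?_⟩
  have : ∀ᶠ t in (cofinite : Filter ℝ), t ∉ E := by
    exact (Finset.finite_toSet E).compl_mem_cofinite
  filter_upwards [this] with t ht using h1 t ht

/-- The positivity pattern of a polynomial is tame. -/
lemma tame_pos (p : ℝ[X]) : Tame (fun t => 0 < p.eval t) := by
  by_cases hp : p = 0
  · refine ⟨∅, fun x y _ _ => ?_⟩
    simp [hp]
  refine ⟨p.roots.toFinset, fun x y hxy hE => ?_⟩
  have hno : ∀ z, x ≤ z → z ≤ y → p.eval z ≠ 0 := by
    intro z h1 h2 h3
    refine hE z ?_ ⟨h1, h2⟩
    simp [hp, h3]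
  have hx := hno x le_rfl hxy.le
  have hy := hno y hxy.le le_rfl
  constructor
  · intro h1
    by_contra h2
    have hy' : p.eval y < 0 := lt_of_le_of_ne (not_lt.1 h2) hy
    obtain ⟨z, hz, hz0⟩ := intermediate_value_Icc' hxy.le (p.continuous.continuousOn)
      (show (0 : ℝ) ∈ Set.Icc (p.eval y) (p.eval x) from ⟨hy'.le, h1.le⟩)
    exact hno z hz.1 hz.2 hz0
  · intro h1
    by_contra h2
    have hx' : p.eval x < 0 := lt_of_le_of_ne (not_lt.1 h2) hx
    obtain ⟨z, hz, hz0⟩ := intermediate_value_Icc hxy.le (p.continuous.continuousOn)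
      (show (0 : ℝ) ∈ Set.Icc (p.eval x) (p.eval y) from ⟨hx'.le, h1.le⟩)
    exact hno z hz.1 hz.2 hz0

/-- A predicate depending on finitely many tame predicates is tame. -/
lemma tame_of_family {ι : Type*} [Fintype ι] {σ : ι → ℝ → Prop} (h : ∀ i, Tame (σ i))
    (Φ : (ι → Prop) → Prop) : Tame (fun t => Φ (fun i => σ i t)) := by
  classical
  choose E hE using h
  refine ⟨Finset.univ.biUnion E, fun x y hxy hne => ?_⟩
  have : (fun i => σ i x) = (fun i => σ i y) := by
    funext i
    apply propext
    refine hE i x y hxy ?_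
    intro e he
    exact hne e (Finset.mem_biUnion.2 ⟨i, Finset.mem_univ _, he⟩)
  simp only [this]

end MP_d2f638_ag
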