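import Pool.Agent.Lib.MP_d2f638_ag.State

/-!
# The presentations depend only on the number of negative coefficients
-/

namespace MP_d2f638_ag

open Polynomial Filter

variable {K : Type} [Field K] [Algebra ℝ K]

/-- Number of negative coefficients at a real point. -/
noncomputable def cnt {P : Type} [Fintype P] (h : P → ℝ[X]) (s : ℝ) : ℕ :=
  ∑ j, if (h j).eval s < 0 then 1 else 0

/-- Presentation at every position, with nonzero coefficients. -/
def St (t : K) (r : ℕ) {P : Type} [Fintype P] (h : P → ℝ[X]) : Prop :=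
  (∀ j, h j ≠ 0) ∧ ∀ p, StAt t r h p

lemma StAt.st {r : ℕ} (hK : Aniso K r) {t : K} {P : Type} [Fintype P] [DecidableEq P]
    {h : P → ℝ[X]} {p : P} (hst : StAt t r h p) (hh : ∀ j, h j ≠ 0)
    (hd : ((2 ^ r * (Fintype.card P - 1) : ℕ) : Cardinal) ≤ Algebra.trdeg ℝ K) : St t r h :=
  ⟨hh, fun _ => hst.swap hK (hh p) hd⟩

lemma nat_sum_split {P : Type} [Fintype P] [DecidableEq P] {i j : P} (hij : i ≠ j) (g : P → ℕ) :
    ∑ k, g k = g i + g j + ∑ k ∈ (Finset.univ.erase i).erase j, g k := by
  rw [← Finset.add_sum_erase Finset.univ g (Finset.mem_univ i),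
    ← Finset.add_sum_erase (Finset.univ.erase i) g (Finset.mem_erase.2 ⟨hij.symm,
      Finset.mem_univ j⟩)]
  ring

/-- Local move with a prescribed new coefficient `c` at the position `i`. -/
lemma St.move {r : ℕ} (hK : Aniso K r) {t : K} (ht : Trans t) {P : Type} [Fintype P]
    [DecidableEq P] {h : P → ℝ[X]} (hst : St t r h)
    (hd : ((2 ^ r * (Fintype.card P - 1) : ℕ) : Cardinal) ≤ Algebra.trdeg ℝ K)
    (hP : 3 ≤ Fintype.card P) {i j : P} (hij : i ≠ j) {c : ℝ[X]} (hc : c ≠ 0)
    (hs : ∀ᶠ s in (cofinite : Filter ℝ), (0 < c.eval s ↔ 0 < (h i).eval s) ∨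
      (0 < c.eval s ↔ 0 < (h j).eval s)) :
    ∃ h' : P → ℝ[X], St t r h' ∧ h' i = c ∧ (∀ k, k ≠ i → k ≠ j → h' k = h k) ∧
      ∀ᶠ s in (cofinite : Filter ℝ), cnt h' s = cnt h s := by
  have hi := hst.1 i
  have hj := hst.1 j
  -- solve the ternary equation
  have hpos : PosOr (c * h i) (c * h j) := by
    filter_upwards [hs, eventually_ne_zero hc, eventually_ne_zero hi, eventually_ne_zero hj]
      with s h1 h2 h3 h4
    have key : ∀ u v : ℝ, u ≠ 0 → v ≠ 0 → (0 < u ↔ 0 < v) → 0 < u * v := by
      intro u v hu hv huv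
      rcases lt_or_gt_of_ne hu with h5 | h5
      · have : v < 0 := lt_of_le_of_ne (not_lt.1 fun h6 => absurd (huv.2 h6) (not_lt.2 h5.le)) hv
        exact mul_pos_of_neg_of_neg h5 this
      · exact mul_pos h5 (huv.1 h5)
    rw [eval_mul, eval_mul]
    rcases h1 with h1 | h1
    · exact Or.inl (key _ _ h2 h3 h1)
    · exact Or.inr (key _ _ h2 h4 h1)
  obtain ⟨x, y, z, hz, hxyz⟩ := ternary (mul_ne_zero hc hi) (mul_ne_zero hc hj) hpos
  -- a third position
  obtain ⟨p, hp⟩ : ∃ p, p ∉ ({i, j} : Finset P) := by
    by_contra hcon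
    push Not at hcon
    have h1 : Fintype.card P ≤ ({i, j} : Finset P).card := by
      rw [← Finset.card_univ]
      exact Finset.card_le_card fun p _ => hcon p
    have h2 : ({i, j} : Finset P).card ≤ 2 := Finset.card_le_two
    omega
  rw [Finset.mem_insert, Finset.mem_singleton, not_or] at hp
  have hmove := (hst.2 p).move ht (Ne.symm hp.1) (Ne.symm hp.2) hij hc hz (x := c * x)
    (y := c * y) (by linear_combination c * hxyz)
  have hne : ∀ k, Function.update (Function.update h i c) j (h i * h j * c) k ≠ 0 := by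
    intro k
    by_cases hk : k = j
    · rw [hk, Function.update_self]
      exact mul_ne_zero (mul_ne_zero hi hj) hc
    · by_cases hk2 : k = i
      · rw [hk2, Function.update_of_ne hij, Function.update_self]; exact hc
      · rw [Function.update_of_ne hk, Function.update_of_ne hk2]; exact hst.1 k
  refine ⟨_, hmove.st hK hne hd, ?_, ?_, ?_⟩
  · rw [Function.update_of_ne hij, Function.update_self]
  · intro k h1 h2
    rw [Function.update_of_ne h2, Function.update_of_ne h1]
  · filter_upwards [hs, eventually_ne_zero hc, eventually_ne_zero hi, eventually_ne_zero hj]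
      with s h1 h2 h3 h4
    rw [cnt, cnt, nat_sum_split hij, nat_sum_split hij (fun k => if (h k).eval s < 0 then 1 else 0)]
    congr 1
    · rw [Function.update_of_ne hij, Function.update_self, Function.update_self, eval_mul, eval_mul]
      rcases lt_or_gt_of_ne h2 with a1 | a1 <;> rcases lt_or_gt_of_ne h3 with a2 | a2 <;>
        rcases lt_or_gt_of_ne h4 with a3 | a3
      · have : (h i).eval s * (h j).eval s * c.eval s < 0 :=
          mul_neg_of_pos_of_neg (mul_pos_of_neg_of_neg a2 a3) a1
        simp [this, a1, a2, a3]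
      · have : 0 < (h i).eval s * (h j).eval s * c.eval s :=
          mul_pos_of_neg_of_neg (mul_neg_of_neg_of_pos a2 a3) a1
        simp [this, a1, a2, a3, this.le, a3.le, not_lt.2]
      · have : 0 < (h i).eval s * (h j).eval s * c.eval s :=
          mul_pos_of_neg_of_neg (mul_neg_of_pos_of_neg a2 a3) a1
        simp [this, a1, a2, a3, this.le, a2.le, not_lt.2]
      · exfalso
        rcases h1 with h1 | h1
        · linarith [h1.2 a2]
        · linarith [h1.2 a3]
      · exfalso
        rcases h1 with h1 | h1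
        · linarith [h1.1 a1]
        · linarith [h1.1 a1]
      · have : (h i).eval s * (h j).eval s * c.eval s < 0 :=
          mul_neg_of_neg_of_pos (mul_neg_of_neg_of_pos a2 a3) a1
        simp [this, a1.le, a2, a3.le, not_lt.2]
      · have : (h i).eval s * (h j).eval s * c.eval s < 0 :=
          mul_neg_of_neg_of_pos (mul_neg_of_pos_of_neg a2 a3) a1
        simp [this, a1.le, a2.le, a3, not_lt.2]
      · have : 0 < (h i).eval s * (h j).eval s * c.eval s :=
          mul_pos (mul_pos a2 a3) a1
        simp [this.le, a1.le, a2.le, a3.le, not_lt.2]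
    · refine Finset.sum_congr rfl fun k hk => ?_
      rw [Finset.mem_erase, Finset.mem_erase] at hk
      rw [Function.update_of_ne hk.1, Function.update_of_ne hk.2.1]

/-- Collecting a prescribed sign pattern at the position `k`. -/
lemma St.gather {r : ℕ} (hK : Aniso K r) {t : K} (ht : Trans t) {P : Type} [Fintype P]
    [DecidableEq P]
    (hd : ((2 ^ r * (Fintype.card P - 1) : ℕ) : Cardinal) ≤ Algebra.trdeg ℝ K)
    (hP : 3 ≤ Fintype.card P) {k : P} {s : ℝ[X]} (hs0 : s ≠ 0) (S : Finset P)
    (hS : S.Nonempty) : k ∉ S → ∀ h : P → ℝ[X], St t r h →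
    (∀ᶠ u in (cofinite : Filter ℝ), ∃ i ∈ insert k S, (0 < (h i).eval u ↔ 0 < s.eval u)) →
    ∃ h' : P → ℝ[X], St t r h' ∧ h' k = s ∧ (∀ j, j ∉ insert k S → h' j = h j) ∧
      ∀ᶠ u in (cofinite : Filter ℝ), cnt h' u = cnt h u := by
  induction hS using Finset.Nonempty.cons_induction with
  | singleton i =>
    intro hk h hst hcond
    have hki : k ≠ i := fun e => hk (by rw [e]; exact Finset.mem_singleton_self _)
    obtain ⟨h', h1, h2, h3, h4⟩ := hst.move hK ht hd hP hki hs0 (by
      filter_upwards [hcond] with u hu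
      obtain ⟨m, hm, hm2⟩ := hu
      rw [Finset.mem_insert, Finset.mem_singleton] at hm
      rcases hm with rfl | rfl
      · exact Or.inl hm2.symm
      · exact Or.inr hm2.symm)
    refine ⟨h', h1, h2, ?_, h4⟩
    intro j hj
    rw [Finset.mem_insert, Finset.mem_singleton, not_or] at hj
    exact h3 j hj.1 hj.2
  | cons a S haS hS ih =>
    intro hk h hst hcond
    have hka : k ≠ a := fun e => hk (by rw [e]; exact Finset.mem_cons_self _ _)
    have hkS : k ∉ S := fun h1 => hk (Finset.mem_cons_of_mem h1)
    -- the intermediate sign pattern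
    have htame : Tame (fun u => (0 < s.eval u ↔ ((0 < (h k).eval u ↔ 0 < s.eval u) ∨
        (0 < (h a).eval u ↔ 0 < s.eval u)))) := by
      have := tame_of_family (ι := Fin 3) (σ := fun i u => 0 < ((![s, h k, h a] i).eval u))
        (fun i => tame_pos _) (fun f => (f 0 ↔ ((f 1 ↔ f 0) ∨ (f 2 ↔ f 0))))
      simpa using this
    obtain ⟨c, hc0, hc⟩ := htame.exists_poly
    obtain ⟨h1, hst1, hk1, hoff1, hcnt1⟩ := hst.move hK ht hd hP hka hc0 (by
      filter_upwards [hc] with u hu
      by_contra hcon
      rw [not_or] at hcon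
      by_cases hcu : 0 < c.eval u
      · have h5 : ¬ 0 < (h k).eval u := fun h6 => hcon.1 ⟨fun _ => h6, fun _ => hcu⟩
        have h6 : ¬ 0 < (h a).eval u := fun h6 => hcon.2 ⟨fun _ => h6, fun _ => hcu⟩
        by_cases hsu : 0 < s.eval u
        · have := hu.2 (by tauto)
          linarith
        · have := hu.2 (by tauto)
          linarith
      · have h5 : 0 < (h k).eval u := by
          by_contra h6
          exact hcon.1 ⟨fun h7 => absurd h7 hcu, fun h7 => absurd h7 h6⟩
        have h6 : 0 < (h a).eval u := by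
          by_contra h6
          exact hcon.2 ⟨fun h7 => absurd h7 hcu, fun h7 => absurd h7 h6⟩
        exact hcu (hu.1 (by tauto)))
    obtain ⟨h', g1, g2, g3, g4⟩ := ih hkS h1 hst1 (by
      filter_upwards [hcond, hc] with u hu hcu
      obtain ⟨m, hm, hm2⟩ := hu
      by_cases hmk : m = k ∨ m = a
      · refine ⟨k, Finset.mem_insert_self _ _, ?_⟩
        rw [hk1]
        have hor : (0 < (h k).eval u ↔ 0 < s.eval u) ∨ (0 < (h a).eval u ↔ 0 < s.eval u) := by
          rcases hmk with rfl | rfl
          · exact Or.inl hm2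
          · exact Or.inr hm2
        by_cases hsu : 0 < s.eval u
        · exact ⟨fun _ => hsu, fun _ => hcu.1 (iff_of_true hsu hor)⟩
        · have := hcu.2 (fun h6 => hsu (h6.2 hor))
          exact ⟨fun h7 => absurd h7 (not_lt.2 this.le), fun h7 => absurd h7 hsu⟩
      · rw [not_or] at hmk
        rw [Finset.mem_insert, Finset.mem_cons] at hm
        have hmS : m ∈ S := by
          rcases hm with h7 | h7 | h7
          · exact absurd h7 hmk.1
          · exact absurd h7 hmk.2
          · exact h7
        refine ⟨m, Finset.mem_insert_of_mem hmS, ?_⟩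
        rw [hoff1 m hmk.1 hmk.2]
        exact hm2)
    refine ⟨h', g1, g2, ?_, ?_⟩
    · intro j hj
      rw [Finset.mem_insert, Finset.mem_cons, not_or, not_or] at hj
      rw [g3 j (by rw [Finset.mem_insert, not_or]; exact ⟨hj.1, hj.2.2⟩),
        hoff1 j hj.1 hj.2.1]
    · filter_upwards [g4, hcnt1] with u h5 h6
      rw [h5, h6]

/-- Sorting all positions except `o`. -/
lemma St.sort {r : ℕ} (hK : Aniso K r) {t : K} (ht : Trans t) {P : Type} [Fintype P]
    [DecidableEq P]
    (hd : ((2 ^ r * (Fintype.card P - 1) : ℕ) : Cardinal) ≤ Algebra.trdeg ℝ K)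
    (hP : 3 ≤ Fintype.card P) {h : P → ℝ[X]} (hst : St t r h) (g : P → ℝ[X])
    (hg : ∀ j, g j ≠ 0) (o : P)
    (hcnt : ∀ᶠ u in (cofinite : Filter ℝ), cnt g u = cnt h u) (T : Finset P) : o ∉ T →
    ∃ h' : P → ℝ[X], St t r h' ∧ (∀ j ∈ T, h' j = g j) ∧
      ∀ᶠ u in (cofinite : Filter ℝ), cnt h' u = cnt g u := by
  induction T using Finset.induction_on with
  | empty =>
    intro _
    exact ⟨h, hst, by simp, by filter_upwards [hcnt] with u hu using hu.symm⟩
  | insert k T hkT ih =>
    intro hoT
    rw [Finset.mem_insert, not_or] at hoT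
    obtain ⟨h1, hst1, hT1, hcnt1⟩ := ih hoT.2
    set S : Finset P := (Finset.univ \ T).erase k with hS
    have hoS : o ∈ S := by
      rw [hS, Finset.mem_erase, Finset.mem_sdiff]
      exact ⟨hoT.1, Finset.mem_univ _, hoT.2⟩
    have hins : ∀ j, j ∈ insert k S ↔ j ∉ T := by
      intro j
      rw [hS, Finset.insert_erase (by simp [hkT])]
      simp
    have hne1 : ∀ᶠ u in (cofinite : Filter ℝ), ∀ j, (h1 j).eval u ≠ 0 := by
      rw [Filter.eventually_all]
      exact fun j => eventually_ne_zero (hst1.1 j)
    obtain ⟨h', g1, g2, g3, g4⟩ := St.gather hK ht hd hP (k := k) (hg k) S ⟨o, hoS⟩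
      (Finset.notMem_erase k _) h1 hst1 (by
      filter_upwards [hcnt1, hne1, eventually_ne_zero (hg k)] with u hu hu1 hgk
      by_contra hcon
      push Not at hcon
      -- compare the counts outside `T`
      have hsplit : ∀ f : P → ℝ[X], cnt f u = (∑ j ∈ T, if (f j).eval u < 0 then 1 else 0) +
          ∑ j ∈ Finset.univ \ T, if (f j).eval u < 0 then 1 else 0 := by
        intro f
        rw [cnt, add_comm, Finset.sum_sdiff (Finset.subset_univ T)]
      rw [hsplit h1, hsplit g] at hu
      have hTeq : (∑ j ∈ T, if (h1 j).eval u < 0 then 1 else 0) =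
          ∑ j ∈ T, if (g j).eval u < 0 then 1 else 0 := by
        refine Finset.sum_congr rfl fun j hj => ?_
        rw [hT1 j hj]
      rw [hTeq, Nat.add_left_cancel_iff] at hu
      have hkU : k ∈ Finset.univ \ T := by simp [hkT]
      rcases lt_or_gt_of_ne hgk with h5 | h5
      · -- `g k < 0`, all `h1 j > 0`
        have h6 : ∀ j ∈ Finset.univ \ T, 0 < (h1 j).eval u := by
          intro j hj
          rw [Finset.mem_sdiff] at hj
          have := hcon j ((hins j).2 hj.2)
          by_contra h7
          rcases this with ⟨h8, _⟩ | ⟨_, h8⟩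
          · exact h7 h8
          · linarith
        have h7 : (∑ j ∈ Finset.univ \ T, if (h1 j).eval u < 0 then 1 else 0) = 0 := by
          refine Finset.sum_eq_zero fun j hj => ?_
          rw [if_neg (not_lt.2 (h6 j hj).le)]
        rw [h7] at hu
        have h8 := Finset.single_le_sum (f := fun j => if (g j).eval u < 0 then 1 else 0)
          (fun j _ => Nat.zero_le _) hkU
        simp only [if_pos h5] at h8
        omega
      · have h6 : ∀ j ∈ Finset.univ \ T, (h1 j).eval u < 0 := by
          intro j hj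
          rw [Finset.mem_sdiff] at hj
          have := hcon j ((hins j).2 hj.2)
          rcases this with ⟨_, h8⟩ | ⟨h8, _⟩
          · linarith
          · exact lt_of_le_of_ne h8 (hu1 j)
        have h7 : (∑ j ∈ Finset.univ \ T, if (h1 j).eval u < 0 then 1 else 0) =
            (Finset.univ \ T).card := by
          rw [Finset.card_eq_sum_ones]
          refine Finset.sum_congr rfl fun j hj => ?_
          rw [if_pos (h6 j hj)]
        rw [h7] at hu
        have h8 : (∑ j ∈ Finset.univ \ T, if (g j).eval u < 0 then 1 else 0) <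
            (Finset.univ \ T).card := by
          rw [Finset.card_eq_sum_ones]
          refine Finset.sum_lt_sum (fun j _ => by split_ifs <;> omega) ⟨k, hkU, ?_⟩
          rw [if_neg (not_lt.2 h5.le)]
          norm_num
        omega)
    refine ⟨h', g1, ?_, ?_⟩
    · intro j hj
      rw [Finset.mem_insert] at hj
      rcases hj with rfl | hj
      · exact g2
      · rw [g3 j (fun h5 => (hins j).1 h5 hj), hT1 j hj]
    · filter_upwards [g4, hcnt1] with u h5 h6
      rw [h5, h6]

end MP_d2f638_ag
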