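import Mathlib

/-!
# Generating families whose size is the transcendence degree
-/

namespace MP_d2f638_ag

open Cardinal

variable {K : Type} [Field K] [Algebra ℝ K]

open scoped IntermediateField.algebraAdjoinAdjoin in
lemma isAlgebraic_of_adjoin_top {S : Set K} (htop : IntermediateField.adjoin ℝ S = ⊤) :
    Algebra.IsAlgebraic (Algebra.adjoin ℝ S) K := by
  constructor
  intro a
  have ha : a ∈ IntermediateField.adjoin ℝ S := by rw [htop]; trivial
  have h1 : IsAlgebraic (Algebra.adjoin ℝ S) (⟨a, ha⟩ : IntermediateField.adjoin ℝ S) :=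
    Algebra.IsAlgebraic.isAlgebraic _
  exact h1.algebraMap (S := IntermediateField.adjoin ℝ S) (A := K)

/-- A generating family with at most `trdeg` members is algebraically independent. -/
lemma algInd_of_adjoin_top {ι : Type} [Fintype ι] (z : ι → K)
    (htop : IntermediateField.adjoin ℝ (Set.range z) = ⊤)
    (hd : (Fintype.card ι : Cardinal) ≤ Algebra.trdeg ℝ K) : AlgebraicIndependent ℝ z := by
  have := isAlgebraic_of_adjoin_top htop
  have := Algebra.IsAlgebraic.isTranscendenceBasis_of_le_trdeg_of_finite ℝ z
    (by rwa [Cardinal.mk_fintype])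
  exact this.1

/-- Such a field is purely transcendental. -/
lemma rational_of_adjoin_top {ι : Type} [Fintype ι] (z : ι → K)
    (htop : IntermediateField.adjoin ℝ (Set.range z) = ⊤)
    (hd : (Fintype.card ι : Cardinal) ≤ Algebra.trdeg ℝ K) :
    Nonempty (K ≃ₐ[ℝ] FractionRing (MvPolynomial ι ℝ)) := by
  have h := algInd_of_adjoin_top z htop hd
  refine ⟨(h.aevalEquivField.trans ?_).symm⟩
  exact (IntermediateField.equivOfEq htop).trans IntermediateField.topEquiv

/-- The same, with the variables indexed by `Fin n`. -/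
lemma rational_fin {ι : Type} [Fintype ι] (z : ι → K) {n : ℕ}
    (htop : IntermediateField.adjoin ℝ (Set.range z) = ⊤) (hn : Fintype.card ι = n)
    (hd : (n : Cardinal) ≤ Algebra.trdeg ℝ K) :
    Nonempty (K ≃ₐ[ℝ] FractionRing (MvPolynomial (Fin n) ℝ)) := by
  have e : Fin n ≃ ι := (Fintype.equivFinOfCardEq hn).symm
  refine rational_of_adjoin_top (z ∘ e) ?_ (by rwa [Fintype.card_fin])
  rw [e.surjective.range_comp]
  exact htop

end MP_d2f638_ag
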