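import Pool.Agent.Lib.MP_d2f638_ag.SignPat
import Pool.Agent.Lib.MP_d2f638_ag.Pfister
import Pool.Agent.Lib.MP_d2f638_ag.Trdeg

/-!
# Presentations of a field by a Pfister-projective quadric over `ℝ(t)`

`StAt t r h p` says that `K` is generated over `ℝ` by `t` and the coordinates of vectors
`y j ∈ K ^ (2 ^ r)` with `∑ h j (t) * |y j| ^ 2 = 0` and `y p = (1, 0, …, 0)`.
-/

namespace MP_d2f638_ag

open Polynomial Filter

variable {K : Type} [Field K] [Algebra ℝ K]

/-- The generators attached to `t` and a family of vectors. -/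
def gens (t : K) {r : ℕ} {P : Type} (y : P → Ix r → K) : Set K :=
  insert t {z | ∃ j i, z = y j i}

/-- Presentation of `K` at the position `p`. -/
def StAt (t : K) (r : ℕ) {P : Type} [Fintype P] (h : P → ℝ[X]) (p : P) : Prop :=
  ∃ y : P → Ix r → K, y p = unitV K r ∧ ∑ j, aeval t (h j) * nn (y j) = 0 ∧
    IntermediateField.adjoin ℝ (gens t y) = ⊤

/-- `t` is transcendental, in the form used here. -/
def Trans (t : K) : Prop := ∀ q : ℝ[X], q ≠ 0 → aeval t q ≠ 0

lemma adjoin_top_of_mem {S S' : Set K} (h : IntermediateField.adjoin ℝ S = ⊤)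
    (hsub : ∀ z ∈ S, z ∈ IntermediateField.adjoin ℝ S') : IntermediateField.adjoin ℝ S' = ⊤ := by
  rw [eq_top_iff, ← h, IntermediateField.adjoin_le_iff]
  exact hsub

lemma aeval_mem_field (L : IntermediateField ℝ K) {t : K} (ht : t ∈ L) (p : ℝ[X]) :
    aeval t p ∈ L := by
  have := (aeval (⟨t, ht⟩ : L) p).2
  have h2 : ((aeval (⟨t, ht⟩ : L) p : L) : K) = aeval t p := by
    have := aeval_algebraMap_apply K (⟨t, ht⟩ : L) p
    simpa using this.symm
  rwa [← h2]

lemma mem_gens_t (t : K) {r : ℕ} {P : Type} (y : P → Ix r → K) :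
    t ∈ IntermediateField.adjoin ℝ (gens t y) :=
  IntermediateField.subset_adjoin _ _ (Set.mem_insert _ _)

lemma mem_gens_y (t : K) {r : ℕ} {P : Type} (y : P → Ix r → K) (j : P) (i : Ix r) :
    y j i ∈ IntermediateField.adjoin ℝ (gens t y) :=
  IntermediateField.subset_adjoin _ _ (Set.mem_insert_of_mem _ ⟨j, i, rfl⟩)

lemma gens_top_of {t : K} {r r' : ℕ} {P P' : Type} {y : P → Ix r → K} {y' : P' → Ix r' → K}
    (h : IntermediateField.adjoin ℝ (gens t y) = ⊤)
    (hy : ∀ j i, y j i ∈ IntermediateField.adjoin ℝ (gens t y')) :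
    IntermediateField.adjoin ℝ (gens t y') = ⊤ := by
  refine adjoin_top_of_mem h ?_
  rintro z (rfl | ⟨j, i, rfl⟩)
  · exact mem_gens_t _ _
  · exact hy j i

omit [Algebra ℝ K] in
lemma sum_split {P : Type} [Fintype P] [DecidableEq P] {i j : P} (hij : i ≠ j) (g : P → K) :
    ∑ k, g k = g i + g j + ∑ k ∈ (Finset.univ.erase i).erase j, g k := by
  rw [← Finset.add_sum_erase Finset.univ g (Finset.mem_univ i),
    ← Finset.add_sum_erase (Finset.univ.erase i) g (Finset.mem_erase.2 ⟨hij.symm,
      Finset.mem_univ j⟩)]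
  ring

/-- Local move between two positions different from the base position. -/
lemma StAt.move {t : K} (ht : Trans t) {r : ℕ} {P : Type} [Fintype P] [DecidableEq P]
    {h : P → ℝ[X]} {p i j : P} (hst : StAt t r h p) (hip : i ≠ p) (hjp : j ≠ p) (hij : i ≠ j)
    {c x y z : ℝ[X]} (hc : c ≠ 0) (hz : z ≠ 0)
    (hxyz : h i * x ^ 2 + h j * y ^ 2 = c * z ^ 2) :
    StAt t r (Function.update (Function.update h i c) j (h i * h j * c)) p := by
  obtain ⟨v, hv1, hv2, hv3⟩ := hst
  have hc' := ht c hc
  have hz' := ht z hz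
  have hrel := congrArg (aeval t) hxyz
  simp only [map_add, map_mul, map_pow] at hrel
  set Hi := aeval t (h i) with hHi
  set Hj := aeval t (h j) with hHj
  set cK := aeval t c with hcK
  set X' := aeval t x with hX
  set Y' := aeval t y with hY
  set Z' := aeval t z with hZ
  set u : Ix r → K := fun a => (Hi * X' * v i a + Hj * Y' * v j a) / (cK * Z') with hu
  set w : Ix r → K := fun a => (X' * v j a - Y' * v i a) / (cK * Z') with hw
  have hinv1 : ∀ a, v i a = (X' * u a - Hj * Y' * w a) / Z' := by
    intro a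
    simp only [hu, hw]
    field_simp
    linear_combination (-(v i a)) * hrel
  have hinv2 : ∀ a, v j a = (Y' * u a + Hi * X' * w a) / Z' := by
    intro a
    simp only [hu, hw]
    field_simp
    linear_combination (-(v j a)) * hrel
  refine ⟨Function.update (Function.update v i u) j w, ?_, ?_, ?_⟩
  · rw [Function.update_of_ne hjp.symm, Function.update_of_ne hip.symm]
    exact hv1
  · rw [sum_split hij] at hv2 ⊢
    have e1 : ∀ k ∈ (Finset.univ.erase i).erase j,
        aeval t (Function.update (Function.update h i c) j (h i * h j * c) k) *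
          nn (Function.update (Function.update v i u) j w k) = aeval t (h k) * nn (v k) := by
      intro k hk
      rw [Finset.mem_erase, Finset.mem_erase] at hk
      rw [Function.update_of_ne hk.1, Function.update_of_ne hk.2.1, Function.update_of_ne hk.1,
        Function.update_of_ne hk.2.1]
    rw [Finset.sum_congr rfl e1]
    simp only [Function.update_self, Function.update_of_ne hij]
    rw [← hv2]
    congr 1
    rw [map_mul, map_mul, ← hHi, ← hHj, ← hcK]
    simp only [nn, Finset.mul_sum, ← Finset.sum_add_distrib]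
    refine Finset.sum_congr rfl fun a _ => ?_
    simp only [hu, hw]
    field_simp
    linear_combination (Hi * v i a ^ 2 + Hj * v j a ^ 2) * hrel
  · refine gens_top_of hv3 ?_
    intro k a
    set L := IntermediateField.adjoin ℝ (gens t (Function.update (Function.update v i u) j w))
      with hL
    have htL : t ∈ L := mem_gens_t _ _
    have hyL : ∀ k a, Function.update (Function.update v i u) j w k a ∈ L := mem_gens_y _ _
    have huL : ∀ a, u a ∈ L := by
      intro a
      have := hyL i a
      rwa [Function.update_of_ne hij, Function.update_self] at this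
    have hwL : ∀ a, w a ∈ L := by
      intro a
      have := hyL j a
      rwa [Function.update_self] at this
    by_cases hki : k = i
    · rw [hki, hinv1 a]
      exact L.div_mem (L.sub_mem (L.mul_mem (aeval_mem_field L htL _) (huL a))
        (L.mul_mem (L.mul_mem (aeval_mem_field L htL _) (aeval_mem_field L htL _)) (hwL a)))
        (aeval_mem_field L htL _)
    · by_cases hkj : k = j
      · rw [hkj, hinv2 a]
        exact L.div_mem (L.add_mem (L.mul_mem (aeval_mem_field L htL _) (huL a))
          (L.mul_mem (L.mul_mem (aeval_mem_field L htL _) (aeval_mem_field L htL _)) (hwL a)))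
          (aeval_mem_field L htL _)
      · have := hyL k a
        rwa [Function.update_of_ne hkj, Function.update_of_ne hki] at this

/-- Rescaling all coefficients. -/
lemma StAt.scale {t : K} (ht : Trans t) {r : ℕ} {P : Type} [Fintype P] {h h' : P → ℝ[X]} {p : P}
    (hst : StAt t r h p) {d e : ℝ[X]} (he : e ≠ 0) (hde : ∀ j, e * h' j = d * h j) :
    StAt t r h' p := by
  obtain ⟨v, hv1, hv2, hv3⟩ := hst
  refine ⟨v, hv1, ?_, hv3⟩
  have h1 : aeval t e * ∑ j, aeval t (h' j) * nn (v j) =
      aeval t d * ∑ j, aeval t (h j) * nn (v j) := by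
    rw [Finset.mul_sum, Finset.mul_sum]
    refine Finset.sum_congr rfl fun j _ => ?_
    have := congrArg (aeval t) (hde j)
    rw [map_mul, map_mul] at this
    linear_combination nn (v j) * this
  rw [hv2, mul_zero] at h1
  exact (mul_eq_zero.1 h1).resolve_left (ht e he)

/-- The sum of `2 ^ r` squares is anisotropic. -/
def Aniso (K : Type) [Field K] (r : ℕ) : Prop := ∀ v : Ix r → K, nn v = 0 → v = 0

omit [Algebra ℝ K] in
lemma FReal.aniso (hK : FReal K) (r : ℕ) : Aniso K r := fun v hv => hK (Ix r) v hv

omit [Algebra ℝ K] in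
lemma aniso_zero : Aniso K 0 := by
  intro v hv
  funext i
  have h1 : nn v = v i ^ 2 := by
    show ∑ _i : Unit, _ = _
    simp only [Finset.univ_unique, Finset.sum_singleton]
    rfl
  rw [h1] at hv
  exact pow_eq_zero_iff (two_ne_zero) |>.1 hv

/-- The vectors at the other positions are not isotropic. -/
lemma nn_ne_zero {r : ℕ} (hK : Aniso K r) {t : K} {P : Type} [Fintype P] [DecidableEq P]
    {h : P → ℝ[X]} {p q : P} (hqp : q ≠ p) (hh : h p ≠ 0)
    (hd : ((2 ^ r * (Fintype.card P - 1) : ℕ) : Cardinal) ≤ Algebra.trdeg ℝ K)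
    {y : P → Ix r → K} (hy1 : y p = unitV K r) (hy2 : ∑ j, aeval t (h j) * nn (y j) = 0)
    (hy3 : IntermediateField.adjoin ℝ (gens t y) = ⊤) : nn (y q) ≠ 0 := by
  intro h0
  have hyq : y q = 0 := hK (y q) h0
  -- the remaining generators
  let Q := {j : P // j ≠ p ∧ j ≠ q}
  let z : Option (Q × Ix r) → K := fun o => o.elim t (fun a => y a.1.1 a.2)
  have hcardQ : Fintype.card Q + 2 = Fintype.card P := by
    have h1 : Fintype.card Q = ((Finset.univ.erase p).erase q).card := by
      rw [Fintype.card_subtype]
      congr 1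
      ext j
      simp [and_comm]
    rw [h1, Finset.card_erase_of_mem (Finset.mem_erase.2 ⟨hqp, Finset.mem_univ _⟩),
      Finset.card_erase_of_mem (Finset.mem_univ _), Finset.card_univ]
    have : 2 ≤ Fintype.card P := by
      have : 1 < Fintype.card P := Fintype.one_lt_card_iff.2 ⟨q, p, hqp⟩
      omega
    omega
  have hztop : IntermediateField.adjoin ℝ (Set.range z) = ⊤ := by
    refine adjoin_top_of_mem hy3 ?_
    rintro w (rfl | ⟨j, i, rfl⟩)
    · exact IntermediateField.subset_adjoin _ _ ⟨none, rfl⟩
    · by_cases hjp : j = p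
      · rw [hjp, hy1]
        have : ∀ (r : ℕ) (i : Ix r), unitV K r i = 0 ∨ unitV K r i = 1 := by
          intro r
          induction r with
          | zero => intro i; exact Or.inr rfl
          | succ r ih =>
            rintro (i | i)
            · exact ih i
            · exact Or.inl rfl
        rcases this r i with h1 | h1
        · rw [h1]; exact zero_mem _
        · rw [h1]; exact one_mem _
      · by_cases hjq : j = q
        · rw [hjq, hyq]; exact zero_mem _
        · exact IntermediateField.subset_adjoin _ _ ⟨some (⟨j, hjp, hjq⟩, i), rfl⟩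
  have hind : AlgebraicIndependent ℝ z := by
    refine algInd_of_adjoin_top z hztop ?_
    refine le_trans ?_ hd
    norm_cast
    rw [Fintype.card_option, Fintype.card_prod, card_Ix]
    have h1 : 1 ≤ 2 ^ r := Nat.one_le_two_pow
    have h2 : Fintype.card P - 1 = Fintype.card Q + 1 := by omega
    rw [h2]
    nlinarith
  -- the relation
  let F : MvPolynomial (Option (Q × Ix r)) ℝ :=
    aeval (MvPolynomial.X none) (h p) + ∑ j : Q, aeval (MvPolynomial.X none) (h j.1) *
      ∑ i : Ix r, (MvPolynomial.X (some (j, i))) ^ 2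
  have hF : MvPolynomial.aeval z F = 0 := by
    have hcomp : ∀ g : ℝ[X], MvPolynomial.aeval z
        (aeval (MvPolynomial.X none : MvPolynomial (Option (Q × Ix r)) ℝ) g) = aeval t g := by
      intro g
      rw [← aeval_algHom_apply, MvPolynomial.aeval_X]
      rfl
    simp only [F, map_add, map_sum, map_mul, map_pow, hcomp, MvPolynomial.aeval_X]
    rw [sum_split hqp, hy1, nn_unitV, hyq] at hy2
    have h1 : nn (0 : Ix r → K) = 0 := by simp [nn]
    rw [h1] at hy2
    have h2 : ∑ j : Q, aeval t (h j.1) * ∑ i : Ix r, z (some (j, i)) ^ 2 =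
        ∑ k ∈ (Finset.univ.erase q).erase p, aeval t (h k) * nn (y k) := by
      symm
      refine Finset.sum_subtype _ ?_ _
      intro k
      simp
    rw [h2]
    linear_combination hy2
  have hF0 : F = 0 := (algebraicIndependent_iff_injective_aeval.1 hind) (by rw [hF, map_zero])
  have := congrArg (MvPolynomial.aeval (fun o : Option (Q × Ix r) =>
    o.elim (Polynomial.X : ℝ[X]) (fun _ => 0))) hF0
  have hcomp2 : ∀ g : ℝ[X], MvPolynomial.aeval (fun o : Option (Q × Ix r) =>
      o.elim (Polynomial.X : ℝ[X]) (fun _ => 0))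
      (aeval (MvPolynomial.X none : MvPolynomial (Option (Q × Ix r)) ℝ) g) = g := by
    intro g
    rw [← aeval_algHom_apply, MvPolynomial.aeval_X]
    exact aeval_X_left_apply g
  simp only [F, map_add, map_sum, map_mul, map_pow, hcomp2, MvPolynomial.aeval_X, map_zero] at this
  apply hh
  simpa using this

/-- Change of the base position. -/
lemma StAt.swap {r : ℕ} (hK : Aniso K r) {t : K} {P : Type} [Fintype P] [DecidableEq P]
    {h : P → ℝ[X]} {p q : P} (hst : StAt t r h p) (hh : h p ≠ 0)
    (hd : ((2 ^ r * (Fintype.card P - 1) : ℕ) : Cardinal) ≤ Algebra.trdeg ℝ K) :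
    StAt t r h q := by
  by_cases hqp : q = p
  · rwa [hqp]
  obtain ⟨y, hy1, hy2, hy3⟩ := hst
  have hN := nn_ne_zero hK hqp hh hd hy1 hy2 hy3
  set N := nn (y q) with hNdef
  obtain ⟨S, hS1, hS2, hS3⟩ := pfister (IntermediateField.adjoin ℝ (Set.range (y q))).toSubfield r
    (y q) (fun i => IntermediateField.subset_adjoin _ _ ⟨i, rfl⟩)
  rw [← hNdef] at hS1 hS2
  have hSt : S.transpose.transpose * S.transpose = N • (1 : Matrix (Ix r) (Ix r) K) := by
    rw [Matrix.transpose_transpose]; exact hS2
  set y' : P → Ix r → K := fun j => if j = p then (fun i => N⁻¹ * y q i) else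
    if j = q then unitV K r else (fun i => N⁻¹ * (Matrix.mulVec S.transpose (y j)) i) with hy'
  have hyp' : y' p = fun i => N⁻¹ * y q i := by simp only [hy', if_pos]
  have hyq' : y' q = unitV K r := by simp only [hy', if_neg hqp, if_pos]
  have hyj' : ∀ j, j ≠ p → j ≠ q → y' j = fun i => N⁻¹ * (Matrix.mulVec S.transpose (y j)) i := by
    intro j h1 h2
    simp only [hy', if_neg h1, if_neg h2]
  have hnn : ∀ j, nn (y' j) = N⁻¹ * nn (y j) := by
    intro j
    by_cases h1 : j = p
    · rw [h1, hyp', nn_smul, hy1, nn_unitV, ← hNdef]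
      field_simp
    · by_cases h2 : j = q
      · rw [h2, hyq', nn_unitV, ← hNdef, inv_mul_cancel₀ hN]
      · rw [hyj' j h1 h2, nn_smul, nn_mulVec hSt]
        field_simp
  refine ⟨y', hyq', ?_, ?_⟩
  · have : ∑ j, aeval t (h j) * nn (y' j) = N⁻¹ * ∑ j, aeval t (h j) * nn (y j) := by
      rw [Finset.mul_sum]
      refine Finset.sum_congr rfl fun j _ => ?_
      rw [hnn]; ring
    rw [this, hy2, mul_zero]
  · refine gens_top_of hy3 ?_
    set L := IntermediateField.adjoin ℝ (gens t y') with hL
    have hyL : ∀ j i, y' j i ∈ L := mem_gens_y _ _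
    have hnL : ∀ j, nn (y' j) ∈ L := fun j => L.sum_mem fun i _ => pow_mem (hyL j i) 2
    have hNL : N ∈ L := by
      have h1 := hnL p
      rw [hnn p, hy1, nn_unitV, mul_one] at h1
      have h2 := L.inv_mem h1
      rwa [inv_inv] at h2
    have hyqL : ∀ i, y q i ∈ L := by
      intro i
      have h1 := L.mul_mem hNL (hyL p i)
      rw [hyp'] at h1
      simp only at h1
      rwa [mul_inv_cancel_left₀ hN] at h1
    have hSL : ∀ i j, S i j ∈ L := by
      intro i j
      have h1 : IntermediateField.adjoin ℝ (Set.range (y q)) ≤ L := by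
        rw [IntermediateField.adjoin_le_iff]
        rintro w ⟨i, rfl⟩
        exact hyqL i
      exact h1 (hS3 i j)
    intro j i
    by_cases h1 : j = p
    · have : y j i = y' q i := by rw [h1, hy1, hyq']
      rw [this]; exact hyL q i
    · by_cases h2 : j = q
      · rw [h2]; exact hyqL i
      · have h3 : y j = Matrix.mulVec S (y' j) := by
          rw [hyj' j h1 h2]
          have h4 : (fun i => N⁻¹ * (Matrix.mulVec S.transpose (y j)) i) =
              N⁻¹ • (Matrix.mulVec S.transpose (y j)) := by
            funext i; rfl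
          rw [h4, Matrix.mulVec_smul, Matrix.mulVec_mulVec, hS2, Matrix.smul_mulVec,
            Matrix.one_mulVec, smul_smul, inv_mul_cancel₀ hN, one_smul]
        rw [h3]
        simp only [Matrix.mulVec, dotProduct]
        exact L.sum_mem fun k _ => L.mul_mem (hSL i k) (hyL j k)

/-- Rescaling one coefficient by a sum of two squares, for `r ≥ 1`. -/
lemma StAt.scale_one {t : K} (ht : Trans t) {r : ℕ} {P : Type} [Fintype P] [DecidableEq P]
    {h : P → ℝ[X]} {p j : P} (hst : StAt t (r + 1) h p) (hjp : j ≠ p)
    {g x y z : ℝ[X]} (hz : z ≠ 0) (hxy : x ^ 2 + y ^ 2 ≠ 0)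
    (hxyz : h j * z ^ 2 = g * (x ^ 2 + y ^ 2)) :
    StAt t (r + 1) (Function.update h j g) p := by
  obtain ⟨v, hv1, hv2, hv3⟩ := hst
  have hz' := ht z hz
  have hxy' := ht _ hxy
  have hrel := congrArg (aeval t) hxyz
  simp only [map_add, map_mul, map_pow] at hrel hxy'
  set X' := aeval t x with hX
  set Y' := aeval t y with hY
  set Z' := aeval t z with hZ
  set G := aeval t g with hG
  set w : Ix (r + 1) → K := fun a => Sum.elim
    (fun i : Ix r => (X' * v j (Sum.inl i) - Y' * v j (Sum.inr i)) / Z')
    (fun i : Ix r => (Y' * v j (Sum.inl i) + X' * v j (Sum.inr i)) / Z') a with hw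
  have hwl : ∀ i : Ix r, w (Sum.inl i) = (X' * v j (Sum.inl i) - Y' * v j (Sum.inr i)) / Z' :=
    fun i => rfl
  have hwr : ∀ i : Ix r, w (Sum.inr i) = (Y' * v j (Sum.inl i) + X' * v j (Sum.inr i)) / Z' :=
    fun i => rfl
  have hnn : G * nn w = aeval t (h j) * nn (v j) := by
    have h1 : nn w * Z' ^ 2 = (X' ^ 2 + Y' ^ 2) * nn (v j) := by
      rw [nn_succ, nn_succ]
      simp only [hwl, hwr]
      simp only [nn]
      rw [← Finset.sum_add_distrib, ← Finset.sum_add_distrib, Finset.mul_sum, Finset.sum_mul]
      refine Finset.sum_congr rfl fun i _ => ?_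
      field_simp
      ring
    have h2 : (G * nn w) * Z' ^ 2 = (aeval t (h j) * nn (v j)) * Z' ^ 2 := by
      linear_combination G * h1 - nn (v j) * hrel
    exact mul_right_cancel₀ (pow_ne_zero 2 hz') h2
  refine ⟨Function.update v j w, ?_, ?_, ?_⟩
  · rw [Function.update_of_ne hjp.symm]; exact hv1
  · rw [← hv2]
    refine Finset.sum_congr rfl fun k _ => ?_
    by_cases hk : k = j
    · rw [hk, Function.update_self, Function.update_self, ← hG, hnn]
    · rw [Function.update_of_ne hk, Function.update_of_ne hk]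
  · refine gens_top_of hv3 ?_
    set L := IntermediateField.adjoin ℝ (gens t (Function.update v j w)) with hL
    have htL : t ∈ L := mem_gens_t _ _
    have hyL : ∀ k a, Function.update v j w k a ∈ L := mem_gens_y _ _
    have hwL : ∀ a, w a ∈ L := by
      intro a
      have := hyL j a
      rwa [Function.update_self] at this
    intro k a
    by_cases hk : k = j
    · subst hk
      have hX'L : X' ∈ L := aeval_mem_field L htL _
      have hY'L : Y' ∈ L := aeval_mem_field L htL _
      have hZ'L : Z' ∈ L := aeval_mem_field L htL _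
      rcases a with a | a
      · have h1 : v k (Sum.inl a) = (X' * w (Sum.inl a) + Y' * w (Sum.inr a)) * Z' /
            (X' ^ 2 + Y' ^ 2) := by
          rw [hwl, hwr]
          field_simp
          ring
        rw [h1]
        exact L.div_mem (L.mul_mem (L.add_mem (L.mul_mem hX'L (hwL _)) (L.mul_mem hY'L (hwL _)))
          hZ'L) (L.add_mem (pow_mem hX'L 2) (pow_mem hY'L 2))
      · have h1 : v k (Sum.inr a) = (X' * w (Sum.inr a) - Y' * w (Sum.inl a)) * Z' /
            (X' ^ 2 + Y' ^ 2) := by
          rw [hwl, hwr]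
          field_simp
          ring
        rw [h1]
        exact L.div_mem (L.mul_mem (L.sub_mem (L.mul_mem hX'L (hwL _)) (L.mul_mem hY'L (hwL _)))
          hZ'L) (L.add_mem (pow_mem hX'L 2) (pow_mem hY'L 2))
    · have := hyL k a
      rwa [Function.update_of_ne hk] at this

/-- Merging equal pairs of coefficients doubles the size of the blocks. -/
lemma StAt.merge {t : K} {r : ℕ} {Q : Type} [Fintype Q] {h : Option (Q × Bool) → ℝ[X]}
    (hst : StAt t r h none) (τ : Q → ℝ[X]) (hτ : ∀ q b, h (some (q, b)) = τ q) :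
    StAt t (r + 1) (fun o : Option Q => o.elim (h none) τ) none := by
  obtain ⟨v, hv1, hv2, hv3⟩ := hst
  set w : Option Q → Ix (r + 1) → K := fun o => o.elim (unitV K (r + 1))
    (fun q a => Sum.elim (v (some (q, false))) (v (some (q, true))) a) with hw
  have hws : ∀ q, nn (w (some q)) = nn (v (some (q, false))) + nn (v (some (q, true))) := by
    intro q
    exact nn_succ r (w (some q))
  have hwn : w none = unitV K (r + 1) := rfl
  refine ⟨w, rfl, ?_, ?_⟩
  · rw [Fintype.sum_option] at hv2 ⊢
    rw [hwn, nn_unitV]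
    rw [hv1, nn_unitV] at hv2
    rw [← hv2]
    congr 1
    rw [Fintype.sum_prod_type]
    refine Finset.sum_congr rfl fun q _ => ?_
    rw [hws, Fintype.sum_bool, hτ, hτ]
    show aeval t (τ q) * _ = _
    ring
  · refine gens_top_of hv3 ?_
    set L := IntermediateField.adjoin ℝ (gens t w) with hL
    have hyL : ∀ k a, w k a ∈ L := mem_gens_y _ _
    rintro (_ | ⟨q, _ | _⟩) a
    · rw [hv1]
      exact hyL none (Sum.inl a : Ix r ⊕ Ix r)
    · exact hyL (some q) (Sum.inl a : Ix r ⊕ Ix r)
    · exact hyL (some q) (Sum.inr a : Ix r ⊕ Ix r)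

/-- Reindexing. -/
lemma StAt.reindex {t : K} {r : ℕ} {P P' : Type} [Fintype P] [Fintype P'] {h : P → ℝ[X]} {p : P}
    (hst : StAt t r h p) (e : P' ≃ P) : StAt t r (h ∘ e) (e.symm p) := by
  obtain ⟨v, hv1, hv2, hv3⟩ := hst
  refine ⟨v ∘ e, by simpa using hv1, ?_, ?_⟩
  · rw [← hv2]
    exact Fintype.sum_equiv e _ _ (fun x => rfl)
  · refine gens_top_of hv3 ?_
    intro j a
    have := mem_gens_y t (v ∘ e) (e.symm j) a
    simpa using this

/-- When all coefficients are linear with leading coefficient one, the field is rational. -/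
lemma StAt.rational (hK : FReal K) {t : K} {r : ℕ} {P : Type} [Fintype P] [DecidableEq P]
    {h : P → ℝ[X]} {p : P} (hst : StAt t r h p) (b : P → ℝ) (hb : ∀ j, h j = X - C (b j))
    (hd : ((2 ^ r * (Fintype.card P - 1) : ℕ) : Cardinal) ≤ Algebra.trdeg ℝ K) :
    Nonempty (K ≃ₐ[ℝ] FractionRing (MvPolynomial (Fin (2 ^ r * (Fintype.card P - 1))) ℝ)) := by
  obtain ⟨v, hv1, hv2, hv3⟩ := hst
  refine rational_fin (fun a : {j : P // j ≠ p} × Ix r => v a.1.1 a.2) ?_ ?_ hd
  · refine adjoin_top_of_mem hv3 ?_
    set L := IntermediateField.adjoin ℝ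
      (Set.range (fun a : {j : P // j ≠ p} × Ix r => v a.1.1 a.2)) with hL
    have hvL : ∀ j i, v j i ∈ L := by
      intro j i
      by_cases hjp : j = p
      · rw [hjp, hv1]
        have : ∀ (r : ℕ) (i : Ix r), unitV K r i = 0 ∨ unitV K r i = 1 := by
          intro r
          induction r with
          | zero => intro i; exact Or.inr rfl
          | succ r ih =>
            rintro (i | i)
            · exact ih i
            · exact Or.inl rfl
        rcases this r i with h1 | h1
        · rw [h1]; exact zero_mem _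
        · rw [h1]; exact one_mem _
      · exact IntermediateField.subset_adjoin _ _ ⟨(⟨j, hjp⟩, i), rfl⟩
    have hnL : ∀ j, nn (v j) ∈ L := fun j => L.sum_mem fun i _ => pow_mem (hvL j i) 2
    rintro w (rfl | ⟨j, i, rfl⟩)
    · have h1 : w * ∑ j, nn (v j) = ∑ j, algebraMap ℝ K (b j) * nn (v j) := by
        have h2 : ∑ j, aeval w (h j) * nn (v j) =
            w * (∑ j, nn (v j)) - ∑ j, algebraMap ℝ K (b j) * nn (v j) := by
          rw [Finset.mul_sum, ← Finset.sum_sub_distrib]
          refine Finset.sum_congr rfl fun j _ => ?_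
          rw [hb j, map_sub, aeval_X, aeval_C]
          ring
        rw [h2] at hv2
        linear_combination hv2
      have hne : ∑ j, nn (v j) ≠ 0 := by
        intro h0
        have h2 : ∑ a : P × Ix r, (v a.1 a.2) ^ 2 = 0 := by
          rw [Fintype.sum_prod_type]; exact h0
        have h3 := hK (P × Ix r) (fun a => v a.1 a.2) h2
        have h4 : v p = 0 := by
          funext i
          exact congrFun h3 (p, i)
        rw [hv1] at h4
        have h5 := nn_unitV (K := K) r
        rw [h4] at h5
        simp [nn] at h5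
      have h2 : w = (∑ j, algebraMap ℝ K (b j) * nn (v j)) / ∑ j, nn (v j) := by
        field_simp
        linear_combination h1
      rw [h2]
      refine L.div_mem (L.sum_mem fun j _ => L.mul_mem (L.algebraMap_mem _) (hnL j))
        (L.sum_mem fun j _ => hnL j)
    · exact hvL j i
  · rw [Fintype.card_prod, card_Ix]
    have : Fintype.card {j : P // j ≠ p} = Fintype.card P - 1 := by
      rw [Fintype.card_subtype_compl, Fintype.card_subtype_eq]
    rw [this, mul_comm]

end MP_d2f638_ag
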