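import Mathlib

/-!
# Ternary quadratic forms over the real polynomial ring (Witt)

If `a`, `b` are nonzero real polynomials and at almost every real point one of them is
positive, then `a x ^ 2 + b y ^ 2 = z ^ 2` has a solution in real polynomials with `z ≠ 0`.
The proof is a Legendre descent on degrees.
-/

namespace MP_d2f638_ag

open Polynomial Filter

/-- Solvability of `a x ^ 2 + b y ^ 2 = z ^ 2` with `z ≠ 0`. -/
def Solv (a b : ℝ[X]) : Prop := ∃ x y z : ℝ[X], z ≠ 0 ∧ a * x ^ 2 + b * y ^ 2 = z ^ 2

/-- At almost every real point one of the two polynomials is positive. -/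
def PosOr (a b : ℝ[X]) : Prop := ∀ᶠ t in (cofinite : Filter ℝ), 0 < a.eval t ∨ 0 < b.eval t

lemma Solv.symm {a b : ℝ[X]} (h : Solv a b) : Solv b a := by
  obtain ⟨x, y, z, hz, h⟩ := h
  exact ⟨y, x, z, hz, by rw [← h]; ring⟩

lemma PosOr.symm {a b : ℝ[X]} (h : PosOr a b) : PosOr b a := by
  filter_upwards [h] with t ht using ht.symm

/-- A nontrivial solution can be made to have `z ≠ 0`. -/
lemma solv_of_nontrivial {a b : ℝ[X]} (ha : a ≠ 0) (hb : b ≠ 0) {x y z : ℝ[X]}
    (hne : x ≠ 0 ∨ y ≠ 0 ∨ z ≠ 0) (h : a * x ^ 2 + b * y ^ 2 = z ^ 2) : Solv a b := by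
  by_cases hz : z = 0
  · have hx : x ≠ 0 := by
      rintro rfl
      rcases hne with h1 | h1 | h1
      · exact h1 rfl
      · rw [hz] at h
        have : b * y ^ 2 = 0 := by simpa using h
        rcases mul_eq_zero.1 this with h2 | h2
        · exact hb h2
        · exact h1 (pow_eq_zero_iff (two_ne_zero) |>.1 h2)
      · exact h1 hz
    refine ⟨x * (C (1 / 2) * (a + 1)), y * (C (1 / 2) * (a - 1)), a * x, mul_ne_zero ha hx, ?_⟩
    have h2 : b * y ^ 2 = - (a * x ^ 2) := by
      rw [hz] at h
      linear_combination h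
    have hc : (C (1 / 2 : ℝ) : ℝ[X]) * C (1 / 2) * 4 = 1 := by
      rw [← C_mul, show (4 : ℝ[X]) = C (4 : ℝ) from rfl, ← C_mul]
      norm_num
    linear_combination (C (1 / 2 : ℝ) * (a - 1)) ^ 2 * h2 + (a ^ 2 * x ^ 2) * hc
  · exact ⟨x, y, z, hz, h⟩

/-- If `b` is not divisible by an irreducible polynomial `p` of degree two with complex root `z`
then ... a square root of `a` modulo `p`. -/
lemma sqrt_mod_irreducible {p a : ℝ[X]} (hp : Irreducible p)
    (hroot : ∀ e : ℝ, p.IsRoot e → 0 ≤ a.eval e) : ∃ r : ℝ[X], p ∣ r ^ 2 - a := by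
  by_cases hr : ∃ e : ℝ, p.IsRoot e
  · obtain ⟨e, he⟩ := hr
    have hass : Associated (X - C e) p := (irreducible_X_sub_C e).associated_of_dvd hp
      (dvd_iff_isRoot.2 he)
    refine ⟨C (Real.sqrt (a.eval e)), ?_⟩
    refine hass.symm.dvd.trans ?_
    rw [dvd_iff_isRoot]
    simp [IsRoot, Real.sq_sqrt (hroot e he)]
  · have hdeg : p.degree ≠ 0 := fun h => hp.not_isUnit (isUnit_iff_degree_eq_zero.2 h)
    have hdegC : (p.map (algebraMap ℝ ℂ)).degree ≠ 0 := by rwa [degree_map]
    obtain ⟨z, hz⟩ := IsAlgClosed.exists_root (p.map (algebraMap ℝ ℂ)) hdegC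
    have hz' : aeval z p = 0 := by
      rwa [IsRoot, eval_map_algebraMap] at hz
    have him : z.im ≠ 0 := by
      intro h0
      apply hr
      refine ⟨z.re, ?_⟩
      have hzr : z = (z.re : ℂ) := by
        apply Complex.ext <;> simp [h0]
      rw [hzr] at hz'
      have : ((p.eval z.re : ℝ) : ℂ) = 0 := by
        rw [← hz']
        have := aeval_algebraMap_apply ℂ z.re p
        simpa using this.symm
      exact_mod_cast this
    obtain ⟨w, hw⟩ := IsAlgClosed.exists_pow_nat_eq (aeval z a) (n := 2) (by norm_num)
    refine ⟨C (w.re - w.im / z.im * z.re) + C (w.im / z.im) * X, ?_⟩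
    have hval : aeval z (C (w.re - w.im / z.im * z.re) + C (w.im / z.im) * X : ℝ[X]) = w := by
      simp only [map_add, map_mul, aeval_C, aeval_X]
      apply Complex.ext
      · simp
      · simp [him]
    by_contra hnd
    have hcop : IsCoprime p ((C (w.re - w.im / z.im * z.re) + C (w.im / z.im) * X) ^ 2 - a) :=
      (hp.coprime_iff_not_dvd).2 hnd
    obtain ⟨u, v, huv⟩ := hcop
    have := congrArg (aeval z) huv
    rw [map_add, map_mul, map_mul, hz', map_sub, map_pow, hval, hw] at this
    simp at this

/-- Square roots modulo a squarefree polynomial. -/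
lemma sqrt_mod_squarefree {a : ℝ[X]} (b : ℝ[X]) (hb : b ≠ 0) (hsq : Squarefree b)
    (hroot : ∀ e : ℝ, b.IsRoot e → 0 ≤ a.eval e) : ∃ r : ℝ[X], b ∣ r ^ 2 - a := by
  induction b using UniqueFactorizationMonoid.induction_on_prime with
  | h₁ => exact absurd rfl hb
  | h₂ b hu => exact ⟨0, hu.dvd⟩
  | h₃ b p hb0 hp ih =>
    have hpirr : Irreducible p := hp.irreducible
    have hcop : IsCoprime p b := by
      refine (hpirr.coprime_iff_not_dvd).2 ?_
      intro hd
      have := hsq p (mul_dvd_mul_left p hd)
      exact hpirr.not_isUnit this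
    obtain ⟨r1, h1⟩ := sqrt_mod_irreducible (a := a) hpirr (fun e he => hroot e (by
      rw [IsRoot, eval_mul, he]; simp))
    obtain ⟨r2, h2⟩ := ih hb0 (hsq.squarefree_of_dvd (dvd_mul_left _ _)) (fun e he => hroot e (by
      rw [IsRoot, eval_mul, he]; simp))
    obtain ⟨u, v, huv⟩ := hcop
    -- `u p + v b = 1`
    refine ⟨r1 * (v * b) + r2 * (u * p), ?_⟩
    refine IsCoprime.mul_dvd ⟨u, v, huv⟩ ?_ ?_
    · obtain ⟨c, hc⟩ := h1
      refine ⟨c + u * (r2 - r1) * (2 * r1 + u * p * (r2 - r1)), ?_⟩
      have hv : v * b = 1 - u * p := by linear_combination huv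
      rw [hv]
      linear_combination hc
    · obtain ⟨c, hc⟩ := h2
      refine ⟨c + v * (r1 - r2) * (2 * r2 + v * b * (r1 - r2)), ?_⟩
      have hu : u * p = 1 - v * b := by linear_combination huv
      rw [hu]
      linear_combination hc

/-- At a real root `e` of a squarefree `b`, the polynomial `a` is nonnegative. -/
lemma nonneg_at_root {a b : ℝ[X]} (hsq : Squarefree b) (h : PosOr a b) (e : ℝ)
    (he : b.IsRoot e) : 0 ≤ a.eval e := by
  by_contra hneg
  rw [not_le] at hneg
  obtain ⟨b1, hb1⟩ := dvd_iff_isRoot.2 he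
  have hb1e : b1.eval e ≠ 0 := by
    intro h0
    obtain ⟨b2, hb2⟩ := dvd_iff_isRoot.2 (show b1.IsRoot e from h0)
    have : (X - C e) * (X - C e) ∣ b := ⟨b2, by rw [hb1, hb2]; ring⟩
    exact (irreducible_X_sub_C e).not_isUnit (hsq _ this)
  -- near `e`: `a < 0` and `b1` has constant sign
  have ha_near : ∀ᶠ t in nhds e, a.eval t < 0 :=
    (a.continuous.continuousAt).eventually (gt_mem_nhds hneg)
  rcases lt_or_gt_of_ne hb1e with hs | hs
  · have hb_near : ∀ᶠ t in nhds e, b1.eval t < 0 :=
      (b1.continuous.continuousAt).eventually (gt_mem_nhds hs)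
    have hboth := ha_near.and hb_near
    rw [Metric.eventually_nhds_iff] at hboth
    obtain ⟨ε, hε, hball⟩ := hboth
    have hinf : (Set.Ioo e (e + ε)).Infinite := Set.Ioo_infinite (by linarith)
    apply hinf
    refine Set.Finite.subset (show Set.Finite {t : ℝ | ¬ (0 < a.eval t ∨ 0 < b.eval t)} from h) ?_
    rintro t ⟨h1, h2⟩
    have := hball (y := t) (by rw [Real.dist_eq, abs_lt]; constructor <;> linarith)
    rw [Set.mem_ofPred_eq, not_or, not_lt, not_lt, hb1]
    refine ⟨this.1.le, ?_⟩
    rw [eval_mul, eval_sub, eval_X, eval_C]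
    nlinarith [this.2]
  · have hb_near : ∀ᶠ t in nhds e, 0 < b1.eval t :=
      (b1.continuous.continuousAt).eventually (lt_mem_nhds hs)
    have hboth := ha_near.and hb_near
    rw [Metric.eventually_nhds_iff] at hboth
    obtain ⟨ε, hε, hball⟩ := hboth
    have hinf : (Set.Ioo (e - ε) e).Infinite := Set.Ioo_infinite (by linarith)
    apply hinf
    refine Set.Finite.subset (show Set.Finite {t : ℝ | ¬ (0 < a.eval t ∨ 0 < b.eval t)} from h) ?_
    rintro t ⟨h1, h2⟩
    have := hball (y := t) (by rw [Real.dist_eq, abs_lt]; constructor <;> linarith)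
    rw [Set.mem_ofPred_eq, not_or, not_lt, not_lt, hb1]
    refine ⟨this.1.le, ?_⟩
    rw [eval_mul, eval_sub, eval_X, eval_C]
    nlinarith [this.2]

/-- A nonzero polynomial is nonzero at almost all real points. -/
lemma eventually_ne_zero {p : ℝ[X]} (hp : p ≠ 0) :
    ∀ᶠ t in (cofinite : Filter ℝ), p.eval t ≠ 0 := by
  have : Set.Finite {t : ℝ | ¬ (p.eval t ≠ 0)} := by
    refine Set.Finite.subset (p.roots.toFinset.finite_toSet) ?_
    intro t ht
    simp only [ne_eq, not_not, Set.mem_ofPred_eq] at ht
    simp [hp, ht]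
  exact this

/-- Legendre descent, the inductive statement. -/
lemma descent (N : ℕ) : ∀ a b : ℝ[X], a ≠ 0 → b ≠ 0 → a.natDegree + b.natDegree = N →
    PosOr a b → Solv a b := by
  induction N using Nat.strong_induction_on with
  | _ N ih =>
    -- first assume `deg a ≤ deg b`
    have key : ∀ a b : ℝ[X], a ≠ 0 → b ≠ 0 → a.natDegree + b.natDegree = N →
        PosOr a b → a.natDegree ≤ b.natDegree → Solv a b := by
      intro a b ha hb hN hpos hle
      by_cases hsq : Squarefree b
      · by_cases hb0 : b.natDegree = 0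
        · -- constants
          have ha0 : a.natDegree = 0 := by omega
          obtain ⟨ca, hca⟩ := natDegree_eq_zero.1 ha0
          obtain ⟨cb, hcb⟩ := natDegree_eq_zero.1 hb0
          obtain ⟨t, ht⟩ := hpos.exists
          rw [← hca, ← hcb, eval_C, eval_C] at ht
          rcases ht with h1 | h1
          · refine ⟨1, 0, C (Real.sqrt ca), ?_, ?_⟩
            · rw [Ne, C_eq_zero]
              exact (Real.sqrt_pos.2 h1).ne'
            · rw [← hca, ← C_pow, Real.sq_sqrt h1.le]; simp
          · refine ⟨0, 1, C (Real.sqrt cb), ?_, ?_⟩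
            · rw [Ne, C_eq_zero]
              exact (Real.sqrt_pos.2 h1).ne'
            · rw [← hcb, ← C_pow, Real.sq_sqrt h1.le]; simp
        · obtain ⟨r0, hr0⟩ := sqrt_mod_squarefree (a := a) b hb hsq
            (fun e he => nonneg_at_root hsq hpos e he)
          -- reduce `r0` modulo `b`
          set r := r0 % b with hrdef
          have hdvd : b ∣ r ^ 2 - a := by
            have h1 : b ∣ r0 - r := by
              refine ⟨r0 / b, ?_⟩
              have := EuclideanDomain.div_add_mod r0 b
              linear_combination -this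
            have : r ^ 2 - a = (r0 ^ 2 - a) - (r0 - r) * (r0 + r) := by ring
            rw [this]
            exact dvd_sub hr0 (Dvd.dvd.mul_right h1 _)
          have hrdeg : r.degree < b.degree := degree_mod_lt r0 hb
          obtain ⟨q, hq⟩ := hdvd
          by_cases hq0 : q = 0
          · rw [hq0, mul_zero, sub_eq_zero] at hq
            refine ⟨1, 0, r, ?_, ?_⟩
            · rintro h0
              rw [h0] at hq
              apply ha
              rw [← hq]; ring
            · rw [hq]; ring
          · have hqdeg : q.natDegree < b.natDegree := by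
              have h1 : (b * q).natDegree = b.natDegree + q.natDegree := natDegree_mul hb hq0
              have h2 : (r ^ 2 - a).natDegree ≤ max (r ^ 2).natDegree a.natDegree :=
                natDegree_sub_le _ _
              have h3 : (r ^ 2).natDegree ≤ 2 * r.natDegree := natDegree_pow_le
              have h4 : r.natDegree < b.natDegree := by
                by_cases hr : r = 0
                · rw [hr, natDegree_zero]; omega
                · exact natDegree_lt_natDegree hr hrdeg
              rw [hq, h1] at h2
              omega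
            have hposq : PosOr a q := by
              filter_upwards [hpos, eventually_ne_zero ha, eventually_ne_zero hq0] with t ht h1 h2
              by_contra hcon
              rw [not_or, not_lt, not_lt] at hcon
              have ha' : a.eval t < 0 := lt_of_le_of_ne hcon.1 h1
              have hq' : q.eval t < 0 := lt_of_le_of_ne hcon.2 h2
              have hb' : 0 < b.eval t := by
                rcases ht with h3 | h3
                · linarith
                · exact h3
              have := congrArg (eval t) hq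
              rw [eval_sub, eval_pow, eval_mul] at this
              nlinarith [sq_nonneg (r.eval t), mul_pos hb' (neg_pos.2 hq')]
            obtain ⟨x, y, z, hz, hxyz⟩ := ih (a.natDegree + q.natDegree) (by omega) a q ha hq0 rfl
              hposq
            by_cases hy : y = 0
            · refine ⟨x, 0, z, hz, ?_⟩
              rw [← hxyz, hy]; ring
            · refine solv_of_nontrivial ha hb (x := r * x + z) (y := q * y) (z := r * z + a * x)
                (Or.inr (Or.inl (mul_ne_zero hq0 hy))) ?_
              linear_combination (-(q * y ^ 2)) * hq + (r ^ 2 - a) * hxyz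
      · -- not squarefree: remove a square factor
        rw [squarefree_iff_no_irreducibles hb] at hsq
        push Not at hsq
        obtain ⟨c, hc, hcd⟩ := hsq
        obtain ⟨b', hb'⟩ := hcd
        have hb'0 : b' ≠ 0 := by
          rintro rfl
          exact hb (by rw [hb']; ring)
        have hc0 : c ≠ 0 := hc.ne_zero
        have hcdeg : 0 < c.natDegree := hc.natDegree_pos
        have hdeg : b.natDegree = c.natDegree + c.natDegree + b'.natDegree := by
          rw [hb', natDegree_mul (mul_ne_zero hc0 hc0) hb'0, natDegree_mul hc0 hc0]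
        have hpos' : PosOr a b' := by
          filter_upwards [hpos, eventually_ne_zero hc0] with t ht h1
          refine ht.imp_right ?_
          intro h2
          rw [hb', eval_mul, eval_mul] at h2
          exact (pos_iff_pos_of_mul_pos h2).1 (mul_self_pos.2 h1)
        obtain ⟨x, y, z, hz, hxyz⟩ := ih (a.natDegree + b'.natDegree) (by omega) a b' ha hb'0 rfl
          hpos'
        exact ⟨c * x, y, c * z, mul_ne_zero hc0 hz, by
          rw [hb']
          linear_combination c ^ 2 * hxyz⟩
    intro a b ha hb hN hpos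
    rcases le_total a.natDegree b.natDegree with h | h
    · exact key a b ha hb hN hpos h
    · exact (key b a hb ha (by omega) hpos.symm h).symm

/-- **Ternary Witt theorem over `ℝ[X]`.** -/
theorem ternary {a b : ℝ[X]} (ha : a ≠ 0) (hb : b ≠ 0) (h : PosOr a b) : Solv a b :=
  descent _ a b ha hb rfl h

/-- A polynomial which is positive almost everywhere is, up to a square, a sum of two
squares. -/
theorem sum_two_sq {p : ℝ[X]} (hp : p ≠ 0) (h : ∀ᶠ t in (cofinite : Filter ℝ), 0 < p.eval t) :
    ∃ x y z : ℝ[X], z ≠ 0 ∧ p * z ^ 2 = x ^ 2 + y ^ 2 := by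
  obtain ⟨x, y, z, hz, hxyz⟩ := ternary (a := p) (b := -1) hp (by simp) (by
    filter_upwards [h] with t ht using Or.inl ht)
  refine ⟨y, z, x, ?_, by linear_combination hxyz⟩
  rintro rfl
  apply hz
  have h1 : y ^ 2 + z ^ 2 = 0 := by linear_combination -hxyz
  apply Polynomial.funext
  intro t
  have h2 := congrArg (eval t) h1
  rw [eval_add, eval_pow, eval_pow, eval_zero] at h2
  rw [eval_zero]
  nlinarith [sq_nonneg (y.eval t), sq_nonneg (z.eval t)]

end MP_d2f638_ag
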