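import Pool.Agent.Lib.MP_d2f638_ag.Main

/-!
# Reindexing
-/

namespace MP_d2f638_ag

open Polynomial Filter

variable {ι : Type} [Fintype ι] [DecidableEq ι] {ι' : Type} [Fintype ι'] [DecidableEq ι']

lemma RRational.reindex {A B : Matrix ι ι ℝ} {d : ℕ} (e : ι' ≃ ι)
    (h : RRational d (A.submatrix e e) (B.submatrix e e)) : RRational d A B := by
  have h1 : ∀ M : Matrix ι ι ℝ, ((1 : Matrix ι ι ℝ).submatrix id e).transpose * M *
      (1 : Matrix ι ι ℝ).submatrix id e = M.submatrix e e := by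
    intro M
    ext i j
    simp [Matrix.mul_apply, Matrix.one_apply]
  refine RRational.change (P := (1 : Matrix ι ι ℝ).submatrix id e)
    (Q := (1 : Matrix ι ι ℝ).submatrix e id) ?_ ?_ ?_
  · rw [Matrix.submatrix_mul_equiv, Matrix.mul_one, Matrix.submatrix_id_id]
  · rw [← Matrix.submatrix_mul _ _ _ id _ Function.bijective_id, Matrix.mul_one,
      Matrix.submatrix_one_equiv]
  · rwa [h1, h1]

lemma bl_diagonal (w : ι → ℝ) (u : ι → ℝ) :
    bl (Matrix.diagonal w) u u = ∑ i, w i * u i ^ 2 := by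
  rw [bl_apply]
  refine Finset.sum_congr rfl fun i _ => ?_
  rw [Finset.sum_eq_single i]
  · rw [Matrix.diagonal_apply_eq]; ring
  · intro j _ hj
    rw [Matrix.diagonal_apply_ne _ hj.symm]; ring
  · intro hi; exact absurd (Finset.mem_univ i) hi

/-- The combined statement for reindexed matrices. -/
theorem rational_wrap {τ : Type} [Fintype τ] [DecidableEq τ] {A B : Matrix ι ι ℝ}
    (e : τ ⊕ Bool ≃ ι) {F G : Matrix τ τ ℝ} {c : Bool → ℝ}
    (hAe : A.submatrix e e = extA F) (hBe : B.submatrix e e = extB G c)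
    (hF : F.IsSymm) (hG : G.IsSymm) (hc : c false ≠ c true)
    (hpp : ∃ z, 0 < (c false - c true)⁻¹ * (c true * bl F z z - bl G z z) ∧
      0 < (c true - c false)⁻¹ * (c false * bl F z z - bl G z z))
    (hmp : ∃ z, (c false - c true)⁻¹ * (c true * bl F z z - bl G z z) < 0 ∧
      0 < (c true - c false)⁻¹ * (c false * bl F z z - bl G z z))
    (hpm : ∃ z, 0 < (c false - c true)⁻¹ * (c true * bl F z z - bl G z z) ∧
      (c true - c false)⁻¹ * (c false * bl F z z - bl G z z) < 0)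
    (hdet : (pencilX A B).det ≠ 0) {r M : ℕ} (hM : 1 ≤ M)
    (hcard : Fintype.card ι = 2 ^ (r + 1) * M + 3) {ε : ℝ → ℕ}
    (hε : ∀ᶠ s in (cofinite : Filter ℝ), negIdx (B - s • A) = ε s + 1)
    (hmono : Monotone fun s => (ε s + (2 ^ (r + 1) - 1)) / 2 ^ (r + 1))
    (hle : ∀ s, (ε s + (2 ^ (r + 1) - 1)) / 2 ^ (r + 1) ≤ M + 1)
    (h0 : ∃ s, (ε s + (2 ^ (r + 1) - 1)) / 2 ^ (r + 1) = 0)
    (h1 : ∃ s, (ε s + (2 ^ (r + 1) - 1)) / 2 ^ (r + 1) = M + 1) :
    RRational (2 ^ (r + 1) * M) A B := by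
  apply RRational.reindex e
  rw [hAe, hBe]
  refine rational_ext hF hG hc ?_ ?_ ?_ ?_ hM ?_ ?_ hmono hle h0 h1
  · simpa only [eval_sol] using hpp
  · simpa only [eval_sol] using hmp
  · simpa only [eval_sol] using hpm
  · rw [← hAe, ← hBe]
    have : pencilX (A.submatrix e e) (B.submatrix e e) = (pencilX A B).submatrix e e := rfl
    rw [this, Matrix.det_submatrix_equiv_self]
    exact hdet
  · have h2 := Fintype.card_congr e
    rw [Fintype.card_sum, Fintype.card_bool, hcard] at h2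
    omega
  · filter_upwards [hε] with s hs
    rw [← hAe, ← hBe, ← hs]
    have : B.submatrix e e - s • A.submatrix e e = (B - s • A).submatrix e e := rfl
    rw [this, negIdx_reindex]

end MP_d2f638_ag
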